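import Pool.Agent.TD7.D3

set_option autoImplicit false
set_option linter.unusedSectionVars false

namespace Pool.Agent.TD7

open Finset Pool.Agent.TD5 Pool.Agent.TD6

variable {ι V : Type*} [DecidableEq ι] [DecidableEq V] {e : ι → Finset V} {W : Finset ι}

/-- ROW D4.  A vertex of degree at least five in a minimal counterexample.  `T = rho e W v`,
`R = W \ T`, `t = T.card`.

PROOF.  (1) The components of type `FC` are absorbing (`free_f` with `FC.phi_eq`), so
`hall_lt_f` gives `kf e R ≤ t - 1` (`kf e R` is the cardinality of `(comps e R).filter (FC e)`).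
Let `s = ((cols e W) \ insert v (cols e R)).card`: `phi e W ≥ phi e R + 14 * t + 19 + 19 * s`
(`notMem_cols_rho`).  `tau e W ≤ tau e R + 1`, `h.ih R`, `h.lt`:
`phi e R + 14 * t + 19 + 19 * s < 78 + phi e R + 3 * kf e R`, so
`14 * t + 19 * s < 59 + 3 * kf e R ≤ 56 + 3 * t`, `11 * t + 19 * s < 56`, so `t = 5`, `s = 0`, and
`11 < 3 * kf e R`, `kf e R = 4`.
(2) Sums over components (`phi_comps`, `tau_comps`, `mf_comp_le`):
`phi e R + 89 = phi e W < 78 * tau e W ≤ 78 + ∑ K, 78 * tau e K`, so
`∑ phi e K + 12 ≤ ∑ 78 * tau e K ≤ ∑ (phi e K + 3 * fsp e K) = ∑ phi e K + 12`: equality for every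
component, `78 * tau e K = phi e K + 3 * fsp e K`; in particular `phi e K ≤ 78 * tau e K` and all
components are absorbing (`free_f`), so `(comps e R).card ≤ 4` by `hall_lt_f`.  As `kf e R = 4`, all
components are of type `FC` and there are four. -/
theorem deg_five (h : Mf e W) {v : V} (hv : 5 ≤ (rho e W v).card) :
    (rho e W v).card = 5 ∧ cols e W = insert v (cols e (W \ rho e W v)) ∧
      (∀ K, IsComp e (W \ rho e W v) K → FC e K) ∧
      (comps e (W \ rho e W v)).card = 4 := by
  classical
  have hne := h.hne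
  have hTne : (rho e W v).Nonempty := card_pos.1 (by omega)
  have hvW : v ∈ cols e W := by
    obtain ⟨t, ht⟩ := hTne
    exact mem_cols.2 ⟨t, (mem_rho.1 ht).1, (mem_rho.1 ht).2⟩
  have hvR : v ∉ cols e (W \ rho e W v) := notMem_cols_rho W v
  have hcard := card_sdiff_add_card_eq_card (rho_sub (e := e) W v)
  have hRne : W \ rho e W v ≠ W := by
    intro hcon
    rw [hcon] at hcard
    omega
  have hsub : insert v (cols e (W \ rho e W v)) ⊆ cols e W :=
    insert_subset hvW (cols_mono sdiff_subset)
  have hc := card_sdiff_add_card_eq_card hsub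
  rw [card_insert_of_notMem hvR] at hc
  have t1 : tau e W ≤ tau e (W \ rho e W v) + 1 := by
    have h1 := tau_union hne (W \ rho e W v) (rho e W v)
    rw [sdiff_union_of_subset (rho_sub W v)] at h1
    have h2 : tau e (rho e W v) ≤ 1 := tau_le_one (e := e) v (fun i hi => (mem_rho.1 hi).2)
    omega
  have hfree : ∀ K, IsComp e (W \ rho e W v) K → phi e K ≤ 78 * tau e K + 23 → FreeC e K := by
    intro K hK hle
    exact free_f h hK.conn (hK.sub.trans sdiff_subset) hle
  have hk : kf e (W \ rho e W v) < (rho e W v).card := by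
    unfold kf
    apply hall_lt_f h hTne
    · intro K hK
      exact mem_comps.1 (mem_filter.1 hK).1
    · intro K hK
      obtain ⟨h1, h2⟩ := mem_filter.1 hK
      apply hfree K (mem_comps.1 h1)
      have := h2.phi_eq
      omega
  have ih := h.ih (W \ rho e W v) sdiff_subset hRne
  have hlt := h.lt
  have hphi : phi e W = phi e (W \ rho e W v) + 14 * (rho e W v).card + 19 +
      19 * ((cols e W) \ insert v (cols e (W \ rho e W v))).card := by
    unfold phi
    omega
  have ht5 : (rho e W v).card = 5 := by omega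
  have hs0 : ((cols e W) \ insert v (cols e (W \ rho e W v))).card = 0 := by omega
  have hk4 : kf e (W \ rho e W v) = 4 := by omega
  have hle : ∀ K ∈ comps e (W \ rho e W v), 78 * tau e K ≤ phi e K + 3 * fsp e K := by
    intro K hK
    exact mf_comp_le h sdiff_subset hRne (mem_comps.1 hK)
  have hsum : ∑ K ∈ comps e (W \ rho e W v), (phi e K + 3 * fsp e K) ≤
      ∑ K ∈ comps e (W \ rho e W v), 78 * tau e K := by
    have h1 := phi_comps hne (W \ rho e W v)
    have h2 := tau_comps hne (W \ rho e W v)
    have h3 := kf_eq_sum (e := e) (W \ rho e W v)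
    rw [sum_add_distrib, ← mul_sum, ← mul_sum]
    omega
  have heq : ∀ K ∈ comps e (W \ rho e W v), 78 * tau e K = phi e K + 3 * fsp e K := by
    intro K hK
    by_contra hcon
    have h1 := sum_lt_sum hle ⟨K, hK, lt_of_le_of_ne (hle K hK) hcon⟩
    omega
  have hcomps : (comps e (W \ rho e W v)).card < (rho e W v).card := by
    apply hall_lt_f h hTne
    · intro K hK
      exact mem_comps.1 hK
    · intro K hK
      apply hfree K (mem_comps.1 hK)
      have := heq K hK
      omega
  have hk' := kf_eq_sum (e := e) (W \ rho e W v)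
  have hcount : ∑ K ∈ comps e (W \ rho e W v), fsp e K ≤ ∑ K ∈ comps e (W \ rho e W v), 1 :=
    sum_le_sum (fun K _ => fsp_le K)
  have hone : ∑ K ∈ comps e (W \ rho e W v), (1 : ℕ) = (comps e (W \ rho e W v)).card := by
    rw [sum_const, smul_eq_mul, mul_one]
  refine ⟨ht5, ?_, ?_, by omega⟩
  · rw [card_eq_zero, sdiff_eq_empty_iff_subset] at hs0
    exact Subset.antisymm hs0 hsub
  · intro K hK
    by_contra hF
    have h1 : ∑ K ∈ comps e (W \ rho e W v), fsp e K < ∑ K ∈ comps e (W \ rho e W v), 1 := by
      apply sum_lt_sum (fun K _ => fsp_le K)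
      refine ⟨K, mem_comps.2 hK, ?_⟩
      rw [fsp_of_not hF]
      exact Nat.one_pos
    omega

end Pool.Agent.TD7
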