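import Pool.Agent.TD7.D5

set_option autoImplicit false
set_option linter.unusedSectionVars false

namespace Pool.Agent.TD7

open Finset Pool.Agent.TD5 Pool.Agent.TD6

variable {ι V : Type*} [DecidableEq ι] [DecidableEq V] {e : ι → Finset V} {W : Finset ι}

/-- Hall's theorem with capacity two. -/
theorem d6_hall {α β : Type*} [DecidableEq α] [DecidableEq β] [Nonempty β] (T : Finset α)
    (C : Finset β) (r : α → β → Prop)
    (h : ∀ S ⊆ T, S.Nonempty → ∃ N ⊆ C, (∀ K ∈ N, ∃ s ∈ S, r s K) ∧ S.card ≤ 2 * N.card) :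
    ∃ f : α → β, (∀ t ∈ T, f t ∈ C ∧ r t (f t)) ∧
      ∀ K, (T.filter (fun t => f t = K)).card ≤ 2 := by
  classical
  let N : {t // t ∈ T} → Finset (β × Bool) := fun t => (C.filter (fun K => r t.1 K)) ×ˢ univ
  have hall : ∀ s : Finset {t // t ∈ T}, s.card ≤ (s.biUnion N).card := by
    intro s
    rcases s.eq_empty_or_nonempty with rfl | hs
    · simp
    · obtain ⟨M, hMC, hM, hc⟩ := h (s.map (Function.Embedding.subtype _))
        (by
          intro x hx
          obtain ⟨y, hy, rfl⟩ := mem_map.1 hx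
          exact y.2)
        (hs.map)
      rw [card_map] at hc
      have h3 : M ×ˢ (univ : Finset Bool) ⊆ s.biUnion N := by
        rintro ⟨K, b⟩ hKb
        rw [mem_product] at hKb
        obtain ⟨x, hx, hxK⟩ := hM K hKb.1
        obtain ⟨y, hy, rfl⟩ := mem_map.1 hx
        refine mem_biUnion.2 ⟨y, hy, ?_⟩
        change (K, b) ∈ (C.filter (fun K => r y.1 K)) ×ˢ univ
        rw [mem_product]
        exact ⟨mem_filter.2 ⟨hMC hKb.1, hxK⟩, mem_univ b⟩
      have h4 := card_le_card h3
      rw [card_product, card_univ, Fintype.card_bool] at h4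
      omega
  obtain ⟨f, hf1, hf2⟩ := (all_card_le_biUnion_card_iff_exists_injective N).1 hall
  have hf3 : ∀ t : {t // t ∈ T}, (f t).1 ∈ C ∧ r t.1 (f t).1 := by
    intro t
    have h1 : f t ∈ (C.filter (fun K => r t.1 K)) ×ˢ univ := hf2 t
    rw [mem_product, mem_filter] at h1
    exact h1.1
  refine ⟨fun t => if h : t ∈ T then (f ⟨t, h⟩).1 else Classical.arbitrary β, ?_, ?_⟩
  · intro t ht
    simp only [ht, dite_true]
    exact hf3 ⟨t, ht⟩
  · intro K
    have h1 : (T.filter (fun t => (if h : t ∈ T then (f ⟨t, h⟩).1 else Classical.arbitrary β) = K)).card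
        ≤ (univ : Finset Bool).card := by
      apply card_le_card_of_injOn (fun t => if h : t ∈ T then (f ⟨t, h⟩).2 else false)
      · intro x _
        exact mem_coe.2 (mem_univ _)
      · intro x hx y hy hxy
        obtain ⟨hx1, hx2⟩ := mem_filter.1 (mem_coe.1 hx)
        obtain ⟨hy1, hy2⟩ := mem_filter.1 (mem_coe.1 hy)
        simp only [hx1, hy1, dite_true] at hx2 hy2 hxy
        have h5 : f ⟨x, hx1⟩ = f ⟨y, hy1⟩ := Prod.ext (hx2.trans hy2.symm) hxy
        exact congrArg Subtype.val (hf1 h5)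
    rwa [card_univ, Fintype.card_bool] at h1

/-- Case A. -/
theorem d6_caseA (h : Mf e W) {v : V} (h5 : (rho e W v).card = 5)
    (hadj1 : ∀ K, IsComp e (W \ rho e W v) K → ∃ t ∈ rho e W v, ∃ x ∈ e t, x ∈ cols e K)
    (hall : ∀ K, IsComp e (W \ rho e W v) K → FC e K)
    (hc : (comps e (W \ rho e W v)).card = 4) {K1 : Finset ι}
    (hK1 : IsComp e (W \ rho e W v) K1) {S1 : Finset ι} (hS1T : S1 ⊆ rho e W v)
    (hS1 : ∀ t ∈ S1, ∀ K, IsComp e (W \ rho e W v) K → (∃ x ∈ e t, x ∈ cols e K) → K = K1)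
    (hS2 : ∀ t ∈ rho e W v, t ∉ S1 → ∃ K, IsComp e (W \ rho e W v) K ∧
      (∃ x ∈ e t, x ∈ cols e K) ∧ K ≠ K1)
    (hS3 : 3 ≤ S1.card) : False := by
  classical
  have hne := h.hne
  set T := rho e W v with hT
  set R := W \ T with hR
  have hTW : T ⊆ W := rho_sub W v
  set G := (comps e R).erase K1 with hG
  have hK1C : K1 ∈ comps e R := mem_comps.2 hK1
  have hGc : G.card = 3 := by
    have h1 := card_erase_add_one hK1C
    rw [← hG] at h1
    omega
  have hGK : ∀ K ∈ G, IsComp e R K ∧ K ≠ K1 := by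
    intro K hK
    obtain ⟨h1, h2⟩ := mem_erase.1 hK
    exact ⟨mem_comps.1 h2, h1⟩
  set Z := T \ S1 with hZ
  have hZc : Z.card + S1.card = 5 := by
    have h1 := card_sdiff_add_card_eq_card hS1T
    rw [← hZ] at h1
    omega
  choose! f hf1 hf2 hf3 using hS2
  have hcov := two_cover h.h4 (G := G) (Z := Z) (f := f) (fun K hK => hall K (hGK K hK).1)
    (fun z hz => by
      obtain ⟨hz1, hz2⟩ := mem_sdiff.1 hz
      exact ⟨mem_erase.2 ⟨hf3 z hz1 hz2, mem_comps.2 (hf1 z hz1 hz2)⟩, hf2 z hz1 hz2⟩)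
    (fun K _ => (card_filter_le _ _).trans (by omega))
  set X := K1 ∪ S1 with hX
  have hGR : G.biUnion id ⊆ R := by
    intro i hi
    obtain ⟨K, hK, hiK⟩ := mem_biUnion.1 hi
    exact (hGK K hK).1.sub hiK
  have hXW : X ⊆ W := union_subset (hK1.sub.trans sdiff_subset) (hS1T.trans hTW)
  have hsep : TD5.Sep e (G.biUnion id) X := by
    apply Sep.symm
    apply sep_biUnion
    intro K hK
    obtain ⟨hKc, hKne⟩ := hGK K hK
    apply Sep.union_left
    · exact hK1.sep hKc (Ne.symm hKne)
    · rw [sep_iff]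
      intro t ht j hj
      refine disjoint_left.2 ?_
      intro x hx hx'
      exact hKne (hS1 t ht K hKc ⟨x, hx, sub_cols hj hx'⟩)
  have hGne : G.Nonempty := card_pos.1 (by omega)
  obtain ⟨K0, hK0⟩ := hGne
  obtain ⟨hK0c, hK0ne⟩ := hGK K0 hK0
  have hZne : Z.Nonempty := by
    obtain ⟨t, ht, hx⟩ := hadj1 K0 hK0c
    refine ⟨t, mem_sdiff.2 ⟨ht, ?_⟩⟩
    intro htS
    exact hK0ne (hS1 t htS K0 hK0c hx)
  have hXne : X ≠ W := by
    intro hcon
    obtain ⟨i, hi⟩ := hK0c.ne
    have h1 : i ∈ G.biUnion id := mem_biUnion.2 ⟨K0, hK0, hi⟩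
    have h2 : i ∈ X := by
      rw [hcon]
      exact sdiff_subset (hGR h1)
    exact disjoint_left.1 (hsep.disj hne) h1 h2
  have hih := h.ih X hXW hXne
  have hXc : X.card ≤ 12 := by
    have h1 := card_union_le K1 S1
    rw [← hX] at h1
    have h2 := (hall K1 hK1).1
    have h3 := card_le_card hS1T
    omega
  have hkf : kf e X ≤ 1 := by
    unfold kf
    rw [card_le_one]
    intro P hP P' hP'
    by_contra hcon
    obtain ⟨h1, h2⟩ := mem_filter.1 hP
    obtain ⟨h1', h2'⟩ := mem_filter.1 hP'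
    rw [mem_comps] at h1 h1'
    have h3 := (h1.sep h1' hcon).disj hne
    have h4 := card_le_card (union_subset h1.sub h1'.sub)
    rw [card_union_of_disjoint h3, h2.1, h2'.1] at h4
    omega
  have hphi : phi e (G.biUnion id) = 693 := by
    rw [pack_phi hne G (fun P hP P' hP' hn => (hGK P hP).1.sep (hGK P' hP').1 hn)]
    rw [sum_congr rfl (fun K hK => (hall K (hGK K hK).1).phi_eq.1), sum_const, hGc]
    rfl
  have hd1 : Disjoint (G.biUnion id) Z := by
    refine disjoint_left.2 ?_
    intro i hi hi'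
    exact (mem_sdiff.1 (hGR hi)).2 (mem_sdiff.1 hi').1
  have hd2 : Disjoint X Z := by
    refine disjoint_left.2 ?_
    intro i hi hi'
    obtain ⟨h1, h2⟩ := mem_sdiff.1 hi'
    rcases mem_union.1 hi with h3 | h3
    · exact (mem_sdiff.1 (hK1.sub h3)).2 h1
    · exact h2 h3
  have hZW : Z ⊆ W := sdiff_subset.trans hTW
  have hsplit := phi_split hne hsep (hGR.trans sdiff_subset) hXW hZW hd1 hd2
  have hsub : W ⊆ (G.biUnion id ∪ Z) ∪ X := by
    intro i hi
    by_cases hiT : i ∈ T
    · by_cases hiS : i ∈ S1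
      · exact mem_union_right _ (mem_union_right _ hiS)
      · exact mem_union_left _ (mem_union_right _ (mem_sdiff.2 ⟨hiT, hiS⟩))
    · have hiR : i ∈ R := mem_sdiff.2 ⟨hi, hiT⟩
      obtain ⟨P, hP, hiP⟩ := exists_comp (e := e) hiR
      by_cases hPK : P = K1
      · rw [hPK] at hiP
        exact mem_union_right _ (mem_union_left _ hiP)
      · exact mem_union_left _ (mem_union_left _
          (mem_biUnion.2 ⟨P, mem_erase.2 ⟨hPK, mem_comps.2 hP⟩, hiP⟩))
  have htau := tau_le_of_subset hne hsub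
  rw [hphi] at hsplit
  have hlt := h.lt
  have hZpos := card_pos.2 hZne
  omega

/-- ROW D6.  The last case.  `T = rho e W v` (five edges), `R = W \ T` has exactly four components, all
of type `FC`; `adj t K` means `∃ x ∈ e t, x ∈ cols e K`.

PROOF.  Every component `K` is adjacent to some `t ∈ T` (`comp_adj h.conn (rho_sub W v) _ hK`), and every
`t ∈ T` is adjacent to some component (`e t` has four elements, all except `v` are in `cols e R`
by `hcols`; `exists_comp`).
`phi e R = 4 * 231 = 924` (`phi_comps`, `FC.phi_eq`), `phi e W = 924 + 70 + 19 = 1013`.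
Case A: some component `K1` has `3 ≤ S1.card`, where
`S1 = T.filter (fun t => ∀ K, IsComp e R K → adj t K → K = K1)`.  Let `G = (comps e R).erase K1`
(three members), `Z = T \ S1`, `Z.card ≤ 2`; each `z ∈ Z` is adjacent to some member `f z` of `G`.
`two_cover` (row D5): `tau e (G.biUnion id ∪ Z) ≤ 9`.  Let `X = K1 ∪ S1`;
`W = (G.biUnion id ∪ Z) ∪ X`.  `Sep e (G.biUnion id) X` (different components; the edges of `S1` are
adjacent only to `K1`).  `h.ih X`, `kf e X ≤ 1` (`X.card ≤ 7 + 5 < 14`, two components of type `FC`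
would have 14 edges), `phi e (G.biUnion id) = 693` (`pack_phi`), `phi_split h.hne`:
`693 + phi e X + 14 * Z.card ≤ phi e W`; `Z` is nonempty (a member of `G` is adjacent to some
`t ∈ T`, which is not in `S1`).  So
`78 * tau e W ≤ 702 + phi e X + 3 ≤ phi e W + 12 - 14`, against `h.lt`.
Case B: every `S1` (for every component `K1`) has at most two elements.  Hall's theorem for `T` and
`comps e R ×ˢ Finset.univ (Bool)`: for `S ⊆ T` nonempty let `N` be the set of components adjacent to
some element of `S`; `S.card ≤ 2 * N.card`: if `N.card = 1` then `S ⊆ S1`, `S.card ≤ 2`; if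
`N.card = 2` and `S.card = 5` then `S = T` and `N = comps e R` has four elements; otherwise clear
(`S.card ≤ 5 ≤ 6`); `N` is nonempty.  So there is `f : T → components`, `adj t (f t)`, each
component used at most twice; `two_cover` with `G = comps e R`, `Z = T`: `tau e W ≤ 12`,
`78 * 12 = 936 < 1013 = phi e W`, against `h.lt`. -/
theorem five_false (h : Mf e W) {v : V} (h5 : (rho e W v).card = 5)
    (hcols : cols e W = insert v (cols e (W \ rho e W v)))
    (hall : ∀ K, IsComp e (W \ rho e W v) K → FC e K)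
    (hc : (comps e (W \ rho e W v)).card = 4) : False := by
  classical
  have hne := h.hne
  set T := rho e W v with hT
  set R := W \ T with hR
  have hTW : T ⊆ W := rho_sub W v
  have hTne : T.Nonempty := card_pos.1 (by omega)
  have hadj1 : ∀ K, IsComp e R K → ∃ t ∈ T, ∃ x ∈ e t, x ∈ cols e K := by
    intro K hK
    obtain ⟨x, hx, hxK⟩ := exists_col_of_not_sep (comp_adj h.conn hTW hTne hK)
    obtain ⟨t, ht, hxt⟩ := mem_cols.1 hx
    exact ⟨t, ht, x, hxt, hxK⟩
  have hadj2 : ∀ t ∈ T, ∃ K, IsComp e R K ∧ ∃ x ∈ e t, x ∈ cols e K := by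
    intro t ht
    have h1 : 1 < (e t).card := by
      rw [h.h4]
      norm_num
    obtain ⟨x, hx, hxv⟩ := exists_mem_ne h1 v
    have h2 : x ∈ cols e W := mem_cols.2 ⟨t, hTW ht, hx⟩
    rw [hcols] at h2
    have h3 := (mem_insert.1 h2).resolve_left hxv
    obtain ⟨i, hi, hxi⟩ := mem_cols.1 h3
    obtain ⟨P, hP, hiP⟩ := exists_comp (e := e) hi
    exact ⟨P, hP, x, hx, mem_cols.2 ⟨i, hiP, hxi⟩⟩
  by_cases hA : ∃ K1, IsComp e R K1 ∧
      3 ≤ (T.filter (fun t => ∀ K, IsComp e R K → (∃ x ∈ e t, x ∈ cols e K) → K = K1)).card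
  · obtain ⟨K1, hK1, h3⟩ := hA
    refine d6_caseA h h5 hadj1 hall hc hK1 (filter_subset _ _)
      (fun t ht => (mem_filter.1 ht).2) ?_ h3
    intro t ht ht'
    by_contra hcon
    push Not at hcon
    exact ht' (mem_filter.2 ⟨ht, hcon⟩)
  · push Not at hA
    obtain ⟨f, hf1, hf2⟩ := d6_hall T (comps e R) (fun t K => ∃ x ∈ e t, x ∈ cols e K) (by
      intro S hST hSne
      set N := (comps e R).filter (fun K => ∃ s ∈ S, ∃ x ∈ e s, x ∈ cols e K) with hN
      refine ⟨N, filter_subset _ _, fun K hK => (mem_filter.1 hK).2, ?_⟩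
      have hS5 := card_le_card hST
      obtain ⟨s0, hs0⟩ := hSne
      obtain ⟨K0, hK0, hK0'⟩ := hadj2 s0 (hST hs0)
      have hK0N : K0 ∈ N := mem_filter.2 ⟨mem_comps.2 hK0, s0, hs0, hK0'⟩
      have hNpos := card_pos.2 ⟨K0, hK0N⟩
      rcases Nat.lt_or_ge N.card 2 with h6 | h6
      · obtain ⟨K1, hK1⟩ := card_eq_one.1 (show N.card = 1 by omega)
        have hK01 : K0 = K1 := by
          rw [hK1, mem_singleton] at hK0N
          exact hK0N
        have h7 : S ⊆ T.filter (fun t => ∀ K, IsComp e R K →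
            (∃ x ∈ e t, x ∈ cols e K) → K = K0) := by
          intro s hs
          refine mem_filter.2 ⟨hST hs, ?_⟩
          intro K hK hK'
          have h8 : K ∈ N := mem_filter.2 ⟨mem_comps.2 hK, s, hs, hK'⟩
          rw [hK1, mem_singleton] at h8
          rw [h8, hK01]
        have h9 := card_le_card h7
        have h10 := hA K0 hK0
        omega
      · rcases Nat.lt_or_ge N.card 3 with h7 | h7
        · by_contra hcon
          have h8 : S = T := eq_of_subset_of_card_le hST (by omega)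
          have h9 : comps e R ⊆ N := by
            intro K hK
            obtain ⟨t, ht, hx⟩ := hadj1 K (mem_comps.1 hK)
            exact mem_filter.2 ⟨hK, t, by rw [h8]; exact ht, hx⟩
          have h10 := card_le_card h9
          omega
        · omega)
    have hcov := two_cover h.h4 (G := comps e R) (Z := T) (f := f)
      (fun K hK => hall K (mem_comps.1 hK)) hf1 (fun K _ => hf2 K)
    rw [biUnion_comps] at hcov
    have hW : W ⊆ R ∪ T := by
      intro i hi
      by_cases hiT : i ∈ T
      · exact mem_union_right _ hiT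
      · exact mem_union_left _ (mem_sdiff.2 ⟨hi, hiT⟩)
    have h6 := tau_mono hne hW
    have h7 : phi e R = 924 := by
      rw [phi_comps hne R]
      rw [sum_congr rfl (fun K hK => (hall K (mem_comps.1 hK)).phi_eq.1), sum_const, hc]
      rfl
    have h8 : (cols e W).card = (cols e R).card + 1 := by
      rw [hcols, card_insert_of_notMem (notMem_cols_rho W v)]
    have h9 : R.card + T.card = W.card := card_sdiff_add_card_eq_card hTW
    have h10 := h.lt
    unfold phi at h7 h10
    omega

end Pool.Agent.TD7
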