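import Pool.Agent.TD7.D1
import Pool.Agent.TD7.D4
import Pool.Agent.TD7.D6

set_option autoImplicit false
set_option linter.unusedSectionVars false

namespace Pool.Agent.TD7

open Finset Pool.Agent.TD5 Pool.Agent.TD6

variable {ι V : Type*} [DecidableEq ι] [DecidableEq V] {e : ι → Finset V} {W : Finset ι}

/-- The second hypergraph theorem. -/
theorem thmF (h4 : ∀ i, (e i).card = 4) (n : ℕ) : ∀ W : Finset ι, W.card = n →
    78 * tau e W ≤ phi e W + 3 * kf e W := by
  induction n using Nat.strong_induction_on with
  | _ n ih =>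
    intro W hn
    by_cases hD : ∀ x, (rho e W x).card ≤ 4
    · exact low_phi h4 hD
    · push Not at hD
      obtain ⟨v, hv⟩ := hD
      by_contra hcon
      push Not at hcon
      have h : Mf e W := ⟨h4, fun X hX hXW => ih X.card (by
        have := card_lt_of_ne hX hXW
        omega) X rfl, hcon⟩
      obtain ⟨h1, h2, h3, h5⟩ := deg_five h (show 5 ≤ (rho e W v).card by omega)
      exact five_false h h1 h2 h3 h5

theorem boundF (h4 : ∀ i, (e i).card = 4) (W : Finset ι) :
    78 * tau e W ≤ phi e W + 3 * kf e W := thmF h4 _ W rfl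

end Pool.Agent.TD7
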