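import Pool.Agent.TD7.DefA

set_option autoImplicit false
set_option linter.unusedSectionVars false

namespace Pool.Agent.TD7

open Finset Pool.Agent.TD5 Pool.Agent.TD6

variable {ι V : Type*} [DecidableEq ι] [DecidableEq V] {e : ι → Finset V} {W : Finset ι}

/-- ROW A1 (structure of the double triangle).  `C` has three edges, all of size 4, six vertices,
and `tau e C = 2`.

PROOF.  Write `C = {a, b, c}` (`card_eq_three`).  No vertex lies in all three edges
(otherwise `tau_le_one` gives `tau e C ≤ 1`), so every vertex of `cols e C` lies in one or two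
of them.  `sum_card` : `∑ i ∈ C, (e i).card = 12 = ∑ x ∈ cols e C, (rho e C x).card ≤ 2 * 6`, so
every `x ∈ cols e C` has `(rho e C x).card = 2` (field `deg`).  Hence for `x ∈ cols e C` there is
exactly one edge `i ∈ C` with `x ∉ e i`, and `(cols e C \ e i).card = 6 - 4 = 2`, so
`cols e C \ e i = {x, x'}`; put `par x = x'` (define `par` by choice: for `x ∈ cols e C` choose
`x' ∈ cols e C`, `x' ≠ x`, with `∀ i ∈ C, x ∉ e i → x' ∉ e i`; such `x'` exists and is unique by
the previous line).  Then `par (par x) = x` by uniqueness (`x'` misses exactly the edge `i`,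
and `x` is the other element of `cols e C \ e i`).
`cov`: if `y ≠ x`, `y ≠ par x`, and `i ∈ C` with `x ∉ e i`, then
`y ∈ cols e C \ {x, par x} = cols e C ∩ e i`.
`psi51`: all three weights are 5 (`wt_four`), `psi = 15 + 36 = 51`. -/
theorem exists_f6 {C : Finset ι} (h3 : C.card = 3) (h4 : ∀ i ∈ C, (e i).card = 4)
    (h6 : (cols e C).card = 6) (ht : tau e C = 2) : ∃ par : V → V, F6 e C par := by
  have hle2 : ∀ x ∈ cols e C, (rho e C x).card ≤ 2 := by
    intro x hx
    by_contra hcon
    have h1 : rho e C x ⊆ C := fun i hi => (mem_rho.1 hi).1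
    have h2 : rho e C x = C := eq_of_subset_of_card_le h1 (by omega)
    have h5 : tau e C ≤ 1 := by
      refine tau_le_one x fun i hi => ?_
      rw [← h2] at hi
      exact (mem_rho.1 hi).2
    omega
  have hdeg : ∀ x ∈ cols e C, (rho e C x).card = 2 := by
    have h1 := TD5.sum_card (e := e) C
    have h2 : ∑ i ∈ C, (e i).card = 12 := by
      rw [sum_congr rfl h4, sum_const, h3]
      rfl
    have h5 : ∑ x ∈ cols e C, (rho e C x).card = ∑ x ∈ cols e C, 2 := by
      rw [← h1, h2, sum_const, h6]
      rfl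
    exact (sum_eq_sum_iff_of_le hle2).1 h5
  -- the edge which misses a vertex is unique
  have huniq : ∀ x ∈ cols e C, ∀ i ∈ C, x ∉ e i → ∀ j ∈ C, x ∉ e j → i = j := by
    intro x hx i hi hxi j hj hxj
    by_contra hne
    have h1 : rho e C x ⊆ (C.erase i).erase j := by
      intro k hk
      obtain ⟨hk1, hk2⟩ := mem_rho.1 hk
      refine mem_erase.2 ⟨?_, mem_erase.2 ⟨?_, hk1⟩⟩
      · rintro rfl
        exact hxj hk2
      · rintro rfl
        exact hxi hk2
    have h2 := card_le_card h1
    rw [card_erase_of_mem (mem_erase.2 ⟨Ne.symm hne, hj⟩), card_erase_of_mem hi, h3, hdeg x hx] at h2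
    omega
  have hex : ∀ x, x ∈ cols e C → ∃ x', x' ∈ cols e C ∧ x' ≠ x ∧ ∃ i ∈ C, cols e C \ e i = {x, x'} := by
    intro x hx
    have h1 : ∃ i ∈ C, x ∉ e i := by
      by_contra hcon
      push Not at hcon
      have : tau e C ≤ 1 := tau_le_one x hcon
      omega
    obtain ⟨i, hi, hxi⟩ := h1
    have h2 : (cols e C \ e i).card = 2 := by
      have h7 := card_sdiff_add_card_eq_card (sub_cols (e := e) hi)
      have h8 := h4 i hi
      omega
    obtain ⟨a, b, hab, h9⟩ := card_eq_two.1 h2
    have h10 : x ∈ cols e C \ e i := mem_sdiff.2 ⟨hx, hxi⟩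
    rw [h9, mem_insert, mem_singleton] at h10
    rcases h10 with rfl | rfl
    · refine ⟨b, ?_, Ne.symm hab, i, hi, h9⟩
      have : b ∈ cols e C \ e i := by rw [h9]; simp
      exact (mem_sdiff.1 this).1
    · refine ⟨a, ?_, hab, i, hi, ?_⟩
      · have : a ∈ cols e C \ e i := by rw [h9]; simp
        exact (mem_sdiff.1 this).1
      · rw [h9]
        exact pair_comm a x
  choose! par hpm hpne hpi using hex
  refine ⟨par, ⟨h6, hpm, hpne, ?_⟩, h3, h4, ht, ?_, hdeg, ?_⟩
  · intro x hx
    obtain ⟨i, hi, h7⟩ := hpi x hx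
    obtain ⟨j, hj, h8⟩ := hpi (par x) (hpm x hx)
    have h9 : par x ∉ e i := by
      have : par x ∈ cols e C \ e i := by rw [h7]; simp
      exact (mem_sdiff.1 this).2
    have h10 : par x ∉ e j := by
      have : par x ∈ cols e C \ e j := by rw [h8]; simp
      exact (mem_sdiff.1 this).2
    have h11 := huniq (par x) (hpm x hx) i hi h9 j hj h10
    rw [h11, h8] at h7
    have h12 : par (par x) ∈ ({x, par x} : Finset V) := by
      rw [← h7]
      simp
    rw [mem_insert, mem_singleton] at h12
    rcases h12 with h12 | h12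
    · exact h12
    · exact absurd h12 (hpne (par x) (hpm x hx))
  · unfold psi
    have h7 : ws e C = 15 := by
      unfold ws
      rw [sum_congr rfl (fun i hi => wt_four (h4 i hi)), sum_const, h3]
      rfl
    omega
  · intro x hx y hy hyx hyp i hi
    by_contra hcon
    push Not at hcon
    obtain ⟨j, hj, h7⟩ := hpi x hx
    have h8 : x ∉ e j := by
      have : x ∈ cols e C \ e j := by rw [h7]; simp
      exact (mem_sdiff.1 this).2
    have h9 := huniq x hx i hi hcon.1 j hj h8
    have h10 : y ∈ cols e C \ e j := by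
      rw [← h9]
      exact mem_sdiff.2 ⟨hy, hcon.2⟩
    rw [h7, mem_insert, mem_singleton] at h10
    rcases h10 with h10 | h10
    · exact hyx h10
    · exact hyp h10

/-- PROOF.  `{x, y}` meets every edge of `C` (field `cov`) and of `S`; `tau_le`. -/
theorem F6.cover {C : Finset ι} {par : V → V} (hF : F6 e C par) {S : Finset ι}
    (h : CovS (cols e C) par (fun t => e t ∩ cols e C) S) : tau e (C ∪ S) ≤ 2 := by
  obtain ⟨x, hx, y, hy, hyx, hyp, hS⟩ := h
  have h1 : Hits e {x, y} (C ∪ S) := by
    intro i hi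
    rcases mem_union.1 hi with h2 | h2
    · rcases hF.cov x hx y hy hyx hyp i h2 with h3 | h3
      · exact ⟨x, by simp, h3⟩
      · exact ⟨y, by simp, h3⟩
    · rcases hS i h2 with h3 | h3
      · exact ⟨x, by simp, (mem_inter.1 h3).1⟩
      · exact ⟨y, by simp, (mem_inter.1 h3).1⟩
  exact (tau_le h1).trans card_le_two

end Pool.Agent.TD7
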