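import Pool.Agent.TD7.A5
import Pool.Agent.TD5.Sides

set_option autoImplicit false
set_option linter.unusedSectionVars false

namespace Pool.Agent.TD7

open Finset Pool.Agent.TD5 Pool.Agent.TD6

variable {ι V : Type*} [DecidableEq ι] [DecidableEq V] {e : ι → Finset V} {W : Finset ι}

/-- ROW A6.  At least two edges at `v` meet the side `P`.

PROOF.  Copy `TD5.Dec.two_adj` (file TD5/Sides.lean).  Suppose `S = adjT e W v P` has at most one
element, `X = W \ (P ∪ S)`.  `Sep e P X` (see there).  `psi_split`-type bound: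
`psi e P + psi e X + ws e S ≤ psi e W ≤ 13 * W.card + 12` (`psi_split h.hs hsep ..`), and
`psi e P ≥ 13 * P.card + 12` (`hd.s1.le_val`).  If `S = ∅` then `P` is closed in `W`, contradiction
with `h.toMx.not_closed` (`P` nonempty, `P ≠ W` by `hd.side_ne hd.s1.sub`).  If `S = {p}`: `X ≠ W`,
`h.HY`: `24 * tau e X + X.card ≤ psi e X ≤ 13 * (W.card - P.card) - 5`, `X.card = W.card - P.card - 1`,
so `2 * tau e X ≤ W.card - P.card - 1`; with `hd.adj h` (row A5, imported)
`2 * tau e (P ∪ {p}) ≤ P.card + 1` and `tau_le_of_subset` we get `2 * tau e W ≤ W.card`,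
contradiction with `h.tau_eq`. -/
theorem LDec.two_adj (h : Low e W) {v : V} {P P' : Finset ι} (hd : LDec e W v P P') :
    2 ≤ (adjT e W v P).card := by
  by_contra hlt
  push Not at hlt
  set S := adjT e W v P with hS
  have hSsub : S ⊆ rho e W v := filter_subset _ _
  have hPS : Disjoint P S := by
    refine disjoint_left.2 ?_
    intro i hi hi'
    exact (mem_sdiff.1 (hd.s1.sub hi)).2 (hSsub hi')
  have hSW : S ⊆ W := hSsub.trans (rho_sub W v)
  have hPSW : P ∪ S ⊆ W := union_subset hd.side_sub hSW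
  set X := W \ (P ∪ S) with hX
  have hsep : TD5.Sep e P X := by
    rw [sep_iff]
    intro i hi j hj
    rw [hX, mem_sdiff, mem_union, not_or] at hj
    obtain ⟨hjW, hjP, hjS⟩ := hj
    by_cases hjr : j ∈ rho e W v
    · by_contra hcon
      apply hjS
      rw [hS, mem_adjT]
      exact ⟨hjr, fun hs => hcon (sep_iff.1 hs i hi j (mem_singleton_self j))⟩
    · exact sep_iff.1 hd.s1.closed i hi j (mem_sdiff.2 ⟨mem_sdiff.2 ⟨hjW, hjr⟩, hjP⟩)
  have hXW : X ⊆ W := sdiff_subset
  have hXS : Disjoint X S := by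
    refine disjoint_left.2 ?_
    intro i hi hi'
    rw [hX, mem_sdiff, mem_union, not_or] at hi
    exact hi.2.2 hi'
  have k1 := card_sdiff_add_card_eq_card hPSW
  have k2 := card_union_of_disjoint hPS
  have k3 := psi_split h.hs hsep hd.side_sub hXW hSW hPS hXS
  have k7 := h.val_le
  have k8 := hd.s1.le_val
  have k9 := hd.s1.tau_eq
  have k10 := h.tau_eq
  have k11 := card_pos.2 hd.s1.nonempty
  have k13 := TD6.ws_ge e S
  have hXne : X ≠ W := by
    intro hcon
    rw [← hX, hcon] at k1
    omega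
  have k12 := h.HY hXW hXne
  rw [← hX] at k1
  have hcase : S.card = 0 ∨ S.card = 1 := by omega
  rcases hcase with hS0 | hS1
  · have h0 := card_eq_zero.1 hS0
    have h1 : X = W \ P := by rw [hX, h0, union_empty]
    rw [h1] at hsep
    exact h.toMx.not_closed hd.side_sub hd.s1.nonempty (hd.side_ne hd.s1.sub) hsep
  · obtain ⟨p, hp⟩ := card_eq_one.1 hS1
    have hpS : p ∈ S := by rw [hp]; exact mem_singleton_self p
    rw [hS, mem_adjT] at hpS
    have h1 : W ⊆ (P ∪ {p}) ∪ X := by
      intro i hi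
      rw [hX, hp, mem_union, mem_sdiff]
      tauto
    have h2 := tau_le_of_subset h.hne h1
    have h3 := hd.adj h hpS.2
    omega

end Pool.Agent.TD7
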