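import Pool.Agent.TD7.A9
import Pool.Agent.TD7.A6

set_option autoImplicit false
set_option linter.unusedSectionVars false

namespace Pool.Agent.TD7

open Finset Pool.Agent.TD5 Pool.Agent.TD6

variable {ι V : Type*} [DecidableEq ι] [DecidableEq V] {e : ι → Finset V} {W : Finset ι}

/-- ROW A10.  The vertices of a one-element side have degree at most two.

PROOF.  Follow `TD5.Dec.single` (file TD5/Final.lean); `hd.single_rest h` is row A9, imported,
`hd.symm.two_adj h` is row A6.  `T = rho e W v`, `W = {l} ∪ P ∪ T`, `W.card = P.card + 4`.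
(1) `hF`: if `T ⊆ {a, b, c}`, `¬ Sep e P {a}` and `y ∈ e l ∩ e b ∩ e c`, then
`W ⊆ (P ∪ {a}) ∪ {l, b, c}`, so `2 * tau e W ≤ (P.card + 1) + 2 = W.card - 1`
(`hd.symm.adj h`), contradiction with `h.tau_eq`.
(2) Let `x ∈ e l` with `(rho e W x).card = 3`.  `x ∉ cols e P` (separated), so exactly two edges
`p, q ∈ T` contain `x`; let `r` be the third edge of `T`, `x ∉ e r`.
(3) By (1) with `y = x`: `Sep e P {r}`.  So `e r ⊆ insert v ((e l).erase x)` (as
`cols e W = insert v (e l ∪ cols e P)`), and `p, q` both meet `P` (`two_adj`).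
(4) `insert v ((e l).erase x) ⊆ e r`: if `(e l).card = 4`, then `psi e P ≥ 13 * P.card + 12`
and claim 3 of `single_rest` give `ws e T ≤ 17`, so all edges of `T` have size 4
(a 3-edge gives `ws e T ≥ 19`), `(e r).card = 4` and `(insert v ((e l).erase x)).card ≤ 4`.
If `(e l).card = 3` then `(insert v (..)).card ≤ 3` and `(e r).card ≥ 3` (`h.hs.ge3`), so equality,
`(e r).card = 3`, `wt e r = 9`.
(5) So `(e l).erase x ⊆ e r`.  If `y ∈ e p ∩ e l`, `y ≠ x`, then `y ∈ e r` and (1) for
`T ⊆ {q, p, r}` (`q` meets `P`) gives a contradiction; same for `q`.  So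
`e p ∩ e l = {x} = e q ∩ e l`.
(6) `X = {p, q} ∪ P`, a proper subset (`l ∉ X`), `X.card ≤ P.card + 2` (equality holds: disjoint),
`cols e X ⊆ insert v (insert x (cols e P))`, so
`psi e X ≤ psi e P + ws e {p, q} + 12`.  `W ⊆ X ∪ {l, r}` and `{l, r}` is met by one
vertex (an element of `(e l).erase x`), so `2 * tau e X ≥ W.card + 1 - 2 = X.card + 1`, and `h.HY`
gives `psi e X ≥ 13 * X.card + 12 = 13 * P.card + 38`.
But `ws e {p, q} + wt e r = ws e T`.  If `(e l).card = 4`: `psi e P + ws e T ≤ 13 * P.card + 29`,
so `psi e X ≤ 13 * P.card + 29 - 5 + 12 = 13 * P.card + 36`.  If `(e l).card = 3`: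
`psi e P + ws e T ≤ 13 * P.card + 31`, `wt e r = 9`, so
`psi e X ≤ 13 * P.card + 31 - 9 + 12 = 13 * P.card + 34`.  Contradiction. -/
theorem LDec.single (h : Low e W) {v : V} {l : ι} {P : Finset ι} (hd : LDec e W v {l} P) :
    ∀ x ∈ e l, (rho e W x).card ≤ 2 := by
  obtain ⟨hY, hcols, hc4, hc3⟩ := hd.single_rest h
  set T := rho e W v with hT
  have hR : W \ T = {l} ∪ P := by
    apply Subset.antisymm
    · exact sdiff_eq_empty_iff_subset.1 hY
    · exact union_subset hd.s1.sub hd.s2.sub
  have hlR : l ∈ W \ T := hd.s1.sub (mem_singleton_self l)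
  have hlW : l ∈ W := (mem_sdiff.1 hlR).1
  have hlT : l ∉ T := (mem_sdiff.1 hlR).2
  have hlP : l ∉ P := fun h' => disjoint_left.1 hd.disj (mem_singleton_self l) h'
  have hT3 : T.card = 3 := hd.triple
  have hWc : W.card = P.card + 4 := by
    have h1 := card_sdiff_add_card_eq_card (rho_sub (e := e) W v)
    rw [← hT, hR, card_union_of_disjoint hd.disj, card_singleton, hT3] at h1
    omega
  have hcolR : cols e (W \ T) = e l ∪ cols e P := by rw [hR, cols_union, cols_singleton]
  have hvR : v ∉ cols e (W \ T) := by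
    intro hcon
    obtain ⟨i, hi, hvi⟩ := mem_cols.1 hcon
    obtain ⟨h1, h2⟩ := mem_sdiff.1 hi
    exact h2 (mem_rho.2 ⟨h1, hvi⟩)
  have htauW := h.tau_eq
  have htauP := hd.s2.tau_eq
  -- the impossible configuration
  have hF : ∀ a b c, T ⊆ {a, b, c} → ¬ TD5.Sep e P {a} → ∀ y, y ∈ e l → y ∈ e b → y ∈ e c →
      False := by
    intro a b c habc ha y hyl hyb hyc
    have h1 : W ⊆ (P ∪ {a}) ∪ {l, b, c} := by
      intro i hi
      by_cases hiT : i ∈ T
      · have := habc hiT
        simp only [mem_insert, mem_singleton, mem_union] at this ⊢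
        tauto
      · have : i ∈ W \ T := mem_sdiff.2 ⟨hi, hiT⟩
        rw [hR] at this
        simp only [mem_insert, mem_singleton, mem_union] at this ⊢
        tauto
    have h2 := tau_le_of_subset h.hne h1
    have h3 := hd.symm.adj h ha
    have h4 : tau e ({l, b, c} : Finset ι) ≤ 1 := by
      apply tau_le_one y
      intro i hi
      simp only [mem_insert, mem_singleton] at hi
      rcases hi with rfl | rfl | rfl <;> assumption
    omega
  intro x hx
  by_contra hc
  push Not at hc
  have hx3 : (rho e W x).card = 3 := by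
    have := h.hD x
    omega
  -- the edges at `x`
  have hxT : (rho e W x ∩ T).card = 2 := by
    have h1 : rho e W x = insert l (rho e W x ∩ T) := by
      apply Subset.antisymm
      · intro i hi
        rw [mem_insert, mem_inter]
        by_cases hiT : i ∈ T
        · exact Or.inr ⟨hi, hiT⟩
        · left
          obtain ⟨hiW, hxi⟩ := mem_rho.1 hi
          have h2 : i ∈ W \ T := mem_sdiff.2 ⟨hiW, hiT⟩
          rw [hR, mem_union, mem_singleton] at h2
          rcases h2 with h2 | h2
          · exact h2
          · exact absurd hd.sep (not_sep' (mem_singleton_self l) h2 hx hxi)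
      · apply insert_subset (mem_rho.2 ⟨hlW, hx⟩) inter_subset_left
    have h2 : l ∉ rho e W x ∩ T := fun h' => hlT (mem_inter.1 h').2
    have h3 := congrArg card h1
    rw [card_insert_of_notMem h2, hx3] at h3
    omega
  obtain ⟨p, q, hpq, hxT'⟩ := card_eq_two.1 hxT
  have hp : p ∈ rho e W x ∩ T := by rw [hxT']; simp
  have hq : q ∈ rho e W x ∩ T := by rw [hxT']; simp
  obtain ⟨hpx, hpT⟩ := mem_inter.1 hp
  obtain ⟨hqx, hqT⟩ := mem_inter.1 hq
  have hpx' : x ∈ e p := (mem_rho.1 hpx).2
  have hqx' : x ∈ e q := (mem_rho.1 hqx).2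
  have hr1 : (T \ (rho e W x ∩ T)).card = 1 := by
    have h1 := card_sdiff_add_card_eq_card (s := rho e W x ∩ T) (t := T) inter_subset_right
    rw [hxT, hT3] at h1
    omega
  obtain ⟨r, hr⟩ := card_eq_one.1 hr1
  have hrmem : r ∈ T \ (rho e W x ∩ T) := by rw [hr]; exact mem_singleton_self r
  obtain ⟨hrT, hrx⟩ := mem_sdiff.1 hrmem
  have hrW : r ∈ W := (mem_rho.1 hrT).1
  have hrx' : x ∉ e r := fun h' => hrx (mem_inter.2 ⟨mem_rho.2 ⟨hrW, h'⟩, hrT⟩)
  have hTeq : T ⊆ {p, q, r} := by
    intro i hi
    by_cases h1 : i ∈ rho e W x ∩ T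
    · rw [hxT'] at h1
      simp only [mem_insert, mem_singleton] at h1 ⊢
      tauto
    · have : i ∈ T \ (rho e W x ∩ T) := mem_sdiff.2 ⟨hi, h1⟩
      rw [hr, mem_singleton] at this
      simp [this]
  have hrpq : r ∉ ({p, q} : Finset ι) := by
    rw [← hxT']
    exact hrx
  have hTins : T = insert r {p, q} := by
    apply Subset.antisymm
    · intro i hi
      have := hTeq hi
      simp only [mem_insert, mem_singleton] at this ⊢
      tauto
    · intro i hi
      simp only [mem_insert, mem_singleton] at hi
      rcases hi with rfl | rfl | rfl <;> assumption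
  have hwsT : ws e T = wt e r + ws e {p, q} := by
    unfold ws
    rw [hTins, sum_insert hrpq]
  have hws2 : 10 ≤ ws e ({p, q} : Finset ι) := by
    have h1 := TD6.ws_ge e ({p, q} : Finset ι)
    rw [card_pair hpq] at h1
    omega
  -- the third edge
  have hrsep : TD5.Sep e P {r} := by
    by_contra hcon
    refine hF r p q ?_ hcon x hx hpx' hqx'
    intro i hi
    have := hTeq hi
    simp only [mem_insert, mem_singleton] at this ⊢
    tauto
  have hecol : ∀ i ∈ W, ∀ y ∈ e i, y = v ∨ y ∈ e l ∨ y ∈ cols e P := by
    intro i hi y hy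
    have h1 : y ∈ cols e W := mem_cols.2 ⟨i, hi, hy⟩
    rw [hcols, mem_insert, hcolR, mem_union] at h1
    exact h1
  have her2 : e r = insert v ((e l).erase x) := by
    have h1 : e r ⊆ insert v ((e l).erase x) := by
      intro y hy
      rw [mem_insert, mem_erase]
      rcases hecol r hrW y hy with h2 | h2 | h2
      · exact Or.inl h2
      · right
        refine ⟨?_, h2⟩
        rintro rfl
        exact hrx' hy
      · exfalso
        obtain ⟨j, hj, hyj⟩ := mem_cols.1 h2
        exact not_sep' hj (mem_singleton_self r) hyj hy hrsep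
    have h2 : e r = insert v ((e l).erase x) := by
      apply eq_of_subset_of_card_le h1
      have h3 := card_insert_le v ((e l).erase x)
      have h4 := card_erase_add_one hx
      have h5 := h.hs.ge3 r
      rcases h.hs l with h6 | h6
      · omega
      · have h7 := hc4 h6
        have h8 := hd.s2.le_val
        rcases h.hs r with h9 | h9
        · exfalso
          have h10 := wt_three h9
          omega
        · omega
    exact h2
  have her : (e l).erase x ⊆ e r := by
    rw [her2]
    exact subset_insert _ _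
  -- the other two edges are adjacent to `P`
  have hadj : {p, q} ⊆ adjT e W v P := by
    have h1 : adjT e W v P ⊆ {p, q} := by
      intro i hi
      obtain ⟨h2, h3⟩ := mem_adjT.1 hi
      have h4 := hTeq h2
      simp only [mem_insert, mem_singleton] at h4 ⊢
      rcases h4 with h4 | h4 | h4
      · exact Or.inl h4
      · exact Or.inr h4
      · rw [h4] at h3
        exact absurd hrsep h3
    have h2 := hd.symm.two_adj h
    have h3 : adjT e W v P = {p, q} := by
      apply eq_of_subset_of_card_le h1
      rw [card_pair hpq]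
      exact h2
    rw [h3]
  have hpadj : ¬ TD5.Sep e P {p} := (mem_adjT.1 (hadj (by simp))).2
  have hqadj : ¬ TD5.Sep e P {q} := (mem_adjT.1 (hadj (by simp))).2
  have hpl : ∀ y ∈ e p, y ∈ e l → y = x := by
    intro y hyp hyl
    by_contra hne
    refine hF q p r ?_ hqadj y hyl hyp (her (mem_erase.2 ⟨hne, hyl⟩))
    intro i hi
    have := hTeq hi
    simp only [mem_insert, mem_singleton] at this ⊢
    tauto
  have hql : ∀ y ∈ e q, y ∈ e l → y = x := by
    intro y hyp hyl
    by_contra hne
    refine hF p q r ?_ hpadj y hyl hyp (her (mem_erase.2 ⟨hne, hyl⟩))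
    intro i hi
    have := hTeq hi
    simp only [mem_insert, mem_singleton] at this ⊢
    tauto
  -- the last covering
  have hpW : p ∈ W := (mem_rho.1 hpT).1
  have hqW : q ∈ W := (mem_rho.1 hqT).1
  have hXW : {p, q} ∪ P ⊆ W := by
    apply union_subset _ hd.symm.side_sub
    intro i hi
    simp only [mem_insert, mem_singleton] at hi
    rcases hi with rfl | rfl <;> assumption
  have hlX : l ∉ {p, q} ∪ P := by
    rw [mem_union, not_or]
    refine ⟨?_, hlP⟩
    simp only [mem_insert, mem_singleton, not_or]
    exact ⟨fun h' => hlT (h' ▸ hpT), fun h' => hlT (h' ▸ hqT)⟩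
  have hXne : {p, q} ∪ P ≠ W := fun h' => hlX (h' ▸ hlW)
  have k1 := h.HY hXW hXne
  have hdisX : Disjoint ({p, q} : Finset ι) P := by
    refine disjoint_left.2 ?_
    intro i hi hi'
    have h1 := (mem_sdiff.1 (hd.s2.sub hi')).2
    simp only [mem_insert, mem_singleton] at hi
    rcases hi with rfl | rfl
    · exact h1 hpT
    · exact h1 hqT
  have k3 : ({p, q} ∪ P).card = P.card + 2 := by
    rw [card_union_of_disjoint hdisX, card_pair hpq]
    omega
  have k2 : psi e ({p, q} ∪ P) = ws e {p, q} + ws e P + 6 * (cols e ({p, q} ∪ P)).card := by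
    unfold psi
    rw [ws_union hdisX]
  have k8 : psi e P = ws e P + 6 * (cols e P).card := rfl
  have k4 : (cols e ({p, q} ∪ P)).card ≤ (cols e P).card + 2 := by
    have h1 : cols e ({p, q} ∪ P) ⊆ insert v (insert x (cols e P)) := by
      intro y hy
      obtain ⟨i, hi, hyi⟩ := mem_cols.1 hy
      rw [mem_insert, mem_insert]
      rcases mem_union.1 hi with hi | hi
      · simp only [mem_insert, mem_singleton] at hi
        rcases hecol i (by rcases hi with rfl | rfl <;> assumption) y hyi with h2 | h2 | h2
        · exact Or.inl h2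
        · right
          left
          rcases hi with rfl | rfl
          · exact hpl y hyi h2
          · exact hql y hyi h2
        · exact Or.inr (Or.inr h2)
      · exact Or.inr (Or.inr (mem_cols.2 ⟨i, hi, hyi⟩))
    have h2 := card_le_card h1
    have h3 := card_insert_le v (insert x (cols e P))
    have h4 := card_insert_le x (cols e P)
    omega
  have k5 : W ⊆ ({p, q} ∪ P) ∪ {l, r} := by
    intro i hi
    by_cases hiT : i ∈ T
    · have := hTeq hiT
      simp only [mem_insert, mem_singleton, mem_union] at this ⊢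
      tauto
    · have : i ∈ W \ T := mem_sdiff.2 ⟨hi, hiT⟩
      rw [hR] at this
      simp only [mem_insert, mem_singleton, mem_union] at this ⊢
      tauto
  have k6 := tau_le_of_subset h.hne k5
  have k7 : tau e ({l, r} : Finset ι) ≤ 1 := by
    have h1 := card_erase_add_one hx
    have h1' := h.hs.ge3 l
    obtain ⟨y, hy⟩ : ((e l).erase x).Nonempty := card_pos.1 (by omega)
    apply tau_le_one y
    intro i hi
    simp only [mem_insert, mem_singleton] at hi
    rcases hi with rfl | rfl
    · exact (mem_erase.1 hy).2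
    · exact her hy
  have k9 := wt_cases e r
  rcases h.hs l with h6 | h6
  · have h7 := hc3 h6
    have h8 := card_erase_add_one hx
    have h9 : (e r).card = 3 := by
      have h11 := card_insert_le v ((e l).erase x)
      rw [← her2] at h11
      have h12 := h.hs.ge3 r
      omega
    have h10 := wt_three h9
    omega
  · have h7 := hc4 h6
    omega

end Pool.Agent.TD7
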