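import Pool.Agent.TD7.DefA

set_option autoImplicit false
set_option linter.unusedSectionVars false

namespace Pool.Agent.TD7

open Finset Pool.Agent.TD5 Pool.Agent.TD6

variable {ι V : Type*} [DecidableEq ι] [DecidableEq V] {e : ι → Finset V} {W : Finset ι}

/-- ROW A11.  Slots.  PROOF.  For `x ∈ cols e X`:
`(rho e X x).card + (Z.filter (fun t => x ∈ e t)).card ≤ (rho e W x).card ≤ 3` (disjoint parts of
`rho e W x`).  Sum over `x ∈ cols e X`: `∑ x, (rho e X x).card = ∑ i ∈ X, (e i).card`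
(`TD5.sum_card`), `∑ x ∈ cols e X, (Z.filter (fun t => x ∈ e t)).card =
∑ t ∈ Z, (e t ∩ cols e X).card` (double counting, `sum_card_bipartiteAbove_eq_sum_card_bipartiteBelow`),
so `∑ t ∈ Z, (e t ∩ cols e X).card + ∑ i ∈ X, (e i).card ≤ 3 * (cols e X).card`.  And
`13 * X.card ≤ ws e X + 2 * ∑ i ∈ X, (e i).card` (each edge: `5 + 8 = 13` or `9 + 6 = 15`; see the
proof of `psi_count` in TD6/Psi.lean). -/
theorem slots (hs : Sz e) (hD : ∀ x, (rho e W x).card ≤ 3) {X Z : Finset ι} (hX : X ⊆ W)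
    (hZ : Z ⊆ W) (hd : Disjoint X Z) :
    2 * ∑ t ∈ Z, (e t ∩ cols e X).card + 13 * X.card ≤ psi e X := by
  have h0 : ∀ x ∈ cols e X, (rho e X x).card + (Z.filter (fun t => x ∈ e t)).card ≤ 3 := by
    intro x _
    have hdis : Disjoint (rho e X x) (Z.filter (fun t => x ∈ e t)) := by
      refine disjoint_left.2 (fun i hi hi' => ?_)
      exact disjoint_left.1 hd (mem_rho.1 hi).1 (mem_filter.1 hi').1
    rw [← card_union_of_disjoint hdis]
    refine (card_le_card ?_).trans (hD x)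
    intro i hi
    rcases mem_union.1 hi with h | h
    · exact mem_rho.2 ⟨hX (mem_rho.1 h).1, (mem_rho.1 h).2⟩
    · exact mem_rho.2 ⟨hZ (mem_filter.1 h).1, (mem_filter.1 h).2⟩
  have h1 : ∑ t ∈ Z, (e t ∩ cols e X).card =
      ∑ x ∈ cols e X, (Z.filter (fun t => x ∈ e t)).card := by
    have h2 := sum_card_bipartiteAbove_eq_sum_card_bipartiteBelow (s := Z) (t := cols e X)
      (fun (t : ι) (x : V) => x ∈ e t)
    rw [show (∑ x ∈ cols e X, (Z.filter (fun t => x ∈ e t)).card) =
      ∑ b ∈ cols e X, (bipartiteBelow (fun (t : ι) (x : V) => x ∈ e t) Z b).card from rfl,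
      ← h2]
    apply sum_congr rfl
    intro t _
    congr 1
    ext x
    simp only [mem_inter, mem_bipartiteAbove]
    exact and_comm
  have h3 : ∑ t ∈ Z, (e t ∩ cols e X).card + ∑ i ∈ X, (e i).card ≤ 3 * (cols e X).card := by
    rw [Pool.Agent.TD5.sum_card (e := e) X, h1, ← sum_add_distrib, mul_comm 3, ← smul_eq_mul]
    refine sum_le_card_nsmul _ _ _ (fun x hx => ?_)
    have := h0 x hx
    omega
  have h4 : 13 * X.card ≤ ws e X + 2 * ∑ i ∈ X, (e i).card := by
    unfold ws
    rw [mul_sum, mul_comm 13, ← smul_eq_mul, ← sum_const, ← sum_add_distrib]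
    apply sum_le_sum
    intro i _
    rcases hs i with h | h
    · rw [wt_three h, h]
      omega
    · rw [wt_four h, h]
      omega
  unfold psi
  omega

/-- Slots of a double triangle.  PROOF.  If `s ≠ t` and `x ∈ e s ∩ e t ∩ cols e C`, then
`rho e C x` has two elements (`hF.deg`) and `s, t` are two more edges at `x`. -/
theorem F6.slots_disjoint {C : Finset ι} {par : V → V} (hF : F6 e C par)
    (hD : ∀ x, (rho e W x).card ≤ 3) (hC : C ⊆ W) {s t : ι} (hs : s ∈ W) (ht : t ∈ W)
    (hsC : s ∉ C) (htC : t ∉ C) (hst : s ≠ t) :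
    Disjoint (e s ∩ cols e C) (e t ∩ cols e C) := by
  refine disjoint_left.2 (fun x hx hx' => ?_)
  obtain ⟨h1, h2⟩ := mem_inter.1 hx
  obtain ⟨h3, -⟩ := mem_inter.1 hx'
  have h4 := hF.deg x h2
  have h5 := hD x
  have h6 : insert s (insert t (rho e C x)) ⊆ rho e W x := by
    intro i hi
    rcases mem_insert.1 hi with rfl | hi
    · exact mem_rho.2 ⟨hs, h1⟩
    rcases mem_insert.1 hi with rfl | hi
    · exact mem_rho.2 ⟨ht, h3⟩
    · exact mem_rho.2 ⟨hC (mem_rho.1 hi).1, (mem_rho.1 hi).2⟩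
  have h7 := card_le_card h6
  have ht' : t ∉ rho e C x := fun h => htC (mem_rho.1 h).1
  have hs' : s ∉ insert t (rho e C x) := by
    intro h
    rcases mem_insert.1 h with h | h
    · exact hst h
    · exact hsC (mem_rho.1 h).1
  rw [card_insert_of_notMem hs', card_insert_of_notMem ht'] at h7
  omega

end Pool.Agent.TD7
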