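import Pool.Agent.TD7.A5

set_option autoImplicit false
set_option linter.unusedSectionVars false

namespace Pool.Agent.TD7

open Finset Pool.Agent.TD5 Pool.Agent.TD6

variable {ι V : Type*} [DecidableEq ι] [DecidableEq V] {e : ι → Finset V} {W : Finset ι}

theorem a12_ne {v : V} {a : ι} {P1 P2 P3 Y : Finset ι} (hT : Tri e W v a P1 P2 P3 Y) :
    P1 ≠ W := by
  intro hcon
  have h1 : a ∈ P1 := by rw [hcon]; exact hT.haW
  exact disjoint_left.1 hT.dis1 h1 (mem_insert_self a _)

/-- ROW A12.  A part of smallest weight is a double triangle.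

PROOF.  `P1` is a proper subset of `W` (`a ∈ W`, `a ∉ P1`), so `h.toMx.sub` gives
`26 * tau e P1 ≤ psi e P1 + ks e P1`, and `26 * tau e P1 = 13 * P1.card + 13`, so `ks e P1 ≠ 0`;
`exists_special` gives a special component `C` of `P1`, and `h.not_seven`: `C.card = 3`,
`(cols e C).card = 6`, `tau e C = 2`, `psi e C = 51`.  If `C = P1` we are done.  Otherwise
`M = P1 \ C` is nonempty, `psi e M = psi e P1 - 51 = 13 * M.card` (`psi_union h.hs` with
`C ∪ M = P1`), so by `psi_count h.hs (h.deg ..)` with `S = {x}` no `x ∈ cols e M` has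
`(rho e M x).card ≤ 2`; all of them have `(rho e M x).card = 3`, so `rho e M x = rho e W x`
(`eq_of_subset_of_card_le`) and `M` is closed in `W`: contradiction with `h.toMx.not_closed`
(see the end of the proof of `TD5.Dec.rest_empty`). -/
theorem Tri.small (h : Low e W) {v : V} {a : ι} {P1 P2 P3 Y : Finset ι}
    (hT : Tri e W v a P1 P2 P3 Y) (heq : psi e P1 = 13 * P1.card + 12) :
    P1.card = 3 ∧ (∀ i ∈ P1, (e i).card = 4) ∧ (cols e P1).card = 6 ∧ tau e P1 = 2 := by
  have hne := a12_ne hT
  have h1 := h.toMx.sub hT.sub1 hne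
  have h2 := hT.tau1
  have hks : ks e P1 ≠ 0 := by omega
  obtain ⟨C, hC, hsp⟩ := exists_special hks
  obtain ⟨c1, c2, c3, c4⟩ := h.not_seven (hC.sub.trans hT.sub1) hsp
  by_cases hCP : C = P1
  · rw [← hCP]
    exact ⟨c1, hsp.1, c2, c3⟩
  exfalso
  have hu := psi_union h.hs hC.closed
  rw [union_sdiff_of_subset hC.sub] at hu
  have hcard := card_sdiff_add_card_eq_card hC.sub
  set M := P1 \ C with hM
  have hMW : M ⊆ W := sdiff_subset.trans hT.sub1
  have hpM : psi e M = 13 * M.card := by omega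
  have hMne : M.Nonempty := by
    rw [hM, sdiff_nonempty]
    intro hcon
    exact hCP (Subset.antisymm hC.sub hcon)
  have hMW' : M ≠ W := by
    intro hcon
    have h3 := card_le_card hT.sub1
    rw [← hcon] at h3
    omega
  have hMD : ∀ x, (rho e M x).card ≤ 3 := h.deg hMW
  have h6 : ∀ x ∈ cols e M, (rho e M x).card = 3 := by
    intro x hx
    by_contra hc
    have h7 := psi_count h.hs hMD (S := {x}) (singleton_subset_iff.2 hx)
      (fun y hy => by
        rw [mem_singleton.1 hy]
        have := hMD x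
        omega)
    rw [card_singleton] at h7
    omega
  apply h.toMx.not_closed hMW hMne hMW'
  refine disjoint_left.2 ?_
  intro x hx hx'
  obtain ⟨j, hj, hxj⟩ := mem_cols.1 hx'
  obtain ⟨hjW, hjM⟩ := mem_sdiff.1 hj
  have h7 : rho e M x = rho e W x := by
    apply eq_of_subset_of_card_le (rho_mono hMW x)
    rw [h6 x hx]
    exact h.hD x
  have h8 : j ∈ rho e M x := by
    rw [h7, mem_rho]
    exact ⟨hjW, hxj⟩
  exact hjM (mem_rho.1 h8).1

/-- Every part meets at least two of the four edges.  PROOF.  As `TD5.Dec.two_adj` in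
TD5/Sides.lean: let `S4 = insert a (rho e W v)`, `S = adjS e S4 P1`, `X = W \ (P1 ∪ S)`.
`Sep e P1 X`: an edge of `X` lies in `P2 ∪ P3 ∪ Y ∪ S4` (`hT.cover`); in the first three cases use
`hT.s12`, `hT.s13`, `hT.s1Y`, in the last it is not in `S`.  If `S = ∅`, `P1` is closed in `W`,
contradiction with `h.toMx.not_closed` (`P1 ≠ W` since `a ∉ P1`).  If `S = {p}`: `psi_split` gives
`psi e P1 + psi e X + ws e S ≤ psi e W ≤ 13 * W.card + 12` (`h.val_le`), `h.HY` for `X`
(`X ≠ W` as `P1` is nonempty): `24 * tau e X + X.card ≤ 13 * (W.card - P1.card) - 5` with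
`X.card = W.card - P1.card - 1`, so `2 * tau e X ≤ W.card - P1.card - 1`; and
`2 * tau e (P1 ∪ {p}) ≤ P1.card + 1` (`Tri.adj`, row A5, imported): `2 * tau e W ≤ W.card`,
contradiction with `h.tau_eq`. -/
theorem Tri.two (h : Low e W) {v : V} {a : ι} {P1 P2 P3 Y : Finset ι}
    (hT : Tri e W v a P1 P2 P3 Y) : 2 ≤ (adjS e (insert a (rho e W v)) P1).card := by
  by_contra hlt
  push Not at hlt
  set S4 := insert a (rho e W v) with hS4
  set S := adjS e S4 P1 with hS
  have hSsub : S ⊆ S4 := filter_subset _ _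
  have hS4W : S4 ⊆ W := insert_subset hT.haW (rho_sub W v)
  have hPS : Disjoint P1 S := disjoint_of_subset_right hSsub hT.dis1
  have hPSW : P1 ∪ S ⊆ W := union_subset hT.sub1 (hSsub.trans hS4W)
  set X := W \ (P1 ∪ S) with hX
  have hsep : TD5.Sep e P1 X := by
    rw [sep_iff]
    intro i hi j hj
    rw [hX, mem_sdiff, mem_union, not_or] at hj
    obtain ⟨hjW, hjP, hjS⟩ := hj
    have hcov := hT.cover hjW
    simp only [mem_union] at hcov
    rcases hcov with (((h1 | h1) | h1) | h1) | h1
    · exact absurd h1 hjP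
    · exact sep_iff.1 hT.s12 i hi j h1
    · exact sep_iff.1 hT.s13 i hi j h1
    · exact sep_iff.1 hT.s1Y i hi j h1
    · by_contra hcon
      obtain ⟨x, hxi, hxj⟩ := not_disjoint_iff.1 hcon
      exact hjS (mem_adjS.2 ⟨h1, x, hxj, mem_cols.2 ⟨i, hi, hxi⟩⟩)
  have hXW : X ⊆ W := sdiff_subset
  have hne := a12_ne hT
  have hP1 : P1.Nonempty := by
    rw [nonempty_iff_ne_empty]
    intro h0
    have := hT.tau1
    rw [h0, tau_empty, card_empty] at this
    omega
  have hcase : S.card = 0 ∨ S.card = 1 := by omega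
  rcases hcase with hS0 | hS1
  · have h0 := card_eq_zero.1 hS0
    rw [hX, h0, union_empty] at hsep
    exact h.toMx.not_closed hT.sub1 hP1 hne hsep
  · obtain ⟨p, hp⟩ := card_eq_one.1 hS1
    have hpS : p ∈ S := by rw [hp]; exact mem_singleton_self p
    rw [hS, mem_adjS] at hpS
    obtain ⟨-, x, hxp, hxP⟩ := hpS
    have h1 : W ⊆ (P1 ∪ {p}) ∪ X := by
      intro i hi
      rw [hX, hp, mem_union, mem_sdiff]
      tauto
    have h2 := tau_le_of_subset h.hne h1
    have h3 := Tri.adj h hT hxP hxp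
    have hdX : Disjoint X S := by
      refine disjoint_left.2 ?_
      intro i hi hi'
      exact (mem_sdiff.1 hi).2 (mem_union_right _ hi')
    have k1 := card_sdiff_add_card_eq_card hPSW
    have k2 := card_union_of_disjoint hPS
    have k3 := psi_split h.hs hsep hT.sub1 hXW (hSsub.trans hS4W) hPS hdX
    have k4 := TD6.ws_ge e S
    have k5 := h.val_le
    have k6 := hT.val1
    have k7 := hT.tau1
    have k8 := h.tau_eq
    have k9 := card_pos.2 hP1
    rw [← hX] at k1
    have hXne : X ≠ W := by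
      intro hcon
      rw [hcon] at k1
      omega
    have k12 := h.HY hXW hXne
    omega

end Pool.Agent.TD7
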