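import Pool.Agent.TD7.DefA

set_option autoImplicit false
set_option linter.unusedSectionVars false

namespace Pool.Agent.TD7

open Finset Pool.Agent.TD5 Pool.Agent.TD6

variable {ι V : Type*} [DecidableEq ι] [DecidableEq V] {e : ι → Finset V} {W : Finset ι}

/-- ROW A13.  `S4 = insert a (rho e W v)` (four edges, all of size 4).  If `P1` is a double triangle
covering `s` and `t` as well, the other two edges of `S4` have two vertices in `P1`.

PROOF.  Let `X = W \ (P1 ∪ {s, t})`, `X.card = W.card - 5` (`P1.card = 3`, `s, t ∉ P1` by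
`hT.dis1`, `s ≠ t`).  `tau e W ≤ tau e X + 2`, so (`h.tau_eq`) `2 * tau e X ≥ W.card - 3`, and
`h.HY` gives `psi e X ≥ 24 * tau e X + X.card ≥ 12 * (W.card - 3) + W.card - 5 = 13 * X.card + 24`.
On the other hand `X ⊆ P2 ∪ P3 ∪ Y ∪ (S4 \ {s, t})` (`hT.cover`), the last set has two elements of
weight 5, and `cols e X ⊆ cols e P2 ∪ cols e P3 ∪ cols e Y ∪ {v} ∪ ⋃ u ∈ S4 \ {s, t},
(e u ∩ cols e P1)` (`hT.cols_sub`), so
`psi e X ≤ psi e P2 + psi e P3 + psi e Y + 10 + 6 + 6 * ∑ u ∈ S4 \ {s, t}, (e u ∩ cols e P1).card`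
(for `≤` only: `ws e X ≤ ws e P2 + ws e P3 + ws e Y + 10` by `ws_mono` and subadditivity
`ws e (A ∪ B) ≤ ws e A + ws e B`, or note that all these sets are disjoint).  By `hT.total` and
`psi e P1 = 51`:
`psi e P2 + psi e P3 + psi e Y ≤ 13 * (P2.card + P3.card + Y.card) + 26`, and
`X.card = P2.card + P3.card + Y.card + 2` (disjointness: `Sep.disj h.hs.hne`), so
`13 * X.card + 24 ≤ 13 * (X.card - 2) + 26 + 16 + 6 * ∑ = 13 * X.card + 16 + 6 * ∑`.  Hence
`6 * ∑ ≥ 8`, `∑ ≥ 2`. -/
theorem Tri.star (h : Low e W) {v : V} {a : ι} {P1 P2 P3 Y : Finset ι}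
    (hT : Tri e W v a P1 P2 P3 Y) (h3 : P1.card = 3) (h51 : psi e P1 = 51) {s t : ι}
    (hs : s ∈ insert a (rho e W v)) (ht : t ∈ insert a (rho e W v)) (hst : s ≠ t)
    (hcov : tau e (P1 ∪ {s, t}) ≤ 2) :
    2 ≤ ∑ u ∈ (insert a (rho e W v)) \ {s, t}, (e u ∩ cols e P1).card := by
  set S4 := insert a (rho e W v) with hS4
  have hS4c : S4.card = 4 := by
    rw [hS4, card_insert_of_notMem hT.haT, hT.triple]
  have hS4W : S4 ⊆ W := insert_subset hT.haW (rho_sub W v)
  have hstc : ({s, t} : Finset ι).card = 2 := card_pair hst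
  have hstS : ({s, t} : Finset ι) ⊆ S4 := by
    intro i hi
    rcases mem_insert.1 hi with rfl | hi
    · exact hs
    · rw [mem_singleton.1 hi]
      exact ht
  have hS'c : (S4 \ {s, t}).card = 2 := by
    have := card_sdiff_add_card_eq_card hstS
    omega
  have hPst : Disjoint P1 ({s, t} : Finset ι) := hT.dis1.mono_right hstS
  have hPstW : P1 ∪ {s, t} ⊆ W := union_subset hT.sub1 (hstS.trans hS4W)
  have hPstc : (P1 ∪ {s, t}).card = 5 := by
    rw [card_union_of_disjoint hPst, h3, hstc]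
  set X := W \ (P1 ∪ {s, t}) with hX
  have hXW : X ⊆ W := sdiff_subset
  have hXc := card_sdiff_add_card_eq_card hPstW
  rw [← hX, hPstc] at hXc
  have hXne : X ≠ W := by
    intro hcon
    rw [hcon] at hXc
    omega
  have h1 : tau e W ≤ tau e X + tau e (P1 ∪ {s, t}) :=
    tau_le_of_subset h.hne (by rw [hX, sdiff_union_of_subset hPstW])
  have h2 := h.tau_eq
  have h4 := h.HY hXW hXne
  -- the parts of `X`
  have d12 := hT.s12.disj h.hs.hne
  have d13 := hT.s13.disj h.hs.hne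
  have d23 := hT.s23.disj h.hs.hne
  have d1Y := hT.s1Y.disj h.hs.hne
  have d2Y := hT.s2Y.disj h.hs.hne
  have d3Y := hT.s3Y.disj h.hs.hne
  have hS'S : S4 \ {s, t} ⊆ S4 := sdiff_subset
  have hXeq : X = P2 ∪ P3 ∪ Y ∪ (S4 \ {s, t}) := by
    apply Subset.antisymm
    · intro i hi
      obtain ⟨hi1, hi2⟩ := mem_sdiff.1 hi
      rw [mem_union, not_or] at hi2
      have hi3 := hT.cover hi1
      rw [mem_union, mem_union, mem_union, mem_union] at hi3
      rw [mem_union, mem_union, mem_union, mem_sdiff]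
      rcases hi3 with (((hi3 | hi3) | hi3) | hi3) | hi3
      · exact absurd hi3 hi2.1
      · exact Or.inl (Or.inl (Or.inl hi3))
      · exact Or.inl (Or.inl (Or.inr hi3))
      · exact Or.inl (Or.inr hi3)
      · exact Or.inr ⟨hi3, hi2.2⟩
    · intro i hi
      rw [mem_union, mem_union, mem_union, mem_sdiff] at hi
      rw [hX, mem_sdiff, mem_union, not_or]
      rcases hi with ((hi | hi) | hi) | hi
      · exact ⟨hT.sub2 hi, fun h' => disjoint_left.1 d12 h' hi,
          fun h' => disjoint_left.1 hT.dis2 hi (hstS h')⟩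
      · exact ⟨hT.sub3 hi, fun h' => disjoint_left.1 d13 h' hi,
          fun h' => disjoint_left.1 hT.dis3 hi (hstS h')⟩
      · exact ⟨hT.subY hi, fun h' => disjoint_left.1 d1Y h' hi,
          fun h' => disjoint_left.1 hT.disY hi (hstS h')⟩
      · exact ⟨hS4W hi.1, fun h' => disjoint_left.1 hT.dis1 h' hi.1, hi.2⟩
  have dA : Disjoint P2 P3 := d23
  have dB : Disjoint (P2 ∪ P3) Y := disjoint_union_left.2 ⟨d2Y, d3Y⟩
  have dC : Disjoint (P2 ∪ P3 ∪ Y) (S4 \ {s, t}) :=
    disjoint_union_left.2 ⟨disjoint_union_left.2 ⟨hT.dis2.mono_right hS'S,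
      hT.dis3.mono_right hS'S⟩, hT.disY.mono_right hS'S⟩
  have hXc2 : X.card = P2.card + P3.card + Y.card + 2 := by
    rw [hXeq, card_union_of_disjoint dC, card_union_of_disjoint dB, card_union_of_disjoint dA,
      hS'c]
  have hws' : ws e (S4 \ {s, t}) = 10 := by
    unfold ws
    rw [sum_congr rfl (fun i hi => wt_four (hT.four i (hS'S hi))), sum_const, smul_eq_mul, hS'c]
  have hws : ws e X = ws e P2 + ws e P3 + ws e Y + 10 := by
    rw [hXeq, ws_union dC, ws_union dB, ws_union dA, hws']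
  have hcols : cols e X ⊆ cols e P2 ∪ cols e P3 ∪ cols e Y ∪ {v} ∪
      (S4 \ {s, t}).biUnion (fun u => e u ∩ cols e P1) := by
    intro x hx
    obtain ⟨i, hi, hxi⟩ := mem_cols.1 hx
    rw [mem_union, mem_union, mem_union, mem_union, mem_singleton, mem_biUnion]
    rw [hXeq, mem_union, mem_union, mem_union] at hi
    rcases hi with ((hi | hi) | hi) | hi
    · exact Or.inl (Or.inl (Or.inl (Or.inl (mem_cols.2 ⟨i, hi, hxi⟩))))
    · exact Or.inl (Or.inl (Or.inl (Or.inr (mem_cols.2 ⟨i, hi, hxi⟩))))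
    · exact Or.inl (Or.inl (Or.inr (mem_cols.2 ⟨i, hi, hxi⟩)))
    · have h5 := hT.cols_sub (cols_mono hXW hx)
      rw [mem_insert, mem_union, mem_union, mem_union] at h5
      rcases h5 with h5 | ((h5 | h5) | h5) | h5
      · exact Or.inl (Or.inr h5)
      · exact Or.inr ⟨i, hi, mem_inter.2 ⟨hxi, h5⟩⟩
      · exact Or.inl (Or.inl (Or.inl (Or.inl h5)))
      · exact Or.inl (Or.inl (Or.inl (Or.inr h5)))
      · exact Or.inl (Or.inl (Or.inr h5))
  have hc1 := card_le_card hcols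
  have hc2 := card_union_le (cols e P2 ∪ cols e P3 ∪ cols e Y ∪ {v})
    ((S4 \ {s, t}).biUnion (fun u => e u ∩ cols e P1))
  have hc3 := card_union_le (cols e P2 ∪ cols e P3 ∪ cols e Y) {v}
  have hc4 := card_union_le (cols e P2 ∪ cols e P3) (cols e Y)
  have hc5 := card_union_le (cols e P2) (cols e P3)
  have hc6 : ((S4 \ {s, t}).biUnion (fun u => e u ∩ cols e P1)).card ≤
      ∑ u ∈ S4 \ {s, t}, (e u ∩ cols e P1).card := card_biUnion_le
  rw [card_singleton] at hc3
  have htot := hT.total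
  unfold psi at htot h4 h51
  omega

end Pool.Agent.TD7
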