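import Pool.Agent.TD7.A11

set_option autoImplicit false
set_option linter.unusedSectionVars false

namespace Pool.Agent.TD7

open Finset Pool.Agent.TD5 Pool.Agent.TD6

variable {ι V : Type*} [DecidableEq ι] [DecidableEq V] {e : ι → Finset V} {W : Finset ι}

theorem Tri.a14_S_sub {v : V} {a : ι} {P1 P2 P3 Y : Finset ι} (hT : Tri e W v a P1 P2 P3 Y) :
    insert a (rho e W v) ⊆ W :=
  insert_subset hT.haW (rho_sub W v)

theorem Tri.a14_S_card {v : V} {a : ι} {P1 P2 P3 Y : Finset ι} (hT : Tri e W v a P1 P2 P3 Y) :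
    (insert a (rho e W v)).card = 4 := by
  rw [card_insert_of_notMem hT.haT, hT.triple]

theorem Tri.a14_psiY {v : V} {a : ι} {P1 P2 P3 Y : Finset ι} (hT : Tri e W v a P1 P2 P3 Y) :
    psi e Y ≤ 13 * Y.card + 2 := by
  have := hT.total
  have := hT.val1
  have := hT.val2
  have := hT.val3
  omega

theorem Tri.a14_ne {v : V} {a : ι} {P1 P2 P3 Y X : Finset ι} (hT : Tri e W v a P1 P2 P3 Y)
    (hX : Disjoint X (insert a (rho e W v))) : X ≠ W := by
  rintro rfl
  exact disjoint_left.1 hX hT.haW (mem_insert_self _ _)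

theorem Tri.a14_one {v : V} {a : ι} {P1 P2 P3 Y : Finset ι} (hT : Tri e W v a P1 P2 P3 Y)
    {t : ι} (ht : t ∈ insert a (rho e W v)) :
    4 ≤ (if v ∈ e t then 1 else 0) + ((e t ∩ cols e P1).card + (e t ∩ cols e P2).card +
      (e t ∩ cols e P3).card) + (e t ∩ cols e Y).card := by
  have h4 := hT.four t ht
  have hsub : e t ⊆ (e t ∩ {v}) ∪ ((e t ∩ cols e P1) ∪ (e t ∩ cols e P2) ∪ (e t ∩ cols e P3) ∪
      (e t ∩ cols e Y)) := by
    intro x hx
    have h1 := hT.cols_sub (sub_cols (hT.a14_S_sub ht) hx)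
    simp only [mem_insert, mem_union] at h1
    simp only [mem_union, mem_inter, mem_singleton]
    tauto
  have h1 := card_le_card hsub
  have h2 := card_union_le (e t ∩ {v}) ((e t ∩ cols e P1) ∪ (e t ∩ cols e P2) ∪
    (e t ∩ cols e P3) ∪ (e t ∩ cols e Y))
  have h3 := card_union_le ((e t ∩ cols e P1) ∪ (e t ∩ cols e P2) ∪ (e t ∩ cols e P3))
    (e t ∩ cols e Y)
  have h5 := card_union_le ((e t ∩ cols e P1) ∪ (e t ∩ cols e P2)) (e t ∩ cols e P3)
  have h6 := card_union_le (e t ∩ cols e P1) (e t ∩ cols e P2)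
  have h7 : (e t ∩ {v}).card ≤ if v ∈ e t then 1 else 0 := by
    split_ifs with hv
    · exact (card_le_card inter_subset_right).trans (by simp)
    · have : e t ∩ {v} = ∅ := by
        ext x
        simp only [mem_inter, mem_singleton, notMem_empty, iff_false, not_and]
        rintro hx rfl
        exact hv hx
      rw [this]
      simp
  omega

/-- ROW A14.  `S4 = insert a (rho e W v)`.  The four edges cannot all be absorbed.

PROOF.  `tau e W ≤ tau e (P1 ∪ A1) + tau e (P2 ∪ A2) + tau e (P3 ∪ A3) + tau e Y` (`tau_mono`,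
`tau_union`, `hT.cover`).  `W.card = P1.card + P2.card + P3.card + Y.card + 4` (disjointness from
`Sep.disj h.hs.hne` and `hT.dis1` ..; `a ∉ rho e W v`; only `≥` is needed).  `psi e Y ≤ 13 * Y.card + 2`
(`hT.total`, `hT.val1` ..), `h.HY` for `Y` (`a ∉ Y`): `2 * tau e Y ≤ Y.card`.  So
`2 * tau e W ≤ W.card - 1`, contradiction with `h.tau_eq`. -/
theorem Tri.no_cover (h : Low e W) {v : V} {a : ι} {P1 P2 P3 Y : Finset ι}
    (hT : Tri e W v a P1 P2 P3 Y) {A1 A2 A3 : Finset ι}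
    (hA : insert a (rho e W v) ⊆ A1 ∪ A2 ∪ A3) (h1 : 2 * tau e (P1 ∪ A1) ≤ P1.card + 1)
    (h2 : 2 * tau e (P2 ∪ A2) ≤ P2.card + 1) (h3 : 2 * tau e (P3 ∪ A3) ≤ P3.card + 1) :
    False := by
  have hne := h.hs.hne
  have hW : W ⊆ ((P1 ∪ A1) ∪ (P2 ∪ A2)) ∪ ((P3 ∪ A3) ∪ Y) := by
    intro x hx
    have h4 := hT.cover hx
    rw [mem_union] at h4
    rcases h4 with h4 | h4
    · simp only [mem_union] at h4 ⊢
      tauto
    · have h5 := hA h4
      simp only [mem_union] at h5 ⊢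
      tauto
  have t1 := tau_le_of_subset hne hW
  have t2 := tau_union hne (P1 ∪ A1) (P2 ∪ A2)
  have t3 := tau_union hne (P3 ∪ A3) Y
  have hY := h.HY hT.subY (hT.a14_ne hT.disY)
  have hY2 := hT.a14_psiY
  have htau := h.tau_eq
  have d12 := hT.s12.disj hne
  have d13 := hT.s13.disj hne
  have d23 := hT.s23.disj hne
  have d1Y := hT.s1Y.disj hne
  have d2Y := hT.s2Y.disj hne
  have d3Y := hT.s3Y.disj hne
  have c1 : (P1 ∪ P2).card = P1.card + P2.card := card_union_of_disjoint d12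
  have c2 : (P1 ∪ P2 ∪ P3).card = (P1 ∪ P2).card + P3.card :=
    card_union_of_disjoint (disjoint_union_left.2 ⟨d13, d23⟩)
  have c3 : (P1 ∪ P2 ∪ P3 ∪ Y).card = (P1 ∪ P2 ∪ P3).card + Y.card :=
    card_union_of_disjoint (disjoint_union_left.2 ⟨disjoint_union_left.2 ⟨d1Y, d2Y⟩, d3Y⟩)
  have c4 : (P1 ∪ P2 ∪ P3 ∪ Y ∪ insert a (rho e W v)).card =
      (P1 ∪ P2 ∪ P3 ∪ Y).card + (insert a (rho e W v)).card :=
    card_union_of_disjoint (disjoint_union_left.2 ⟨disjoint_union_left.2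
      ⟨disjoint_union_left.2 ⟨hT.dis1, hT.dis2⟩, hT.dis3⟩, hT.disY⟩)
  have c5 := hT.a14_S_card
  have c6 := card_le_card (union_subset (union_subset (union_subset
    (union_subset hT.sub1 hT.sub2) hT.sub3) hT.subY) hT.a14_S_sub)
  omega

/-- A part of smallest weight with three slots in use.

PROOF.  Let `S4 = insert a (rho e W v)`, `i_j = ∑ t ∈ S4, (e t ∩ cols e P_j).card`, similarly `i_Y`.
Each `t ∈ S4` has `(e t).card = 4`, and `e t ⊆ cols e W ⊆ insert v (..)` (`hT.cols_sub`), so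
`16 ≤ 3 + i_1 + i_2 + i_3 + i_Y` (`v ∈ e t` for `t ∈ rho e W v`, `v ∉ e a` because `a ∈ W`,
`a ∉ rho e W v`).  `slots` (row A11): `2 * i_j + 13 * P_j.card ≤ psi e P_j`,
`2 * i_Y + 13 * Y.card ≤ psi e Y`.  By `psi_parity` and `hT.tau1` (so `P1.card` is odd),
`psi e P_j = 13 * P_j.card + 12` or `≥ 13 * P_j.card + 14`.  By `hT.total` at most one of the
three can be `14`, and then `psi e Y = 13 * Y.card`, `i_Y = 0`.  If all three are `12`: `i_Y ≤ 1`,
some `i_j ≥ 4`.  If exactly one is `14`, its `i ≤ 7`, the other two have sum `≥ 6`, one of them is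
`≥ 3`.  Use `hT`, `hT.rot`, `hT.rot.rot` for the three choices. -/
theorem Tri.exists_good (h : Low e W) {v : V} {a : ι} {P1 P2 P3 Y : Finset ι}
    (hT : Tri e W v a P1 P2 P3 Y) : ∃ Q1 Q2 Q3, Tri e W v a Q1 Q2 Q3 Y ∧
      psi e Q1 = 13 * Q1.card + 12 ∧
      3 ≤ ∑ t ∈ insert a (rho e W v), (e t ∩ cols e Q1).card := by
  have hSW := hT.a14_S_sub
  have b1 := slots (e := e) (W := W) h.hs h.hD hT.sub1 hSW hT.dis1
  have b2 := slots (e := e) (W := W) h.hs h.hD hT.sub2 hSW hT.dis2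
  have b3 := slots (e := e) (W := W) h.hs h.hD hT.sub3 hSW hT.dis3
  have bY := slots (e := e) (W := W) h.hs h.hD hT.subY hSW hT.disY
  have hsum : 16 ≤ 3 + (∑ t ∈ insert a (rho e W v), (e t ∩ cols e P1).card +
      ∑ t ∈ insert a (rho e W v), (e t ∩ cols e P2).card +
      ∑ t ∈ insert a (rho e W v), (e t ∩ cols e P3).card) +
      ∑ t ∈ insert a (rho e W v), (e t ∩ cols e Y).card := by
    have h1 : ∑ t ∈ insert a (rho e W v), 4 ≤ ∑ t ∈ insert a (rho e W v),
        ((if v ∈ e t then 1 else 0) + ((e t ∩ cols e P1).card + (e t ∩ cols e P2).card +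
      (e t ∩ cols e P3).card) + (e t ∩ cols e Y).card) :=
      sum_le_sum (fun t ht => hT.a14_one ht)
    rw [sum_const, hT.a14_S_card, sum_add_distrib, sum_add_distrib, sum_add_distrib,
      sum_add_distrib] at h1
    have h2 : ∑ t ∈ insert a (rho e W v), (if v ∈ e t then 1 else 0) ≤ 3 := by
      rw [sum_insert hT.haT]
      have h3 : v ∉ e a := fun hv => hT.haT (mem_rho.2 ⟨hT.haW, hv⟩)
      rw [if_neg h3, zero_add]
      refine (sum_le_card_nsmul (rho e W v) _ 1 (fun t _ => ?_)).trans ?_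
      · split_ifs <;> omega
      · rw [hT.triple]
        simp
    simp only [smul_eq_mul] at h1
    omega
  have q1 := psi_parity e P1
  have q2 := psi_parity e P2
  have q3 := psi_parity e P3
  have := hT.total
  have := hT.val1
  have := hT.val2
  have := hT.val3
  have := hT.tau1
  have := hT.tau2
  have := hT.tau3
  have := h.ge hT.subY
  have key : (psi e P1 = 13 * P1.card + 12 ∧
      3 ≤ ∑ t ∈ insert a (rho e W v), (e t ∩ cols e P1).card) ∨
      (psi e P2 = 13 * P2.card + 12 ∧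
      3 ≤ ∑ t ∈ insert a (rho e W v), (e t ∩ cols e P2).card) ∨
      (psi e P3 = 13 * P3.card + 12 ∧
      3 ≤ ∑ t ∈ insert a (rho e W v), (e t ∩ cols e P3).card) := by
    omega
  rcases key with hk | hk | hk
  · exact ⟨P1, P2, P3, hT, hk⟩
  · exact ⟨P2, P3, P1, hT.rot, hk⟩
  · exact ⟨P3, P1, P2, hT.rot.rot, hk⟩

/-- Few vertices outside the parts.  PROOF.  For `Z ⊆ insert a (rho e W v)`:
`∑ t ∈ Z, 4 ≤ ∑ t ∈ Z, (1 + (e t ∩ cols e P1).card + (e t ∩ cols e P2).card +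
(e t ∩ cols e P3).card + (e t ∩ cols e Y).card)` (`hT.four`, `hT.cols_sub`), and
`∑ t ∈ Z, (e t ∩ cols e Y).card ≤ 1` by `slots` and `psi e Y ≤ 13 * Y.card + 2`. -/
theorem Tri.few (h : Low e W) {v : V} {a : ι} {P1 P2 P3 Y : Finset ι}
    (hT : Tri e W v a P1 P2 P3 Y) {Z : Finset ι} (hZ : Z ⊆ insert a (rho e W v)) :
    3 * Z.card ≤ 1 + ∑ t ∈ Z, ((e t ∩ cols e P1).card + (e t ∩ cols e P2).card +
      (e t ∩ cols e P3).card) := by
  have hZW : Z ⊆ W := hZ.trans hT.a14_S_sub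
  have hdY : Disjoint Y Z := disjoint_of_subset_right hZ hT.disY
  have bY := slots (e := e) (W := W) h.hs h.hD hT.subY hZW hdY
  have hY2 := hT.a14_psiY
  have h1 : ∑ t ∈ Z, 4 ≤ ∑ t ∈ Z, (1 + ((e t ∩ cols e P1).card + (e t ∩ cols e P2).card +
      (e t ∩ cols e P3).card) + (e t ∩ cols e Y).card) := by
    refine sum_le_sum (fun t ht => ?_)
    have h2 := hT.a14_one (hZ ht)
    have h3 : (if v ∈ e t then 1 else 0) ≤ 1 := by split_ifs <;> omega
    omega
  rw [sum_const, sum_add_distrib, sum_add_distrib (f := fun _ => 1), sum_const] at h1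
  simp only [smul_eq_mul, mul_one] at h1
  omega

end Pool.Agent.TD7
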