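import Pool.Agent.TD7.DefA

set_option autoImplicit false
set_option linter.unusedSectionVars false

namespace Pool.Agent.TD7

open Finset Pool.Agent.TD5 Pool.Agent.TD6

variable {ι V : Type*} [DecidableEq ι] [DecidableEq V] {e : ι → Finset V} {W : Finset ι}

/-- ROW A15, first part (pure combinatorics).  PROOF.  Take `x ∈ Cc s`, `y ∈ Cc t`.  If some
such pair has `y = x`: choose `z ∈ K` different from `x` and `par x` (`K.card = 6`): covers.
If some pair has `y ≠ x`, `y ≠ par x`: `x, y` cover.  Otherwise `y = par x` for all `x ∈ Cc s`,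
`y ∈ Cc t`, so both sets are singletons (`par` is injective on `K` by `inv`). -/
theorem covS_pair {K : Finset V} {par : V → V} (hP : Par6 K par) {Cc : ι → Finset V} {s t : ι}
    (hs : (Cc s).Nonempty) (ht : (Cc t).Nonempty) (hsK : Cc s ⊆ K) (htK : Cc t ⊆ K) :
    CovS K par Cc {s, t} ∨ ∃ x ∈ K, Cc s = {x} ∧ Cc t = {par x} := by
  obtain ⟨x0, hx0⟩ := hs
  obtain ⟨y0, hy0⟩ := ht
  by_cases hcase : ∃ x ∈ Cc s, ∃ y ∈ Cc t, y ≠ par x
  · obtain ⟨x, hx, y, hy, hyx⟩ := hcase
    left
    by_cases hxy : y = x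
    · have h1 : 0 < (K \ {x, par x}).card := by
        have h2 := le_card_sdiff ({x, par x} : Finset V) K
        have h3 := card_le_two (a := x) (b := par x)
        have h4 := hP.card
        omega
      obtain ⟨z, hz⟩ := card_pos.1 h1
      rw [mem_sdiff, mem_insert, mem_singleton, not_or] at hz
      refine ⟨x, hsK hx, z, hz.1, hz.2.1, hz.2.2, ?_⟩
      intro t' ht'
      rw [mem_insert, mem_singleton] at ht'
      rcases ht' with rfl | rfl
      · exact Or.inl hx
      · exact Or.inl (hxy ▸ hy)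
    · refine ⟨x, hsK hx, y, htK hy, hxy, hyx, ?_⟩
      intro t' ht'
      rw [mem_insert, mem_singleton] at ht'
      rcases ht' with rfl | rfl
      · exact Or.inl hx
      · exact Or.inr hy
  · push Not at hcase
    right
    refine ⟨x0, hsK hx0, ?_, ?_⟩
    · rw [eq_singleton_iff_unique_mem]
      refine ⟨hx0, fun x hx => ?_⟩
      have h1 := hcase x hx y0 hy0
      have h2 := hcase x0 hx0 y0 hy0
      rw [← hP.inv x (hsK hx), ← h1, h2, hP.inv x0 (hsK hx0)]
    · rw [eq_singleton_iff_unique_mem]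
      refine ⟨?_, fun y hy => hcase x0 hx0 y hy⟩
      rw [← hcase x0 hx0 y0 hy0]
      exact hy0

/-- A set with four given elements. -/
structure A15Four (S : Finset ι) (a b c d : ι) : Prop where
  mem : ∀ x, x ∈ S ↔ x = a ∨ x = b ∨ x = c ∨ x = d
  ab : a ≠ b
  ac : a ≠ c
  ad : a ≠ d
  bc : b ≠ c
  bd : b ≠ d
  cd : c ≠ d

theorem A15Four.s1 {S : Finset ι} {a b c d : ι} (h : A15Four S a b c d) : A15Four S b a c d :=
  ⟨fun x => (h.mem x).trans (by tauto), h.ab.symm, h.bc, h.bd, h.ac, h.ad, h.cd⟩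

theorem A15Four.s2 {S : Finset ι} {a b c d : ι} (h : A15Four S a b c d) : A15Four S a c b d :=
  ⟨fun x => (h.mem x).trans (by tauto), h.ac, h.ab, h.ad, h.bc.symm, h.cd, h.bd⟩

theorem A15Four.s3 {S : Finset ι} {a b c d : ι} (h : A15Four S a b c d) : A15Four S a b d c :=
  ⟨fun x => (h.mem x).trans (by tauto), h.ab, h.ad, h.ac, h.bd, h.bc, h.cd.symm⟩

theorem A15Four.ma {S : Finset ι} {a b c d : ι} (h : A15Four S a b c d) : a ∈ S :=
  (h.mem a).2 (Or.inl rfl)

theorem A15Four.sdiff {S : Finset ι} {a b c d : ι} (h : A15Four S a b c d) : S \ {a, b} = {c, d} := by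
  ext x
  rw [mem_sdiff, mem_insert, mem_singleton, mem_insert, mem_singleton, h.mem]
  constructor
  · rintro ⟨h1, h2⟩
    tauto
  · rintro (rfl | rfl)
    · exact ⟨Or.inr (Or.inr (Or.inl rfl)), fun hh => hh.elim (fun e1 => h.ac e1.symm) (fun e1 => h.bc e1.symm)⟩
    · exact ⟨Or.inr (Or.inr (Or.inr rfl)), fun hh => hh.elim (fun e1 => h.ad e1.symm) (fun e1 => h.bd e1.symm)⟩

theorem A15Four.eq {S : Finset ι} {a b c d : ι} (h : A15Four S a b c d) : S = {a, b, c, d} := by
  ext x
  rw [h.mem, mem_insert, mem_insert, mem_insert, mem_singleton]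

theorem A15Four.sum {S : Finset ι} {a b c d : ι} (h : A15Four S a b c d) (f : ι → ℕ) :
    ∑ t ∈ S, f t = f a + f b + f c + f d := by
  rw [h.eq, sum_insert, sum_insert, sum_insert, sum_singleton]
  · ring
  · rw [mem_singleton]
    exact h.cd
  · rw [mem_insert, mem_singleton, not_or]
    exact ⟨h.bc, h.bd⟩
  · rw [mem_insert, mem_insert, mem_singleton, not_or, not_or]
    exact ⟨h.ab, h.ac, h.ad⟩

theorem a15_four {S : Finset ι} (hS : S.card = 4) {a b : ι} (ha : a ∈ S) (hb : b ∈ S) (hab : a ≠ b) :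
    ∃ c d, A15Four S a b c d := by
  have hsub : ({a, b} : Finset ι) ⊆ S := by
    intro x hx
    rw [mem_insert, mem_singleton] at hx
    rcases hx with rfl | rfl
    · exact ha
    · exact hb
  have h1 := card_sdiff_add_card_eq_card hsub
  have h2 := card_pair hab
  have h3 : (S \ {a, b}).card = 2 := by omega
  obtain ⟨c, d, hcd, h4⟩ := card_eq_two.1 h3
  have hc : c ∈ S \ {a, b} := by rw [h4]; exact mem_insert_self _ _
  have hd : d ∈ S \ {a, b} := by rw [h4]; exact mem_insert_of_mem (mem_singleton_self _)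
  rw [mem_sdiff, mem_insert, mem_singleton, not_or] at hc hd
  refine ⟨c, d, ⟨fun x => ⟨fun hx => ?_, ?_⟩, hab, Ne.symm hc.2.1, Ne.symm hd.2.1, Ne.symm hc.2.2,
    Ne.symm hd.2.2, hcd⟩⟩
  · by_cases h5 : x = a
    · exact Or.inl h5
    · by_cases h6 : x = b
      · exact Or.inr (Or.inl h6)
      · have h7 : x ∈ S \ {a, b} := by
          rw [mem_sdiff, mem_insert, mem_singleton, not_or]
          exact ⟨hx, h5, h6⟩
        rw [h4, mem_insert, mem_singleton] at h7
        exact Or.inr (Or.inr h7)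
  · rintro (rfl | rfl | rfl | rfl)
    · exact ha
    · exact hb
    · exact hc.1
    · exact hd.1

/-- ROW A15, second part (pure combinatorics on four indices).

PROOF.  Let `N1 = S.filter (fun t => (Cc t).Nonempty)`, `2 ≤ N1.card ≤ 4`; `α t = (Cc t).card`.
(i) `N1.card = 2`, `N1 = {s, t}`: the other two have `α = 0`.  As `∑ α ≥ 3`, one of `α s`, `α t` is
`≥ 2`, so by `covS_pair` `CovS K par Cc {s, t}`, and `hstar` contradicts `α = 0` for the others.
(ii) `N1.card = 3`, `N1 = {s1, s2, s3}`, `S = N1 ∪ {s0}`, `Cc s0 = ∅`.  If some pair, say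
`s1, s2`, is not covered: `Cc s1 = {x}`, `Cc s2 = {par x}`.  Then the pair `s1, s3` is covered
(otherwise `Cc s1 = {x'}`, `Cc s3 = {par x'}` or the other order, giving `Cc s3 = Cc s2` in both cases,
against `hdis`), and `hstar s1 s3` says `α s2 + α s0 ≥ 2`, but `α s2 = 1`, `α s0 = 0`.  So all three
pairs of `N1` are covered.  By `h0`, `s0 ∈ M` or `s0 ∈ N`.  If `s0 ∈ M`, take `w ∈ N`, `w ≠ s0`
(`2 ≤ N.card`): `S \ {s0, w}` is a pair of `N1`, covered: contradiction with `hfree s0 w`.
The case `s0 ∈ N` is symmetric (`u ∈ M`, `u ≠ s0`).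
(iii) `N1 = S`.  Take `u ∈ M`, `w ∈ N`, `u ≠ w` (possible: both have at least two elements), and
`S \ {u, w} = {a, b}`.  By `hfree` the pair `a, b` is not covered: `Cc a = {x}`, `Cc b = {par x}`.
`a ∉ M`: otherwise `hfree a w` says that `S \ {a, w} = {u, b}` is not covered, so
`Cc u = {x'}`, `Cc b = {par x'}` (or the other order), which gives `Cc u = Cc a` (apply `par`, use
`inv`), against `hdis`.  In the same way `b ∉ M`, `a ∉ N`, `b ∉ N`.  Then `h5 a b` gives a
contradiction. -/
theorem tri_comb {K : Finset V} {par : V → V} (hP : Par6 K par) {S : Finset ι}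
    (hS : S.card = 4) {Cc : ι → Finset V} (hC : ∀ t ∈ S, Cc t ⊆ K)
    (hdis : ∀ s ∈ S, ∀ t ∈ S, s ≠ t → Disjoint (Cc s) (Cc t))
    (h3 : 3 ≤ ∑ t ∈ S, (Cc t).card) {M N : Finset ι} (hM : M ⊆ S) (hN : N ⊆ S)
    (hM2 : 2 ≤ M.card) (hN2 : 2 ≤ N.card)
    (hdeg : 2 ≤ (S.filter (fun t => (Cc t).Nonempty)).card)
    (hstar : ∀ s ∈ S, ∀ t ∈ S, s ≠ t → CovS K par Cc {s, t} →
      2 ≤ ∑ u ∈ S \ {s, t}, (Cc u).card)
    (hfree : ∀ u ∈ M, ∀ w ∈ N, u ≠ w → ¬ CovS K par Cc (S \ {u, w}))
    (h0 : ∀ t ∈ S, Cc t = ∅ → t ∈ M ∨ t ∈ N)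
    (h5 : ∀ u ∈ S, ∀ w ∈ S, u ≠ w → (Cc u).card ≤ 1 → (Cc w).card ≤ 1 →
      (u ∈ M ∨ u ∈ N) ∨ (w ∈ M ∨ w ∈ N)) : False := by
  -- at most one partner is not covered
  have hU : ∀ a ∈ S, ∀ b ∈ S, ∀ c ∈ S, b ≠ c → (Cc a).Nonempty → (Cc b).Nonempty →
      (Cc c).Nonempty → ¬ CovS K par Cc {a, b} → ¬ CovS K par Cc {a, c} → False := by
    intro a ha b hb c hc hbc na nb nc hab hac
    obtain ⟨x, -, hx1, hx2⟩ := (covS_pair hP na nb (hC a ha) (hC b hb)).resolve_left hab
    obtain ⟨y, -, hy1, hy2⟩ := (covS_pair hP na nc (hC a ha) (hC c hc)).resolve_left hac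
    have hxy : x = y := by
      rw [hx1] at hy1
      exact singleton_injective hy1
    subst hxy
    have h6 := hdis b hb c hc hbc
    rw [hx2, hy2] at h6
    exact disjoint_left.1 h6 (mem_singleton_self _) (mem_singleton_self _)
  have hone : ∀ a ∈ S, ∀ b ∈ S, (Cc a).Nonempty → (Cc b).Nonempty → ¬ CovS K par Cc {a, b} →
      (Cc a).card = 1 ∧ (Cc b).card = 1 := by
    intro a ha b hb na nb hab
    obtain ⟨x, -, hx1, hx2⟩ := (covS_pair hP na nb (hC a ha) (hC b hb)).resolve_left hab
    rw [hx1, hx2]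
    exact ⟨card_singleton _, card_singleton _⟩
  by_cases hE : ∃ s0 ∈ S, Cc s0 = ∅
  · obtain ⟨s0, hs0, he0⟩ := hE
    by_cases hE' : ∃ s1 ∈ S, s1 ≠ s0 ∧ Cc s1 = ∅
    · obtain ⟨s1, hs1, hne, he1⟩ := hE'
      obtain ⟨a, b, h4⟩ := a15_four hS hs0 hs1 hne.symm
      have ha : a ∈ S := h4.s2.s1.ma
      have hb : b ∈ S := h4.s3.s2.s1.ma
      have hne2 : ∀ c d : ι, (∀ x, x ∈ S → x ≠ s0 → x ≠ s1 → x = c ∨ x = d) → (Cc c).Nonempty := by
        intro c d hcd
        rw [nonempty_iff_ne_empty]
        intro hc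
        have h7 : S.filter (fun t => (Cc t).Nonempty) ⊆ {d} := by
          intro x hx
          obtain ⟨hxS, hxn⟩ := mem_filter.1 hx
          rw [nonempty_iff_ne_empty] at hxn
          have e1 : x ≠ s0 := by
            rintro rfl
            exact hxn he0
          have e2 : x ≠ s1 := by
            rintro rfl
            exact hxn he1
          rcases hcd x hxS e1 e2 with e3 | e3
          · exact absurd (e3 ▸ hc) hxn
          · rw [e3]
            exact mem_singleton_self _
        have h8 := card_le_card h7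
        rw [card_singleton] at h8
        omega
      have na : (Cc a).Nonempty := hne2 a b fun x hx e1 e2 => by
        rcases (h4.mem x).1 hx with e | e | e | e
        · exact absurd e e1
        · exact absurd e e2
        · exact Or.inl e
        · exact Or.inr e
      have nb : (Cc b).Nonempty := hne2 b a fun x hx e1 e2 => by
        rcases (h4.mem x).1 hx with e | e | e | e
        · exact absurd e e1
        · exact absurd e e2
        · exact Or.inr e
        · exact Or.inl e
      have hs := h4.sum (fun t => (Cc t).card)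
      rw [he0, he1, card_empty] at hs
      by_cases hcov : CovS K par Cc {a, b}
      · have h6 := hstar a ha b hb h4.cd hcov
        have h7 : A15Four S a b s0 s1 := h4.s2.s1.s3.s2
        rw [h7.sdiff, sum_pair h7.cd, he0, he1, card_empty] at h6
        omega
      · have h6 := hone a ha b hb na nb hcov
        omega
    · push Not at hE'
      have hNE : ∀ t ∈ S, t ≠ s0 → (Cc t).Nonempty := fun t ht hts =>
        hE' t ht hts
      have key : ∀ a b c, A15Four S a b c s0 → CovS K par Cc {a, b} := by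
        intro a b c h4
        have ha : a ∈ S := h4.ma
        have hb : b ∈ S := h4.s1.ma
        have hc : c ∈ S := h4.s2.s1.ma
        have na := hNE a ha h4.ad
        have nb := hNE b hb h4.bd
        have nc := hNE c hc h4.cd
        by_contra hab
        by_cases hac : CovS K par Cc {a, c}
        · have h6 := hstar a ha c hc h4.ac hac
          have h7 : A15Four S a c b s0 := h4.s2
          rw [h7.sdiff, sum_pair h7.cd, he0, card_empty] at h6
          have h8 := hone a ha b hb na nb hab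
          omega
        · exact hU a ha b hb c hc h4.bc na nb nc hab hac
      rcases h0 s0 hs0 he0 with hm | hn
      · obtain ⟨w, hw, hws⟩ := exists_mem_ne (by omega : 1 < N.card) s0
        obtain ⟨a, b, h4⟩ := a15_four hS hs0 (hN hw) hws.symm
        refine hfree s0 hm w hw hws.symm ?_
        rw [h4.sdiff]
        exact key a b w h4.s2.s1.s3.s2.s3
      · obtain ⟨u, hu, hus⟩ := exists_mem_ne (by omega : 1 < M.card) s0
        obtain ⟨a, b, h4⟩ := a15_four hS (hM hu) hs0 hus
        refine hfree u hu s0 hn hus ?_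
        rw [h4.sdiff]
        exact key a b u h4.s2.s1.s3.s2
  · push Not at hE
    have hNE : ∀ t ∈ S, (Cc t).Nonempty := fun t ht => hE t ht
    obtain ⟨u, hu⟩ := card_pos.1 (by omega : 0 < M.card)
    obtain ⟨w, hw, hwu⟩ := exists_mem_ne (by omega : 1 < N.card) u
    obtain ⟨a, b, h4⟩ := a15_four hS (hM hu) (hN hw) hwu.symm
    have hus : u ∈ S := hM hu
    have hws : w ∈ S := hN hw
    have ha : a ∈ S := h4.s2.s1.ma
    have hb : b ∈ S := h4.s3.s2.s1.ma
    have nu := hNE u hus
    have nw := hNE w hws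
    have na := hNE a ha
    have nb := hNE b hb
    have hab : ¬ CovS K par Cc {a, b} := by
      have h6 := hfree u hu w hw hwu.symm
      rwa [h4.sdiff] at h6
    have hba : ¬ CovS K par Cc {b, a} := by rwa [pair_comm]
    have hcard := hone a ha b hb na nb hab
    rcases h5 a ha b hb h4.cd hcard.1.le hcard.2.le with (hm | hn) | (hm | hn)
    · have h6 := hfree a hm w hw h4.bc.symm
      have h7 : A15Four S a w u b := h4.s1.s2.s1
      rw [h7.sdiff, pair_comm] at h6
      exact hU b hb a ha u hus h7.ac nb na nu hba h6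
    · have h6 := hfree u hu a hn h4.ac
      have h7 : A15Four S u a w b := h4.s2
      rw [h7.sdiff, pair_comm] at h6
      exact hU b hb a ha w hws h7.bc nb na nw hba h6
    · have h6 := hfree b hm w hw h4.bd.symm
      have h7 : A15Four S b w u a := h4.s3.s1.s2.s1
      rw [h7.sdiff, pair_comm] at h6
      exact hU a ha b hb u hus h7.ac na nb nu hab h6
    · have h6 := hfree u hu b hn h4.ad
      have h7 : A15Four S u b w a := h4.s3.s2
      rw [h7.sdiff, pair_comm] at h6
      exact hU a ha b hb w hws h7.bc na nb nw hab h6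

end Pool.Agent.TD7
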