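import Pool.Agent.TD7.DefA

set_option autoImplicit false
set_option linter.unusedSectionVars false

namespace Pool.Agent.TD7

open Finset Pool.Agent.TD5 Pool.Agent.TD6

variable {ι V : Type*} [DecidableEq ι] [DecidableEq V] {e : ι → Finset V} {W : Finset ι}

/-- ROW A2, first part (weight count).  `T = rho e W v` (three edges at `v`), `R = W \ T`,
`U = B.biUnion id`, `N = nA e A B`, `Y = (R \ U) \ N`.

PROOF.  As in the proof of `TD6.Low.tau_eq` (file TD6/LowA.lean, second half) and
`TD5.exists_dec` (file TD5/Main.lean).  `sep_all hc hB : Sep e U Y`; `card_all hc hB` gives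
`R.card = U.card + N.card + Y.card`, and `W.card = R.card + 3` (`card_sdiff_add_card_eq_card`).
`U` and `N` are disjoint (`U ⊆ R \ A`, `N ⊆ A`).  `ws e W = ws e U + ws e Y + ws e N + ws e T`
(`ws_sdiff` / `ws_union`, the four sets are disjoint and their union is `W`), `cols e U` and
`cols e Y` are disjoint, `v ∉ cols e U ∪ cols e Y` (`notMem_cols_rho W v`, `cols_mono`),
`v ∈ cols e W`, and the last set is disjoint from these, all inside `cols e W`:
`6 * (cols e W).card ≥ 6 * (cols e U).card + 6 * (cols e Y).card + 6 + 6 * (last).card`. -/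
theorem low_total (h : Low e W) {v : V} (hv : (rho e W v).card = 3) {A : Finset ι}
    {Q B : Finset (Finset ι)} (hc : Cert e (W \ rho e W v) A Q) (hB : B ⊆ Q) :
    psi e (B.biUnion id) + psi e (((W \ rho e W v) \ B.biUnion id) \ nA e A B) +
      ws e (nA e A B) + ws e (rho e W v) + 6 +
      6 * ((cols e W) \ insert v (cols e (B.biUnion id) ∪
        cols e (((W \ rho e W v) \ B.biUnion id) \ nA e A B))).card ≤ psi e W ∧
    W.card = (B.biUnion id).card + (nA e A B).card +
      (((W \ rho e W v) \ B.biUnion id) \ nA e A B).card + 3 := by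
  have hT := card_sdiff_add_card_eq_card (rho_sub (e := e) W v)
  have hcard := card_all hc hB
  have hsep := sep_all hc hB
  have hwT := ws_sdiff (e := e) (rho_sub (e := e) W v)
  have hUR : B.biUnion id ⊆ W \ rho e W v :=
    biUnion_subset.2 (fun P hP => (hc.mem P (hB hP)).trans sdiff_subset)
  have hNU : nA e A B ⊆ (W \ rho e W v) \ B.biUnion id := by
    intro i hi
    have h2 : nA e A B ⊆ A := filter_subset _ _
    rw [mem_sdiff]
    refine ⟨hc.sub (h2 hi), ?_⟩
    intro hcon
    obtain ⟨P, hP, hiP⟩ := mem_biUnion.1 hcon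
    exact (mem_sdiff.1 (hc.mem P (hB hP) hiP)).2 (h2 hi)
  have hwU := ws_sdiff (e := e) hUR
  have hwN := ws_sdiff (e := e) hNU
  have hUcols : cols e (B.biUnion id) ⊆ cols e (W \ rho e W v) := cols_mono hUR
  have hYcols : cols e (((W \ rho e W v) \ B.biUnion id) \ nA e A B) ⊆ cols e (W \ rho e W v) :=
    cols_mono (sdiff_subset.trans sdiff_subset)
  have hvn : v ∉ cols e (B.biUnion id) ∪ cols e (((W \ rho e W v) \ B.biUnion id) \ nA e A B) :=
    fun hcon => notMem_cols_rho (e := e) W v (union_subset hUcols hYcols hcon)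
  have hvW : v ∈ cols e W := by
    have : (rho e W v).Nonempty := card_pos.1 (by omega)
    obtain ⟨i, hi⟩ := this
    exact mem_cols.2 ⟨i, (mem_rho.1 hi).1, (mem_rho.1 hi).2⟩
  have hins : insert v (cols e (B.biUnion id) ∪
      cols e (((W \ rho e W v) \ B.biUnion id) \ nA e A B)) ⊆ cols e W :=
    insert_subset hvW ((union_subset hUcols hYcols).trans (cols_mono sdiff_subset))
  have hlast := card_sdiff_add_card_eq_card hins
  rw [card_insert_of_notMem hvn, card_union_of_disjoint hsep] at hlast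
  refine ⟨?_, ?_⟩
  · unfold psi
    omega
  · omega

/-- ROW A2, second part.  PROOF.  Each `P ∈ B` is a proper subset of `W` (it is contained in `R`,
and `R.card + 3 = W.card`), so `h.HY` gives `24 * tau e P + P.card ≤ psi e P`, with `hbad`:
`13 * P.card + 12 ≤ psi e P`; sum with `pack_psi` (members of `B` are separated: `hc.sep`):
`13 * U.card + 12 * B.card ≤ psi e U`.  `psi e Y ≥ 13 * Y.card` (`h.ge`), `ws e N ≥ 5 * N.card`
(`TD6.ws_ge`), `ws e T ≥ 15`.  `h.val_le : psi e W ≤ 13 * W.card + 12`, `h.tau_eq`, and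
`tau e W ≤ tau e R + 1` (`tau_le_of_subset`, `tau_le_one`), so
`W.card + 1 ≤ 2 * tau e R + 2 ≤ R.card + B.card - N.card + 2`, i.e. `N.card + 2 ≤ B.card`.
From `low_total`: `12 * B.card ≤ 8 * N.card + 30` (all the rest is nonnegative), so
`N.card ≤ 1` etc. (`omega`). -/
theorem low_cases (h : Low e W) {v : V} (hv : (rho e W v).card = 3) {A : Finset ι}
    {Q B : Finset (Finset ι)} (hc : Cert e (W \ rho e W v) A Q) (hB : B ⊆ Q)
    (hbad : ∀ P ∈ B, P.card + 1 ≤ 2 * tau e P)
    (hk : 2 * tau e (W \ rho e W v) + (nA e A B).card ≤ (W \ rho e W v).card + B.card) :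
    ((nA e A B).card = 0 ∧ B.card = 2) ∨ ((nA e A B).card = 1 ∧ B.card = 3) := by
  obtain ⟨h1, h2⟩ := low_total h hv hc hB
  have hT := card_sdiff_add_card_eq_card (rho_sub (e := e) W v)
  have hPR : ∀ P ∈ B, P ⊆ W \ rho e W v := fun P hP => (hc.mem P (hB hP)).trans sdiff_subset
  have hsum : ∑ P ∈ B, (13 * P.card + 12) ≤ ∑ P ∈ B, psi e P := by
    apply sum_le_sum
    intro P hP
    have h3 := card_le_card (hPR P hP)
    have h4 : P ≠ W := by
      rintro rfl
      omega
    have h5 := h.HY ((hPR P hP).trans sdiff_subset) h4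
    have h6 := hbad P hP
    omega
  obtain ⟨hp1, hp2⟩ := pack_psi h.hs B (fun P hP P' hP' hn => hc.sep (hB hP) (hB hP') hn)
  rw [sum_add_distrib, ← mul_sum, sum_const, smul_eq_mul, ← hp1, ← hp2] at hsum
  have hY : 13 * (((W \ rho e W v) \ B.biUnion id) \ nA e A B).card ≤
      psi e (((W \ rho e W v) \ B.biUnion id) \ nA e A B) :=
    h.ge (sdiff_subset.trans (sdiff_subset.trans sdiff_subset))
  have hN := TD6.ws_ge e (nA e A B)
  have hwT := TD6.ws_ge e (rho e W v)
  have hval := h.val_le
  have htau := h.tau_eq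
  have hsub : W ⊆ (W \ rho e W v) ∪ rho e W v := by
    rw [sdiff_union_of_subset (rho_sub W v)]
  have ht1 := tau_le_of_subset h.hne hsub
  have ht2 : tau e (rho e W v) ≤ 1 := tau_le_one v (fun i hi => (mem_rho.1 hi).2)
  omega

end Pool.Agent.TD7
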