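import Pool.Agent.TD7.DefA

set_option autoImplicit false
set_option linter.unusedSectionVars false

namespace Pool.Agent.TD7

open Finset Pool.Agent.TD5 Pool.Agent.TD6

variable {ι V : Type*} [DecidableEq ι] [DecidableEq V] {e : ι → Finset V} {W : Finset ι}

/-- ROW A3.  PROOF.  Same as `TD5.exists_dec` (file TD5/Main.lean, copy it) with `psi` instead of
`6 * cols + nu`.  `B = {P0, P0'}` and `nA e A B = ∅`, so `sep_rest hc hB` says that `P0` and `P0'`
are closed in `R = W \ rho e W v`; `exists_min_closed h.hne` gives `P ⊆ P0`, `P' ⊆ P0'` closed,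
with `Conn` and `P.card + 1 ≤ 2 * tau e P`.  Put `Y = R \ (P ∪ P')`; `P, P', Y` are separated, so
(`psi_union`) `psi e R = psi e P + psi e P' + psi e Y`, and
`psi e R + ws e T + 6 + 6 * s ≤ psi e W ≤ 13 * W.card + 12 = 13 * R.card + 51`, where
`s = ((cols e W) \ insert v (cols e R)).card` (`ws_sdiff`, `notMem_cols_rho`, `cols_mono`).
That is `bound`.  `le_val`: `h.HY` for `P` (a proper subset of `W`):
`24 * tau e P + P.card ≤ psi e P`.  From `bound`, `le_val` for `P'`, `h.ge` for `Y`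
and `ws e T ≥ 15`: `psi e P ≤ 13 * P.card + 18`, so `2 * tau e P ≤ P.card + 1`. -/
theorem exists_ldec_of (h : Low e W) {v : V} (hv : (rho e W v).card = 3) {A : Finset ι}
    {Q B : Finset (Finset ι)} (hc : Cert e (W \ rho e W v) A Q) (hB : B ⊆ Q)
    (hbad : ∀ P ∈ B, P.card + 1 ≤ 2 * tau e P) (hN : (nA e A B).card = 0) (hB2 : B.card = 2) :
    ∃ P P', LDec e W v P P' := by
  obtain ⟨R, hR⟩ : ∃ R, R = W \ rho e W v := ⟨_, rfl⟩
  rw [← hR] at hc
  have hRW : R ⊆ W := by rw [hR]; exact sdiff_subset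
  have hRc : R.card + 3 = W.card := by
    have := card_sdiff_add_card_eq_card (rho_sub (e := e) W v)
    rw [← hR, hv] at this
    exact this
  have hvR : v ∉ cols e R := by
    intro hcon
    obtain ⟨i, hi, hvi⟩ := mem_cols.1 hcon
    rw [hR] at hi
    obtain ⟨h1, h2⟩ := mem_sdiff.1 hi
    exact h2 (mem_rho.2 ⟨h1, hvi⟩)
  have hvW : v ∈ cols e W := by
    have : (rho e W v).Nonempty := card_pos.1 (by omega)
    obtain ⟨i, hi⟩ := this
    exact mem_cols.2 ⟨i, (mem_rho.1 hi).1, (mem_rho.1 hi).2⟩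
  have hcolsub : insert v (cols e R) ⊆ cols e W := insert_subset hvW (cols_mono hRW)
  have hcol := card_sdiff_add_card_eq_card hcolsub
  rw [card_insert_of_notMem hvR] at hcol
  have hPR : ∀ P ∈ B, P ⊆ R := fun P hP => (hc.mem P (hB hP)).trans sdiff_subset
  have hne' : ∀ X ⊆ R, X ≠ W := by
    rintro X hX rfl
    have := card_le_card hX
    omega
  rw [card_eq_zero] at hN
  obtain ⟨P0, P0', hPP, hBeq⟩ := card_eq_two.1 hB2
  have hP0 : P0 ∈ B := by rw [hBeq]; simp
  have hP0' : P0' ∈ B := by rw [hBeq]; simp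
  have hcl : ∀ P ∈ B, TD5.Sep e P (R \ P) := by
    intro P hP
    have := sep_rest hc hB hP
    rwa [hN, sdiff_empty] at this
  obtain ⟨P, hPP0, hPs, hPb, hPc⟩ := exists_min_closed h.hne (hcl P0 hP0)
    (hbad P0 hP0)
  obtain ⟨P', hPP0', hPs', hPb', hPc'⟩ := exists_min_closed h.hne
    (hcl P0' hP0') (hbad P0' hP0')
  have hPR1 : P ⊆ R := hPP0.trans (hPR P0 hP0)
  have hPR1' : P' ⊆ R := hPP0'.trans (hPR P0' hP0')
  have hdisj : Disjoint P P' := by
    apply disjoint_of_subset_left hPP0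
    apply disjoint_of_subset_right hPP0'
    exact hc.disj P0 (hB hP0) P0' (hB hP0') hPP
  have hsep : TD5.Sep e P P' := hPs.mono (Subset.refl _) (fun _ hi => mem_sdiff.2 ⟨hPR1' hi,
    fun h' => disjoint_left.1 hdisj h' hi⟩)
  obtain ⟨Y, hY⟩ : ∃ Y, Y = R \ (P ∪ P') := ⟨_, rfl⟩
  have hsepY : TD5.Sep e (P ∪ P') Y := by
    rw [hY]
    apply Sep.union_left
    · exact hPs.mono (Subset.refl _) (sdiff_subset_sdiff (Subset.refl _) subset_union_left)
    · exact hPs'.mono (Subset.refl _) (sdiff_subset_sdiff (Subset.refl _) subset_union_right)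
  have hRU : (P ∪ P') ∪ Y = R := by
    rw [hY]
    exact union_sdiff_of_subset (union_subset hPR1 hPR1')
  have k1 := psi_union h.hs hsepY
  have k2 := psi_union h.hs hsep
  have k5 := card_sdiff_add_card_eq_card (union_subset hPR1 hPR1')
  have k6 := card_union_of_disjoint hdisj
  have k8 := h.HY (hPR1.trans hRW) (hne' P hPR1)
  have k9 := h.HY (hPR1'.trans hRW) (hne' P' hPR1')
  have k10 : 13 * Y.card ≤ psi e Y := by
    refine h.ge ?_
    rw [hY]
    exact sdiff_subset.trans hRW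
  have k11 := h.val_le
  have k12 := ws_sdiff (e := e) (rho_sub (e := e) W v)
  have k13 := TD6.ws_ge e (rho e W v)
  rw [hRU] at k1
  rw [← hY] at k5
  rw [← hR] at k12
  have k14 : psi e W = ws e W + 6 * (cols e W).card := rfl
  have k15 : psi e R = ws e R + 6 * (cols e R).card := rfl
  have hbound : psi e P + psi e P' + psi e Y + ws e (rho e W v) +
      6 * ((cols e W) \ insert v (cols e R)).card ≤
      13 * P.card + 13 * P'.card + 13 * Y.card + 45 := by omega
  subst hY
  subst hR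
  refine ⟨P, P', ⟨hv, ⟨hPR1, hPs, hPc, ?_, ?_⟩, ⟨hPR1', hPs', hPc', ?_, ?_⟩, hdisj, hbound⟩⟩
  · omega
  · omega
  · omega
  · omega

end Pool.Agent.TD7
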