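import Pool.Agent.TD7.A2

set_option autoImplicit false
set_option linter.unusedSectionVars false

namespace Pool.Agent.TD7

open Finset Pool.Agent.TD5 Pool.Agent.TD6

variable {ι V : Type*} [DecidableEq ι] [DecidableEq V] {e : ι → Finset V} {W : Finset ι}

/-- ROW A4.  `T = rho e W v`, `R = W \ T`, `nA e A B = {a}`, `B = {P1, P2, P3}`,
`Y = (R \ B.biUnion id) \ nA e A B`.

PROOF.  `low_total h hv hc hB` (row A2, imported) with `h.val_le`, `psi e U = psi P1 + psi P2 + psi P3`
(`pack_psi`), `psi e Pj ≥ 13 * Pj.card + 12` (`h.HY` + `hbad`), `psi e Y ≥ 13 * Y.card` (`h.ge`) gives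
`36 + ws e {a} + ws e T + 6 + 6 * s ≤ 39 + 13 + 12 = 64`, i.e. `ws e {a} + ws e T + 6 * s ≤ 22`, and
`ws e {a} ≥ 5`, `ws e T ≥ 15`: so `s = 0` and no edge of `insert a T` has size 3 (a 3-edge has
weight 9: `wt_three`; if `t ∈ T` has size 3 then `ws e T ≥ 19`).  `s = 0` is `cols_sub`.
`total`: `psi P1 + psi P2 + psi P3 + psi Y ≤ 13 * (..) + 64 - 5 - 15 - 6 = 13 * (..) + 38`.
`tau1`: `hbad` gives `≥`; `psi e P1 ≤ 13 * P1.card + 14` (from `total` and the lower bounds for the
others) and `h.HY` give `24 * tau e P1 + P1.card ≤ 13 * P1.card + 14`, so `2 * tau e P1 ≤ P1.card + 1`.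
`s12` etc.: `hc.sep`; `s1Y`: `sep_all hc hB` and `Sep.mono`.  `dis1`: `P1 ⊆ R \ A`, `a ∈ A`;
`disY`: `Y ⊆ R \ nA e A B`.  `a ∈ A ⊆ R` (`hc.sub`), so `a ∈ W`, `a ∉ T`. -/
theorem exists_tri_of (h : Low e W) {v : V} (hv : (rho e W v).card = 3) {A : Finset ι}
    {Q B : Finset (Finset ι)} (hc : Cert e (W \ rho e W v) A Q) (hB : B ⊆ Q)
    (hbad : ∀ P ∈ B, P.card + 1 ≤ 2 * tau e P) (hN : (nA e A B).card = 1) (hB2 : B.card = 3) :
    ∃ a P1 P2 P3 Y, Tri e W v a P1 P2 P3 Y := by
  have hRW : W \ rho e W v ⊆ W := sdiff_subset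
  have hRc : (W \ rho e W v).card + 3 = W.card := by
    have := card_sdiff_add_card_eq_card (rho_sub (e := e) W v)
    rw [hv] at this
    exact this
  obtain ⟨ht, hcardW⟩ := low_total h hv hc hB
  have hval := h.val_le
  obtain ⟨a, ha⟩ := card_eq_one.1 hN
  obtain ⟨P1, P2, P3, h12, h13, h23, hBeq⟩ := card_eq_three.1 hB2
  have hP1 : P1 ∈ B := by rw [hBeq]; simp
  have hP2 : P2 ∈ B := by rw [hBeq]; simp
  have hP3 : P3 ∈ B := by rw [hBeq]; simp
  have haN : a ∈ nA e A B := by rw [ha]; exact mem_singleton_self a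
  have haA : a ∈ A := (mem_nA.1 haN).1
  have haR : a ∈ W \ rho e W v := hc.sub haA
  have hPR : ∀ P ∈ B, P ⊆ W \ rho e W v := fun P hP => (hc.mem P (hB hP)).trans sdiff_subset
  have hdis : ∀ P ∈ B, Disjoint P (insert a (rho e W v)) := by
    intro P hP
    refine disjoint_left.2 ?_
    intro i hi hi'
    rcases mem_insert.1 hi' with h1 | h1
    · subst h1
      exact (mem_sdiff.1 (hc.mem P (hB hP) hi)).2 haA
    · exact (mem_sdiff.1 (hPR P hP hi)).2 h1
  have hHY : ∀ P ∈ B, 24 * tau e P + P.card ≤ psi e P := by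
    intro P hP
    apply h.HY ((hPR P hP).trans hRW)
    intro hcon
    have h1 := card_le_card (hPR P hP)
    rw [hcon] at h1
    omega
  have hsepB : ∀ P ∈ B, ∀ P' ∈ B, P ≠ P' → TD5.Sep e P P' :=
    fun P hP P' hP' hn => hc.sep (hB hP) (hB hP') hn
  obtain ⟨hps, hcs⟩ := pack_psi h.hs B hsepB
  have hsum : ∀ f : Finset ι → ℕ, ∑ P ∈ B, f P = f P1 + (f P2 + f P3) := by
    intro f
    rw [hBeq, sum_insert (by simp [h12, h13]), sum_insert (by simp [h23]), sum_singleton]
  rw [hsum] at hps hcs
  have hsepU : TD5.Sep e (B.biUnion id) (((W \ rho e W v) \ B.biUnion id) \ nA e A B) := sep_all hc hB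
  have hYW : ((W \ rho e W v) \ B.biUnion id) \ nA e A B ⊆ W :=
    sdiff_subset.trans (sdiff_subset.trans sdiff_subset)
  have hge := h.ge hYW
  have hws1 : ws e (nA e A B) = wt e a := by
    rw [ha]
    unfold ws
    rw [sum_singleton]
  have hwsT := TD6.ws_ge e (rho e W v)
  have hwa := wt_ge e a
  have k1 := hHY P1 hP1
  have k2 := hHY P2 hP2
  have k3 := hHY P3 hP3
  have b1 := hbad P1 hP1
  have b2 := hbad P2 hP2
  have b3 := hbad P3 hP3
  have hsubU : ∀ P ∈ B, P ⊆ B.biUnion id := fun P hP => subset_biUnion_of_mem id hP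
  set U := B.biUnion id with hU
  set Y := ((W \ rho e W v) \ U) \ nA e A B with hY
  set s := ((cols e W) \ insert v (cols e U ∪ cols e Y)).card with hs
  rw [hN] at hcardW
  refine ⟨a, P1, P2, P3, Y, ?_⟩
  exact
    { triple := hv
      haW := hRW haR
      haT := (mem_sdiff.1 haR).2
      sub1 := (hPR P1 hP1).trans hRW
      sub2 := (hPR P2 hP2).trans hRW
      sub3 := (hPR P3 hP3).trans hRW
      subY := hYW
      dis1 := hdis P1 hP1
      dis2 := hdis P2 hP2
      dis3 := hdis P3 hP3
      disY := by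
        refine disjoint_left.2 ?_
        intro i hi hi'
        obtain ⟨h1, h2⟩ := mem_sdiff.1 hi
        rcases mem_insert.1 hi' with h3 | h3
        · subst h3
          exact h2 haN
        · exact (mem_sdiff.1 (mem_sdiff.1 h1).1).2 h3
      cover := by
        intro i hi
        simp only [mem_union, mem_insert]
        by_cases hT : i ∈ rho e W v
        · exact Or.inr (Or.inr hT)
        · by_cases hiU : i ∈ U
          · obtain ⟨P, hP, hiP⟩ := mem_biUnion.1 hiU
            rw [hBeq] at hP
            simp only [mem_insert, mem_singleton] at hP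
            rcases hP with rfl | rfl | rfl
            · exact Or.inl (Or.inl (Or.inl (Or.inl hiP)))
            · exact Or.inl (Or.inl (Or.inl (Or.inr hiP)))
            · exact Or.inl (Or.inl (Or.inr hiP))
          · by_cases hiN : i ∈ nA e A B
            · rw [ha, mem_singleton] at hiN
              exact Or.inr (Or.inl hiN)
            · exact Or.inl (Or.inr (mem_sdiff.2 ⟨mem_sdiff.2 ⟨mem_sdiff.2 ⟨hi, hT⟩, hiU⟩, hiN⟩))
      tau1 := by omega
      tau2 := by omega
      tau3 := by omega
      val1 := by omega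
      val2 := by omega
      val3 := by omega
      s12 := hsepB P1 hP1 P2 hP2 h12
      s13 := hsepB P1 hP1 P3 hP3 h13
      s23 := hsepB P2 hP2 P3 hP3 h23
      s1Y := hsepU.mono (hsubU P1 hP1) (Subset.refl _)
      s2Y := hsepU.mono (hsubU P2 hP2) (Subset.refl _)
      s3Y := hsepU.mono (hsubU P3 hP3) (Subset.refl _)
      total := by omega
      four := by
        intro t htm
        rcases h.hs t with h4 | h4
        · exfalso
          have hwt := wt_three h4
          rcases mem_insert.1 htm with h5 | h5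
          · subst h5
            omega
          · have h6 := ws_sdiff (e := e) (singleton_subset_iff.2 h5)
            have h7 := TD6.ws_ge e (rho e W v \ {t})
            have h8 := card_sdiff_add_card_eq_card (singleton_subset_iff.2 h5)
            have h9 : ws e ({t} : Finset ι) = wt e t := by
              unfold ws
              rw [sum_singleton]
            rw [card_singleton] at h8
            omega
        · exact h4
      cols_sub := by
        have hs0 : s = 0 := by omega
        rw [hs, card_eq_zero, sdiff_eq_empty_iff_subset] at hs0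
        intro x hx
        rcases mem_insert.1 (hs0 hx) with h1 | h1
        · exact mem_insert.2 (Or.inl h1)
        · apply mem_insert_of_mem
          rcases mem_union.1 h1 with h2 | h2
          · obtain ⟨i, hi, hxi⟩ := mem_cols.1 h2
            obtain ⟨P, hP, hiP⟩ := mem_biUnion.1 hi
            rw [hBeq] at hP
            simp only [mem_insert, mem_singleton] at hP
            simp only [mem_union]
            rcases hP with rfl | rfl | rfl
            · exact Or.inl (Or.inl (Or.inl (mem_cols.2 ⟨i, hiP, hxi⟩)))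
            · exact Or.inl (Or.inl (Or.inr (mem_cols.2 ⟨i, hiP, hxi⟩)))
            · exact Or.inl (Or.inr (mem_cols.2 ⟨i, hiP, hxi⟩))
          · exact mem_union_right _ h2 }

end Pool.Agent.TD7
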