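import Pool.Agent.TD7.DefA

set_option autoImplicit false
set_option linter.unusedSectionVars false

namespace Pool.Agent.TD7

open Finset Pool.Agent.TD5 Pool.Agent.TD6

variable {ι V : Type*} [DecidableEq ι] [DecidableEq V] {e : ι → Finset V} {W : Finset ι}

/-- the edges at `x` in `P`, and `t` -/
theorem a5_cover (hne : ∀ i, (e i).Nonempty) {P : Finset ι} {t : ι} {x : V} (hxt : x ∈ e t) :
    tau e (P ∪ {t}) ≤ tau e (P \ rho e P x) + 1 := by
  have h1 : P ∪ {t} ⊆ (P \ rho e P x) ∪ (rho e P x ∪ {t}) := by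
    intro i hi
    rw [mem_union, mem_singleton] at hi
    rw [mem_union, mem_sdiff, mem_union, mem_singleton]
    rcases hi with hi | hi
    · by_cases h : i ∈ rho e P x
      · exact Or.inr (Or.inl h)
      · exact Or.inl ⟨hi, h⟩
    · exact Or.inr (Or.inr hi)
  have h2 := tau_le_of_subset hne h1
  have h3 : tau e (rho e P x ∪ {t}) ≤ 1 := by
    apply tau_le_one x
    intro i hi
    rw [mem_union, mem_singleton] at hi
    rcases hi with hi | hi
    · exact (mem_rho.1 hi).2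
    · rw [hi]
      exact hxt
  omega

theorem a5_pos {P : Finset ι} {x : V} (hx : x ∈ cols e P) : 0 < (rho e P x).card := by
  obtain ⟨i, hi, hxi⟩ := mem_cols.1 hx
  exact card_pos.2 ⟨i, mem_rho.2 ⟨hi, hxi⟩⟩

/-- ROW A5.  PROOF.  Let `X = P \ rho e P x`; it is a proper subset of `W`
(`hd.side_ne` with `X ⊆ P ⊆ W \ rho e W v`).  `psi_rho hx : psi e X + ws e (rho e P x) + 6 ≤ psi e P`,
`ws e (rho e P x) ≥ 5 * (rho e P x).card`, `(rho e P x).card ≥ 1` (as `x ∈ cols e P`),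
`psi e P ≤ 13 * P.card + 18` (`hd.val_le h`), `X.card + (rho e P x).card = P.card`, and `h.HY`:
`24 * tau e X + X.card ≤ psi e X`.  So `24 * tau e X ≤ 12 * P.card + 12 - 4 * r < 12 * P.card + 12`,
so `2 * tau e X ≤ P.card`, and `P.card` is odd (`hd.s1.tau_eq`). -/
theorem LDec.free (h : Low e W) {v : V} {P P' : Finset ι} (hd : LDec e W v P P') {x : V}
    (hx : x ∈ cols e P) : 2 * tau e (P \ rho e P x) + 1 ≤ P.card := by
  have h1 : P \ rho e P x ⊆ W \ rho e W v := sdiff_subset.trans hd.s1.sub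
  have h2 := h.HY (h1.trans sdiff_subset) (hd.side_ne h1)
  have h3 := psi_rho hx
  have h4 := TD6.ws_ge e (rho e P x)
  have h5 := a5_pos hx
  have h6 := hd.val_le h
  have h7 := card_sdiff_add_card_eq_card (rho_sub (e := e) P x)
  have h8 := hd.s1.tau_eq
  omega

/-- PROOF.  `not_sep` gives `x ∈ e i`, `i ∈ P`, `x ∈ e t`; `P ∪ {t} ⊆ (P \ rho e P x) ∪
(rho e P x ∪ {t})`, and the last set is met by `x` (`tau_le_one`); `LDec.free`. -/
theorem LDec.adj (h : Low e W) {v : V} {P P' : Finset ι} (hd : LDec e W v P P') {t : ι}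
    (ht : ¬ TD5.Sep e P {t}) : 2 * tau e (P ∪ {t}) ≤ P.card + 1 := by
  obtain ⟨x, i, hi, j, hj, hxi, hxj⟩ := not_sep ht
  rw [mem_singleton] at hj
  rw [hj] at hxj
  have h1 := hd.free h (mem_cols.2 ⟨i, hi, hxi⟩)
  have h2 := a5_cover h.hne (P := P) hxj
  omega

/-- The same for the three parts.  PROOF.  As `LDec.free`, with `psi e P1 ≤ 13 * P1.card + 14`
(from `hT.total`, `hT.val2`, `hT.val3` and `h.ge hT.subY`); `P1 \ rho e P1 x ≠ W` because
`a ∈ W`, `a ∉ P1` (`hT.dis1`). -/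
theorem Tri.free (h : Low e W) {v : V} {a : ι} {P1 P2 P3 Y : Finset ι}
    (hT : Tri e W v a P1 P2 P3 Y) {x : V} (hx : x ∈ cols e P1) :
    2 * tau e (P1 \ rho e P1 x) + 1 ≤ P1.card := by
  have hsub : P1 \ rho e P1 x ⊆ W := sdiff_subset.trans hT.sub1
  have ha : a ∉ P1 := fun h' => disjoint_left.1 hT.dis1 h' (mem_insert_self _ _)
  have hne : P1 \ rho e P1 x ≠ W := by
    intro hcon
    have h1 := hT.haW
    rw [← hcon] at h1
    exact ha (mem_sdiff.1 h1).1
  have h2 := h.HY hsub hne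
  have h3 := psi_rho hx
  have h4 := TD6.ws_ge e (rho e P1 x)
  have h5 := a5_pos hx
  have h6 := hT.total
  have h7 := card_sdiff_add_card_eq_card (rho_sub (e := e) P1 x)
  have h8 := hT.tau1
  have h9 := hT.val2
  have h10 := hT.val3
  have h11 := h.ge hT.subY
  omega

theorem Tri.adj (h : Low e W) {v : V} {a : ι} {P1 P2 P3 Y : Finset ι}
    (hT : Tri e W v a P1 P2 P3 Y) {t : ι} {x : V} (hx : x ∈ cols e P1) (hxt : x ∈ e t) :
    2 * tau e (P1 ∪ {t}) ≤ P1.card + 1 := by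
  have h1 := hT.free h hx
  have h2 := a5_cover h.hne (P := P1) hxt
  omega

end Pool.Agent.TD7
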