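import Pool.Agent.TD7.A6

set_option autoImplicit false
set_option linter.unusedSectionVars false

namespace Pool.Agent.TD7

open Finset Pool.Agent.TD5 Pool.Agent.TD6

variable {ι V : Type*} [DecidableEq ι] [DecidableEq V] {e : ι → Finset V} {W : Finset ι}

/-- ROW A7.  A side with at least three edges has a good column or a large defect.

PROOF (compare `TD5.Dec.exists_col` in TD5/Sides.lean; `hd.two_adj h` is row A6, imported).
Suppose there is no good column, i.e. every `x ∈ cols e P` with `(rho e W x).card = 3` has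
`2 ≤ (rho e W x ∩ rho e W v).card`.  For `x ∈ cols e P`:
`(rho e W x).card = (rho e P x).card + (rho e W x ∩ rho e W v).card ≤ 3` (the edges of `W` at `x`
are in `P` or at `v`, because `P` is closed in `W \ rho e W v`; see `TD5.Dec.rho_side`).
So `(rho e P x).card ≤ 2` always, and `(rho e P x).card = 2` implies `(rho e W x).card = 2`.
Let `S = (cols e P).filter (fun x => (rho e P x).card ≤ 1)`.  Every other `x ∈ cols e P` is counted
in `Dval e W P`.  `psi_count_two h.hs (X := P) _ S` gives
`17 * P.card + 3 * S.card ≤ psi e P ≤ 13 * P.card + 18` (`hd.val_le h`), so with `P.card ≥ 3`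
(odd, by `tau_eq`): `P.card = 3` and `S.card ≤ 2`.  Let `k` be the number of edges of size 3 in `P`:
`∑ i ∈ P, (e i).card = 12 - k`, and by `sum_card` `12 - k = ∑ x ∈ cols e P, (rho e P x).card ≤
2 * ((cols e P).card - S.card) + S.card`, so `(cols e P).card - S.card ≥ (12 - k - S.card) / 2`,
and `Dval e W P ≥ (cols e P).card - S.card + k ≥ (12 + k - S.card) / 2 ≥ 5`. -/
theorem LDec.col_or (h : Low e W) {v : V} {P P' : Finset ι} (hd : LDec e W v P P')
    (h3 : 3 ≤ P.card) : (∃ x ∈ cols e P, (rho e W x).card = 3 ∧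
      (rho e W x ∩ rho e W v).card ≤ 1) ∨ 4 ≤ Dval e W P := by
  by_cases hgood : ∃ x ∈ cols e P, (rho e W x).card = 3 ∧ (rho e W x ∩ rho e W v).card ≤ 1
  · exact Or.inl hgood
  right
  push Not at hgood
  have hle : ∀ x ∈ cols e P, (rho e P x).card + (rho e W x ∩ rho e W v).card ≤ 3 := by
    intro x hx
    have h1 : rho e P x ∪ (rho e W x ∩ rho e W v) ⊆ rho e W x :=
      union_subset (rho_mono hd.side_sub x) inter_subset_left
    have h2 : Disjoint (rho e P x) (rho e W x ∩ rho e W v) := by
      refine disjoint_left.2 ?_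
      intro i hi hi'
      exact (mem_sdiff.1 (hd.s1.sub (rho_sub P x hi))).2 (mem_inter.1 hi').2
    have h3 := card_le_card h1
    rw [card_union_of_disjoint h2] at h3
    exact h3.trans (h.hD x)
  have hsub : ∀ x ∈ cols e P, rho e W x ⊆ rho e P x ∪ (rho e W x ∩ rho e W v) := by
    intro x hx i hi
    obtain ⟨hiW, hxi⟩ := mem_rho.1 hi
    rw [mem_union, mem_inter]
    by_cases hiv : i ∈ rho e W v
    · exact Or.inr ⟨hi, hiv⟩
    · left
      rw [mem_rho]
      refine ⟨?_, hxi⟩
      by_contra hiP
      obtain ⟨j, hj, hxj⟩ := mem_cols.1 hx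
      exact not_sep' hj (mem_sdiff.2 ⟨mem_sdiff.2 ⟨hiW, hiv⟩, hiP⟩) hxj hxi hd.s1.closed
  have hge : ∀ x ∈ cols e P, (rho e W x).card ≤
      (rho e P x).card + (rho e W x ∩ rho e W v).card := fun x hx =>
    (card_le_card (hsub x hx)).trans (card_union_le _ _)
  have hP2 : ∀ x, (rho e P x).card ≤ 2 := by
    intro x
    by_cases hx : x ∈ cols e P
    · have h1 := hle x hx
      have h2 := hgood x hx
      have h3 := hge x hx
      have h4 := card_le_card (rho_mono (e := e) hd.side_sub x)
      by_contra hc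
      push Not at hc
      have := h2 (by omega)
      omega
    · have : rho e P x = ∅ := by
        apply eq_empty_of_forall_notMem
        intro i hi
        exact hx (mem_cols.2 ⟨i, (mem_rho.1 hi).1, (mem_rho.1 hi).2⟩)
      rw [this, card_empty]
      omega
  obtain ⟨S, hS⟩ : ∃ S, S = (cols e P).filter (fun x => (rho e P x).card ≤ 1) := ⟨_, rfl⟩
  have hSsub : S ⊆ cols e P := by
    rw [hS]
    exact filter_subset _ _
  obtain ⟨c1, c2⟩ := psi_count_two h.hs (X := P) hP2 hSsub (fun x hx => by
    rw [hS] at hx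
    exact (mem_filter.1 hx).2)
  have c3 := hd.val_le h
  have c4 := hd.s1.tau_eq
  have c5 := card_sdiff_add_card_eq_card hSsub
  have c6 : cols e P \ S ⊆ (cols e P).filter (fun x => (rho e W x).card ≤ 2) := by
    intro x hx
    obtain ⟨h1, h2⟩ := mem_sdiff.1 hx
    rw [hS, mem_filter] at h2
    have h3 : ¬ (rho e P x).card ≤ 1 := fun h' => h2 ⟨h1, h'⟩
    refine mem_filter.2 ⟨h1, ?_⟩
    have h4 := h.hD x
    have h5 := hgood x h1
    have h6 := hle x h1
    by_contra hc
    have := h5 (by omega)
    omega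
  have c7 := card_le_card c6
  have c8 : ∑ i ∈ P, (e i).card + (P.filter (fun i => (e i).card = 3)).card = 4 * P.card := by
    rw [card_filter, ← sum_add_distrib, mul_comm, ← smul_eq_mul, ← sum_const]
    apply sum_congr rfl
    intro i _
    rcases h.hs i with h1 | h1
    · rw [h1]
      simp
    · rw [h1]
      simp
  unfold Dval
  omega

end Pool.Agent.TD7
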