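import Pool.Agent.TD7.A6

set_option autoImplicit false
set_option linter.unusedSectionVars false

namespace Pool.Agent.TD7

open Finset Pool.Agent.TD5 Pool.Agent.TD6

variable {ι V : Type*} [DecidableEq ι] [DecidableEq V] {e : ι → Finset V} {W : Finset ι}

/-- ROW A8.  Descent to a smaller side.

PROOF.  Copy `TD5.Dec.descend` (file TD5/Sides.lean) from the line where `x` is obtained; the
decomposition at `x` is `hex` (there: `exists_dec h hx3`).  The only numerical part is the last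
case `Q ⊆ Y`, `Y = (W \ rho e W v) \ (P ∪ P')`: there `Sep e Q (Y \ Q)`, so by `psi_union`
`psi e Y = psi e Q + psi e (Y \ Q) ≥ 13 * Q.card + 12 + 13 * (Y \ Q).card = 13 * Y.card + 12`
(`hQ.le_val`, `h.ge`), but `hd.bound`, `hd.s1.le_val`, `hd.s2.le_val` and `hd.ws_ge` give
`psi e Y ≤ 13 * Y.card + 6`.
(`LDec.two_adj` is row A6, imported; `LSide`/`LDec` replace `Side`/`Dec`; `TD5.not_sep'`,
`TD5.mem_adjT` are available.) -/
theorem LDec.descend (h : Low e W) {v : V} {P P' : Finset ι} (hd : LDec e W v P P') {x : V}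
    (hxP : x ∈ cols e P) (hx1 : (rho e W x ∩ rho e W v).card ≤ 1)
    (hex : ∃ Q1 Q2, LDec e W x Q1 Q2) : ∃ Q Q', LDec e W x Q Q' ∧ Q ⊆ P ∧ Q.card < P.card := by
  obtain ⟨Q1, Q2, hq⟩ := hex
  -- the part containing the edges at `v` and the other side
  have hP'x : Disjoint P' (rho e W x) := by
    refine disjoint_left.2 ?_
    intro i hi hi'
    obtain ⟨j, hj, hxj⟩ := mem_cols.1 hxP
    exact not_sep' hj hi hxj (mem_rho.1 hi').2 hd.sep
  have hP'R : P' ⊆ W \ rho e W x := fun i hi => mem_sdiff.2 ⟨(mem_sdiff.1 (hd.s2.sub hi)).1,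
    fun h' => disjoint_left.1 hP'x hi h'⟩
  have hadj : ∃ t ∈ rho e W v \ rho e W x, ¬ TD5.Sep e P' {t} := by
    have h1 := hd.symm.two_adj h
    have h2 : ¬ adjT e W v P' ⊆ rho e W x ∩ rho e W v := by
      intro hcon
      have := card_le_card hcon
      omega
    obtain ⟨t, ht, ht'⟩ := not_subset.1 h2
    obtain ⟨ht1, ht2⟩ := mem_adjT.1 ht
    exact ⟨t, mem_sdiff.2 ⟨ht1, fun h' => ht' (mem_inter.2 ⟨h', ht1⟩)⟩, ht2⟩
  obtain ⟨t, ht, hadjt⟩ := hadj
  obtain ⟨htv, htx⟩ := mem_sdiff.1 ht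
  have htR : t ∈ W \ rho e W x := mem_sdiff.2 ⟨(mem_rho.1 htv).1, htx⟩
  -- a side meeting the other side contains it
  have hcon1 : ∀ Q, LSide e (W \ rho e W x) Q → ¬ Disjoint Q P' → t ∈ Q := by
    intro Q hQ hm
    have h1 : P' ⊆ Q := by
      by_contra hsub
      obtain ⟨i, hiQ, hiP'⟩ := not_disjoint_iff.1 hm
      refine hd.s2.conn (P' ∩ Q) inter_subset_left ⟨i, mem_inter.2 ⟨hiP', hiQ⟩⟩ ?_ ?_
      · intro heq
        exact hsub (fun j hj => (mem_inter.1 (heq ▸ hj)).2)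
      · refine hQ.closed.mono inter_subset_right ?_
        intro j hj
        obtain ⟨hj1, hj2⟩ := mem_sdiff.1 hj
        exact mem_sdiff.2 ⟨hP'R hj1, fun h' => hj2 (mem_inter.2 ⟨hj1, h'⟩)⟩
    by_contra htQ
    exact hadjt (hQ.closed.mono h1 (singleton_subset_iff.2 (mem_sdiff.2 ⟨htR, htQ⟩)))
  -- a side containing one edge at `v` contains `t`
  have hcon2 : ∀ Q, LSide e (W \ rho e W x) Q → ∀ s ∈ rho e W v \ rho e W x, s ∈ Q → t ∈ Q := by
    intro Q hQ s hs hsQ
    by_contra htQ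
    exact not_sep' hsQ (mem_sdiff.2 ⟨htR, htQ⟩) (mem_rho.1 (mem_sdiff.1 hs).1).2
      (mem_rho.1 htv).2 hQ.closed
  have hfin : ∀ Q Q', LDec e W x Q Q' → t ∉ Q → ∃ Q Q', LDec e W x Q Q' ∧ Q ⊆ P ∧
      Q.card < P.card := by
    intro Q Q' hQd htQ
    have hQ := hQd.s1
    have h1 : Disjoint Q P' := by
      by_contra hcon
      exact htQ (hcon1 Q hQ hcon)
    have h2 : ∀ s ∈ Q, s ∉ rho e W v := by
      intro s hs hsv
      exact htQ (hcon2 Q hQ s (mem_sdiff.2 ⟨hsv, (mem_sdiff.1 (hQ.sub hs)).2⟩) hs)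
    have h3 : Q ⊆ W \ rho e W v := fun s hs => mem_sdiff.2 ⟨(mem_sdiff.1 (hQ.sub hs)).1, h2 s hs⟩
    set Y := (W \ rho e W v) \ (P ∪ P') with hY
    by_cases hQP : Q ⊆ P
    · refine ⟨Q, Q', hQd, hQP, ?_⟩
      apply card_lt_card
      rw [ssubset_iff_subset_ne]
      refine ⟨hQP, ?_⟩
      rintro rfl
      obtain ⟨j, hj, hxj⟩ := mem_cols.1 hxP
      have h4 := mem_sdiff.1 (hQ.sub hj)
      exact h4.2 (mem_rho.2 ⟨h4.1, hxj⟩)
    · exfalso
      have h4 : Q ∩ P = ∅ := by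
        by_contra hcon
        obtain ⟨i, hi⟩ := nonempty_iff_ne_empty.2 hcon
        refine hQ.conn (Q ∩ P) inter_subset_left ⟨i, hi⟩ ?_ ?_
        · intro heq
          exact hQP (fun j hj => (mem_inter.1 (heq ▸ hj)).2)
        · refine hd.s1.closed.mono inter_subset_right ?_
          intro j hj
          obtain ⟨hj1, hj2⟩ := mem_sdiff.1 hj
          exact mem_sdiff.2 ⟨h3 hj1, fun h' => hj2 (mem_inter.2 ⟨hj1, h'⟩)⟩
      have h5 : Q ⊆ Y := by
        intro j hj
        rw [hY, mem_sdiff, mem_union, not_or]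
        refine ⟨h3 hj, ?_, ?_⟩
        · intro hjP
          have : j ∈ Q ∩ P := mem_inter.2 ⟨hj, hjP⟩
          rw [h4] at this
          exact notMem_empty _ this
        · intro hjP
          exact disjoint_left.1 h1 hj hjP
      have hYx : Y \ Q ⊆ (W \ rho e W x) \ Q := by
        intro j hj
        obtain ⟨hj1, hj2⟩ := mem_sdiff.1 hj
        rw [hY] at hj1
        obtain ⟨hj3, hj4⟩ := mem_sdiff.1 hj1
        obtain ⟨hj5, hj6⟩ := mem_sdiff.1 hj3
        refine mem_sdiff.2 ⟨mem_sdiff.2 ⟨hj5, ?_⟩, hj2⟩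
        intro hjx
        obtain ⟨i, hi, hxi⟩ := mem_cols.1 hxP
        refine not_sep' hi (mem_sdiff.2 ⟨hj3, ?_⟩) hxi (mem_rho.1 hjx).2 hd.s1.closed
        intro hjP
        exact hj4 (mem_union_left _ hjP)
      have h6 : TD5.Sep e Q (Y \ Q) := hQ.closed.mono (Subset.refl _) hYx
      have h7 : Q ∪ (Y \ Q) = Y := union_sdiff_of_subset h5
      have h8 := psi_union h.hs h6
      have h10 := card_sdiff_add_card_eq_card h5
      rw [h7] at h8
      have h11 := hQ.le_val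
      have h12 := hd.bound
      have h13 := hd.s1.le_val
      have h14 := hd.s2.le_val
      have h15 := h.ge (show Y \ Q ⊆ W from sdiff_subset.trans (sdiff_subset.trans sdiff_subset))
      have h16 := hd.ws_ge
      rw [← hY] at h12
      omega
  by_cases htQ : t ∈ Q1
  · apply hfin Q2 Q1 hq.symm
    intro h'
    exact disjoint_left.1 hq.disj htQ h'
  · exact hfin Q1 Q2 hq htQ

end Pool.Agent.TD7
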