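import Pool.Agent.TD7.A11

set_option autoImplicit false
set_option linter.unusedSectionVars false

namespace Pool.Agent.TD7

open Finset Pool.Agent.TD5 Pool.Agent.TD6

variable {ι V : Type*} [DecidableEq ι] [DecidableEq V] {e : ι → Finset V} {W : Finset ι}

theorem a9_psi {A Y Z : Finset ι} {v : V} (hcols : cols e W ⊆ insert v (cols e A ∪ cols e Y))
    (hZ : Z ⊆ W) (hd : Disjoint A Z) :
    psi e (A ∪ Z) ≤ psi e A + ws e Z + 6 + 6 * ∑ t ∈ Z, (e t ∩ cols e Y).card := by
  have h1 : cols e (A ∪ Z) ⊆ cols e A ∪ ({v} ∪ Z.biUnion (fun t => e t ∩ cols e Y)) := by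
    intro y hy
    obtain ⟨i, hi, hyi⟩ := mem_cols.1 hy
    rcases mem_union.1 hi with hi | hi
    · exact mem_union_left _ (mem_cols.2 ⟨i, hi, hyi⟩)
    · have h2 := hcols (mem_cols.2 ⟨i, hZ hi, hyi⟩)
      rcases mem_insert.1 h2 with rfl | h2
      · exact mem_union_right _ (mem_union_left _ (mem_singleton_self _))
      · rcases mem_union.1 h2 with h2 | h2
        · exact mem_union_left _ h2
        · exact mem_union_right _ (mem_union_right _
            (mem_biUnion.2 ⟨i, hi, mem_inter.2 ⟨hyi, h2⟩⟩))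
  have h2 := card_le_card h1
  have h3 := card_union_le (cols e A) ({v} ∪ Z.biUnion (fun t => e t ∩ cols e Y))
  have h4 := card_union_le {v} (Z.biUnion (fun t => e t ∩ cols e Y))
  have h5 : (Z.biUnion (fun t => e t ∩ cols e Y)).card ≤ ∑ t ∈ Z, (e t ∩ cols e Y).card :=
    card_biUnion_le
  rw [card_singleton] at h4
  unfold psi
  rw [ws_union hd]
  omega

/-- ROW A9.  A one-element side: nothing else is left over.  `T = rho e W v`,
`Y = (W \ T) \ ({l} ∪ P)`, `s = ((cols e W) \ insert v (cols e (W \ T))).card`.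

PROOF.  (1) Numbers.  `psi e {l} = 29` if `(e l).card = 4` and `27` if `(e l).card = 3`
(`psi_singleton`, `wt_four`, `wt_three`), i.e. `13 + 12 + 4` resp. `13 + 12 + 2`.  So `hd.bound`
with `hd.s2.le_val`, `hd.ws_ge`, `psi e Y ≥ 13 * Y.card` gives
`(psi e P - 13 * P.card - 12) + (psi e Y - 13 * Y.card) + (ws e T - 15) + 6 * s ≤ 2` resp. `≤ 4`.
So `s = 0`: this is the second claim.  Always `psi e Y ≤ 13 * Y.card + 4`.  The last two claims
are the same inequality.
(2) `Y = ∅`.  Suppose not.  `Y` is closed in `W \ T` (by `hd.s1.closed`, `hd.s2.closed`) and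
`W` is connected (`h.toMx.not_closed`), so some `t ∈ T` contains a vertex `x ∈ cols e Y`.
Slots: for `Z ⊆ T`, `2 * ∑ t ∈ Z, (e t ∩ cols e Y).card + 13 * Y.card ≤ psi e Y` (theorem `slots`
of row A11, imported, with `X = Y`), so with `σ = psi e Y - 13 * Y.card ∈ {2, 4}` (`σ ≤ 4`, even by
`psi_parity`, nonzero by `slots` for `{t}`): `∑ t ∈ T, (e t ∩ cols e Y).card ≤ σ / 2`.
`h.HY` for `Y`: `2 * tau e Y ≤ Y.card`.
Case `Y.card` odd: `2 * tau e Y ≤ Y.card - 1`.  Let `X = W \ Y = {l} ∪ P ∪ T`, a proper subset.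
`2 * tau e X ≥ W.card + 1 - (Y.card - 1) = X.card + 2`, so `h.HY` gives
`psi e X ≥ 13 * X.card + 24`.  But `cols e X ⊆ e l ∪ cols e P ∪ {v} ∪ ⋃ t ∈ T, (e t ∩ cols e Y)`
(because `s = 0`), so `psi e X ≤ psi e {l} + psi e P + ws e T + 6 + 6 * (σ / 2)`
`≤ 13 * (1 + P.card) + 24 + 15 + (6 - σ) + 6 + 3 * σ = 13 * X.card + 12 + 2 * σ ≤ 13 * X.card + 20`
(`X.card = P.card + 4`).  Contradiction.
Case `Y.card` even: `Y' = Y \ rho e Y x` has (`psi_rho`) `psi e Y' ≤ 13 * Y.card + 4 - 5 * r - 6`,
`h.HY`: `24 * tau e Y' ≤ 12 * Y.card - 2 - 4 * r < 12 * Y.card`, so `2 * tau e Y' ≤ Y.card - 2` (even)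
and `2 * tau e (Y ∪ {t}) ≤ Y.card`.  Let `X = W \ (Y ∪ {t}) = {l} ∪ P ∪ (T.erase t)`:
`2 * tau e X ≥ W.card + 1 - Y.card = X.card + 2`, so `psi e X ≥ 13 * X.card + 24` (`h.HY`).  Now
`t` uses at least one slot of `Y`, so `∑ u ∈ T.erase t, (e u ∩ cols e Y).card ≤ σ / 2 - 1` and
`psi e X ≤ psi e {l} + psi e P + ws e (T.erase t) + 6 + 6 * (σ / 2 - 1)`
`≤ 13 * (1 + P.card) + 24 + (6 - σ) + 10 + 3 * σ = 13 * X.card + 14 + 2 * σ ≤ 13 * X.card + 22`
(`X.card = P.card + 3`, `ws e (T.erase t) + 5 ≤ ws e T`).  Contradiction. -/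
theorem LDec.single_rest (h : Low e W) {v : V} {l : ι} {P : Finset ι}
    (hd : LDec e W v {l} P) : (W \ rho e W v) \ ({l} ∪ P) = ∅ ∧
      cols e W = insert v (cols e (W \ rho e W v)) ∧
      ((e l).card = 4 → psi e P + ws e (rho e W v) ≤ 13 * P.card + 29) ∧
      ((e l).card = 3 → psi e P + ws e (rho e W v) ≤ 13 * P.card + 31) := by
  set T := rho e W v with hT
  set Y := (W \ T) \ ({l} ∪ P) with hY
  have hTc : T.card = 3 := hd.triple
  have hTW : T ⊆ W := rho_sub W v
  have hb := hd.bound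
  rw [← hT, ← hY, card_singleton] at hb
  have hP := hd.s2.le_val
  have hws : 15 ≤ ws e T := hd.ws_ge
  have hYR : Y ⊆ W \ T := sdiff_subset
  have hYsub : Y ⊆ W := hYR.trans sdiff_subset
  have hYge := h.ge hYsub
  have hl : psi e {l} = wt e l + 6 * (e l).card := psi_singleton l
  have hlc := h.hs l
  have hl27 : 27 ≤ psi e {l} := by
    rcases hlc with hc | hc
    · rw [wt_three hc, hc] at hl; omega
    · rw [wt_four hc, hc] at hl; omega
  have hs0 : ((cols e W) \ insert v (cols e (W \ T))).card = 0 := by omega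
  have hcols : cols e W = insert v (cols e (W \ T)) := by
    apply Subset.antisymm
    · rwa [card_eq_zero, sdiff_eq_empty_iff_subset] at hs0
    · apply insert_subset
      · obtain ⟨t, ht⟩ := card_pos.1 (show 0 < T.card by omega)
        exact mem_cols.2 ⟨t, (mem_rho.1 ht).1, (mem_rho.1 ht).2⟩
      · exact cols_mono sdiff_subset
  have hYempty : Y = ∅ := by
    by_contra hne
    have hYne : Y.Nonempty := nonempty_iff_ne_empty.2 hne
    have hσ : psi e Y ≤ 13 * Y.card + 4 := by omega
    have hAR : {l} ∪ P ⊆ W \ T := union_subset hd.s1.sub hd.s2.sub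
    have hR : ({l} ∪ P) ∪ Y = W \ T := union_sdiff_of_subset hAR
    have hAY : Disjoint ({l} ∪ P) Y := disjoint_sdiff
    have hAW : {l} ∪ P ⊆ W := hAR.trans sdiff_subset
    have hAT : Disjoint ({l} ∪ P) T := disjoint_of_subset_left hAR sdiff_disjoint
    have hYT : Disjoint Y T := disjoint_of_subset_left hYR sdiff_disjoint
    have hYW : Y ≠ W := hd.side_ne hYR
    have hc1 : (W \ T).card + T.card = W.card := card_sdiff_add_card_eq_card hTW
    have hc2 : ({l} ∪ P).card + Y.card = (W \ T).card := by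
      rw [← card_union_of_disjoint hAY, hR]
    have hc3 : ({l} ∪ P).card = 1 + P.card := by
      rw [card_union_of_disjoint hd.disj, card_singleton]
    have hcols' : cols e W ⊆ insert v (cols e ({l} ∪ P) ∪ cols e Y) := by
      rw [← cols_union, hR, hcols]
    have hpsiA : psi e ({l} ∪ P) = psi e {l} + psi e P := psi_union h.hs hd.sep
    have hslot := slots h.hs h.hD hYsub hTW hYT
    have htau := h.tau_eq
    have hHY := h.HY hYsub hYW
    obtain ⟨x, i, hi, t, ht, hxi, hxt⟩ : ∃ x, ∃ i ∈ Y, ∃ t ∈ T, x ∈ e i ∧ x ∈ e t := by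
      apply not_sep
      intro hsep
      apply h.toMx.not_closed hYsub hYne hYW
      have h1 : TD5.Sep e Y {l} := (hd.s1.closed.mono (Subset.refl _) (by
        intro i hi
        rw [hY, mem_sdiff, mem_union, not_or] at hi
        exact mem_sdiff.2 ⟨hi.1, hi.2.1⟩)).symm
      have h2 : TD5.Sep e Y P := (hd.s2.closed.mono (Subset.refl _) (by
        intro i hi
        rw [hY, mem_sdiff, mem_union, not_or] at hi
        exact mem_sdiff.2 ⟨hi.1, hi.2.2⟩)).symm
      refine ((h1.union_right h2).union_right hsep).mono (Subset.refl _) ?_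
      intro i hi
      obtain ⟨hiW, hiY⟩ := mem_sdiff.1 hi
      by_cases hiT : i ∈ T
      · exact mem_union_right _ hiT
      · have h3 : i ∈ ({l} ∪ P) ∪ Y := by rw [hR]; exact mem_sdiff.2 ⟨hiW, hiT⟩
        exact mem_union_left _ ((mem_union.1 h3).resolve_right hiY)
    have hxY : x ∈ cols e Y := mem_cols.2 ⟨i, hi, hxi⟩
    have hWsub : ∀ j ∈ W, j ∈ {l} ∪ P ∨ j ∈ Y ∨ j ∈ T := by
      intro j hj
      by_cases hjT : j ∈ T
      · exact Or.inr (Or.inr hjT)
      · have h3 : j ∈ ({l} ∪ P) ∪ Y := by rw [hR]; exact mem_sdiff.2 ⟨hj, hjT⟩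
        rcases mem_union.1 h3 with h4 | h4
        · exact Or.inl h4
        · exact Or.inr (Or.inl h4)
    have hXne : ∀ Z ⊆ T, ({l} ∪ P) ∪ Z ≠ W := by
      intro Z hZ hcon
      have h1 : i ∈ ({l} ∪ P) ∪ Z := by rw [hcon]; exact hYsub hi
      rcases mem_union.1 h1 with h2 | h2
      · exact disjoint_left.1 hAY h2 hi
      · exact disjoint_left.1 hYT hi (hZ h2)
    rcases Nat.mod_two_eq_zero_or_one Y.card with hpar | hpar
    · -- even
      have hsum := add_sum_erase T (fun t => (e t ∩ cols e Y).card) ht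
      have hct : 1 ≤ (e t ∩ cols e Y).card := card_pos.2 ⟨x, mem_inter.2 ⟨hxt, hxY⟩⟩
      have hwT : wt e t + ws e (T.erase t) = ws e T := add_sum_erase T (fun t => wt e t) ht
      have hwt := wt_ge e t
      have hTe : (T.erase t).card = 2 := by rw [card_erase_of_mem ht, hTc]
      have hTeT : T.erase t ⊆ T := erase_subset _ _
      have hATe : Disjoint ({l} ∪ P) (T.erase t) := disjoint_of_subset_right hTeT hAT
      have hX := a9_psi (e := e) hcols' (hTeT.trans hTW) hATe
      have hXc : (({l} ∪ P) ∪ T.erase t).card = 1 + P.card + 2 := by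
        rw [card_union_of_disjoint hATe, hc3, hTe]
      have hXHY := h.HY (union_subset hAW (hTeT.trans hTW)) (hXne _ hTeT)
      have hrho := psi_rho (e := e) hxY
      have hrw := TD6.ws_ge e (rho e Y x)
      have hrc := card_sdiff_add_card_eq_card (rho_sub (e := e) Y x)
      have hY'R : Y \ rho e Y x ⊆ W \ rho e W v := sdiff_subset.trans hYR
      have hY'HY := h.HY (sdiff_subset.trans hYsub : Y \ rho e Y x ⊆ W) (hd.side_ne hY'R)
      have hone : tau e (insert t (rho e Y x)) ≤ 1 := by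
        apply tau_le_one x
        intro j hj
        rcases mem_insert.1 hj with rfl | hj
        · exact hxt
        · exact (mem_rho.1 hj).2
      have ht1 : tau e W ≤ tau e (({l} ∪ P) ∪ T.erase t) +
          tau e ((Y \ rho e Y x) ∪ insert t (rho e Y x)) := by
        apply tau_le_of_subset h.hne
        intro j hj
        rcases hWsub j hj with h3 | h3 | h3
        · exact mem_union_left _ (mem_union_left _ h3)
        · apply mem_union_right
          by_cases h4 : j ∈ rho e Y x
          · exact mem_union_right _ (mem_insert_of_mem h4)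
          · exact mem_union_left _ (mem_sdiff.2 ⟨h3, h4⟩)
        · by_cases h4 : j = t
          · rw [h4]
            exact mem_union_right _ (mem_union_right _ (mem_insert_self _ _))
          · exact mem_union_left _ (mem_union_right _ (mem_erase.2 ⟨h4, h3⟩))
      have ht2 := tau_union h.hne (Y \ rho e Y x) (insert t (rho e Y x))
      have hrpos : 1 ≤ (rho e Y x).card := card_pos.2 ⟨i, mem_rho.2 ⟨hi, hxi⟩⟩
      omega
    · -- odd
      have hX := a9_psi (e := e) hcols' hTW hAT
      have hXc : (({l} ∪ P) ∪ T).card = 1 + P.card + 3 := by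
        rw [card_union_of_disjoint hAT, hc3, hTc]
      have hXHY := h.HY (union_subset hAW hTW) (hXne _ (Subset.refl _))
      have ht1 : tau e W ≤ tau e (({l} ∪ P) ∪ T) + tau e Y := by
        apply tau_le_of_subset h.hne
        intro j hj
        rcases hWsub j hj with h3 | h3 | h3
        · exact mem_union_left _ (mem_union_left _ h3)
        · exact mem_union_right _ h3
        · exact mem_union_left _ (mem_union_right _ h3)
      omega
  refine ⟨hYempty, hcols, ?_, ?_⟩
  · intro hc
    rw [wt_four hc, hc] at hl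
    omega
  · intro hc
    rw [wt_three hc, hc] at hl
    omega

end Pool.Agent.TD7
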