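import Pool.Agent.TD7.A1
import Pool.Agent.TD7.A3
import Pool.Agent.TD7.A4
import Pool.Agent.TD7.A7
import Pool.Agent.TD7.A8
import Pool.Agent.TD7.A10
import Pool.Agent.TD7.A12
import Pool.Agent.TD7.A13
import Pool.Agent.TD7.A14
import Pool.Agent.TD7.A15

set_option autoImplicit false
set_option linter.unusedSectionVars false

namespace Pool.Agent.TD7

open Finset Pool.Agent.TD5 Pool.Agent.TD6

variable {ι V : Type*} [DecidableEq ι] [DecidableEq V] {e : ι → Finset V} {W : Finset ι}

theorem sum_pos_card {S : Finset ι} {f : ι → ℕ} {t : ι} (ht : t ∈ S) (h : 1 ≤ f t) :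
    1 ≤ ∑ u ∈ S, f u := h.trans (single_le_sum (f := f) (fun _ _ => Nat.zero_le _) ht)

theorem Tri.false (h : Low e W) {v : V} {a : ι} {P1 P2 P3 Y : Finset ι}
    (hT0 : Tri e W v a P1 P2 P3 Y) : False := by
  obtain ⟨Q1, Q2, Q3, hT, heq, h3⟩ := hT0.exists_good h
  obtain ⟨hc, h4, h6, ht⟩ := hT.small h heq
  obtain ⟨par, hF⟩ := exists_f6 hc h4 h6 ht
  set S := insert a (rho e W v) with hS
  have hSc : S.card = 4 := by
    rw [hS, card_insert_of_notMem hT.haT, hT.triple]
  have hSW : ∀ t ∈ S, t ∈ W := by
    intro t ht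
    rcases mem_insert.1 ht with rfl | h'
    · exact hT.haW
    · exact (mem_rho.1 h').1
  have hSQ : ∀ t ∈ S, t ∉ Q1 := fun t ht hc' => disjoint_left.1 hT.dis1 hc' ht
  refine tri_comb (K := cols e Q1) (par := par) hF.toPar6 (S := S) hSc
    (Cc := fun t => e t ∩ cols e Q1) (fun t _ => inter_subset_right) ?_ h3
    (M := adjS e S Q2) (N := adjS e S Q3) (filter_subset _ _) (filter_subset _ _)
    (hT.rot.two h) (hT.rot.rot.two h) ?_ ?_ ?_ ?_ ?_
  · intro s hs t ht hst
    exact hF.slots_disjoint h.hD hT.sub1 (hSW s hs) (hSW t ht) (hSQ s hs) (hSQ t ht) hst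
  · refine (hT.two h).trans (card_le_card ?_)
    intro t ht
    rw [mem_adjS] at ht
    obtain ⟨ht1, x, hx, hx'⟩ := ht
    exact mem_filter.2 ⟨ht1, x, mem_inter.2 ⟨hx, hx'⟩⟩
  · intro s hs t ht hst hcov
    exact hT.star h hc hF.psi51 hs ht hst (hF.cover hcov)
  · intro u hu w hw huw hcov
    obtain ⟨hu1, x, hx, hx'⟩ := mem_adjS.1 hu
    obtain ⟨hw1, y, hy, hy'⟩ := mem_adjS.1 hw
    refine hT.no_cover h (A1 := S \ {u, w}) (A2 := {u}) (A3 := {w}) ?_ ?_
      (hT.rot.adj h hx' hx) (hT.rot.rot.adj h hy' hy)
    · intro t ht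
      simp only [mem_union, mem_sdiff, mem_insert, mem_singleton]
      rw [← hS] at ht
      tauto
    · have := hF.cover hcov
      omega
  · intro t ht h0
    by_contra hcon
    rw [not_or] at hcon
    have h2 : (e t ∩ cols e Q2).card = 0 := by
      rw [card_eq_zero]
      apply eq_empty_of_forall_notMem
      intro x hx
      exact hcon.1 (mem_adjS.2 ⟨ht, x, (mem_inter.1 hx).1, (mem_inter.1 hx).2⟩)
    have h3 : (e t ∩ cols e Q3).card = 0 := by
      rw [card_eq_zero]
      apply eq_empty_of_forall_notMem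
      intro x hx
      exact hcon.2 (mem_adjS.2 ⟨ht, x, (mem_inter.1 hx).1, (mem_inter.1 hx).2⟩)
    have h4 := hT.few h (Z := {t}) (singleton_subset_iff.2 ht)
    have h1 : (e t ∩ cols e Q1).card = 0 := by
      rw [card_eq_zero]
      exact h0
    rw [sum_singleton, card_singleton, h1, h2, h3] at h4
    omega
  · intro u hu w hw huw hu1 hw1
    by_contra hcon
    rw [not_or, not_or, not_or] at hcon
    have key : ∀ t, t ∈ S → ∀ Q, t ∉ adjS e S Q → (e t ∩ cols e Q).card = 0 := by
      intro t ht Q hn
      rw [card_eq_zero]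
      apply eq_empty_of_forall_notMem
      intro x hx
      exact hn (mem_adjS.2 ⟨ht, x, (mem_inter.1 hx).1, (mem_inter.1 hx).2⟩)
    have h4 := hT.few h (Z := {u, w}) (by
      intro t ht
      rcases mem_insert.1 ht with rfl | h'
      · exact hu
      · rw [mem_singleton.1 h']
        exact hw)
    rw [sum_insert (by simpa using huw), sum_singleton, card_pair huw, key u hu _ hcon.1.1,
      key u hu _ hcon.1.2, key w hw _ hcon.2.1, key w hw _ hcon.2.2] at h4
    omega

theorem Low.exists_ldec (h : Low e W) {v : V} (hv : (rho e W v).card = 3) :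
    ∃ P P', LDec e W v P P' := by
  obtain ⟨A, Q, B, hc, -, hB, hbad, hk⟩ := key_cover h.hne (W \ rho e W v)
  rcases low_cases h hv hc hB hbad hk with ⟨h1, h2⟩ | ⟨h1, h2⟩
  · exact exists_ldec_of h hv hc hB hbad h1 h2
  · obtain ⟨a, P1, P2, P3, Y, hT⟩ := exists_tri_of h hv hc hB hbad h1 h2
    exact (hT.false h).elim

theorem LDec.four (h : Low e W) (n : ℕ) : ∀ {v : V} {P P' : Finset ι},
    LDec e W v P P' → P.card = n → 4 ≤ Dval e W P := by
  induction n using Nat.strong_induction_on with
  | _ n ih =>
    intro v P P' hd hn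
    by_cases h3 : 3 ≤ P.card
    · rcases hd.col_or h h3 with ⟨x, hxP, hx3, hx1⟩ | h4
      · obtain ⟨Q, Q', hq, hQP, hlt⟩ := hd.descend h hxP hx1 (Low.exists_ldec h hx3)
        exact (ih Q.card (by omega) hq rfl).trans (Dval_mono hQP)
      · exact h4
    · have h1 := hd.s1.tau_eq
      have h2 := card_pos.2 hd.s1.nonempty
      have h4 : P.card = 1 := by omega
      obtain ⟨l, hl⟩ := card_eq_one.1 h4
      subst hl
      have h5 := hd.single h
      have h6 : (cols e {l}).filter (fun x => (rho e W x).card ≤ 2) = e l := by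
        rw [cols_singleton, filter_true_of_mem h5]
      unfold Dval
      rw [h6]
      rcases h.hs l with h7 | h7
      · have h8 : ({l} : Finset ι).filter (fun i => (e i).card = 3) = {l} := by
          apply filter_true_of_mem
          intro i hi
          rw [mem_singleton.1 hi]
          exact h7
        rw [h8, card_singleton, h7]
      · omega

theorem Low.false (h : Low e W) : False := by
  obtain ⟨v, hv⟩ := h.exists_triple
  obtain ⟨P, P', hd⟩ := Low.exists_ldec h hv
  have h1 := hd.four h _ rfl
  have h2 := hd.symm.four h _ rfl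
  unfold Dval at h1 h2
  set A := (cols e P).filter (fun x => (rho e W x).card ≤ 2) with hA
  set A' := (cols e P').filter (fun x => (rho e W x).card ≤ 2) with hA'
  have hAA : Disjoint A A' :=
    disjoint_of_subset_left (filter_subset _ _) (disjoint_of_subset_right (filter_subset _ _)
      hd.sep)
  have hsub : A ∪ A' ⊆ cols e W :=
    union_subset ((filter_subset _ _).trans (cols_mono hd.side_sub))
      ((filter_subset _ _).trans (cols_mono hd.symm.side_sub))
  have h3 := psi_count h.hs h.hD hsub (by
    intro x hx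
    rcases mem_union.1 hx with hx | hx
    · exact (mem_filter.1 hx).2
    · exact (mem_filter.1 hx).2)
  rw [card_union_of_disjoint hAA] at h3
  have h4 : (P.filter (fun i => (e i).card = 3)).card +
      (P'.filter (fun i => (e i).card = 3)).card ≤ (W.filter (fun i => (e i).card = 3)).card := by
    rw [← card_union_of_disjoint (disjoint_of_subset_left (filter_subset _ _)
      (disjoint_of_subset_right (filter_subset _ _) hd.disj))]
    exact card_le_card (union_subset (filter_subset_filter _ hd.side_sub)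
      (filter_subset_filter _ hd.symm.side_sub))
  have h5 := h.val_le
  omega

end Pool.Agent.TD7
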