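import Pool.Agent.TD7.DefB

set_option autoImplicit false
set_option linter.unusedSectionVars false

namespace Pool.Agent.TD7

open Finset Pool.Agent.TD5 Pool.Agent.TD6

variable {ι V : Type*} [DecidableEq ι] [DecidableEq V] {e : ι → Finset V} {W : Finset ι}

/-- ROW B1.  A component of small weight absorbs any adjacent edge.

PROOF.  Let `x ∈ cols e K`, `K' = K \ rho e K x`, `r = (rho e K x).card ≥ 1`.  `K'` is a proper
subset of `W` (`K' ⊆ K ⊆ W`, and `K' ≠ W` because `K' ⊊ K`), so `h.sub` gives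
`26 * tau e K' ≤ psi e K' + ks e K'`.  `psi_rho : psi e K' + ws e (rho e K x) + 6 ≤ psi e K`,
`ws e (..) ≥ 5 * r` (`TD6.ws_ge`), `ks_rho h.hs hK : ks e K' ≤ 3 * r`.  So
`26 * tau e K' ≤ psi e K - 2 * r - 6 ≤ 26 * tau e K - 1`. -/
theorem free_of (h : Mx e W) {K : Finset ι} (hK : Conn e K) (hKW : K ⊆ W)
    (hle : psi e K ≤ 26 * tau e K + 7) : FreeC e K := by
  intro x hx
  have hpos : 0 < (rho e K x).card := by
    obtain ⟨i, hi, hxi⟩ := mem_cols.1 hx
    exact card_pos.2 ⟨i, mem_rho.2 ⟨hi, hxi⟩⟩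
  have h7 := card_sdiff_add_card_eq_card (rho_sub (e := e) K x)
  have hne : K \ rho e K x ≠ W := by
    intro hcon
    have h8 := card_le_card hKW
    rw [hcon] at h7
    omega
  have h2 := h.sub (sdiff_subset.trans hKW) hne
  have h3 := psi_rho hx
  have h4 := TD6.ws_ge e (rho e K x)
  have h5 := ks_rho h.hs hK hx
  omega

/-- PROOF.  `Special.psi_eq : 26 * tau e K = psi e K + 1`, then `free_of`. -/
theorem free_special (h : Mx e W) {K : Finset ι} (hK : Conn e K) (hKW : K ⊆ W)
    (hsp : Special e K) : FreeC e K := by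
  have h1 := hsp.psi_eq
  exact free_of h hK hKW (by omega)

end Pool.Agent.TD7
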