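import Pool.Agent.TD7.DefB

set_option autoImplicit false
set_option linter.unusedSectionVars false

namespace Pool.Agent.TD7

open Finset Pool.Agent.TD5 Pool.Agent.TD6

variable {ι V : Type*} [DecidableEq ι] [DecidableEq V] {e : ι → Finset V} {W : Finset ι}

/-- ROW B10, first part.  `R = W \ rho e W v`, `X = (R \ C) ∪ J`, `e'` as in row B9.  A component of
`X` without new edges is a component of `R` other than `C`.

PROOF.  `M ⊆ R \ C`, where `e' = e` (the edges of `J` are in `rho e W v`).  So `Conn e M`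
(`Conn e' M` and `Sep` only involve edges in `M`, on which `e' = e`; use `sep_iff`).
`Sep e M ((R \ C) \ M)` from `hM.closed`, `Sep e M C` from `hC.closed` (`M ⊆ R \ C`), so
`Sep e M (R \ M)`.  `M ≠ C` since `M` is nonempty and disjoint from `C`. -/
theorem comp_back {v : V} {C : Finset ι} (hC : IsComp e (W \ rho e W v) C) {J : Finset ι}
    (hJ : J ⊆ rho e W v) {g : ι → Finset V} {M : Finset ι}
    (hM : IsComp (fun i => if i ∈ J then g i else e i) (((W \ rho e W v) \ C) ∪ J) M)
    (hMJ : Disjoint M J) : IsComp e (W \ rho e W v) M ∧ M ≠ C := by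
  obtain ⟨e', he'⟩ : ∃ e' : ι → Finset V, e' = fun i => if i ∈ J then g i else e i := ⟨_, rfl⟩
  rw [← he'] at hM
  have heN : ∀ i, i ∉ J → e' i = e i := by
    intro i hi
    rw [he']
    exact if_neg hi
  have hMJ' : ∀ i ∈ M, i ∉ J := fun i hi => disjoint_left.1 hMJ hi
  have hsub : ∀ i ∈ M, i ∈ (W \ rho e W v) \ C := fun i hi =>
    (mem_union.1 (hM.sub hi)).resolve_right (hMJ' i hi)
  refine ⟨⟨fun i hi => (mem_sdiff.1 (hsub i hi)).1, hM.ne, ?_, ?_⟩, ?_⟩
  · rw [sep_iff]
    intro i hi j hj
    obtain ⟨hjR, hjM⟩ := mem_sdiff.1 hj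
    by_cases hjC : j ∈ C
    · exact (sep_iff.1 hC.closed j hjC i (hsub i hi)).symm
    · have hjJ : j ∉ J := fun h => (mem_sdiff.1 hjR).2 (hJ h)
      have h1 := sep_iff.1 hM.closed i hi j
        (mem_sdiff.2 ⟨mem_union_left _ (mem_sdiff.2 ⟨hjR, hjC⟩), hjM⟩)
      rw [heN i (hMJ' i hi), heN j hjJ] at h1
      exact h1
  · intro X hX hne hXM hsep
    refine hM.conn X hX hne hXM ?_
    rw [sep_iff] at hsep ⊢
    intro i hi j hj
    rw [heN i (hMJ' i (hX hi)), heN j (hMJ' j (mem_sdiff.1 hj).1)]
    exact hsep i hi j hj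
  · rintro rfl
    obtain ⟨i, hi⟩ := hM.ne
    exact (mem_sdiff.1 (hsub i hi)).2 hi

/-- Second part: bounds for the number of exceptional components after the replacement.

PROOF.  All new edges contain `v`, so at most one component of `X` meets `J`
(if `j ∈ M ∩ J`, `j' ∈ J`, then `j' ∈ M`, since otherwise `M` is not closed at `v`); the others are
components of `R` other than `C` by `comp_back`, and there are at most 2 of these
(`hH.three`, `mem_comps`, erase `C`).  (1) follows: `ks e' X ≤ 1 + 2` (`ks e' X` is the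
cardinality of `(comps e' X).filter Special`; it is contained in
`insert M0 ((comps e R).erase C)`).
(2) If `(g j0).card = 3`, `j0 ∈ J`, a component meeting `J` contains `j0` and is not special (all its
edges would have size 4 under `e'`).  So the special components are in
`(comps e R).erase C`; moreover `g j0` contains some `x ≠ v`, `x ∈ Ot e C v t` for a `t ∈ rho e W v`
(`hG.inside`), `x ∈ cols e R` (`hH.cols_eq`), so `x ∈ cols e K0` for a component `K0` of `R`
(`exists_comp`), `K0 ≠ C` (`x ∉ cols e C`), and `K0` is not a component of `X`: it is not closed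
(`x ∈ e' j0`, `j0 ∉ K0`).  So the special components of `X` are in
`((comps e R).erase C).erase K0`, which has at most one element.
(3) If moreover all `Ot e C v t ⊆ J.biUnion g`, there is no component `M` of `X` disjoint from `J`:
it would be a component of `R`, `M ≠ C`, so by `hH.two M` some `t ∈ rho e W v` has
`x ∈ e t ∩ cols e M`, `x ≠ v`, `x ∉ cols e C`, so `x ∈ Ot e C v t`, `x ∈ g j` for some `j ∈ J`,
and `M` would not be closed in `X`. -/
theorem ks_new {v : V} (hH : Hi e W v) {C : Finset ι} {par : V → V}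
    (hC : IsComp e (W \ rho e W v) C) {J : Finset ι} {g : ι → Finset V}
    (hG : Gad (rho e W v) (cols e C) par v (Ct e C) (Ot e C v) J g) :
    ks (fun i => if i ∈ J then g i else e i) (((W \ rho e W v) \ C) ∪ J) ≤ 3 ∧
    ((∃ j ∈ J, (g j).card = 3) →
      ks (fun i => if i ∈ J then g i else e i) (((W \ rho e W v) \ C) ∪ J) ≤ 1 ∧
      ((∀ t ∈ rho e W v, Ot e C v t ⊆ J.biUnion g) →
        ks (fun i => if i ∈ J then g i else e i) (((W \ rho e W v) \ C) ∪ J) = 0)) := by
  classical
  have hback : ∀ M, IsComp (fun i => if i ∈ J then g i else e i) (((W \ rho e W v) \ C) ∪ J) M →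
      Disjoint M J → IsComp e (W \ rho e W v) M ∧ M ≠ C := fun M hM hMJ =>
    comp_back hC hG.sub hM hMJ
  obtain ⟨e', he'⟩ : ∃ e' : ι → Finset V, e' = fun i => if i ∈ J then g i else e i := ⟨_, rfl⟩
  rw [← he'] at hback ⊢
  have heJ : ∀ i ∈ J, e' i = g i := by
    intro i hi
    rw [he']
    exact if_pos hi
  have heN : ∀ i, i ∉ J → e' i = e i := by
    intro i hi
    rw [he']
    exact if_neg hi
  obtain ⟨X, hX⟩ : ∃ X, X = ((W \ rho e W v) \ C) ∪ J := ⟨_, rfl⟩
  rw [← hX] at hback ⊢
  have hJX : J ⊆ X := by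
    rw [hX]
    exact subset_union_right
  -- a component meeting `J` contains `J`
  have hmeet : ∀ M, IsComp e' X M → ¬ Disjoint M J → J ⊆ M := by
    intro M hM hMJ j' hj'
    rw [not_disjoint_iff] at hMJ
    obtain ⟨j, hjM, hjJ⟩ := hMJ
    by_contra hcon
    have h1 := sep_iff.1 hM.closed j hjM j' (mem_sdiff.2 ⟨hJX hj', hcon⟩)
    rw [heJ j hjJ, heJ j' hj'] at h1
    exact disjoint_left.1 h1 (hG.mem j hjJ) (hG.mem j' hj')
  -- the edge `j ∈ J` meets no component disjoint from `J`
  have hno : ∀ M, IsComp e' X M → Disjoint M J → ∀ j ∈ J, ∀ x ∈ g j, x ∉ cols e M := by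
    intro M hM hMJ j hj x hx hxM
    obtain ⟨i, hi, hxi⟩ := mem_cols.1 hxM
    have h1 := sep_iff.1 hM.closed i hi j (mem_sdiff.2 ⟨hJX hj, fun h => disjoint_left.1 hMJ h hj⟩)
    rw [heJ j hj, heN i (disjoint_left.1 hMJ hi)] at h1
    exact disjoint_left.1 h1 hxi hx
  have hCm : C ∈ comps e (W \ rho e W v) := mem_comps.2 hC
  have hcE : ((comps e (W \ rho e W v)).erase C).card ≤ 2 := by
    rw [card_erase_of_mem hCm]
    have := hH.three
    omega
  refine ⟨?_, ?_⟩
  · unfold ks
    by_cases hex : ∃ M0, IsComp e' X M0 ∧ ¬ Disjoint M0 J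
    · obtain ⟨M0, hM0, hM0J⟩ := hex
      have hsub : (comps e' X).filter (fun P => Special e' P) ⊆
          insert M0 ((comps e (W \ rho e W v)).erase C) := by
        intro M hM
        have hM' := mem_comps.1 (mem_filter.1 hM).1
        by_cases hd : Disjoint M J
        · obtain ⟨h1, h2⟩ := hback M hM' hd
          exact mem_insert_of_mem (mem_erase.2 ⟨h2, mem_comps.2 h1⟩)
        · rw [not_disjoint_iff] at hM0J
          obtain ⟨j, hj1, hj2⟩ := hM0J
          rw [hM'.eq_of_mem hM0 (hmeet M hM' hd hj2) hj1]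
          exact mem_insert_self _ _
      have h1 := card_le_card hsub
      have h2 := card_insert_le M0 ((comps e (W \ rho e W v)).erase C)
      omega
    · push Not at hex
      have hsub : (comps e' X).filter (fun P => Special e' P) ⊆
          (comps e (W \ rho e W v)).erase C := by
        intro M hM
        have hM' := mem_comps.1 (mem_filter.1 hM).1
        obtain ⟨h1, h2⟩ := hback M hM' (hex M hM')
        exact mem_erase.2 ⟨h2, mem_comps.2 h1⟩
      have h1 := card_le_card hsub
      omega
  · rintro ⟨j0, hj0, hc0⟩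
    have hdis : ∀ M, IsComp e' X M → Special e' M → Disjoint M J := by
      intro M hM hsp
      by_contra hcon
      have h1 := hsp.1 j0 (hmeet M hM hcon hj0)
      rw [heJ j0 hj0] at h1
      omega
    refine ⟨?_, ?_⟩
    · obtain ⟨x, hx, hxv⟩ : ∃ x ∈ g j0, x ≠ v := by
        by_contra hcon
        push Not at hcon
        have h1 : g j0 ⊆ {v} := fun x hx => mem_singleton.2 (hcon x hx)
        have h2 := card_le_card h1
        rw [card_singleton] at h2
        omega
      have h1 := (mem_insert.1 (hG.inside j0 hj0 hx)).resolve_left hxv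
      obtain ⟨t, ht, hxt⟩ := mem_biUnion.1 h1
      unfold Ot at hxt
      rw [mem_sdiff, mem_erase] at hxt
      obtain ⟨⟨-, h3⟩, h4⟩ := hxt
      have h5 : x ∈ cols e W := sub_cols (rho_sub W v ht) h3
      rw [hH.cols_eq, mem_insert] at h5
      obtain ⟨k, hk, hxk⟩ := mem_cols.1 (h5.resolve_left hxv)
      obtain ⟨K0, hK0, hkK0⟩ := exists_comp (e := e) hk
      have hK0C : K0 ≠ C := by
        rintro rfl
        exact h4 (mem_cols.2 ⟨k, hkK0, hxk⟩)
      have hsub : (comps e' X).filter (fun P => Special e' P) ⊆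
          ((comps e (W \ rho e W v)).erase C).erase K0 := by
        intro M hM
        obtain ⟨hM1, hM2⟩ := mem_filter.1 hM
        have hM' := mem_comps.1 hM1
        have hd := hdis M hM' hM2
        obtain ⟨h6, h7⟩ := hback M hM' hd
        refine mem_erase.2 ⟨?_, mem_erase.2 ⟨h7, mem_comps.2 h6⟩⟩
        rintro rfl
        exact hno M hM' hd j0 hj0 x hx (mem_cols.2 ⟨k, hkK0, hxk⟩)
      have h6 := card_le_card hsub
      rw [card_erase_of_mem (mem_erase.2 ⟨hK0C, mem_comps.2 hK0⟩)] at h6
      unfold ks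
      omega
    · intro hcov
      apply ks_eq_zero
      intro M hM hsp
      have hd := hdis M hM hsp
      obtain ⟨h6, h7⟩ := hback M hM hd
      have h8 := hH.two M h6
      obtain ⟨t, ht⟩ := card_pos.1 (show 0 < (adjS e (rho e W v) M).card by omega)
      obtain ⟨htT, x, hxt, hxM⟩ := mem_adjS.1 ht
      have hxv : x ≠ v := by
        rintro rfl
        exact notMem_cols_rho W x (cols_mono h6.sub hxM)
      have hxC : x ∉ cols e C := fun h => disjoint_left.1 (h6.sep hC h7) hxM h
      have hxO : x ∈ Ot e C v t := by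
        unfold Ot
        rw [mem_sdiff, mem_erase]
        exact ⟨⟨hxv, hxt⟩, hxC⟩
      obtain ⟨j, hj, hxj⟩ := mem_biUnion.1 (hcov t htT hxO)
      exact hno M hM hd j hj x hxj hxM

end Pool.Agent.TD7
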