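import Pool.Agent.TD7.DefB

set_option autoImplicit false
set_option linter.unusedSectionVars false

namespace Pool.Agent.TD7

open Finset Pool.Agent.TD5 Pool.Agent.TD6

variable {ι V : Type*} [DecidableEq ι] [DecidableEq V] {e : ι → Finset V} {W : Finset ι}

/-- ROW B11.  The exceptional situation: three edges at `v` contain the same vertex `u` outside the
double triangle, the fourth edge `s` at `v` misses the double triangle.  `T = rho e W v = {p, q, r, s}`,
`R = W \ T`.

PROOF.  `u ≠ v`, `u ∉ cols e C`, `u ∈ cols e W = insert v (cols e R)`, so some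
`k ∈ R`, `k ∉ C`, has `u ∈ e k`.  `rho e W u ⊇ {p, q, r, k}` and `(rho e W u).card ≤ 4`
(`hmax`), so `rho e W u = {p, q, r, k}`; in particular `u ∉ e s`.  `hHu : Hi e W u` is given.
Let `X = W \ (rho e W u ∪ C) = ((R \ C).erase k) ∪ {s}`.  `W \ rho e W u = C ∪ X`, `Sep e C X`
(`hC.closed`, and `e s ∩ cols e C = ∅`), so `psi e W = psi e (W \ rho e W u) + 26 =
51 + psi e X + 26` (`hHu.psi_eq`, `psi_union`, `hF.psi51`).
Let `e' = Function.update e s ((e s).erase v)`: sizes 3 and 4 only (`(e s).card = 4`, `v ∈ e s`).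
`X.card < W.card`; `hH.mx.ih` gives `26 * tau e' X ≤ psi e' X + ks e' X`.  In `X` only `s`
contains `v` (`X ∩ T = {s}`), so `cols e' X ⊆ (cols e X).erase v`, `v ∈ cols e X`,
`ws e' X = ws e X + 4`: `psi e' X + 2 ≤ psi e X`.  `tau e X ≤ tau e' X` (a set hitting `e'` hits `e`).
`tau e W ≤ 1 + tau e C + tau e X = 3 + tau e X`.  So
`26 * tau e W ≤ 78 + psi e X - 2 + ks e' X = psi e W - 1 + ks e' X`; with `psi_lt` it suffices that
`ks e' X = 0` (`ks_eq_zero`).  Let `M` be a special component of `X` for `e'`.  `s ∉ M`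
(`(e' s).card = 3`).  So `M ⊆ (R \ C).erase k`, `e' = e` on `M`; `v ∉ cols e M` (`M ⊆ R`), so `M` is
separated from `s` also for `e`, hence `M` is closed in `X` for `e`; `M` is separated from `C`; so
`IsComp e (W \ rho e W u) M`, and `hHu.two M` says that two edges of `rho e W u = {p, q, r, k}` meet `M`.
But `e p = {v} ∪ (e p ∩ cols e C) ∪ {u}` (by `hp : Ot e C v p = {u}`), and `v ∉ cols e M`,
`cols e M` is disjoint from `cols e C`, `u ∉ cols e M` (`M ⊆ W \ rho e W u`); so `e p` misses
`cols e M`, likewise `q`, `r`; only `k` can meet it.  Contradiction. -/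
theorem bad_false {v : V} (hH : Hi e W v) (hHu : ∀ x, (rho e W x).card = 4 → Hi e W x)
    {C : Finset ι} {par : V → V} (hC : IsComp e (W \ rho e W v) C) (hF : F6 e C par)
    {p q r s : ι} {u : V} (hpq : p ≠ q) (hpr : p ≠ r) (hps : p ≠ s) (hqr : q ≠ r)
    (hqs : q ≠ s) (hrs : r ≠ s) (hT : rho e W v = {p, q, r, s}) (hp : Ot e C v p = {u})
    (hq : Ot e C v q = {u}) (hr : Ot e C v r = {u}) (hs : Ct e C s = ∅) : False := by
  classical
  have hTm : ∀ t, t ∈ rho e W v ↔ t = p ∨ t = q ∨ t = r ∨ t = s := by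
    intro t
    rw [hT]
    simp only [mem_insert, mem_singleton]
  have hpT : p ∈ rho e W v := (hTm p).2 (Or.inl rfl)
  have hqT : q ∈ rho e W v := (hTm q).2 (Or.inr (Or.inl rfl))
  have hrT : r ∈ rho e W v := (hTm r).2 (Or.inr (Or.inr (Or.inl rfl)))
  have hsT : s ∈ rho e W v := (hTm s).2 (Or.inr (Or.inr (Or.inr rfl)))
  have hu : ∀ t, Ot e C v t = {u} → u ∈ e t ∧ u ≠ v ∧ u ∉ cols e C := by
    intro t ht
    have h1 : u ∈ Ot e C v t := by rw [ht]; exact mem_singleton_self u
    rw [Ot, mem_sdiff, mem_erase] at h1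
    exact ⟨h1.1.2, h1.1.1, h1.2⟩
  obtain ⟨hup, huv, huC⟩ := hu p hp
  have huq := (hu q hq).1
  have hur := (hu r hr).1
  have huW : u ∈ cols e W := mem_cols.2 ⟨p, (mem_rho.1 hpT).1, hup⟩
  rw [hH.cols_eq, mem_insert] at huW
  obtain ⟨k, hk, huk⟩ := mem_cols.1 (huW.resolve_left huv)
  obtain ⟨hkW, hkT⟩ := mem_sdiff.1 hk
  have hkp : k ≠ p := fun h => hkT (h ▸ hpT)
  have hkq : k ≠ q := fun h => hkT (h ▸ hqT)
  have hkr : k ≠ r := fun h => hkT (h ▸ hrT)
  have hks' : k ≠ s := fun h => hkT (h ▸ hsT)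
  have hrho : rho e W u = {p, q, r, k} := by
    symm
    apply eq_of_subset_of_card_le
    · intro t ht
      simp only [mem_insert, mem_singleton] at ht
      rcases ht with rfl | rfl | rfl | rfl
      · exact mem_rho.2 ⟨(mem_rho.1 hpT).1, hup⟩
      · exact mem_rho.2 ⟨(mem_rho.1 hqT).1, huq⟩
      · exact mem_rho.2 ⟨(mem_rho.1 hrT).1, hur⟩
      · exact mem_rho.2 ⟨hkW, huk⟩
    · have h1 := hH.maxdeg u
      have h2 : ({p, q, r, k} : Finset ι).card = 4 := by
        rw [card_insert_of_notMem, card_insert_of_notMem, card_insert_of_notMem, card_singleton]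
        · simp only [mem_singleton]
          exact fun h => hkr h.symm
        · simp only [mem_insert, mem_singleton]
          rintro (h | h)
          · exact hqr h
          · exact hkq h.symm
        · simp only [mem_insert, mem_singleton]
          rintro (h | h | h)
          · exact hpq h
          · exact hpr h
          · exact hkp h.symm
      omega
  have hrhom : ∀ t, t ∈ rho e W u ↔ t = p ∨ t = q ∨ t = r ∨ t = k := by
    intro t
    rw [hrho]
    simp only [mem_insert, mem_singleton]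
  have hcard4 : (rho e W u).card = 4 := by
    have h1 := hH.maxdeg u
    have h2 : ({p, q, r, k} : Finset ι).card = 4 := by
      rw [card_insert_of_notMem, card_insert_of_notMem, card_insert_of_notMem, card_singleton]
      · simp only [mem_singleton]
        exact fun h => hkr h.symm
      · simp only [mem_insert, mem_singleton]
        rintro (h | h)
        · exact hqr h
        · exact hkq h.symm
      · simp only [mem_insert, mem_singleton]
        rintro (h | h | h)
        · exact hpq h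
        · exact hpr h
        · exact hkp h.symm
    rw [hrho, h2]
  have hU := hHu u hcard4
  have hCR : C ⊆ W \ rho e W v := hC.sub
  have hCW : C ⊆ W := hCR.trans sdiff_subset
  have hCu : ∀ i ∈ C, i ∉ rho e W u := by
    intro i hi hi'
    exact huC (mem_cols.2 ⟨i, hi, (mem_rho.1 hi').2⟩)
  have hsu : s ∉ rho e W u := by
    rw [hrhom]
    rintro (h | h | h | h)
    · exact hps h.symm
    · exact hqs h.symm
    · exact hrs h.symm
    · exact hks' h.symm
  have hsC : s ∉ C := fun h => (mem_sdiff.1 (hCR h)).2 hsT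
  obtain ⟨X, hX⟩ : ∃ X, X = W \ (rho e W u ∪ C) := ⟨_, rfl⟩
  have hXm : ∀ j, j ∈ X ↔ j ∈ W ∧ j ∉ rho e W u ∧ j ∉ C := by
    intro j
    rw [hX, mem_sdiff, mem_union, not_or]
  have hsX : s ∈ X := (hXm s).2 ⟨(mem_rho.1 hsT).1, hsu, hsC⟩
  have hXT : ∀ j ∈ X, j ≠ s → j ∉ rho e W v := by
    intro j hj hjs hjT
    obtain ⟨-, h2, -⟩ := (hXm j).1 hj
    rcases (hTm j).1 hjT with h | h | h | h
    · exact h2 ((hrhom j).2 (Or.inl h))
    · exact h2 ((hrhom j).2 (Or.inr (Or.inl h)))
    · exact h2 ((hrhom j).2 (Or.inr (Or.inr (Or.inl h))))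
    · exact hjs h
  have hsplit : W \ rho e W u = C ∪ X := by
    ext i
    rw [mem_sdiff, mem_union, hXm]
    constructor
    · rintro ⟨h1, h2⟩
      by_cases h3 : i ∈ C
      · exact Or.inl h3
      · exact Or.inr ⟨h1, h2, h3⟩
    · rintro (h1 | ⟨h1, h2, -⟩)
      · exact ⟨hCW h1, hCu i h1⟩
      · exact ⟨h1, h2⟩
  have hsepCX : TD5.Sep e C X := by
    rw [sep_iff]
    intro i hi j hj
    by_cases hjs : j = s
    · rw [hjs, disjoint_left]
      intro x hx hx'
      have h1 : x ∈ Ct e C s := mem_inter.2 ⟨hx', mem_cols.2 ⟨i, hi, hx⟩⟩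
      rw [hs] at h1
      exact notMem_empty x h1
    · obtain ⟨h1, -, h3⟩ := (hXm j).1 hj
      exact sep_iff.1 hC.closed i hi j (mem_sdiff.2 ⟨mem_sdiff.2 ⟨h1, hXT j hj hjs⟩, h3⟩)
  have hpsi := hU.psi_eq
  rw [hsplit, psi_union hH.mx.hs hsepCX, hF.psi51] at hpsi
  -- the new edge
  obtain ⟨e', he'⟩ : ∃ e' : ι → Finset V, e' = Function.update e s ((e s).erase v) := ⟨_, rfl⟩
  have hes : e' s = (e s).erase v := by rw [he', Function.update_self]
  have hene : ∀ i, i ≠ s → e' i = e i := fun i hi => by rw [he', Function.update_of_ne hi]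
  have hvs : v ∈ e s := (mem_rho.1 hsT).2
  have hs4 : (e s).card = 4 := hH.four s hsT
  have hs3 : (e' s).card = 3 := by
    rw [hes, card_erase_of_mem hvs, hs4]
  have hsz : Sz e' := by
    intro i
    by_cases hi : i = s
    · rw [hi]
      exact Or.inl hs3
    · rw [hene i hi]
      exact hH.mx.hs i
  have hXW : X ⊆ W := fun j hj => ((hXm j).1 hj).1
  have hpX : p ∉ X := fun h => ((hXm p).1 h).2.1 ((hrhom p).2 (Or.inl rfl))
  have hXlt : X.card < W.card := by
    apply card_lt_of_ne hXW
    rintro rfl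
    exact hpX (mem_rho.1 hpT).1
  have hih := hH.mx.ih e' X hsz hXlt
  have hws : ws e' X = ws e X + 4 := by
    have h1 : ws e' X = ∑ i ∈ X.erase s, wt e' i + wt e' s := (sum_erase_add _ _ hsX).symm
    have h2 : ws e X = ∑ i ∈ X.erase s, wt e i + wt e s := (sum_erase_add _ _ hsX).symm
    have h3 : ∑ i ∈ X.erase s, wt e' i = ∑ i ∈ X.erase s, wt e i := by
      apply sum_congr rfl
      intro i hi
      unfold wt
      rw [hene i (mem_erase.1 hi).1]
    rw [h1, h2, h3, wt_three hs3, wt_four hs4]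
  have hcolsX : cols e' X ⊆ (cols e X).erase v := by
    intro y hy
    obtain ⟨i, hi, hyi⟩ := mem_cols.1 hy
    rw [mem_erase, mem_cols]
    by_cases his : i = s
    · rw [his, hes, mem_erase] at hyi
      exact ⟨hyi.1, s, hsX, hyi.2⟩
    · rw [hene i his] at hyi
      refine ⟨?_, i, hi, hyi⟩
      rintro rfl
      exact hXT i hi his (mem_rho.2 ⟨hXW hi, hyi⟩)
  have hvX : v ∈ cols e X := mem_cols.2 ⟨s, hsX, hvs⟩
  have hcc := card_le_card hcolsX
  have hcc2 := card_erase_add_one hvX
  have hpsiX : psi e' X + 2 ≤ psi e X := by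
    unfold psi
    omega
  have hsub' : ∀ i, e' i ⊆ e i := by
    intro i
    by_cases hi : i = s
    · rw [hi, hes]
      exact erase_subset _ _
    · rw [hene i hi]
  have htauX : tau e X ≤ tau e' X := by
    obtain ⟨D, hD, hD'⟩ := tau_spec hsz.hne X
    rw [← hD']
    apply tau_le
    intro i hi
    obtain ⟨x, hx, hx'⟩ := hD i hi
    exact ⟨x, hx, hsub' i hx'⟩
  have htauW : tau e W ≤ 1 + (2 + tau e X) := by
    have h1 : W ⊆ rho e W u ∪ (C ∪ X) := by
      intro i hi
      rw [← hsplit, mem_union, mem_sdiff]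
      tauto
    have h2 := tau_le_of_subset hH.mx.hne h1
    have h3 : tau e (rho e W u) ≤ 1 := tau_le_one u (fun i hi => (mem_rho.1 hi).2)
    have h4 := tau_union hH.mx.hne C X
    have h5 := hF.tau2
    omega
  have hks0 : ks e' X = 0 := by
    apply ks_eq_zero
    intro M hM hsp
    have hsM : s ∉ M := by
      intro h
      have := hsp.1 s h
      omega
    have hMs : ∀ i ∈ M, i ≠ s := fun i hi h => hsM (h ▸ hi)
    have hMT : ∀ i ∈ M, i ∉ rho e W v := fun i hi => hXT i (hM.sub hi) (hMs i hi)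
    have hMu : ∀ i ∈ M, u ∉ e i := by
      intro i hi hui
      obtain ⟨h1, h2, -⟩ := (hXm i).1 (hM.sub hi)
      exact h2 (mem_rho.2 ⟨h1, hui⟩)
    have hMv : ∀ i ∈ M, v ∉ e i := by
      intro i hi hvi
      exact hMT i hi (mem_rho.2 ⟨hXW (hM.sub hi), hvi⟩)
    have hcomp : IsComp e (W \ rho e W u) M := by
      refine ⟨?_, hM.ne, ?_, ?_⟩
      · rw [hsplit]
        exact hM.sub.trans subset_union_right
      · rw [sep_iff]
        intro i hi j hj
        obtain ⟨hj1, hj2⟩ := mem_sdiff.1 hj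
        rw [hsplit, mem_union] at hj1
        rcases hj1 with hj1 | hj1
        · exact (sep_iff.1 hsepCX j hj1 i (hM.sub hi)).symm
        · have h1 := sep_iff.1 hM.closed i hi j (mem_sdiff.2 ⟨hj1, hj2⟩)
          rw [hene i (hMs i hi)] at h1
          by_cases hjs : j = s
          · rw [hjs, hes, disjoint_left] at h1
            rw [hjs, disjoint_left]
            intro x hx hx'
            refine h1 hx (mem_erase.2 ⟨?_, hx'⟩)
            rintro rfl
            exact hMv i hi hx
          · rwa [hene j hjs] at h1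
      · intro Z hZ hZne hZM hsep
        refine hM.conn Z hZ hZne hZM ?_
        rw [sep_iff] at hsep ⊢
        intro i hi j hj
        rw [hene i (hMs i (hZ hi)), hene j (hMs j (mem_sdiff.1 hj).1)]
        exact hsep i hi j hj
    have h2 := hU.two M hcomp
    have hMC : ∀ x ∈ cols e M, x ∉ cols e C := by
      intro x hx hx'
      obtain ⟨i, hi, hxi⟩ := mem_cols.1 hx
      obtain ⟨j, hj, hxj⟩ := mem_cols.1 hx'
      exact disjoint_left.1 (sep_iff.1 hsepCX j hj i (hM.sub hi)) hxj hxi
    have hno : ∀ t, Ot e C v t = {u} → ∀ x ∈ e t, x ∉ cols e M := by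
      intro t ht x hx hxM
      obtain ⟨i, hi, hxi⟩ := mem_cols.1 hxM
      have hxu : x ∈ Ot e C v t := by
        rw [Ot, mem_sdiff, mem_erase]
        refine ⟨⟨?_, hx⟩, hMC x hxM⟩
        rintro rfl
        exact hMv i hi hxi
      rw [ht, mem_singleton] at hxu
      rw [hxu] at hxi
      exact hMu i hi hxi
    have hadj : adjS e (rho e W u) M ⊆ {k} := by
      intro t ht
      obtain ⟨h3, x, hx, hxM⟩ := mem_adjS.1 ht
      rw [mem_singleton]
      rcases (hrhom t).1 h3 with h | h | h | h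
      · exact absurd hxM (hno t (h ▸ hp) x hx)
      · exact absurd hxM (hno t (h ▸ hq) x hx)
      · exact absurd hxM (hno t (h ▸ hr) x hx)
      · exact h
    have h4 := card_le_card hadj
    rw [card_singleton] at h4
    omega
  have hneg := hH.mx.neg
  omega

end Pool.Agent.TD7
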