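import Pool.Agent.TD7.DefB

set_option autoImplicit false
set_option linter.unusedSectionVars false

namespace Pool.Agent.TD7

open Finset Pool.Agent.TD5 Pool.Agent.TD6

variable {ι V : Type*} [DecidableEq ι] [DecidableEq V] {e : ι → Finset V} {W : Finset ι}

open Classical in
theorem b2_hall {α β : Type*} [DecidableEq α] [DecidableEq β] (r : α → β → Prop)
    (Z : Finset α) (G : Finset β) (b0 : β)
    (h : ∀ A ⊆ Z, A.card ≤ (G.filter (fun K => ∃ a ∈ A, r a K)).card) :
    ∃ f : α → β, Set.InjOn f Z ∧ ∀ z ∈ Z, f z ∈ G ∧ r z (f z) := by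
  classical
  have h1 : ∀ s : Finset {x // x ∈ Z},
      s.card ≤ (s.biUnion (fun z => G.filter (fun K => r z.1 K))).card := by
    intro s
    have h2 := h (s.map (Function.Embedding.subtype _)) (by
      intro x hx
      rw [Finset.mem_map] at hx
      obtain ⟨y, _, hy⟩ := hx
      rw [← hy]
      exact y.2)
    rw [Finset.card_map] at h2
    refine h2.trans (Finset.card_le_card ?_)
    intro K hK
    rw [Finset.mem_filter] at hK
    obtain ⟨hKG, a, ha, haK⟩ := hK
    rw [Finset.mem_map] at ha
    obtain ⟨y, hy, hya⟩ := ha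
    rw [Finset.mem_biUnion]
    refine ⟨y, hy, ?_⟩
    rw [Finset.mem_filter]
    refine ⟨hKG, ?_⟩
    have h3 : y.1 = a := hya
    rw [h3]
    exact haK
  rw [Finset.all_card_le_biUnion_card_iff_exists_injective] at h1
  obtain ⟨f, hf, hf'⟩ := h1
  refine ⟨fun x => if hx : x ∈ Z then f ⟨x, hx⟩ else b0, ?_, ?_⟩
  · intro x hx y hy hxy
    have hx' : x ∈ Z := hx
    have hy' : y ∈ Z := hy
    simp only [hx', hy', dite_true] at hxy
    have := hf hxy
    exact congrArg Subtype.val this
  · intro z hz
    simp only [hz, dite_true]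
    have h4 := hf' ⟨z, hz⟩
    rw [Finset.mem_filter] at h4
    exact h4

/-- ROW B2 (pure Hall theory).  `r t K` is any relation.

PROOF.  For `S ⊆ T` let `n S = (G.filter (fun K => ∃ s ∈ S, r s K)).card`.  If Hall's condition
`S.card ≤ n S` holds for all `S ⊆ T`, Hall's theorem (`all_card_le_biUnion_card_iff_exists_injective`
for the subtype `T`, see the use in TD5/Key.lean, or
`Finset.all_card_le_biUnion_card_iff_exists_injective'`) gives an injective
`f` on `T` with `f t ∈ G`, `r t (f t)`; take `Z = T` (nonempty; `T \ Z = ∅`).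
Otherwise choose `S ⊆ T` with `S.card + G.card - n S` maximal (`exists_max_image` on `T.powerset`);
then `n S < S.card`, and for every `A ⊆ T \ S` the maximality for `S ∪ A` gives
`A.card ≤ n (S ∪ A) - n S = (G2.filter (fun K => ∃ a ∈ A, r a K)).card`, where
`G2 = G.filter (fun K => ∀ s ∈ S, ¬ r s K)`.  Put `Z = T \ S`.  Hall's theorem for `Z` and `G2`
gives `f` injective on `Z`, `f z ∈ G2`, `r z (f z)`; `T \ Z = S` (as `S ⊆ T`), so
`∀ s ∈ T \ Z, ¬ r s (f z)`.  `Z` is nonempty: `G2.card = G.card - n S > G.card - S.card ≥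
T.card - S.card ≥ 0`, so some `K ∈ G2`; by `hG` some `t ∈ T` has `r t K`, and `t ∉ S`. -/
theorem hall_choice {α β : Type*} [DecidableEq α] [DecidableEq β] (r : α → β → Prop)
    (T : Finset α) (G : Finset β) (hT : T.Nonempty) (hc : T.card ≤ G.card)
    (hG : ∀ K ∈ G, ∃ t ∈ T, r t K) : ∃ Z ⊆ T, Z.Nonempty ∧ ∃ f : α → β, Set.InjOn f Z ∧
      ∀ z ∈ Z, f z ∈ G ∧ r z (f z) ∧ ∀ s ∈ T \ Z, ¬ r s (f z) := by
  classical
  obtain ⟨b0, hb0⟩ : G.Nonempty := by
    rw [← Finset.card_pos]
    have := hT.card_pos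
    omega
  set n : Finset α → ℕ := fun S => (G.filter (fun K => ∃ s ∈ S, r s K)).card with hn
  have hnG : ∀ S, n S ≤ G.card := fun S => Finset.card_filter_le _ _
  obtain ⟨S, hS, hmax⟩ := Finset.exists_max_image T.powerset
    (fun S => S.card + (G.card - n S)) ⟨∅, Finset.empty_mem_powerset T⟩
  rw [Finset.mem_powerset] at hS
  by_cases hcase : n S < S.card
  · set G2 := G.filter (fun K => ∀ s ∈ S, ¬ r s K) with hG2
    have hsum : n S + G2.card = G.card := by
      have h1 := Finset.card_filter_add_card_filter_not (s := G) (fun K => ∃ s ∈ S, r s K)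
      have h2 : G.filter (fun K => ¬ ∃ s ∈ S, r s K) = G2 := by
        rw [hG2]
        refine Finset.filter_congr ?_
        intro K _
        constructor
        · intro h s hs hr
          exact h ⟨s, hs, hr⟩
        · rintro h ⟨s, hs, hr⟩
          exact h s hs hr
      rw [h2] at h1
      exact h1
    have hhall : ∀ A ⊆ T \ S, A.card ≤ (G2.filter (fun K => ∃ a ∈ A, r a K)).card := by
      intro A hA
      have hdis : Disjoint S A := by
        rw [Finset.disjoint_left]
        intro x hx hx'
        exact (Finset.mem_sdiff.1 (hA hx')).2 hx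
      have hun : (S ∪ A).card = S.card + A.card := Finset.card_union_of_disjoint hdis
      have hm := hmax (S ∪ A) (by
        rw [Finset.mem_powerset]
        exact Finset.union_subset hS (hA.trans Finset.sdiff_subset))
      have hnn : n (S ∪ A) ≤ n S + (G2.filter (fun K => ∃ a ∈ A, r a K)).card := by
        have h1 : G.filter (fun K => ∃ s ∈ S ∪ A, r s K) ⊆
            G.filter (fun K => ∃ s ∈ S, r s K) ∪ G2.filter (fun K => ∃ a ∈ A, r a K) := by
          intro K hK
          rw [Finset.mem_filter] at hK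
          obtain ⟨hKG, s, hs, hr⟩ := hK
          rw [Finset.mem_union, Finset.mem_filter, Finset.mem_filter, hG2, Finset.mem_filter]
          by_cases hSK : ∃ s ∈ S, r s K
          · exact Or.inl ⟨hKG, hSK⟩
          · refine Or.inr ⟨⟨hKG, fun s hs hr => hSK ⟨s, hs, hr⟩⟩, s, ?_, hr⟩
            rcases Finset.mem_union.1 hs with h | h
            · exact absurd ⟨s, h, hr⟩ hSK
            · exact h
        exact (Finset.card_le_card h1).trans (Finset.card_union_le _ _)
      have h5 := hnG S
      have h6 := hnG (S ∪ A)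
      omega
    have hZne : (T \ S).Nonempty := by
      have h7 : 0 < G2.card := by
        have := Finset.card_le_card hS
        omega
      obtain ⟨K, hK⟩ := Finset.card_pos.1 h7
      rw [hG2, Finset.mem_filter] at hK
      obtain ⟨t, ht, hr⟩ := hG K hK.1
      exact ⟨t, Finset.mem_sdiff.2 ⟨ht, fun h => hK.2 t h hr⟩⟩
    obtain ⟨f, hf, hf'⟩ := b2_hall r (T \ S) G2 b0 hhall
    refine ⟨T \ S, Finset.sdiff_subset, hZne, f, hf, ?_⟩
    intro z hz
    obtain ⟨h8, h9⟩ := hf' z hz
    rw [hG2, Finset.mem_filter] at h8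
    refine ⟨h8.1, h9, ?_⟩
    intro s hs
    rw [Finset.sdiff_sdiff_eq_self hS] at hs
    exact h8.2 s hs
  · have hhall : ∀ A ⊆ T, A.card ≤ (G.filter (fun K => ∃ a ∈ A, r a K)).card := by
      intro A hA
      have hm := hmax A (Finset.mem_powerset.2 hA)
      have h5 := hnG S
      have h6 := hnG A
      show A.card ≤ n A
      omega
    obtain ⟨f, hf, hf'⟩ := b2_hall r T G b0 hhall
    refine ⟨T, Finset.Subset.refl T, hT, f, hf, ?_⟩
    intro z hz
    refine ⟨(hf' z hz).1, (hf' z hz).2, ?_⟩
    intro s hs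
    rw [Finset.sdiff_self] at hs
    exact absurd hs (Finset.notMem_empty s)

end Pool.Agent.TD7
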