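import Pool.Agent.TD7.B2
import Pool.Agent.TD7.B3

set_option autoImplicit false
set_option linter.unusedSectionVars false

namespace Pool.Agent.TD7

open Finset Pool.Agent.TD5 Pool.Agent.TD6

variable {ι V : Type*} [DecidableEq ι] [DecidableEq V] {e : ι → Finset V} {W : Finset ι}

/-- ROW B4.  Fewer absorbing components than edges at `v`.  `R = W \ rho e W v`.

PROOF.  Suppose `T.card ≤ G.card`, `T = rho e W v`.  Each `K ∈ G` meets some edge of `T`
(`comp_adj h.conn (rho_sub W v) hv (hG K hK) : ¬ Sep e K T`).  Apply `hall_choice` (row B2) with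
`r t K := ∃ x ∈ e t, x ∈ cols e K`: `Z ⊆ T` nonempty, `f` injective on `Z`, `f z ∈ G`, `f z` meets
`e z` and no `e s`, `s ∈ T \ Z`.  Let `G2 = Z.image f`, `G2.card = Z.card`, `U = G2.biUnion id`,
`X = W \ (U ∪ Z)`.  Each `K = f z ∈ G2` is separated from `X`: `X ⊆ (R \ K) ∪ (T \ Z)`; `K` is closed
in `R` and misses the edges of `T \ Z` (`sep_iff`).
`tau e W ≤ tau e X + ∑ z ∈ Z, tau e (f z ∪ {z})` (`W ⊆ X ∪ Z.biUnion (fun z => f z ∪ {z})`,
`tau_mono`, `tau_union`, `tau_biUnion`), and `tau e (f z ∪ {z}) ≤ tau e (f z)`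
(`FreeC.adj h.hs.hne`).  `26 * tau e (f z) ≤ psi e (f z) + sp e (f z)` (`mx_comp_le`),
`26 * tau e X ≤ psi e X + ks e X` (`h.sub`, `X ≠ W` because `Z ≠ ∅`).
`psi e U = ∑ K ∈ G2, psi e K` (`pack_psi h.hs`), `psi e U + psi e X + ws e Z ≤ psi e W`
(`psi_split h.hs`), `ws e Z ≥ 5 * Z.card`; `special_count` (row B3) for `Z`, `G2`.  Together
`26 * tau e W ≤ psi e W - 5 * Z.card + 3 * Z.card + 1 < psi e W + 1`, against `h.psi_lt`.
(`∑ z ∈ Z, a (f z) = ∑ K ∈ G2, a K` by `sum_image` and injectivity.) -/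
theorem hall_lt (h : Mx e W) {v : V} (hv : (rho e W v).Nonempty) {G : Finset (Finset ι)}
    (hG : ∀ K ∈ G, IsComp e (W \ rho e W v) K) (hfree : ∀ K ∈ G, FreeC e K) :
    G.card < (rho e W v).card := by
  classical
  have hs := h.hs
  have hne := h.hs.hne
  by_contra hcon
  push Not at hcon
  have hGadj : ∀ K ∈ G, ∃ t ∈ rho e W v, ∃ x ∈ e t, x ∈ cols e K := by
    intro K hK
    have h1 := comp_adj h.conn (rho_sub W v) hv (hG K hK)
    obtain ⟨x, hx, hxK⟩ := exists_col_of_not_sep h1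
    obtain ⟨t, ht, hxt⟩ := mem_cols.1 hx
    exact ⟨t, ht, x, hxt, hxK⟩
  obtain ⟨Z, hZT, hZne, f, hinj, hf⟩ := hall_choice
    (fun (t : ι) (K : Finset ι) => ∃ x ∈ e t, x ∈ cols e K) (rho e W v) G hv hcon hGadj
  have hZW : Z ⊆ W := hZT.trans (rho_sub W v)
  set G2 : Finset (Finset ι) := Z.image f with hG2
  set U : Finset ι := G2.biUnion id with hU
  set X : Finset ι := W \ (U ∪ Z) with hX
  have hG2G : ∀ K ∈ G2, ∃ z ∈ Z, f z = K := fun K hK => mem_image.1 hK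
  have hcomp : ∀ K ∈ G2, IsComp e (W \ rho e W v) K := by
    intro K hK
    obtain ⟨z, hz, rfl⟩ := hG2G K hK
    exact hG _ (hf z hz).1
  have hKU : ∀ K ∈ G2, K ⊆ U := fun K hK i hi => mem_biUnion.2 ⟨K, hK, hi⟩
  have hsep : ∀ K ∈ G2, TD5.Sep e K X := by
    intro K hK
    have hKc := hcomp K hK
    have hKc' := sep_iff.1 hKc.closed
    obtain ⟨z, hz, hzK⟩ := hG2G K hK
    have h3 := (hf z hz).2.2
    rw [hzK] at h3
    rw [sep_iff]
    intro i hi j hj
    obtain ⟨hj1, hj2⟩ := mem_sdiff.1 hj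
    by_cases hjT : j ∈ rho e W v
    · refine disjoint_left.2 ?_
      intro x hxi hxj
      exact h3 j (mem_sdiff.2 ⟨hjT, fun h' => hj2 (mem_union_right _ h')⟩)
        ⟨x, hxj, sub_cols hi hxi⟩
    · exact hKc' i hi j (mem_sdiff.2 ⟨mem_sdiff.2 ⟨hj1, hjT⟩, fun h' =>
        hj2 (mem_union_left _ (hKU K hK h'))⟩)
  have hadj : ∀ K ∈ G2, ∃ z ∈ Z, ∃ x ∈ e z, x ∈ cols e K := by
    intro K hK
    obtain ⟨z, hz, rfl⟩ := hG2G K hK
    exact ⟨z, hz, (hf z hz).2.1⟩
  have hcount := special_count h hZT hZne hcomp hadj hsep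
  rw [← hU, ← hX] at hcount
  -- the transversal
  have hcover : W ⊆ X ∪ Z.biUnion (fun z => f z ∪ {z}) := by
    intro i hi
    by_cases hiU : i ∈ U
    · obtain ⟨K, hK, hiK⟩ := mem_biUnion.1 hiU
      obtain ⟨z, hz, rfl⟩ := hG2G K hK
      exact mem_union_right _ (mem_biUnion.2 ⟨z, hz, mem_union_left _ hiK⟩)
    · by_cases hiZ : i ∈ Z
      · exact mem_union_right _ (mem_biUnion.2 ⟨i, hiZ, mem_union_right _ (mem_singleton_self i)⟩)
      · refine mem_union_left _ (mem_sdiff.2 ⟨hi, ?_⟩)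
        rw [mem_union]
        exact fun h' => h'.elim hiU hiZ
  have t1 := tau_le_of_subset hne hcover
  have t2 := tau_biUnion (e := e) hne Z (fun z => f z ∪ {z})
  have t3 : ∑ z ∈ Z, tau e (f z ∪ {z}) ≤ ∑ z ∈ Z, tau e (f z) := by
    apply sum_le_sum
    intro z hz
    obtain ⟨x, hxz, hxK⟩ := (hf z hz).2.1
    exact (hfree _ (hf z hz).1).adj hne hxK (fun t ht => by rw [mem_singleton.1 ht]; exact hxz)
  have hRne : W \ rho e W v ≠ W := by
    intro h1
    obtain ⟨t, ht⟩ := hv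
    have h2 := rho_sub W v ht
    rw [← h1] at h2
    exact (mem_sdiff.1 h2).2 ht
  have t4 : 26 * ∑ z ∈ Z, tau e (f z) ≤ ∑ z ∈ Z, psi e (f z) + ∑ z ∈ Z, sp e (f z) := by
    rw [mul_sum, ← sum_add_distrib]
    apply sum_le_sum
    intro z hz
    exact mx_comp_le h sdiff_subset hRne (hG _ (hf z hz).1)
  have e1 : ∑ K ∈ G2, psi e K = ∑ z ∈ Z, psi e (f z) := sum_image hinj
  have e2 : ∑ K ∈ G2, sp e K = ∑ z ∈ Z, sp e (f z) := sum_image hinj
  have e3 := (pack_psi hs G2 (fun P hP P' hP' hn => (hcomp P hP).sep (hcomp P' hP') hn)).1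
  rw [← hU] at e3
  have hUR : U ⊆ W \ rho e W v := by
    intro i hi
    obtain ⟨K, hK, hiK⟩ := mem_biUnion.1 hi
    exact (hcomp K hK).sub hiK
  have hUX : TD5.Sep e U X := (sep_biUnion (fun K hK => (hsep K hK).symm)).symm
  have hdU : Disjoint U Z := by
    refine disjoint_left.2 ?_
    intro i hi hi'
    exact (mem_sdiff.1 (hUR hi)).2 (hZT hi')
  have hdX : Disjoint X Z := by
    refine disjoint_left.2 ?_
    intro i hi hi'
    exact (mem_sdiff.1 hi).2 (mem_union_right _ hi')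
  have e4 := psi_split hs hUX (hUR.trans sdiff_subset) sdiff_subset hZW hdU hdX
  have e5 := TD6.ws_ge e Z
  have hXne : X ≠ W := by
    intro h1
    obtain ⟨z, hz⟩ := hZne
    have h2 := hZW hz
    rw [← h1] at h2
    exact disjoint_left.1 hdX h2 hz
  have e6 := h.sub (X := X) sdiff_subset hXne
  have e7 := h.psi_lt
  have e8 := card_pos.2 hZne
  omega

end Pool.Agent.TD7
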