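import Pool.Agent.TD7.B1
import Pool.Agent.TD7.B4

set_option autoImplicit false
set_option linter.unusedSectionVars false

namespace Pool.Agent.TD7

open Finset Pool.Agent.TD5 Pool.Agent.TD6

variable {ι V : Type*} [DecidableEq ι] [DecidableEq V] {e : ι → Finset V} {W : Finset ι}

theorem b5_ne {v : V} (hv : (rho e W v).Nonempty) : W \ rho e W v ≠ W := by
  intro h1
  obtain ⟨t, ht⟩ := hv
  have h2 := rho_sub W v ht
  rw [← h1] at h2
  exact (mem_sdiff.1 h2).2 ht

theorem b5_tau (h : Mx e W) (v : V) : tau e W ≤ tau e (W \ rho e W v) + 1 := by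
  have h1 : W ⊆ (W \ rho e W v) ∪ rho e W v := by
    intro i hi
    by_cases h' : i ∈ rho e W v
    · exact mem_union_right _ h'
    · exact mem_union_left _ (mem_sdiff.2 ⟨hi, h'⟩)
  have h2 := tau_le_of_subset h.hne h1
  have h3 : tau e (rho e W v) ≤ 1 := tau_le_one v (fun i hi => (mem_rho.1 hi).2)
  omega

/-- the number of exceptional components -/
theorem b5_ks (h : Mx e W) {v : V} (hv : (rho e W v).Nonempty) :
    ks e (W \ rho e W v) < (rho e W v).card := by
  classical
  have h1 := hall_lt h hv (G := (comps e (W \ rho e W v)).filter (fun K => Special e K))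
    (fun K hK => mem_comps.1 (mem_filter.1 hK).1) (fun K hK => ?_)
  · unfold ks
    exact h1
  · obtain ⟨h2, h3⟩ := mem_filter.1 hK
    have h4 := mem_comps.1 h2
    exact free_special h h4.conn (h4.sub.trans sdiff_subset) h3

/-- ROW B5, first pass.  `T = rho e W v`, `R = W \ T`, `t = T.card ≥ 4`.

PROOF.  Let `G = (comps e R).filter (Special e)` (use `classical`); `G.card = ks e R`.  Its members
are absorbing (`free_special`, row B1), so `hall_lt` (row B4) gives `ks e R ≤ t - 1`.
Let `s = ((cols e W) \ insert v (cols e R)).card`.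
`psi e W = ws e R + ws e T + 6 * (cols e W).card ≥ psi e R + ws e T + 6 + 6 * s` (`ws_sdiff`,
`notMem_cols_rho`, `cols_mono`).  `tau e W ≤ tau e R + 1`, `h.sub` for `R`
(`R ≠ W`): `26 * tau e W ≤ 26 + psi e R + ks e R`.  With `h.psi_lt`:
`ws e T + 6 * s + 6 < 26 + ks e R`, i.e. `ws e T + 6 * s ≤ 19 + ks e R ≤ 18 + t`.  As
`ws e T ≥ 5 * t`: `t = 4`, `s = 0`, `ws e T ≤ 22`.  If some edge of `T` had size 3,
`ws e T ≥ 9 + 15`.  So all have size 4, and
`ks e R ≥ ws e T - 19 ≥ 1`, which gives the last claim by `exists_special`. -/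
theorem pass1 (h : Mx e W) {v : V} (hv : 4 ≤ (rho e W v).card) :
    (rho e W v).card = 4 ∧ (∀ t ∈ rho e W v, (e t).card = 4) ∧
      cols e W = insert v (cols e (W \ rho e W v)) ∧
      ∃ K, IsComp e (W \ rho e W v) K ∧ Special e K := by
  classical
  set T := rho e W v with hT
  have hTne : T.Nonempty := card_pos.1 (by omega)
  have hRne : W \ T ≠ W := b5_ne hTne
  have h1 := b5_ks h hTne
  have h2 := b5_tau h v
  have h3 := h.sub sdiff_subset hRne
  have h4 := h.psi_lt
  rw [← hT] at h1 h2
  have hvW : v ∈ cols e W := by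
    obtain ⟨t, ht⟩ := hTne
    obtain ⟨h5, h6⟩ := mem_rho.1 ht
    exact mem_cols.2 ⟨t, h5, h6⟩
  have hvR : v ∉ cols e (W \ T) := notMem_cols_rho W v
  have hS : insert v (cols e W \ insert v (cols e (W \ T))) ⊆ cols e W :=
    insert_subset hvW sdiff_subset
  have hXS : Disjoint (cols e (W \ T)) (insert v (cols e W \ insert v (cols e (W \ T)))) := by
    refine disjoint_left.2 ?_
    intro x hx hx'
    rcases mem_insert.1 hx' with rfl | hx'
    · exact hvR hx
    · exact (mem_sdiff.1 hx').2 (mem_insert_of_mem hx)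
  have h5 := psi_sub (e := e) (X := W \ T) (Z := T) (W := W) sdiff_subset (rho_sub W v)
    sdiff_disjoint hS hXS
  have h6 : (insert v (cols e W \ insert v (cols e (W \ T)))).card =
      (cols e W \ insert v (cols e (W \ T))).card + 1 := by
    apply card_insert_of_notMem
    intro h7
    exact (mem_sdiff.1 h7).2 (mem_insert_self _ _)
  have h7 := TD6.ws_ge e T
  have hcard : T.card = 4 := by omega
  have hs0 : (cols e W \ insert v (cols e (W \ T))).card = 0 := by omega
  have hws : ws e T ≤ 22 := by omega
  refine ⟨hcard, ?_, ?_, ?_⟩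
  · intro t ht
    rcases h.hs t with h8 | h8
    · exfalso
      have h9 := ws_sdiff (e := e) (X := {t}) (W := T) (singleton_subset_iff.2 ht)
      have h10 : ws e {t} = 9 := by
        unfold ws
        rw [sum_singleton, wt_three h8]
      have h11 := TD6.ws_ge e (T \ {t})
      have h12 := card_sdiff_add_card_eq_card (singleton_subset_iff.2 ht)
      rw [card_singleton] at h12
      omega
    · exact h8
  · rw [card_eq_zero, sdiff_eq_empty_iff_subset] at hs0
    exact Subset.antisymm hs0 (insert_subset hvW (cols_mono sdiff_subset))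
  · apply exists_special
    omega

/-- Second pass.  PROOF.  Let `R = W \ rho e W v`.  By `pass1`, `ws e (rho e W v) = 20`, so
`psi e W = psi e R + 26` (`v ∉ cols e R`).  With `tau e W ≤ 1 + ∑ K ∈ comps e R, tau e K`
(`tau_comps`), `psi e R = ∑ K ∈ comps e R, psi e K` (`psi_comps`), `h.psi_lt`:
(*) `∑ psi e K + 1 ≤ ∑ 26 * tau e K`.  `mx_comp_le`: `26 * tau e K ≤ psi e K + sp e K` for all
components.  `ks e R = ∑ sp e K ≤ 3` as in `pass1` (`hall_lt` for the exceptional components).
Let `K0` be a component.  If it is special: `free_special`.  If not, `sp e K0 = 0`, and (*) with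
the bound for all `K ≠ K0` (`add_sum_erase`) gives `psi e K0 + 1 ≤ 26 * tau e K0 + 3`, so `free_of`
applies.  So all components are absorbing; `hall_lt` with `G = comps e R` gives `≤ 3`. -/
theorem pass2 (h : Mx e W) {v : V} (hv : 4 ≤ (rho e W v).card) :
    psi e W = psi e (W \ rho e W v) + 26 ∧
      (∀ K, IsComp e (W \ rho e W v) K → FreeC e K) ∧
      (comps e (W \ rho e W v)).card ≤ 3 := by
  classical
  obtain ⟨hcard, h4, hcols, -⟩ := pass1 h hv
  set T := rho e W v with hT
  have hTne : T.Nonempty := card_pos.1 (by omega)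
  have hRne : W \ T ≠ W := b5_ne hTne
  have h1 := b5_ks h hTne
  have h2 := b5_tau h v
  have h5 := h.psi_lt
  rw [← hT] at h1 h2
  have hvR : v ∉ cols e (W \ T) := notMem_cols_rho W v
  have hws : ws e T = 20 := by
    unfold ws
    rw [sum_congr rfl (fun i hi => wt_four (h4 i hi)), sum_const, hcard]
    rfl
  have hpsi : psi e W = psi e (W \ T) + 26 := by
    have h6 := ws_sdiff (e := e) (X := T) (W := W) (rho_sub W v)
    have h7 : (cols e W).card = (cols e (W \ T)).card + 1 := by
      rw [hcols, card_insert_of_notMem hvR]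
    unfold psi
    omega
  have hfree : ∀ K, IsComp e (W \ T) K → FreeC e K := by
    intro K hK
    by_cases hsp : Special e K
    · exact free_special h hK.conn (hK.sub.trans sdiff_subset) hsp
    · apply free_of h hK.conn (hK.sub.trans sdiff_subset)
      have a1 := psi_comps h.hs (W \ T)
      have a2 := tau_comps h.hne (W \ T)
      have a3 := ks_eq_sum (e := e) (W \ T)
      have hKc : K ∈ comps e (W \ T) := mem_comps.2 hK
      rw [← add_sum_erase _ _ hKc] at a1 a2 a3
      have a4 : 26 * ∑ M ∈ (comps e (W \ T)).erase K, tau e M ≤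
          ∑ M ∈ (comps e (W \ T)).erase K, psi e M + ∑ M ∈ (comps e (W \ T)).erase K, sp e M := by
        rw [mul_sum, ← sum_add_distrib]
        apply sum_le_sum
        intro M hM
        exact mx_comp_le h sdiff_subset hRne (mem_comps.1 (mem_of_mem_erase hM))
      omega
  refine ⟨hpsi, hfree, ?_⟩
  have h6 := hall_lt h hTne (G := comps e (W \ T)) (fun K hK => mem_comps.1 hK)
    (fun K hK => hfree K (mem_comps.1 hK))
  rw [← hT] at h6
  omega

end Pool.Agent.TD7
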