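import Pool.Agent.TD7.B3

set_option autoImplicit false
set_option linter.unusedSectionVars false

namespace Pool.Agent.TD7

open Finset Pool.Agent.TD5 Pool.Agent.TD6

variable {ι V : Type*} [DecidableEq ι] [DecidableEq V] {e : ι → Finset V} {W : Finset ι}

/-- ROW B6.  Every component meets at least two of the four edges at `v`.  `T = rho e W v`,
`R = W \ T`, `K` a component of `R`.

PROOF.  Suppose `(adjS e T K).card ≤ 1`.  `K` meets some edge of `T`
(`comp_adj h.conn (rho_sub W v) hv hK`), so `adjS e T K = {z}`.  Let `X = W \ (K ∪ {z})`.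
`Sep e K X` (`X ⊆ (R \ K) ∪ (T.erase z)`, `K` is closed in `R` and misses the edges of
`T.erase z`).  Let `Z = {z}`, `G = {K}`: `special_count` (row B3) gives
`sp e K + ks e X ≤ 4`.  `tau e W ≤ tau e (K ∪ {z}) + tau e X ≤ tau e K + tau e X` (`FreeC.adj`),
`26 * tau e K ≤ psi e K + sp e K` (`mx_comp_le`), `26 * tau e X ≤ psi e X + ks e X` (`h.sub`),
`psi e K + psi e X + 5 ≤ psi e W` (`psi_split`, `wt_ge`).  So `26 * tau e W ≤ psi e W - 5 + 4`,
against `h.psi_lt`. -/
theorem two_adj_of (h : Mx e W) {v : V} (hv : (rho e W v).Nonempty) {K : Finset ι}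
    (hK : IsComp e (W \ rho e W v) K) (hfree : FreeC e K) :
    2 ≤ (adjS e (rho e W v) K).card := by
  by_contra hlt
  push Not at hlt
  have hns := comp_adj h.conn (rho_sub W v) hv hK
  obtain ⟨x, i, hi, z, hz, hxi, hxz⟩ := not_sep hns
  have hxK : x ∈ cols e K := mem_cols.2 ⟨i, hi, hxi⟩
  have hzA : z ∈ adjS e (rho e W v) K := mem_adjS.2 ⟨hz, x, hxz, hxK⟩
  have hzW : z ∈ W := rho_sub W v hz
  have honly : ∀ t ∈ adjS e (rho e W v) K, t = z := by
    intro t ht
    by_contra hne
    have h1 : ({t, z} : Finset ι) ⊆ adjS e (rho e W v) K := by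
      intro k hk
      simp only [mem_insert, mem_singleton] at hk
      rcases hk with rfl | rfl <;> assumption
    have h2 := card_le_card h1
    rw [card_pair hne] at h2
    omega
  have hzK : z ∉ K := fun hcon => (mem_sdiff.1 (hK.sub hcon)).2 hz
  have hKW : K ⊆ W := hK.sub.trans sdiff_subset
  have hRW : W \ rho e W v ≠ W := by
    intro hcon
    rw [← hcon] at hzW
    exact (mem_sdiff.1 hzW).2 hz
  have hsep : TD5.Sep e K (W \ (K ∪ {z})) := by
    rw [sep_iff]
    intro i hi j hj
    rw [mem_sdiff, mem_union, mem_singleton, not_or] at hj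
    obtain ⟨hjW, hjK, hjz⟩ := hj
    by_cases hjr : j ∈ rho e W v
    · by_contra hcon
      obtain ⟨y, hy1, hy2⟩ := not_disjoint_iff.1 hcon
      exact hjz (honly j (mem_adjS.2 ⟨hjr, y, hy2, mem_cols.2 ⟨i, hi, hy1⟩⟩))
    · exact sep_iff.1 hK.closed i hi j (mem_sdiff.2 ⟨mem_sdiff.2 ⟨hjW, hjr⟩, hjK⟩)
  have hbU : ({K} : Finset (Finset ι)).biUnion id = K := by
    rw [singleton_biUnion]
    rfl
  have hcount := special_count h (v := v) (Z := {z}) (singleton_subset_iff.2 hz)
    (singleton_nonempty z) (G := {K})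
    (by
      intro K' hK'
      rw [mem_singleton.1 hK']
      exact hK)
    (by
      intro K' hK'
      rw [mem_singleton.1 hK']
      exact ⟨z, mem_singleton_self z, x, hxz, hxK⟩)
    (by
      intro K' hK'
      rw [mem_singleton.1 hK', hbU]
      exact hsep)
  rw [hbU, sum_singleton, card_singleton] at hcount
  have hXne : W \ (K ∪ {z}) ≠ W := by
    intro hcon
    rw [← hcon] at hzW
    exact (mem_sdiff.1 hzW).2 (mem_union_right _ (mem_singleton_self z))
  have k1 := mx_comp_le h sdiff_subset hRW hK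
  have k2 := h.sub sdiff_subset hXne
  have k3 := psi_split h.hs hsep hKW sdiff_subset (singleton_subset_iff.2 hzW)
    (disjoint_singleton_right.2 hzK)
    (disjoint_singleton_right.2 (fun hcon => (mem_sdiff.1 hcon).2 (mem_union_right _ (mem_singleton_self z))))
  have k4 : ws e ({z} : Finset ι) = wt e z := by
    unfold ws
    rw [sum_singleton]
  have k5 := wt_ge e z
  have k6 := hfree.adj h.hne hxK (S := {z}) (fun t ht => by rw [mem_singleton.1 ht]; exact hxz)
  have k7 : W ⊆ (K ∪ {z}) ∪ (W \ (K ∪ {z})) := by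
    intro i hi
    by_cases h1 : i ∈ K ∪ {z}
    · exact mem_union_left _ h1
    · exact mem_union_right _ (mem_sdiff.2 ⟨hi, h1⟩)
  have k8 := tau_le_of_subset h.hne k7
  have k9 := h.psi_lt
  omega

end Pool.Agent.TD7
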