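import Pool.Agent.TD7.DefB

set_option autoImplicit false
set_option linter.unusedSectionVars false

namespace Pool.Agent.TD7

open Finset Pool.Agent.TD5 Pool.Agent.TD6

variable {ι V : Type*} [DecidableEq ι] [DecidableEq V] {e : ι → Finset V} {W : Finset ι}

/-- ROW B7.  The exceptional components are double triangles.

PROOF.  `hsp.2` has two cases; suppose `K.card = 7`, `(cols e K).card = 7`.
`TD5.sum_card : ∑ i ∈ K, (e i).card = 28 = ∑ x ∈ cols e K, (rho e K x).card`, and every term is
`≤ (rho e W x).card ≤ 4` (`hH.maxdeg`, `rho_mono`), so all terms are equal to 4 and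
`rho e K x = rho e W x` for `x ∈ cols e K`.  So `K` is closed in `W`, contradiction with
`hH.mx.not_closed` (`K ≠ W` because `rho e W v` is nonempty and disjoint from `K`). -/
theorem special_three {v : V} (hH : Hi e W v) {K : Finset ι}
    (hK : IsComp e (W \ rho e W v) K) (hsp : Special e K) :
    K.card = 3 ∧ (∀ i ∈ K, (e i).card = 4) ∧ (cols e K).card = 6 ∧ tau e K = 2 := by
  rcases hsp.2 with ⟨h1, h2, h3⟩ | ⟨h1, h2, -⟩
  · exact ⟨h1, hsp.1, h2, h3⟩
  · exfalso
    have hKW : K ⊆ W := hK.sub.trans sdiff_subset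
    have hle : ∀ x ∈ cols e K, (rho e K x).card ≤ 4 := fun x _ =>
      (card_le_card (rho_mono hKW x)).trans (hH.maxdeg x)
    have hsum : ∑ x ∈ cols e K, (rho e K x).card = ∑ x ∈ cols e K, 4 := by
      rw [← TD5.sum_card, sum_congr rfl hsp.1, sum_const, sum_const, h1, h2]
    have heq := (sum_eq_sum_iff_of_le hle).1 hsum
    have hcl : TD5.Sep e K (W \ K) := by
      rw [sep_iff]
      intro i hi j hj
      rw [disjoint_left]
      intro x hxi hxj
      obtain ⟨hjW, hjK⟩ := mem_sdiff.1 hj
      have h4 := heq x (mem_cols.2 ⟨i, hi, hxi⟩)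
      have h5 : rho e K x = rho e W x :=
        eq_of_subset_of_card_le (rho_mono hKW x) (by rw [h4]; exact hH.maxdeg x)
      have h6 : j ∈ rho e K x := by
        rw [h5]
        exact mem_rho.2 ⟨hjW, hxj⟩
      exact hjK (mem_rho.1 h6).1
    have hne : K ≠ W := by
      intro hcon
      have h4 := hH.deg
      obtain ⟨j, hj⟩ := card_pos.1 (by omega : 0 < (rho e W v).card)
      have h5 : j ∈ K := by
        rw [hcon]
        exact (mem_rho.1 hj).1
      exact (mem_sdiff.1 (hK.sub h5)).2 hj
    exact hH.mx.not_closed hKW hK.ne hne hcl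

/-- There is another component.  PROOF.  Otherwise `comps e (W \ rho e W v) = {C}` and
`W \ rho e W v = C` (`biUnion_comps`), so `W = C ∪ rho e W v` has `3 + 4 = 7` edges, all of size 4
(`hF.four`, `hH.four`), `cols e W = insert v (cols e C)` has 7 elements
(`hH.cols_eq`, `notMem_cols_rho`), `psi e W = psi e C + 26 = 77`, `tau e W ≤ 3`, and
`hH.mx.psi_lt` gives `tau e W ≥ 3`.  So `W` is special, against `hH.mx.not_special`. -/
theorem exists_other {v : V} (hH : Hi e W v) {C : Finset ι} {par : V → V}
    (hC : IsComp e (W \ rho e W v) C) (hF : F6 e C par) :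
    ∃ K, IsComp e (W \ rho e W v) K ∧ K ≠ C := by
  by_contra hcon
  push Not at hcon
  have hR : W \ rho e W v = C := by
    apply Subset.antisymm
    · intro i hi
      obtain ⟨P, hP, hiP⟩ := exists_comp (e := e) hi
      rw [← hcon P hP]
      exact hiP
    · exact hC.sub
  have hcard := card_sdiff_add_card_eq_card (rho_sub (e := e) W v)
  rw [hR, hF.c3, hH.deg] at hcard
  have hv : v ∉ cols e C := by
    rw [← hR]
    exact notMem_cols_rho W v
  have hcols : (cols e W).card = 7 := by
    rw [hH.cols_eq, hR, card_insert_of_notMem hv, hF.card]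
  have hsub : W ⊆ C ∪ rho e W v := by
    intro i hi
    by_cases h : i ∈ rho e W v
    · exact mem_union_right _ h
    · apply mem_union_left
      rw [← hR]
      exact mem_sdiff.2 ⟨hi, h⟩
  have h1 := tau_le_of_subset hH.mx.hne hsub
  have h2 : tau e (rho e W v) ≤ 1 := tau_le_one v (fun i hi => (mem_rho.1 hi).2)
  have h3 := hF.tau2
  have h4 := hH.mx.psi_lt
  have h5 := hH.psi_eq
  rw [hR, hF.psi51] at h5
  refine hH.mx.not_special ⟨fun i hi => ?_, Or.inr ⟨hcard.symm, hcols, by omega⟩⟩
  rcases mem_union.1 (hsub hi) with h | h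
  · exact hF.four i h
  · exact hH.four i h

end Pool.Agent.TD7
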