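import Pool.Agent.TD7.A1
import Pool.Agent.TD7.B7

set_option autoImplicit false
set_option linter.unusedSectionVars false

namespace Pool.Agent.TD7

open Finset Pool.Agent.TD5 Pool.Agent.TD6

variable {ι V : Type*} [DecidableEq ι] [DecidableEq V] {e : ι → Finset V} {W : Finset ι}

/-- ROW B8.  The local situation.  `T = rho e W v`, `R = W \ T`, `Ct e C t = e t ∩ cols e C`,
`Ot e C v t = (e t).erase v \ cols e C`.

PROOF.  `par6`: `hF.toPar6`.  `sub`: `inter_subset_right`.  `sum`: `(e t).card = 4`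
(`hH.four`), `v ∈ e t`, `v ∉ cols e C` (`notMem_cols_rho`, `cols_mono hC.sub`).
`deg`: for `x ∈ cols e C`, `rho e C x` (two elements, `hF.deg`) and
`T.filter (x ∈ e ·)` are disjoint subsets of `rho e W x`, which has at most 4 (`hH.maxdeg`).
`c3`: let `t ∈ T`, `u ∈ Ot e C v t`.  `u ∈ cols e W = insert v (cols e R)`, `u ≠ v`, so
`u ∈ cols e K` for a component `K` of `R` (`exists_comp`), `K ≠ C` as `u ∉ cols e C`.  Suppose
`CovS (cols e C) par (Ct e C) S1` with `S1 = T.filter (fun s => u ∉ Ot e C v s)`.  Let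
`S2 = T.filter (fun s => u ∈ e s)`; `T ⊆ S1 ∪ S2`.  `tau e (C ∪ S1) ≤ 2 = tau e C`
(`F6.cover`, row A1), `tau e (K ∪ S2) ≤ tau e K` (`FreeC.adj`).  So
`tau e W ≤ ∑ K' ∈ comps e R, tau e K'` (use `g K' = K' ∪ (if K' = C then S1 else if K' = K then S2
else ∅)`, `tau_biUnion`), hence `26 * tau e W ≤ ∑ (psi e K' + 1) ≤ psi e R + 3 = psi e W - 23`
(`mx_comp_le`, `sp_le`, `hH.three`, `psi_comps`, `hH.psi_eq`), against `hH.mx.psi_lt`.
`two`: `exists_other` (row B7) gives a component `K ≠ C`, `hH.two K`: at least two `t ∈ T` have some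
`x ∈ e t ∩ cols e K`; `x ≠ v`, `x ∉ cols e C` (separated), so `x ∈ Ot e C v t`. -/
theorem loc_of {v : V} (hH : Hi e W v) {C : Finset ι} {par : V → V}
    (hC : IsComp e (W \ rho e W v) C) (hF : F6 e C par) :
    Loc (rho e W v) (cols e C) par v (Ct e C) (Ot e C v) := by
  classical
  have hvR : v ∉ cols e (W \ rho e W v) := notMem_cols_rho W v
  have hvC : v ∉ cols e C := fun h => hvR (cols_mono hC.sub h)
  have hne := hH.mx.hne
  refine ⟨hF.toPar6, fun t _ => inter_subset_right, ?_, ?_, ?_, ?_, ?_⟩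
  · intro t ht
    have h4 := hH.four t ht
    have hv : v ∈ e t := (mem_rho.1 ht).2
    have h1 : Ct e C t = (e t).erase v ∩ cols e C := by
      unfold Ct
      ext x
      simp only [mem_inter, mem_erase]
      constructor
      · rintro ⟨h1, h2⟩
        exact ⟨⟨fun h => hvC (h ▸ h2), h1⟩, h2⟩
      · rintro ⟨⟨_, h1⟩, h2⟩
        exact ⟨h1, h2⟩
    have h2 : ((e t).erase v).card = 3 := by
      rw [card_erase_of_mem hv, h4]
    rw [h1, ← h2]
    unfold Ot
    exact card_inter_add_card_sdiff _ _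
  · intro t _ hv
    unfold Ot at hv
    exact (mem_erase.1 (mem_sdiff.1 hv).1).1 rfl
  · intro x hx
    have h1 := hF.deg x hx
    have h2 := hH.maxdeg x
    have hdis : Disjoint (rho e C x) ((rho e W v).filter (fun t => x ∈ Ct e C t)) := by
      refine disjoint_left.2 (fun i hi hi' => ?_)
      exact (mem_sdiff.1 (hC.sub (mem_rho.1 hi).1)).2 (mem_filter.1 hi').1
    have h3 : rho e C x ∪ (rho e W v).filter (fun t => x ∈ Ct e C t) ⊆ rho e W x := by
      intro i hi
      rcases mem_union.1 hi with h | h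
      · exact mem_rho.2 ⟨(mem_sdiff.1 (hC.sub (mem_rho.1 h).1)).1, (mem_rho.1 h).2⟩
      · obtain ⟨h4, h5⟩ := mem_filter.1 h
        exact mem_rho.2 ⟨(mem_rho.1 h4).1, (mem_inter.1 h5).1⟩
    have h4 := card_le_card h3
    rw [card_union_of_disjoint hdis] at h4
    omega
  · intro t ht u hu hcov
    unfold Ot at hu
    obtain ⟨hu1, huC⟩ := mem_sdiff.1 hu
    obtain ⟨huv, hut⟩ := mem_erase.1 hu1
    have huW : u ∈ cols e W := mem_cols.2 ⟨t, (mem_rho.1 ht).1, hut⟩
    rw [hH.cols_eq, mem_insert] at huW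
    obtain ⟨i, hi, hui⟩ := mem_cols.1 (huW.resolve_left huv)
    obtain ⟨K, hK, hiK⟩ := exists_comp (e := e) hi
    have huK : u ∈ cols e K := mem_cols.2 ⟨i, hiK, hui⟩
    have hKC : K ≠ C := fun h => huC (h ▸ huK)
    set S1 := (rho e W v).filter (fun s => u ∉ Ot e C v s) with hS1
    set S2 := (rho e W v).filter (fun s => u ∈ e s) with hS2
    have hT : rho e W v ⊆ S1 ∪ S2 := by
      intro s hs
      rw [mem_union, hS1, hS2, mem_filter, mem_filter]
      by_cases h : u ∈ Ot e C v s
      · right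
        refine ⟨hs, ?_⟩
        unfold Ot at h
        exact (mem_erase.1 (mem_sdiff.1 h).1).2
      · exact Or.inl ⟨hs, h⟩
    have ht1 : tau e (C ∪ S1) ≤ tau e C := by
      rw [hF.tau2]
      exact hF.cover hcov
    have ht2 : tau e (K ∪ S2) ≤ tau e K :=
      (hH.free K hK).adj hne huK (fun s hs => (mem_filter.1 hs).2)
    set g : Finset ι → Finset ι := fun K' => K' ∪ (if K' = C then S1 else if K' = K then S2
      else ∅) with hg
    have hcover : W ⊆ (comps e (W \ rho e W v)).biUnion g := by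
      intro j hj
      rw [mem_biUnion]
      by_cases hjT : j ∈ rho e W v
      · rcases mem_union.1 (hT hjT) with h | h
        · refine ⟨C, mem_comps.2 hC, ?_⟩
          rw [hg]
          exact mem_union_right _ (by rw [if_pos rfl]; exact h)
        · refine ⟨K, mem_comps.2 hK, ?_⟩
          rw [hg]
          exact mem_union_right _ (by rw [if_neg hKC, if_pos rfl]; exact h)
      · obtain ⟨P, hP, hjP⟩ := exists_comp (e := e) (R := W \ rho e W v)
          (mem_sdiff.2 ⟨hj, hjT⟩)
        refine ⟨P, mem_comps.2 hP, ?_⟩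
        rw [hg]
        exact mem_union_left _ hjP
    have h1 : tau e W ≤ ∑ K' ∈ comps e (W \ rho e W v), tau e K' := by
      refine (tau_mono hne hcover).trans ((tau_biUnion hne _ g).trans ?_)
      apply sum_le_sum
      intro K' _
      rw [hg]
      show tau e (K' ∪ (if K' = C then S1 else if K' = K then S2 else ∅)) ≤ tau e K'
      split_ifs with h2 h3
      · rw [h2]; exact ht1
      · rw [h3]; exact ht2
      · rw [union_empty]
    have hRW : W \ rho e W v ≠ W := by
      intro h
      have ht' := (mem_rho.1 ht).1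
      rw [← h] at ht'
      exact (mem_sdiff.1 ht').2 ht
    have h2 : ∑ K' ∈ comps e (W \ rho e W v), 26 * tau e K' ≤
        ∑ K' ∈ comps e (W \ rho e W v), (psi e K' + 1) := by
      apply sum_le_sum
      intro K' hK'
      have h3 := mx_comp_le hH.mx sdiff_subset hRW (mem_comps.1 hK')
      have h4 := sp_le (e := e) K'
      omega
    rw [← mul_sum, sum_add_distrib, ← psi_comps hH.mx.hs, sum_const, smul_eq_mul, mul_one] at h2
    have h3 := hH.three
    have h4 := hH.psi_eq
    have h5 := hH.mx.psi_lt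
    omega
  · obtain ⟨K, hK, hKC⟩ := exists_other hH hC hF
    refine (hH.two K hK).trans (card_le_card ?_)
    intro t ht
    obtain ⟨h1, x, hx1, hx2⟩ := mem_adjS.1 ht
    refine mem_filter.2 ⟨h1, x, ?_⟩
    unfold Ot
    refine mem_sdiff.2 ⟨mem_erase.2 ⟨?_, hx1⟩, ?_⟩
    · rintro rfl
      exact hvR (cols_mono hK.sub hx2)
    · intro hxC
      exact disjoint_left.1 (hK.sep hC hKC) hx2 hxC

end Pool.Agent.TD7
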