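import Pool.Agent.TD7.DefB

set_option autoImplicit false
set_option linter.unusedSectionVars false

namespace Pool.Agent.TD7

open Finset Pool.Agent.TD5 Pool.Agent.TD6

variable {ι V : Type*} [DecidableEq ι] [DecidableEq V] {e : ι → Finset V} {W : Finset ι}

/-- ROW B9.  The replacement.  `T = rho e W v`, `R = W \ T`, new edges `g j`, `j ∈ J ⊆ T`,
`e' = fun i => if i ∈ J then g i else e i`, `X = (R \ C) ∪ J`.

PROOF.  `e'` has sizes 3 and 4 only.  `X.card ≤ (W.card - 4 - 3) + 4 < W.card`, so `hH.mx.ih`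
gives `26 * tau e' X ≤ psi e' X + ks e' X`.  `J` is disjoint from `R \ C`, on which `e' = e`, so
`ws e' X = ws e (R \ C) + ∑ j ∈ J, gw (g j)` (`wt e' j = gw (g j)` by definition), and
`cols e' X ⊆ insert v (cols e (R \ C))`: for `j ∈ J`, `g j ⊆ insert v (T.biUnion (Ot e C v))`
(`hG.inside`), and `Ot e C v t ⊆ cols e (R \ C)` because `e t ⊆ cols e W = insert v (cols e R)`
(`hH.cols_eq`) and `cols e R = cols e C ∪ cols e (R \ C)`.  So
`psi e' X ≤ psi e (R \ C) + ∑ + 6`.  `psi e W = psi e R + 26 = 51 + psi e (R \ C) + 26`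
(`hH.psi_eq`, `psi_union` with `hC.closed`, `hF.psi51`).
Claim `tau e W ≤ tau e' X + 2`: take `D` with `Hits e' D X`, `D.card = tau e' X` (`tau_spec`).
If `v ∈ D`, choose `x, y ∈ cols e C`, `y ≠ x`, `y ≠ par x` (six elements).  If `v ∉ D`,
`hG.cov D` gives `x, y ∈ cols e C`, `y ≠ x`, `y ≠ par x`, meeting all `t ∈ T` with
`∀ z ∈ D, z ∉ Ot e C v t`.  In both cases `insert x (insert y D)` meets all edges of `W`: those of
`C` by `hF.cov`, those of `R \ C` because `D` hits `X`, and those of `T`.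
Hence `psi e W < 26 * tau e W ≤ 52 + psi e (R \ C) + ∑ + 6 + ks e' X`. -/
theorem resolve {v : V} (hH : Hi e W v) {C : Finset ι} {par : V → V}
    (hC : IsComp e (W \ rho e W v) C) (hF : F6 e C par) {J : Finset ι} {g : ι → Finset V}
    (hG : Gad (rho e W v) (cols e C) par v (Ct e C) (Ot e C v) J g) :
    20 ≤ ∑ j ∈ J, gw (g j) +
      ks (fun i => if i ∈ J then g i else e i) (((W \ rho e W v) \ C) ∪ J) := by
  have hs := hH.mx.hs
  obtain ⟨T, hT⟩ : ∃ T, T = rho e W v := ⟨_, rfl⟩
  obtain ⟨e', he'⟩ : ∃ e' : ι → Finset V, e' = fun i => if i ∈ J then g i else e i := ⟨_, rfl⟩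
  rw [← he']
  have heJ : ∀ i ∈ J, e' i = g i := by
    intro i hi
    rw [he']
    exact if_pos hi
  have heN : ∀ i, i ∉ J → e' i = e i := by
    intro i hi
    rw [he']
    exact if_neg hi
  have hs' : Sz e' := by
    intro i
    by_cases hi : i ∈ J
    · rw [heJ i hi]
      exact hG.size i hi
    · rw [heN i hi]
      exact hs i
  have hdeg := hH.deg
  have hcols := hH.cols_eq
  have hpsi := hH.psi_eq
  have hGs := hG.sub
  have hTW : rho e W v ⊆ W := rho_sub W v
  rw [← hT] at hdeg hcols hpsi hC hGs hTW ⊢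
  obtain ⟨R, hR⟩ : ∃ R, R = W \ T := ⟨_, rfl⟩
  rw [← hR] at hcols hpsi hC ⊢
  obtain ⟨Y, hY⟩ : ∃ Y, Y = R \ C := ⟨_, rfl⟩
  have hCR := hC.sub
  have hcl := hC.closed
  rw [← hY] at hcl ⊢
  have c1 := card_sdiff_add_card_eq_card hTW
  rw [← hR] at c1
  have c2 := card_sdiff_add_card_eq_card hCR
  rw [← hY] at c2
  have c3 := card_le_card hGs
  have c4 := card_union_le Y J
  have c5 := hF.c3
  have hYJ : Disjoint Y J := by
    refine disjoint_left.2 ?_
    intro i hi hi'
    rw [hY, mem_sdiff, hR, mem_sdiff] at hi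
    exact hi.1.2 (hGs hi')
  have hlt : (Y ∪ J).card < W.card := by omega
  have hih := hH.mx.ih e' (Y ∪ J) hs' hlt
  -- the weights
  have w1 : ws e' (Y ∪ J) = ws e Y + ∑ j ∈ J, gw (g j) := by
    rw [ws_union hYJ]
    congr 1
    · unfold ws
      apply sum_congr rfl
      intro i hi
      unfold wt
      rw [heN i (disjoint_left.1 hYJ hi)]
    · unfold ws
      apply sum_congr rfl
      intro i hi
      unfold wt gw
      rw [heJ i hi]
  have w2 : cols e' (Y ∪ J) ⊆ insert v (cols e Y) := by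
    intro x hx
    obtain ⟨i, hi, hxi⟩ := mem_cols.1 hx
    by_cases hiJ : i ∈ J
    · rw [heJ i hiJ] at hxi
      have h1 := hG.inside i hiJ hxi
      rw [mem_insert] at h1
      rcases h1 with h1 | h1
      · rw [h1]
        exact mem_insert_self _ _
      · obtain ⟨t, ht, hxt⟩ := mem_biUnion.1 h1
        unfold Ot at hxt
        rw [mem_sdiff, mem_erase] at hxt
        obtain ⟨⟨h2, h3⟩, h4⟩ := hxt
        have h5 : x ∈ cols e W := sub_cols (rho_sub W v ht) h3
        rw [hcols, mem_insert] at h5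
        obtain ⟨k, hk, hxk⟩ := mem_cols.1 (h5.resolve_left h2)
        refine mem_insert_of_mem (mem_cols.2 ⟨k, ?_, hxk⟩)
        rw [hY, mem_sdiff]
        exact ⟨hk, fun h => h4 (mem_cols.2 ⟨k, h, hxk⟩)⟩
    · rw [heN i hiJ] at hxi
      exact mem_insert_of_mem (mem_cols.2 ⟨i, (mem_union.1 hi).resolve_right hiJ, hxi⟩)
  have w3 := card_le_card w2
  have w4 := card_insert_le v (cols e Y)
  have w5 : psi e R = 51 + psi e Y := by
    have h1 : C ∪ Y = R := by
      rw [hY]
      exact union_sdiff_of_subset hCR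
    rw [← h1, psi_union hs hcl, hF.psi51]
  -- the transversal
  have t1 : tau e W ≤ tau e' (Y ∪ J) + 2 := by
    obtain ⟨D, hD, hDc⟩ := tau_spec hs'.hne (Y ∪ J)
    have key : ∃ x ∈ cols e C, ∃ y ∈ cols e C, y ≠ x ∧ y ≠ par x ∧
        ∀ t ∈ T, x ∈ e t ∨ y ∈ e t ∨ ∃ z ∈ D, z ∈ e t := by
      by_cases hv : v ∈ D
      · have h6 := hF.card
        obtain ⟨x, hx⟩ : (cols e C).Nonempty := card_pos.1 (by omega)
        have h7 : 0 < (((cols e C).erase x).erase (par x)).card := by
          have h8 := pred_card_le_card_erase (s := (cols e C).erase x) (a := par x)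
          have h9 := pred_card_le_card_erase (s := cols e C) (a := x)
          omega
        obtain ⟨y, hy⟩ := card_pos.1 h7
        rw [mem_erase, mem_erase] at hy
        refine ⟨x, hx, y, hy.2.2, hy.2.1, hy.1, ?_⟩
        intro t ht
        rw [hT] at ht
        exact Or.inr (Or.inr ⟨v, hv, (mem_rho.1 ht).2⟩)
      · obtain ⟨x, hx, y, hy, h1, h2, h3⟩ := hG.cov D hv (by
          intro j hj
          have := hD j (mem_union_right _ hj)
          rw [heJ j hj] at this
          exact this)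
        refine ⟨x, hx, y, hy, h1, h2, ?_⟩
        intro t ht
        by_cases hz : ∀ z ∈ D, z ∉ Ot e C v t
        · rcases h3 t (mem_filter.2 ⟨hT ▸ ht, hz⟩) with h | h
          · exact Or.inl (mem_inter.1 h).1
          · exact Or.inr (Or.inl (mem_inter.1 h).1)
        · push Not at hz
          obtain ⟨z, hz, hz'⟩ := hz
          unfold Ot at hz'
          rw [mem_sdiff, mem_erase] at hz'
          exact Or.inr (Or.inr ⟨z, hz, hz'.1.2⟩)
    obtain ⟨x, hx, y, hy, h1, h2, h3⟩ := key
    have hHit : Hits e (insert x (insert y D)) W := by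
      intro i hi
      by_cases hiT : i ∈ T
      · rcases h3 i hiT with h | h | ⟨z, hz, hzi⟩
        · exact ⟨x, mem_insert_self _ _, h⟩
        · exact ⟨y, mem_insert_of_mem (mem_insert_self _ _), h⟩
        · exact ⟨z, mem_insert_of_mem (mem_insert_of_mem hz), hzi⟩
      · have hiR : i ∈ R := by
          rw [hR, mem_sdiff]
          exact ⟨hi, hiT⟩
        by_cases hiC : i ∈ C
        · rcases hF.cov x hx y hy h1 h2 i hiC with h | h
          · exact ⟨x, mem_insert_self _ _, h⟩
          · exact ⟨y, mem_insert_of_mem (mem_insert_self _ _), h⟩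
        · have hiY : i ∈ Y := by
            rw [hY, mem_sdiff]
            exact ⟨hiR, hiC⟩
          obtain ⟨z, hz, hzi⟩ := hD i (mem_union_left _ hiY)
          rw [heN i (disjoint_left.1 hYJ hiY)] at hzi
          exact ⟨z, mem_insert_of_mem (mem_insert_of_mem hz), hzi⟩
    have h4 := tau_le hHit
    have h5 := card_insert_le x (insert y D)
    have h6 := card_insert_le y D
    omega
  have hlt2 := hH.mx.psi_lt
  unfold psi at hih hlt2 hpsi w5
  rw [w1] at hih
  omega

end Pool.Agent.TD7
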