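import Pool.Agent.TD7.G0

set_option autoImplicit false
set_option linter.unusedSectionVars false

namespace Pool.Agent.TD7

open Finset Pool.Agent.TD5 Pool.Agent.TD6

variable {ι V : Type*} [DecidableEq ι] [DecidableEq V] {e : ι → Finset V} {W : Finset ι}

theorem g2_gw (A : Finset V) : gw A ≤ 9 := by
  unfold gw
  split_ifs <;> omega

theorem g2_build {T : Finset ι} {K : Finset V} {par : V → V} {v : V} {Cc O : ι → Finset V}
    (hL : Loc T K par v Cc O) {s z : ι} (hs : s ∈ T) (hz : z ∈ T) (hsz : s ≠ z) (hCs : Cc s = ∅)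
    {A : Finset V} (hA : 2 ≤ A.card) (hvA : v ∉ A) (hAsub : A ⊆ T.biUnion O)
    (hcov : ∀ D : Finset V, v ∉ D → (∃ x ∈ D, x ∈ O s) → (∃ x ∈ D, x ∈ A) →
      CovS K par Cc (T.filter (fun t => ∀ x ∈ D, x ∉ O t))) : GoodG T K par v Cc O := by
  obtain ⟨g0, hv0, hsub0, hcard0⟩ := trim hA hvA
  have hOs : (O s).card = 3 := by
    have := hL.sum s hs
    rw [hCs, card_empty] at this
    omega
  have hgs : (insert v (O s)).card = 4 := by
    rw [card_insert_of_notMem (hL.notv s hs), hOs]
  obtain ⟨g, hg⟩ : ∃ g : ι → Finset V, g = fun j => if j = s then insert v (O s) else g0 := ⟨_, rfl⟩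
  have e1 : g s = insert v (O s) := by rw [hg]; exact if_pos rfl
  have e2 : g z = g0 := by rw [hg]; exact if_neg (Ne.symm hsz)
  refine ⟨{s, z}, g, ⟨?_, ?_, ?_, ?_, ?_⟩, Or.inl ?_⟩
  · intro j hj
    rcases mem_insert.1 hj with rfl | hj
    · exact hs
    · rw [mem_singleton.1 hj]
      exact hz
  · intro j hj
    rcases mem_insert.1 hj with rfl | hj
    · rw [e1]
      exact Or.inr hgs
    · rw [mem_singleton.1 hj, e2]
      rcases hcard0 with h | h
      · exact Or.inl h.1
      · exact Or.inr h
  · intro j hj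
    rcases mem_insert.1 hj with rfl | hj
    · rw [e1]
      exact mem_insert_self _ _
    · rw [mem_singleton.1 hj, e2]
      exact hv0
  · intro j hj
    rcases mem_insert.1 hj with rfl | hj
    · rw [e1]
      exact insert_subset_insert _ (subset_biUnion_of_mem O hs)
    · rw [mem_singleton.1 hj, e2]
      exact hsub0.trans (insert_subset_insert _ hAsub)
  · intro D hvD hD
    refine hcov D hvD ?_ ?_
    · have h1 := hD s (mem_insert_self _ _)
      rw [e1] at h1
      exact meets_of (Subset.refl _) hvD h1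
    · have h1 := hD z (mem_insert_of_mem (mem_singleton_self _))
      rw [e2] at h1
      exact meets_of hsub0 hvD h1
  · rw [sum_pair hsz, e1, e2]
    have h1 : gw (insert v (O s)) = 5 := by
      unfold gw
      rw [if_pos hgs]
    have h2 := g2_gw g0
    omega

theorem g2_two {T : Finset ι} {K : Finset V} {par : V → V} {v : V} {Cc O : ι → Finset V}
    (hL : Loc T K par v Cc O) {a b z s : ι} (hz : z ∈ T) (hs : s ∈ T) (hsz : s ≠ z)
    (hT : ∀ t ∈ T, t = a ∨ t = b ∨ t = z ∨ t = s) (hCs : Cc s = ∅) (hO : 2 ≤ (O z).card)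
    (hcov : CovS K par Cc {a, b}) : GoodG T K par v Cc O := by
  refine g2_build hL hs hz hsz hCs hO (hL.notv z hz) (subset_biUnion_of_mem O hz) ?_
  intro D _ h1 h2
  refine hcov.mono ?_
  intro t ht
  obtain ⟨ht1, ht2⟩ := mem_filter.1 ht
  obtain ⟨x, hx, hx'⟩ := h1
  obtain ⟨y, hy, hy'⟩ := h2
  rcases hT t ht1 with rfl | rfl | rfl | rfl
  · simp
  · simp
  · exact absurd hy' (ht2 y hy)
  · exact absurd hx' (ht2 x hx)

theorem g2_np {T : Finset ι} {K : Finset V} {par : V → V} {v : V} {Cc O : ι → Finset V}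
    (hL : Loc T K par v Cc O) {a b c s : ι} (ha : a ∈ T) (hb : b ∈ T) (hc : c ∈ T) (hs : s ∈ T)
    (hsa : s ≠ a) (hsb : s ≠ b) (hT : ∀ t ∈ T, t = a ∨ t = b ∨ t = c ∨ t = s) (hCs : Cc s = ∅)
    (na : (Cc a).Nonempty) (nb : (Cc b).Nonempty) (nc : (Cc c).Nonempty)
    (hnot : ¬ CovS K par Cc {a, b}) : GoodG T K par v Cc O := by
  rcases covS_pair hL.par6 na nb (hL.sub a ha) (hL.sub b hb) with h | ⟨x, hx, h1, h2⟩
  · exact absurd h hnot
  have hOa : (O a).card = 2 := by
    have := hL.sum a ha
    rw [h1, card_singleton] at this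
    omega
  have hOb : (O b).card = 2 := by
    have := hL.sum b hb
    rw [h2, card_singleton] at this
    omega
  by_cases hbc : CovS K par Cc {b, c}
  · exact g2_two hL ha hs hsa (fun t ht => by
      rcases hT t ht with h | h | h | h
      · exact Or.inr (Or.inr (Or.inl h))
      · exact Or.inl h
      · exact Or.inr (Or.inl h)
      · exact Or.inr (Or.inr (Or.inr h))) hCs (by omega) hbc
  · rcases covS_pair hL.par6 nb nc (hL.sub b hb) (hL.sub c hc) with h | ⟨y, _, h3, h4⟩
    · exact absurd h hbc
    have hy : y = par x := by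
      rw [h2] at h3
      exact (singleton_injective h3).symm
    have hpy : par y = x := by rw [hy, hL.par6.inv x hx]
    rw [hpy] at h4
    have hac : CovS K par Cc {a, c} := by
      refine covS_of_mem hL.par6 hx ?_
      intro t ht
      rcases mem_insert.1 ht with rfl | ht
      · rw [h1]
        exact mem_singleton_self x
      · rw [mem_singleton.1 ht, h4]
        exact mem_singleton_self x
    exact g2_two hL hb hs hsb (fun t ht => by
      rcases hT t ht with h | h | h | h
      · exact Or.inl h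
      · exact Or.inr (Or.inr (Or.inl h))
      · exact Or.inr (Or.inl h)
      · exact Or.inr (Or.inr (Or.inr h))) hCs (by omega) hac

theorem g2_disj {T : Finset ι} {K : Finset V} {par : V → V} {v : V} {Cc O : ι → Finset V}
    (hL : Loc T K par v Cc O) {a b c : ι} (ha : a ∈ T) (hb : b ∈ T) (hc : c ∈ T)
    (hab : a ≠ b) (hac : a ≠ c) (hbc : b ≠ c) (hcc : 2 ≤ (Cc c).card)
    (hnot : ¬ CovS K par Cc {a, b, c}) : Disjoint (Cc a) (Cc b) := by
  rw [disjoint_left]
  intro x hxa hxb
  apply hnot
  have hxc := hL.not_three ha hb hc hab hac hbc hxa hxb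
  obtain ⟨y, hy, hyp⟩ : ∃ y ∈ Cc c, y ≠ par x := by
    by_contra hcon
    push Not at hcon
    have h1 : Cc c ⊆ {par x} := fun y hy => mem_singleton.2 (hcon y hy)
    have h2 := card_le_card h1
    rw [card_singleton] at h2
    omega
  refine ⟨x, hL.sub a ha hxa, y, hL.sub c hc hy, ?_, hyp, ?_⟩
  · rintro rfl
    exact hxc hy
  · intro t ht
    simp only [mem_insert, mem_singleton] at ht
    rcases ht with rfl | rfl | rfl
    · exact Or.inl hxa
    · exact Or.inl hxb
    · exact Or.inr hy

/-- ROW G2.  Exactly three of the four edges (`p, q, r`) meet the double triangle.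

PROOF.  `(O s).card = 3`; `g s = insert v (O s)`, four elements.
(1) If `CovS K par Cc {p, q, r}`: `J = {s}`, weight 5; if `D` avoids `v` and meets `g s`, it meets
`O s`, the filter is contained in `{p, q, r}`.
(2) Otherwise, if some pair of `{p, q, r}` is not covered, there is `z ∈ {p, q, r}` with
`(O z).card = 2` such that the other two form a covered pair: say `{p, q}` is not covered,
`Cc p = {x}`, `Cc q = {par x}` (`covS_pair`), `(O p).card = (O q).card = 2`.  If `{q, r}` is covered
take `z = p`.  Otherwise `covS_pair` for `{q, r}`: `Cc q = {y}`, `Cc r = {par y}`, so `y = par x`,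
`par y = x`, and `x ∈ Cc p ∩ Cc r`, so `{p, r}` is covered (`covS_of_mem`): take `z = q`.
Now `J = {s, z}`, `g z = insert v (O z)` (three elements), weights `5 + 9 ≤ 16`; `D` meets `O s` and
`O z`, the filter is contained in the other two.
(3) All pairs of `{p, q, r}` are covered, the triple is not.  Let `A = O p ∪ O q ∪ O r`.  If
`2 ≤ A.card`: `J = {s, p}`, `g p` from `trim`; `D` meets `O s` and `A`, so the filter is contained in a
pair; weights `≤ 5 + 9`.  If `A.card ≤ 1`: each `(O t).card ≤ 1`, so `(Cc t).card ≥ 2` for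
`t = p, q, r`.  `Cc p, Cc q, Cc r` are pairwise disjoint: if `x ∈ Cc p ∩ Cc q` then `x ∉ Cc r`
(`not_three`), `Cc r` has two elements, one of them `y ≠ par x`, and `y ≠ x`, so `x, y` cover
`{p, q, r}`, contradiction (same for the other pairs).  So `6 ≤ ∑ (Cc t).card ≤ K.card = 6`, all are
equal to 2, `(O t).card = 1` for `t = p, q, r`, and `A.card ≤ 1` gives
`O p = O q = O r = {u}`: `BadG` with this `s`. -/
theorem good3 {T : Finset ι} {K : Finset V} {par : V → V} {v : V} {Cc O : ι → Finset V}
    (hL : Loc T K par v Cc O) {p q r s : ι} (hpq : p ≠ q) (hpr : p ≠ r) (hps : p ≠ s)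
    (hqr : q ≠ r) (hqs : q ≠ s) (hrs : r ≠ s) (hT : T = {p, q, r, s})
    (hp : (Cc p).Nonempty) (hq : (Cc q).Nonempty) (hr : (Cc r).Nonempty) (hs : Cc s = ∅) :
    GoodG T K par v Cc O ∨ BadG T Cc O := by
  have mp : p ∈ T := by rw [hT]; simp
  have mq : q ∈ T := by rw [hT]; simp
  have mr : r ∈ T := by rw [hT]; simp
  have ms : s ∈ T := by rw [hT]; simp
  have hT' : ∀ t ∈ T, t = p ∨ t = q ∨ t = r ∨ t = s := by
    intro t ht
    rw [hT] at ht
    simpa using ht
  have hOs : (O s).card = 3 := by
    have := hL.sum s ms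
    rw [hs, card_empty] at this
    omega
  have hgs : (insert v (O s)).card = 4 := by
    rw [card_insert_of_notMem (hL.notv s ms), hOs]
  by_cases h3 : CovS K par Cc {p, q, r}
  · left
    refine ⟨{s}, fun _ => insert v (O s), ⟨?_, ?_, ?_, ?_, ?_⟩, Or.inl ?_⟩
    · exact singleton_subset_iff.2 ms
    · intro j _
      exact Or.inr hgs
    · intro j _
      exact mem_insert_self _ _
    · intro j _
      exact insert_subset_insert _ (subset_biUnion_of_mem O ms)
    · intro D hvD hD
      have h1 := meets_of (Subset.refl _) hvD (hD s (mem_singleton_self s))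
      refine h3.mono ?_
      intro t ht
      obtain ⟨ht1, ht2⟩ := mem_filter.1 ht
      obtain ⟨x, hx, hx'⟩ := h1
      rcases hT' t ht1 with rfl | rfl | rfl | rfl
      · simp
      · simp
      · simp
      · exact absurd hx' (ht2 x hx)
    · rw [sum_singleton]
      unfold gw
      rw [if_pos hgs]
      omega
  by_cases c1 : CovS K par Cc {p, q}
  swap
  · exact Or.inl (g2_np hL mp mq mr ms (Ne.symm hps) (Ne.symm hqs) hT' hs hp hq hr c1)
  by_cases c2 : CovS K par Cc {p, r}
  swap
  · refine Or.inl (g2_np hL mp mr mq ms (Ne.symm hps) (Ne.symm hrs) (fun t ht => ?_) hs hp hr hq c2)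
    rcases hT' t ht with h | h | h | h
    · exact Or.inl h
    · exact Or.inr (Or.inr (Or.inl h))
    · exact Or.inr (Or.inl h)
    · exact Or.inr (Or.inr (Or.inr h))
  by_cases c3 : CovS K par Cc {q, r}
  swap
  · refine Or.inl (g2_np hL mq mr mp ms (Ne.symm hqs) (Ne.symm hrs) (fun t ht => ?_) hs hq hr hp c3)
    rcases hT' t ht with h | h | h | h
    · exact Or.inr (Or.inr (Or.inl h))
    · exact Or.inl h
    · exact Or.inr (Or.inl h)
    · exact Or.inr (Or.inr (Or.inr h))
  by_cases hA : 2 ≤ (O p ∪ O q ∪ O r).card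
  · left
    refine g2_build hL ms mp (Ne.symm hps) hs hA ?_ ?_ ?_
    · rw [mem_union, mem_union, not_or, not_or]
      exact ⟨⟨hL.notv p mp, hL.notv q mq⟩, hL.notv r mr⟩
    · exact union_subset (union_subset (subset_biUnion_of_mem O mp) (subset_biUnion_of_mem O mq))
        (subset_biUnion_of_mem O mr)
    · intro D _ h1 h2
      obtain ⟨x, hx, hx'⟩ := h1
      obtain ⟨y, hy, hy'⟩ := h2
      rw [mem_union, mem_union] at hy'
      rcases hy' with (hy' | hy') | hy'
      · refine c3.mono ?_
        intro t ht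
        obtain ⟨ht1, ht2⟩ := mem_filter.1 ht
        rcases hT' t ht1 with rfl | rfl | rfl | rfl
        · exact absurd hy' (ht2 y hy)
        · simp
        · simp
        · exact absurd hx' (ht2 x hx)
      · refine c2.mono ?_
        intro t ht
        obtain ⟨ht1, ht2⟩ := mem_filter.1 ht
        rcases hT' t ht1 with rfl | rfl | rfl | rfl
        · simp
        · exact absurd hy' (ht2 y hy)
        · simp
        · exact absurd hx' (ht2 x hx)
      · refine c1.mono ?_
        intro t ht
        obtain ⟨ht1, ht2⟩ := mem_filter.1 ht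
        rcases hT' t ht1 with rfl | rfl | rfl | rfl
        · simp
        · simp
        · exact absurd hy' (ht2 y hy)
        · exact absurd hx' (ht2 x hx)
  · right
    have sp1 : O p ⊆ O p ∪ O q ∪ O r := subset_union_left.trans subset_union_left
    have sq1 : O q ⊆ O p ∪ O q ∪ O r := subset_union_right.trans subset_union_left
    have sr1 : O r ⊆ O p ∪ O q ∪ O r := subset_union_right
    have k1 := card_le_card sp1
    have k2 := card_le_card sq1
    have k3 := card_le_card sr1
    have l1 := hL.sum p mp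
    have l2 := hL.sum q mq
    have l3 := hL.sum r mr
    have d1 : Disjoint (Cc p) (Cc q) := g2_disj hL mp mq mr hpq hpr hqr (by omega) h3
    have d2 : Disjoint (Cc p) (Cc r) := g2_disj hL mp mr mq hpr hpq (Ne.symm hqr) (by omega)
      (fun h => h3 (h.mono (by intro t ht; simp only [mem_insert, mem_singleton] at ht ⊢; tauto)))
    have d3 : Disjoint (Cc q) (Cc r) := g2_disj hL mq mr mp hqr (Ne.symm hpq) (Ne.symm hpr) (by omega)
      (fun h => h3 (h.mono (by intro t ht; simp only [mem_insert, mem_singleton] at ht ⊢; tauto)))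
    have hK : (Cc p ∪ Cc q ∪ Cc r).card ≤ 6 := by
      rw [← hL.par6.card]
      exact card_le_card (union_subset (union_subset (hL.sub p mp) (hL.sub q mq)) (hL.sub r mr))
    rw [card_union_of_disjoint (disjoint_union_left.2 ⟨d2, d3⟩), card_union_of_disjoint d1] at hK
    have e1 : O p = O p ∪ O q ∪ O r := eq_of_subset_of_card_le sp1 (by omega)
    have e2 : O q = O p ∪ O q ∪ O r := eq_of_subset_of_card_le sq1 (by omega)
    have e3 : O r = O p ∪ O q ∪ O r := eq_of_subset_of_card_le sr1 (by omega)
    obtain ⟨u, hu⟩ := card_eq_one.1 (show (O p ∪ O q ∪ O r).card = 1 by omega)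
    rw [hu] at e1 e2 e3
    exact ⟨p, q, r, s, u, hpq, hpr, hps, hqr, hqs, hrs, hT, e1, e2, e3, hs⟩

end Pool.Agent.TD7
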