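import Pool.Agent.TD7.G0

set_option autoImplicit false
set_option linter.unusedSectionVars false

namespace Pool.Agent.TD7

open Finset Pool.Agent.TD5 Pool.Agent.TD6

variable {ι V : Type*} [DecidableEq ι] [DecidableEq V] {e : ι → Finset V} {W : Finset ι}

theorem g3_gad {T : Finset ι} {K : Finset V} {par : V → V} {v : V} {Cc O : ι → Finset V}
    (hL : Loc T K par v Cc O) {a b c d : ι} (haT : a ∈ T) (hbT : b ∈ T)
    (hT : ∀ t ∈ T, t = a ∨ t = b ∨ t = c ∨ t = d)
    (ha : (O a).card = 2) (hb : (O b).card = 2) {z : V} (hz : z ∈ K) (hzc : z ∈ Cc c)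
    (hzd : z ∈ Cc d) : Gad T K par v Cc O {a, b} (fun j => insert v (O j)) := by
  have hmem : ∀ j ∈ ({a, b} : Finset ι), j ∈ T := by
    intro j hj
    rcases mem_insert.1 hj with h | h
    · rw [h]; exact haT
    · rw [mem_singleton.1 h]; exact hbT
  refine ⟨fun j hj => hmem j hj, ?_, fun j _ => mem_insert_self _ _, ?_, ?_⟩
  · intro j hj
    left
    show (insert v (O j)).card = 3
    rw [card_insert_of_notMem (hL.notv j (hmem j hj))]
    rcases mem_insert.1 hj with h | h
    · rw [h, ha]
    · rw [mem_singleton.1 h, hb]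
  · intro j hj
    exact insert_subset_insert _ (subset_biUnion_of_mem O (hmem j hj))
  · intro D hvD hD
    apply covS_of_mem hL.par6 hz
    intro t ht
    obtain ⟨htT, hno⟩ := mem_filter.1 ht
    obtain ⟨w1, hw1, hw1'⟩ := meets_of (Subset.refl _) hvD (hD a (mem_insert_self _ _))
    obtain ⟨w2, hw2, hw2'⟩ := meets_of (Subset.refl _) hvD
      (hD b (mem_insert_of_mem (mem_singleton_self _)))
    rcases hT t htT with h | h | h | h
    · rw [h] at hno
      exact absurd hw1' (hno w1 hw1)
    · rw [h] at hno
      exact absurd hw2' (hno w2 hw2)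
    · rw [h]; exact hzc
    · rw [h]; exact hzd

theorem g3_card {T : Finset ι} {K : Finset V} {par : V → V} {v : V} {Cc O : ι → Finset V}
    (hL : Loc T K par v Cc O) {a : ι} (haT : a ∈ T) (ha : (O a).card = 2) :
    (insert v (O a)).card = 3 := by
  rw [card_insert_of_notMem (hL.notv a haT), ha]

theorem g3_sum {T : Finset ι} {K : Finset V} {par : V → V} {v : V} {Cc O : ι → Finset V}
    (hL : Loc T K par v Cc O) {a b : ι} (hab : a ≠ b) (haT : a ∈ T) (hbT : b ∈ T)
    (ha : (O a).card = 2) (hb : (O b).card = 2) :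
    ∑ j ∈ ({a, b} : Finset ι), gw ((fun j => insert v (O j)) j) = 18 := by
  rw [sum_pair hab]
  show gw (insert v (O a)) + gw (insert v (O b)) = 18
  unfold gw
  rw [g3_card hL haT ha, g3_card hL hbT hb]
  rfl

/-- If `x' ∈ Cc a ∩ Cc b` and `{x', y}` never covers `{a, b, c}`, then `Cc c = {par x'}`. -/
theorem g3_single {T : Finset ι} {K : Finset V} {par : V → V} {v : V} {Cc O : ι → Finset V}
    (hL : Loc T K par v Cc O) {a b c : ι} (haT : a ∈ T) (hbT : b ∈ T) (hcT : c ∈ T)
    (hab : a ≠ b) (hac : a ≠ c) (hbc : b ≠ c) (hn : ¬ CovS K par Cc {a, b, c})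
    {x : V} (hx : x ∈ K) (hxa : x ∈ Cc a) (hxb : x ∈ Cc b) : ∀ y ∈ Cc c, y = par x := by
  intro y hy
  by_contra hne
  have hxc : x ∉ Cc c := hL.not_three haT hbT hcT hab hac hbc hxa hxb
  have hyx : y ≠ x := by
    rintro rfl
    exact hxc hy
  apply hn
  refine ⟨x, hx, y, hL.sub c hcT hy, hyx, hne, ?_⟩
  intro t ht
  rcases mem_insert.1 ht with h | h
  · left; rw [h]; exact hxa
  · rcases mem_insert.1 h with h | h
    · left; rw [h]; exact hxb
    · right; rw [mem_singleton.1 h]; exact hy

/-- ROW G3.  All four edges meet the double triangle, and three of them are covered: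
`x` lies in `Cc p` and `Cc q`, and `{x, y}` covers `{p, q, r}`.

PROOF.  `O s = ∅` (`Loc.empty_of` with `S = {p, q, r}`), so `(Cc s).card = 3`; `x ∉ Cc s`, `x ∉ Cc r`
(`not_three`).  `Cc s` has an element `y' ≠ par x` (it has three elements), `y' ≠ x`: `{x, y'}` covers
`{p, q, s}`, so `O r = ∅`, `(Cc r).card = 3`.  `hL.two` (at least two `t` with `O t` nonempty) gives
`(O p).Nonempty`, `(O q).Nonempty`.  `Cc r`, `Cc s` are contained in `K.erase x` (five elements)
and have three elements each, so there is `z ∈ Cc r ∩ Cc s`, `z ≠ x`.  If `z ≠ par x`, `{x, z}` covers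
`T`, contradiction (`Loc.not_all`).  So `z = par x`.
`Cc p = {x}`: if `y ∈ Cc p`, `y ≠ x`; `y ≠ par x` by `not_three` (`par x ∈ Cc r ∩ Cc s`); then
`{par x, y}` covers `{r, s, p}` (`y ≠ par (par x) = x`), so `O q = ∅` by `empty_of`, contradiction.
In the same way `Cc q = {x}`.  So `(O p).card = (O q).card = 2`.
`J = {p, q}`, `g p = insert v (O p)`, `g q = insert v (O q)`, three elements each; weights `18 ≤ 19`;
all `O t ⊆ J.biUnion g` (`O r = O s = ∅`): third alternative.  `cov`: `D` meets `O p` and `O q`, the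
filter is contained in `{r, s}`, covered by `par x` (`covS_of_mem`). -/
theorem good4a {T : Finset ι} {K : Finset V} {par : V → V} {v : V} {Cc O : ι → Finset V}
    (hL : Loc T K par v Cc O) {p q r s : ι} (hpq : p ≠ q) (hpr : p ≠ r) (hps : p ≠ s)
    (hqr : q ≠ r) (hqs : q ≠ s) (hrs : r ≠ s) (hT : T = {p, q, r, s}) {x y : V} (hx : x ∈ K)
    (hy : y ∈ K) (hyx : y ≠ x) (hypx : y ≠ par x) (hxp : x ∈ Cc p) (hxq : x ∈ Cc q)
    (hyr : y ∈ Cc r) : GoodG T K par v Cc O := by
  have hpT : p ∈ T := by rw [hT]; simp
  have hqT : q ∈ T := by rw [hT]; simp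
  have hrT : r ∈ T := by rw [hT]; simp
  have hsT : s ∈ T := by rw [hT]; simp
  have hall : ∀ t ∈ T, t = p ∨ t = q ∨ t = r ∨ t = s := by
    intro t ht
    rw [hT] at ht
    simpa using ht
  have hxs : x ∉ Cc s := hL.not_three hpT hqT hsT hpq hps hqs hxp hxq
  have hxr : x ∉ Cc r := hL.not_three hpT hqT hrT hpq hpr hqr hxp hxq
  have hcov1 : CovS K par Cc {p, q, r} := by
    refine ⟨x, hx, y, hy, hyx, hypx, ?_⟩
    intro t ht
    simp only [mem_insert, mem_singleton] at ht
    rcases ht with h | h | h
    · left; rw [h]; exact hxp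
    · left; rw [h]; exact hxq
    · right; rw [h]; exact hyr
  have hOs : O s = ∅ := by
    apply hL.empty_of hsT (S := {p, q, r}) _ hcov1
    intro t ht hts
    rcases hall t ht with h | h | h | h
    · simp [h]
    · simp [h]
    · simp [h]
    · exact absurd h hts
  have hCs : (Cc s).card = 3 := by
    have := hL.sum s hsT
    rw [hOs, card_empty] at this
    omega
  obtain ⟨y', hy', hy'p⟩ : ∃ y' ∈ Cc s, y' ≠ par x := by
    by_contra hcon
    push Not at hcon
    have h1 : Cc s ⊆ {par x} := fun w hw => mem_singleton.2 (hcon w hw)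
    have h2 := card_le_card h1
    rw [card_singleton] at h2
    omega
  have hy'x : y' ≠ x := by
    rintro rfl
    exact hxs hy'
  have hcov2 : CovS K par Cc {p, q, s} := by
    refine ⟨x, hx, y', hL.sub s hsT hy', hy'x, hy'p, ?_⟩
    intro t ht
    simp only [mem_insert, mem_singleton] at ht
    rcases ht with h | h | h
    · left; rw [h]; exact hxp
    · left; rw [h]; exact hxq
    · right; rw [h]; exact hy'
  have hOr : O r = ∅ := by
    apply hL.empty_of hrT (S := {p, q, s}) _ hcov2
    intro t ht htr
    rcases hall t ht with h | h | h | h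
    · simp [h]
    · simp [h]
    · exact absurd h htr
    · simp [h]
  have hCr : (Cc r).card = 3 := by
    have := hL.sum r hrT
    rw [hOr, card_empty] at this
    omega
  have hOp : O p ≠ ∅ := by
    intro h0
    have h1 : T.filter (fun t => (O t).Nonempty) ⊆ {q} := by
      intro t ht
      obtain ⟨htT, htn⟩ := mem_filter.1 ht
      rcases hall t htT with h | h | h | h
      · rw [h, h0] at htn; exact absurd htn not_nonempty_empty
      · rw [h]; exact mem_singleton_self _
      · rw [h, hOr] at htn; exact absurd htn not_nonempty_empty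
      · rw [h, hOs] at htn; exact absurd htn not_nonempty_empty
    have h2 := card_le_card h1
    rw [card_singleton] at h2
    have h3 := hL.two
    omega
  have hOq : O q ≠ ∅ := by
    intro h0
    have h1 : T.filter (fun t => (O t).Nonempty) ⊆ {p} := by
      intro t ht
      obtain ⟨htT, htn⟩ := mem_filter.1 ht
      rcases hall t htT with h | h | h | h
      · rw [h]; exact mem_singleton_self _
      · rw [h, h0] at htn; exact absurd htn not_nonempty_empty
      · rw [h, hOr] at htn; exact absurd htn not_nonempty_empty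
      · rw [h, hOs] at htn; exact absurd htn not_nonempty_empty
    have h2 := card_le_card h1
    rw [card_singleton] at h2
    have h3 := hL.two
    omega
  obtain ⟨z, hz⟩ : (Cc r ∩ Cc s).Nonempty := by
    have h1 : Cc r ∪ Cc s ⊆ K.erase x := by
      intro w hw
      rw [mem_erase]
      rcases mem_union.1 hw with h | h
      · exact ⟨fun hcon => hxr (hcon ▸ h), hL.sub r hrT h⟩
      · exact ⟨fun hcon => hxs (hcon ▸ h), hL.sub s hsT h⟩
    have h2 := card_le_card h1
    rw [card_erase_of_mem hx, hL.par6.card] at h2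
    have h3 := card_union_add_card_inter (Cc r) (Cc s)
    apply card_pos.1
    omega
  obtain ⟨hzr, hzs⟩ := mem_inter.1 hz
  have hzx : z ≠ x := by
    rintro rfl
    exact hxr hzr
  have hzp : z = par x := by
    by_contra hne
    apply hL.not_all
    refine ⟨x, hx, z, hL.sub r hrT hzr, hzx, hne, ?_⟩
    intro t ht
    rcases hall t ht with h | h | h | h
    · left; rw [h]; exact hxp
    · left; rw [h]; exact hxq
    · right; rw [h]; exact hzr
    · right; rw [h]; exact hzs
  have hpxK : par x ∈ K := hL.par6.mem x hx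
  rw [hzp] at hzr hzs
  have hn1 : ¬ CovS K par Cc {r, s, p} := by
    intro hc
    apply hOq
    apply hL.empty_of hqT (S := {r, s, p}) _ hc
    intro t ht htq
    rcases hall t ht with h | h | h | h
    · simp [h]
    · exact absurd h htq
    · simp [h]
    · simp [h]
  have hn2 : ¬ CovS K par Cc {r, s, q} := by
    intro hc
    apply hOp
    apply hL.empty_of hpT (S := {r, s, q}) _ hc
    intro t ht htp
    rcases hall t ht with h | h | h | h
    · exact absurd h htp
    · simp [h]
    · simp [h]
    · simp [h]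
  have hCp : Cc p = {x} := by
    apply Subset.antisymm
    · intro w hw
      have := g3_single hL hrT hsT hpT hrs hpr.symm hps.symm hn1 hpxK hzr hzs w hw
      rw [hL.par6.inv x hx] at this
      exact mem_singleton.2 this
    · exact singleton_subset_iff.2 hxp
  have hCq : Cc q = {x} := by
    apply Subset.antisymm
    · intro w hw
      have := g3_single hL hrT hsT hqT hrs hqr.symm hqs.symm hn2 hpxK hzr hzs w hw
      rw [hL.par6.inv x hx] at this
      exact mem_singleton.2 this
    · exact singleton_subset_iff.2 hxq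
  have hOp2 : (O p).card = 2 := by
    have := hL.sum p hpT
    rw [hCp, card_singleton] at this
    omega
  have hOq2 : (O q).card = 2 := by
    have := hL.sum q hqT
    rw [hCq, card_singleton] at this
    omega
  refine ⟨{p, q}, fun j => insert v (O j), g3_gad hL hpT hqT hall hOp2 hOq2 hpxK hzr hzs,
    Or.inr (Or.inr ⟨?_, ⟨p, mem_insert_self _ _, g3_card hL hpT hOp2⟩, ?_⟩)⟩
  · rw [g3_sum hL hpq hpT hqT hOp2 hOq2]
    omega
  · intro t ht
    rcases hall t ht with h | h | h | h
    · rw [h]
      exact (subset_insert v (O p)).trans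
        (subset_biUnion_of_mem (fun j => insert v (O j)) (mem_insert_self _ _))
    · rw [h]
      exact (subset_insert v (O q)).trans
        (subset_biUnion_of_mem (fun j => insert v (O j)) (mem_insert_of_mem
          (mem_singleton_self _)))
    · rw [h, hOr]
      exact empty_subset _
    · rw [h, hOs]
      exact empty_subset _

/-- ROW G3, second part.  All four meet the double triangle, no three are covered, and
`x ∈ Cc p ∩ Cc r`.

PROOF.  `Cc q = {par x}`: it is nonempty; let `y ∈ Cc q`; `y ≠ x` (`not_three`); if `y ≠ par x`, then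
`{x, y}` covers `{p, r, q}`, contradiction.  In the same way `Cc s = {par x}`.  Then
`Cc p = {x}`: let `y ∈ Cc p`; `y ≠ par x` (`not_three` for `par x ∈ Cc q ∩ Cc s`); if
`y ≠ x = par (par x)`, then `{par x, y}` covers `{q, s, p}`, contradiction.  In the same way
`Cc r = {x}`.  So all `(O t).card = 2`.  `J = {p, r}`, `g p = insert v (O p)`,
`g r = insert v (O r)` (three elements each): weights `18`, second alternative.  `cov`: `D` meets `O p` and
`O r`, the filter is contained in `{q, s}`, covered by `par x`. -/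
theorem good4b {T : Finset ι} {K : Finset V} {par : V → V} {v : V} {Cc O : ι → Finset V}
    (hL : Loc T K par v Cc O) {p q r s : ι} (hpq : p ≠ q) (hpr : p ≠ r) (hps : p ≠ s)
    (hqr : q ≠ r) (hqs : q ≠ s) (hrs : r ≠ s) (hT : T = {p, q, r, s})
    (hne : ∀ t ∈ T, (Cc t).Nonempty)
    (h3 : ∀ a ∈ T, ∀ b ∈ T, ∀ c ∈ T, a ≠ b → a ≠ c → b ≠ c → ¬ CovS K par Cc {a, b, c})
    {x : V} (hx : x ∈ K) (hxp : x ∈ Cc p) (hxr : x ∈ Cc r) : GoodG T K par v Cc O := by
  have hpT : p ∈ T := by rw [hT]; simp
  have hqT : q ∈ T := by rw [hT]; simp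
  have hrT : r ∈ T := by rw [hT]; simp
  have hsT : s ∈ T := by rw [hT]; simp
  have hall : ∀ t ∈ T, t = p ∨ t = r ∨ t = q ∨ t = s := by
    intro t ht
    rw [hT] at ht
    simp only [mem_insert, mem_singleton] at ht
    tauto
  have hCq : ∀ w ∈ Cc q, w = par x :=
    g3_single hL hpT hrT hqT hpr hpq hqr.symm (h3 p hpT r hrT q hqT hpr hpq hqr.symm) hx hxp hxr
  have hCs : ∀ w ∈ Cc s, w = par x :=
    g3_single hL hpT hrT hsT hpr hps hrs (h3 p hpT r hrT s hsT hpr hps hrs) hx hxp hxr
  have hpxK : par x ∈ K := hL.par6.mem x hx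
  have hpq' : par x ∈ Cc q := by
    obtain ⟨w, hw⟩ := hne q hqT
    have := hCq w hw
    rwa [this] at hw
  have hps' : par x ∈ Cc s := by
    obtain ⟨w, hw⟩ := hne s hsT
    have := hCs w hw
    rwa [this] at hw
  have hCp : Cc p = {x} := by
    apply Subset.antisymm
    · intro w hw
      have := g3_single hL hqT hsT hpT hqs hpq.symm hps.symm
        (h3 q hqT s hsT p hpT hqs hpq.symm hps.symm) hpxK hpq' hps' w hw
      rw [hL.par6.inv x hx] at this
      exact mem_singleton.2 this
    · exact singleton_subset_iff.2 hxp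
  have hCr : Cc r = {x} := by
    apply Subset.antisymm
    · intro w hw
      have := g3_single hL hqT hsT hrT hqs hqr hrs.symm
        (h3 q hqT s hsT r hrT hqs hqr hrs.symm) hpxK hpq' hps' w hw
      rw [hL.par6.inv x hx] at this
      exact mem_singleton.2 this
    · exact singleton_subset_iff.2 hxr
  have hOp2 : (O p).card = 2 := by
    have := hL.sum p hpT
    rw [hCp, card_singleton] at this
    omega
  have hOr2 : (O r).card = 2 := by
    have := hL.sum r hrT
    rw [hCr, card_singleton] at this
    omega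
  refine ⟨{p, r}, fun j => insert v (O j), g3_gad hL hpT hrT hall hOp2 hOr2 hpxK hpq' hps',
    Or.inr (Or.inl ⟨?_, ⟨p, mem_insert_self _ _, g3_card hL hpT hOp2⟩⟩)⟩
  rw [g3_sum hL hpr hpT hrT hOp2 hOr2]

end Pool.Agent.TD7
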