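import Pool.Agent.TD7.G0

set_option autoImplicit false
set_option linter.unusedSectionVars false

namespace Pool.Agent.TD7

open Finset Pool.Agent.TD5 Pool.Agent.TD6

variable {ι V : Type*} [DecidableEq ι] [DecidableEq V] {e : ι → Finset V} {W : Finset ι}

/-- ROW G4.  A partition of the four edges into `{a, b}` and `{c, d}` such that all cross pairs are
covered and the unions have at least two elements.

PROOF.  `J = {a, c}`, `g a` from `trim` for `O a ∪ O b`, `g c` from `trim` for `O c ∪ O d`
(`hL.notv`).  `cov`: `D` meets `O a ∪ O b` and `O c ∪ O d` (`meets_of`), so the filter is contained in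
one of `{a, c}, {a, d}, {b, c}, {b, d}` (`CovS.mono`).  Weights: if one of the two sets has four elements,
the sum is `≤ 14`; otherwise both have three, the sum is `18 ≤ 19`, and `g a = insert v (O a ∪ O b)`,
`g c = insert v (O c ∪ O d)` contain all `O t`: third alternative. -/
theorem good_part {T : Finset ι} {K : Finset V} {par : V → V} {v : V} {Cc O : ι → Finset V}
    (hL : Loc T K par v Cc O) {a b c d : ι} (hab : a ≠ b) (hac : a ≠ c) (had : a ≠ d)
    (hbc : b ≠ c) (hbd : b ≠ d) (hcd : c ≠ d) (hT : T = {a, b, c, d})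
    (h1 : CovS K par Cc {a, c}) (h2 : CovS K par Cc {a, d}) (h3 : CovS K par Cc {b, c})
    (h4 : CovS K par Cc {b, d}) (h5 : 2 ≤ (O a ∪ O b).card) (h6 : 2 ≤ (O c ∪ O d).card) :
    GoodG T K par v Cc O := by
  have ma : a ∈ T := by rw [hT]; simp
  have mb : b ∈ T := by rw [hT]; simp
  have mc : c ∈ T := by rw [hT]; simp
  have md : d ∈ T := by rw [hT]; simp
  have hT' : ∀ t ∈ T, t = a ∨ t = b ∨ t = c ∨ t = d := by
    intro t ht
    rw [hT] at ht
    simpa using ht
  have hv1 : v ∉ O a ∪ O b := by
    rw [mem_union, not_or]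
    exact ⟨hL.notv a ma, hL.notv b mb⟩
  have hv2 : v ∉ O c ∪ O d := by
    rw [mem_union, not_or]
    exact ⟨hL.notv c mc, hL.notv d md⟩
  obtain ⟨ga, hva, hsa, hca⟩ := trim h5 hv1
  obtain ⟨gc, hvc, hsc, hcc⟩ := trim h6 hv2
  obtain ⟨g, hg⟩ : ∃ g : ι → Finset V, g = fun j => if j = a then ga else gc := ⟨_, rfl⟩
  have e1 : g a = ga := by rw [hg]; exact if_pos rfl
  have e2 : g c = gc := by rw [hg]; exact if_neg (Ne.symm hac)
  have hGad : Gad T K par v Cc O {a, c} g := by
    refine ⟨?_, ?_, ?_, ?_, ?_⟩
    · intro j hj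
      rcases mem_insert.1 hj with rfl | hj
      · exact ma
      · rw [mem_singleton.1 hj]
        exact mc
    · intro j hj
      rcases mem_insert.1 hj with rfl | hj
      · rw [e1]
        exact hca.imp And.left id
      · rw [mem_singleton.1 hj, e2]
        exact hcc.imp And.left id
    · intro j hj
      rcases mem_insert.1 hj with rfl | hj
      · rw [e1]
        exact hva
      · rw [mem_singleton.1 hj, e2]
        exact hvc
    · intro j hj
      rcases mem_insert.1 hj with rfl | hj
      · rw [e1]
        exact hsa.trans (insert_subset_insert _ (union_subset (subset_biUnion_of_mem O ma)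
          (subset_biUnion_of_mem O mb)))
      · rw [mem_singleton.1 hj, e2]
        exact hsc.trans (insert_subset_insert _ (union_subset (subset_biUnion_of_mem O mc)
          (subset_biUnion_of_mem O md)))
    · intro D hvD hD
      have k1 := hD a (mem_insert_self _ _)
      rw [e1] at k1
      have k2 := hD c (mem_insert_of_mem (mem_singleton_self _))
      rw [e2] at k2
      obtain ⟨x, hx, hx'⟩ := meets_of hsa hvD k1
      obtain ⟨y, hy, hy'⟩ := meets_of hsc hvD k2
      rw [mem_union] at hx' hy'
      rcases hx' with hx' | hx' <;> rcases hy' with hy' | hy'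
      · refine h4.mono ?_
        intro t ht
        obtain ⟨ht1, ht2⟩ := mem_filter.1 ht
        rcases hT' t ht1 with rfl | rfl | rfl | rfl
        · exact absurd hx' (ht2 x hx)
        · simp
        · exact absurd hy' (ht2 y hy)
        · simp
      · refine h3.mono ?_
        intro t ht
        obtain ⟨ht1, ht2⟩ := mem_filter.1 ht
        rcases hT' t ht1 with rfl | rfl | rfl | rfl
        · exact absurd hx' (ht2 x hx)
        · simp
        · simp
        · exact absurd hy' (ht2 y hy)
      · refine h2.mono ?_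
        intro t ht
        obtain ⟨ht1, ht2⟩ := mem_filter.1 ht
        rcases hT' t ht1 with rfl | rfl | rfl | rfl
        · simp
        · exact absurd hx' (ht2 x hx)
        · exact absurd hy' (ht2 y hy)
        · simp
      · refine h1.mono ?_
        intro t ht
        obtain ⟨ht1, ht2⟩ := mem_filter.1 ht
        rcases hT' t ht1 with rfl | rfl | rfl | rfl
        · simp
        · exact absurd hx' (ht2 x hx)
        · simp
        · exact absurd hy' (ht2 y hy)
  have hgw : ∀ A : Finset V, gw A ≤ 9 := by
    intro A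
    unfold gw
    split_ifs <;> omega
  have hgw4 : ∀ A : Finset V, A.card = 4 → gw A = 5 := by
    intro A hA
    unfold gw
    rw [if_pos hA]
  refine ⟨{a, c}, g, hGad, ?_⟩
  rw [sum_pair hac, e1, e2]
  have n1 := hgw ga
  have n2 := hgw gc
  rcases hca with ⟨hca, hca'⟩ | hca
  · rcases hcc with ⟨hcc, hcc'⟩ | hcc
    · right; right
      refine ⟨by omega, ⟨a, mem_insert_self _ _, by rw [e1]; exact hca⟩, ?_⟩
      have s1 : g a ⊆ ({a, c} : Finset ι).biUnion g := subset_biUnion_of_mem g (mem_insert_self _ _)
      have s2 : g c ⊆ ({a, c} : Finset ι).biUnion g :=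
        subset_biUnion_of_mem g (mem_insert_of_mem (mem_singleton_self _))
      rw [e1, hca'] at s1
      rw [e2, hcc'] at s2
      intro t ht
      rcases hT' t ht with rfl | rfl | rfl | rfl
      · exact (subset_union_left.trans (subset_insert _ _)).trans s1
      · exact (subset_union_right.trans (subset_insert _ _)).trans s1
      · exact (subset_union_left.trans (subset_insert _ _)).trans s2
      · exact (subset_union_right.trans (subset_insert _ _)).trans s2
    · left
      have := hgw4 gc hcc
      omega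
  · left
    have := hgw4 ga hca
    omega

theorem g4_eq {T : Finset ι} {a b c d : ι} (ha : a ∈ T) (hb : b ∈ T) (hc : c ∈ T) (hd : d ∈ T)
    (hT : ∀ t ∈ T, t = a ∨ t = b ∨ t = c ∨ t = d) : T = {a, b, c, d} := by
  ext t
  simp only [mem_insert, mem_singleton]
  refine ⟨hT t, ?_⟩
  rintro (rfl | rfl | rfl | rfl)
  · exact ha
  · exact hb
  · exact hc
  · exact hd

theorem g4_ne {Cc : ι → Finset V} {a b : ι} (na : (Cc a).Nonempty) (h : Disjoint (Cc a) (Cc b))
    (he : Cc a = Cc b) : False := by
  obtain ⟨x, hx⟩ := na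
  exact disjoint_left.1 h hx (he ▸ hx)

theorem g4_np {T : Finset ι} {K : Finset V} {par : V → V} {v : V} {Cc O : ι → Finset V}
    (hL : Loc T K par v Cc O) {p q r s : ι} (mp : p ∈ T) (mq : q ∈ T) (mr : r ∈ T) (ms : s ∈ T)
    (hpq : p ≠ q) (hpr : p ≠ r) (hps : p ≠ s) (hqr : q ≠ r) (hqs : q ≠ s) (hrs : r ≠ s)
    (hT' : ∀ t ∈ T, t = p ∨ t = q ∨ t = r ∨ t = s)
    (hne : ∀ t ∈ T, (Cc t).Nonempty)
    (hdis : ∀ a ∈ T, ∀ b ∈ T, a ≠ b → Disjoint (Cc a) (Cc b))
    (hsum : (Cc p).card + (Cc q).card + (Cc r).card + (Cc s).card ≤ 6)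
    (hnot : ¬ CovS K par Cc {r, s}) : GoodG T K par v Cc O := by
  rcases covS_pair hL.par6 (hne r mr) (hne s ms) (hL.sub r mr) (hL.sub s ms) with h | ⟨x, hx, h1, h2⟩
  · exact absurd h hnot
  have hOr : (O r).card = 2 := by
    have := hL.sum r mr
    rw [h1, card_singleton] at this
    omega
  have hOs : (O s).card = 2 := by
    have := hL.sum s ms
    rw [h2, card_singleton] at this
    omega
  have cr : ∀ t ∈ T, t ≠ r → t ≠ s → CovS K par Cc {t, r} := by
    intro t ht htr hts
    rcases covS_pair hL.par6 (hne t ht) (hne r mr) (hL.sub t ht) (hL.sub r mr) with h | ⟨z, hz, h3, h4⟩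
    · exact h
    · exfalso
      have hzx : par z = x := by
        rw [h1] at h4
        exact (singleton_injective h4).symm
      have hz' : z = par x := by rw [← hzx, hL.par6.inv z hz]
      refine g4_ne (hne t ht) (hdis t ht s ms hts) ?_
      rw [h3, h2, hz']
  have cs : ∀ t ∈ T, t ≠ r → t ≠ s → CovS K par Cc {t, s} := by
    intro t ht htr hts
    rcases covS_pair hL.par6 (hne t ht) (hne s ms) (hL.sub t ht) (hL.sub s ms) with h | ⟨z, hz, h3, h4⟩
    · exact h
    · exfalso
      have hzx : par z = par x := by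
        rw [h2] at h4
        exact (singleton_injective h4).symm
      have hz' : z = x := by rw [← hL.par6.inv z hz, hzx, hL.par6.inv x hx]
      refine g4_ne (hne t ht) (hdis t ht r mr htr) ?_
      rw [h3, h1, hz']
  by_cases hA : 2 ≤ (O p ∪ O q).card
  · refine good_part hL hpq hpr hps hqr hqs hrs (g4_eq mp mq mr ms hT') (cr p mp hpr hps)
      (cs p mp hpr hps) (cr q mq hqr hqs) (cs q mq hqr hqs) hA ?_
    have := card_le_card (subset_union_left : O r ⊆ O r ∪ O s)
    omega
  have sp1 : O p ⊆ O p ∪ O q := subset_union_left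
  have sq1 : O q ⊆ O p ∪ O q := subset_union_right
  have k1 := card_le_card sp1
  have k2 := card_le_card sq1
  have l1 := hL.sum p mp
  have l2 := hL.sum q mq
  have l3 : (Cc r).card = 1 := by rw [h1, card_singleton]
  have l4 : (Cc s).card = 1 := by rw [h2, card_singleton]
  have e1 : O p = O p ∪ O q := eq_of_subset_of_card_le sp1 (by omega)
  have e2 : O q = O p ∪ O q := eq_of_subset_of_card_le sq1 (by omega)
  obtain ⟨u, hu⟩ := card_eq_one.1 (show (O p ∪ O q).card = 1 by omega)
  rw [hu] at e1 e2
  have hCp : (Cc p).card = 2 := by omega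
  have hup : u ∈ O p := by rw [e1]; exact mem_singleton_self u
  have huq : u ∈ O q := by rw [e2]; exact mem_singleton_self u
  have cvs : CovS K par Cc {s} := by
    refine covS_of_mem hL.par6 (hL.par6.mem x hx) ?_
    intro t ht
    rw [mem_singleton.1 ht, h2]
    exact mem_singleton_self _
  have cvr : CovS K par Cc {r} := by
    refine covS_of_mem hL.par6 hx ?_
    intro t ht
    rw [mem_singleton.1 ht, h1]
    exact mem_singleton_self _
  have hur : u ∉ O r := by
    intro hur
    refine hL.c3 p mp u hup (cvs.mono ?_)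
    intro t ht
    obtain ⟨ht1, ht2⟩ := mem_filter.1 ht
    rcases hT' t ht1 with rfl | rfl | rfl | rfl
    · exact absurd hup ht2
    · exact absurd huq ht2
    · exact absurd hur ht2
    · exact mem_singleton_self _
  have hus : u ∉ O s := by
    intro hus
    refine hL.c3 p mp u hup (cvr.mono ?_)
    intro t ht
    obtain ⟨ht1, ht2⟩ := mem_filter.1 ht
    rcases hT' t ht1 with rfl | rfl | rfl | rfl
    · exact absurd hup ht2
    · exact absurd huq ht2
    · exact mem_singleton_self _
    · exact absurd hus ht2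
  have huv : v ≠ u := by
    rintro rfl
    exact hL.notv p mp hup
  have hvrs : v ∉ O r ∪ O s := by
    rw [mem_union, not_or]
    exact ⟨hL.notv r mr, hL.notv s ms⟩
  obtain ⟨gp, hvp, hsp, hcp⟩ := trim (show 2 ≤ (O r ∪ O s).card by
    have := card_le_card (subset_union_left : O r ⊆ O r ∪ O s)
    omega) hvrs
  have hcr4 : (insert v (insert u (O r))).card = 4 := by
    rw [card_insert_of_notMem, card_insert_of_notMem hur, hOr]
    rw [mem_insert, not_or]
    exact ⟨huv, hL.notv r mr⟩
  have hcs4 : (insert v (insert u (O s))).card = 4 := by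
    rw [card_insert_of_notMem, card_insert_of_notMem hus, hOs]
    rw [mem_insert, not_or]
    exact ⟨huv, hL.notv s ms⟩
  obtain ⟨g, hg⟩ : ∃ g : ι → Finset V, g = fun j => if j = p then gp else insert v (insert u (O j)) := ⟨_, rfl⟩
  have eg1 : g p = gp := by rw [hg]; exact if_pos rfl
  have eg2 : g r = insert v (insert u (O r)) := by rw [hg]; exact if_neg (Ne.symm hpr)
  have eg3 : g s = insert v (insert u (O s)) := by rw [hg]; exact if_neg (Ne.symm hps)
  have hJ : ∀ j ∈ ({r, s, p} : Finset ι), j = r ∨ j = s ∨ j = p := by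
    intro j hj
    simpa using hj
  have hGad : Gad T K par v Cc O {r, s, p} g := by
    refine ⟨?_, ?_, ?_, ?_, ?_⟩
    · intro j hj
      rcases hJ j hj with rfl | rfl | rfl
      · exact mr
      · exact ms
      · exact mp
    · intro j hj
      rcases hJ j hj with rfl | rfl | rfl
      · rw [eg2]
        exact Or.inr hcr4
      · rw [eg3]
        exact Or.inr hcs4
      · rw [eg1]
        exact hcp.imp And.left id
    · intro j hj
      rcases hJ j hj with rfl | rfl | rfl
      · rw [eg2]
        exact mem_insert_self _ _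
      · rw [eg3]
        exact mem_insert_self _ _
      · rw [eg1]
        exact hvp
    · intro j hj
      rcases hJ j hj with rfl | rfl | rfl
      · rw [eg2]
        refine insert_subset_insert _ (insert_subset_iff.2 ⟨?_, subset_biUnion_of_mem O mr⟩)
        exact subset_biUnion_of_mem O mp hup
      · rw [eg3]
        refine insert_subset_insert _ (insert_subset_iff.2 ⟨?_, subset_biUnion_of_mem O ms⟩)
        exact subset_biUnion_of_mem O mp hup
      · rw [eg1]
        exact hsp.trans (insert_subset_insert _ (union_subset (subset_biUnion_of_mem O mr)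
          (subset_biUnion_of_mem O ms)))
    · intro D hvD hD
      have k1 := hD r (by simp)
      rw [eg2] at k1
      have k2 := hD s (by simp)
      rw [eg3] at k2
      have k3 := hD p (by simp)
      rw [eg1] at k3
      obtain ⟨x1, hx1, hx1'⟩ := meets_of (Subset.refl _) hvD k1
      obtain ⟨x2, hx2, hx2'⟩ := meets_of (Subset.refl _) hvD k2
      obtain ⟨x3, hx3, hx3'⟩ := meets_of hsp hvD k3
      rw [mem_insert] at hx1' hx2'
      rw [mem_union] at hx3'
      by_cases huD : u ∈ D
      · rcases hx3' with hx3' | hx3'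
        · refine cvs.mono ?_
          intro t ht
          obtain ⟨ht1, ht2⟩ := mem_filter.1 ht
          rcases hT' t ht1 with rfl | rfl | rfl | rfl
          · exact absurd hup (ht2 u huD)
          · exact absurd huq (ht2 u huD)
          · exact absurd hx3' (ht2 x3 hx3)
          · exact mem_singleton_self _
        · refine cvr.mono ?_
          intro t ht
          obtain ⟨ht1, ht2⟩ := mem_filter.1 ht
          rcases hT' t ht1 with rfl | rfl | rfl | rfl
          · exact absurd hup (ht2 u huD)
          · exact absurd huq (ht2 u huD)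
          · exact mem_singleton_self _
          · exact absurd hx3' (ht2 x3 hx3)
      · have m1 : x1 ∈ O r := by
          rcases hx1' with h | h
          · exact absurd (h ▸ hx1) huD
          · exact h
        have m2 : x2 ∈ O s := by
          rcases hx2' with h | h
          · exact absurd (h ▸ hx2) huD
          · exact h
        have hpq' : CovS K par Cc {p, q} := by
          rcases covS_pair hL.par6 (hne p mp) (hne q mq) (hL.sub p mp) (hL.sub q mq) with h | ⟨z, _, h3, _⟩
          · exact h
          · exfalso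
            rw [h3, card_singleton] at hCp
            omega
        refine hpq'.mono ?_
        intro t ht
        obtain ⟨ht1, ht2⟩ := mem_filter.1 ht
        rcases hT' t ht1 with rfl | rfl | rfl | rfl
        · simp
        · simp
        · exact absurd m1 (ht2 x1 hx1)
        · exact absurd m2 (ht2 x2 hx2)
  have hsumJ : ∑ j ∈ ({r, s, p} : Finset ι), gw (g j) = gw (g r) + (gw (g s) + gw (g p)) := by
    rw [sum_insert (by simp [hrs, Ne.symm hpr]), sum_pair (Ne.symm hps)]
  have w1 : gw (g r) = 5 := by
    rw [eg2]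
    unfold gw
    rw [if_pos hcr4]
  have w2 : gw (g s) = 5 := by
    rw [eg3]
    unfold gw
    rw [if_pos hcs4]
  refine ⟨{r, s, p}, g, hGad, ?_⟩
  rw [hsumJ, w1, w2, eg1]
  rcases hcp with ⟨hcp, hcp'⟩ | hcp
  · right; right
    refine ⟨?_, ⟨p, by simp, by rw [eg1]; exact hcp⟩, ?_⟩
    · unfold gw
      split_ifs <;> omega
    · have s1 : g r ⊆ ({r, s, p} : Finset ι).biUnion g := subset_biUnion_of_mem g (by simp)
      have s2 : g s ⊆ ({r, s, p} : Finset ι).biUnion g := subset_biUnion_of_mem g (by simp)
      have s3 : ({u} : Finset V) ⊆ g r := by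
        rw [eg2, singleton_subset_iff]
        simp
      intro t ht
      rcases hT' t ht with rfl | rfl | rfl | rfl
      · rw [e1]
        exact s3.trans s1
      · rw [e2]
        exact s3.trans s1
      · refine Subset.trans ?_ s1
        rw [eg2]
        exact (subset_insert _ _).trans (subset_insert _ _)
      · refine Subset.trans ?_ s2
        rw [eg3]
        exact (subset_insert _ _).trans (subset_insert _ _)
  · left
    unfold gw
    rw [if_pos hcp]
    omega

theorem g4_all {T : Finset ι} {K : Finset V} {par : V → V} {v : V} {Cc O : ι → Finset V}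
    (hL : Loc T K par v Cc O) {p q r s : ι} (mp : p ∈ T) (mq : q ∈ T) (mr : r ∈ T) (ms : s ∈ T)
    (hpq : p ≠ q) (hpr : p ≠ r) (hps : p ≠ s) (hqr : q ≠ r) (hqs : q ≠ s) (hrs : r ≠ s)
    (hT' : ∀ t ∈ T, t = p ∨ t = q ∨ t = r ∨ t = s)
    (hcov : ∀ a ∈ T, ∀ b ∈ T, a ≠ b → CovS K par Cc {a, b})
    (hr : (Cc r).card = 1) (hs : (Cc s).card = 1) : GoodG T K par v Cc O := by
  have l1 := hL.sum r mr
  have l2 := hL.sum s ms
  refine good_part hL hpr hpq hps (Ne.symm hqr) hrs hqs (g4_eq mp mr mq ms (fun t ht => ?_))
    (hcov p mp q mq hpq) (hcov p mp s ms hps) (hcov r mr q mq (Ne.symm hqr)) (hcov r mr s ms hrs) ?_ ?_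
  · rcases hT' t ht with h | h | h | h
    · exact Or.inl h
    · exact Or.inr (Or.inr (Or.inl h))
    · exact Or.inr (Or.inl h)
    · exact Or.inr (Or.inr (Or.inr h))
  · have := card_le_card (subset_union_right : O r ⊆ O p ∪ O r)
    omega
  · have := card_le_card (subset_union_right : O s ⊆ O q ∪ O s)
    omega

/-- ROW G4, second part.  The sets `Cc t` are nonempty and pairwise disjoint.

PROOF.  `∑ (Cc t).card ≤ 6` (disjoint subsets of `K`).
(1) Suppose some pair is not covered; rename it `{r, s}` (do this by proving a lemma for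
explicit `p q r s` with `¬ CovS K par Cc {r, s}` and applying it to the six choices):
`Cc r = {x}`, `Cc s = {par x}` (`covS_pair`), so `(O r).card = (O s).card = 2`.
Every cross pair between `{p, q}` and `{r, s}` is covered: if `{p, r}` were not covered,
`Cc p = {z}`, `Cc r = {par z}`, so `par z = x`, `z = par x`, `Cc p = Cc s`, not disjoint; same for the
others.  If `2 ≤ (O p ∪ O q).card`: `good_part` with `a, b, c, d = p, q, r, s`.  Otherwise
`(O p).card ≤ 1`, `(O q).card ≤ 1`, so `(Cc p).card, (Cc q).card ≥ 2`, and the sum bound gives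
equality: `(O p).card = (O q).card = 1`, `O p = O q = {u}`.  `u ∉ O r`: otherwise
`T.filter (fun t => u ∉ O t) ⊆ {s}` is covered (`covS_of_mem` with an element of `Cc s`),
against `hL.c3 p _ u`.  In the same way `u ∉ O s`.
`J = {r, s, p}`, `g p` from `trim` for `O r ∪ O s`, `g r = insert v (insert u (O r))`,
`g s = insert v (insert u (O s))` (four elements each).  `cov`: let `D` avoid `v` and meet all three.
`D` meets `O r ∪ O s`.  If `u ∈ D`, then `p, q` are not in the filter and one of `r, s` is not:
the filter is contained in `{r}` or `{s}`.  If `u ∉ D`, then `D` meets `O r` and `O s`, the filter is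
contained in `{p, q}`, which is covered by `covS_pair` (`(Cc p).card = 2`, so it is not a
singleton).  Weights: `5 + 5 + 5 ≤ 16` or `5 + 5 + 9 = 19` with `g p = insert v (O r ∪ O s)`; all
`O t ⊆ J.biUnion g`: third alternative.
(2) All pairs are covered.  At least two of the four, say `r, s`, have `(Cc t).card = 1` (otherwise
the sum is `≥ 1 + 2 + 2 + 2`), so `(O r).card = (O s).card = 2`.  `good_part` with
`a, b, c, d = p, r, q, s`. -/
theorem good4c {T : Finset ι} {K : Finset V} {par : V → V} {v : V} {Cc O : ι → Finset V}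
    (hL : Loc T K par v Cc O) {p q r s : ι} (hpq : p ≠ q) (hpr : p ≠ r) (hps : p ≠ s)
    (hqr : q ≠ r) (hqs : q ≠ s) (hrs : r ≠ s) (hT : T = {p, q, r, s})
    (hne : ∀ t ∈ T, (Cc t).Nonempty)
    (hdis : ∀ a ∈ T, ∀ b ∈ T, a ≠ b → Disjoint (Cc a) (Cc b)) : GoodG T K par v Cc O := by
  have mp : p ∈ T := by rw [hT]; simp
  have mq : q ∈ T := by rw [hT]; simp
  have mr : r ∈ T := by rw [hT]; simp
  have ms : s ∈ T := by rw [hT]; simp
  have hT' : ∀ t ∈ T, t = p ∨ t = q ∨ t = r ∨ t = s := by
    intro t ht
    rw [hT] at ht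
    simpa using ht
  have hK : (Cc p ∪ Cc q ∪ Cc r ∪ Cc s).card ≤ 6 := by
    rw [← hL.par6.card]
    exact card_le_card (union_subset (union_subset (union_subset (hL.sub p mp) (hL.sub q mq)) (hL.sub r mr))
      (hL.sub s ms))
  rw [card_union_of_disjoint (disjoint_union_left.2 ⟨disjoint_union_left.2 ⟨hdis p mp s ms hps,
    hdis q mq s ms hqs⟩, hdis r mr s ms hrs⟩), card_union_of_disjoint (disjoint_union_left.2
    ⟨hdis p mp r mr hpr, hdis q mq r mr hqr⟩), card_union_of_disjoint (hdis p mp q mq hpq)] at hK
  by_cases crs : CovS K par Cc {r, s}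
  swap
  · exact g4_np hL mp mq mr ms hpq hpr hps hqr hqs hrs (fun t ht => by have := hT' t ht; tauto) hne hdis (by omega) crs
  by_cases cqs : CovS K par Cc {q, s}
  swap
  · exact g4_np hL mp mr mq ms hpr hpq hps (Ne.symm hqr) hrs hqs (fun t ht => by have := hT' t ht; tauto) hne hdis (by omega) cqs
  by_cases cqr : CovS K par Cc {q, r}
  swap
  · exact g4_np hL mp ms mq mr hps hpq hpr (Ne.symm hqs) (Ne.symm hrs) hqr (fun t ht => by have := hT' t ht; tauto) hne hdis (by omega) cqr
  by_cases cps : CovS K par Cc {p, s}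
  swap
  · exact g4_np hL mq mr mp ms hqr (Ne.symm hpq) hqs (Ne.symm hpr) hrs hps (fun t ht => by have := hT' t ht; tauto) hne hdis (by omega) cps
  by_cases cpr : CovS K par Cc {p, r}
  swap
  · exact g4_np hL mq ms mp mr hqs (Ne.symm hpq) hqr (Ne.symm hps) (Ne.symm hrs) hpr (fun t ht => by have := hT' t ht; tauto) hne hdis (by omega) cpr
  by_cases cpq : CovS K par Cc {p, q}
  swap
  · exact g4_np hL mr ms mp mq hrs (Ne.symm hpr) (Ne.symm hqr) (Ne.symm hps) (Ne.symm hqs) hpq (fun t ht => by have := hT' t ht; tauto) hne hdis (by omega) cpq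
  have hcov : ∀ a ∈ T, ∀ b ∈ T, a ≠ b → CovS K par Cc {a, b} := by
    intro a ha b hb hab
    have sw : ∀ x y : ι, CovS K par Cc {x, y} → CovS K par Cc {y, x} := by
      intro x y h
      rw [pair_comm]
      exact h
    rcases hT' a ha with rfl | rfl | rfl | rfl <;> rcases hT' b hb with rfl | rfl | rfl | rfl <;>
      first
        | exact absurd rfl hab
        | assumption
        | (apply sw; assumption)
  have n1 := card_pos.2 (hne p mp)
  have n2 := card_pos.2 (hne q mq)
  have n3 := card_pos.2 (hne r mr)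
  have n4 := card_pos.2 (hne s ms)
  by_cases krs : (Cc r).card = 1 ∧ (Cc s).card = 1
  · exact g4_all hL mp mq mr ms hpq hpr hps hqr hqs hrs (fun t ht => by have := hT' t ht; tauto) hcov krs.1 krs.2
  by_cases kqs : (Cc q).card = 1 ∧ (Cc s).card = 1
  · exact g4_all hL mp mr mq ms hpr hpq hps (Ne.symm hqr) hrs hqs (fun t ht => by have := hT' t ht; tauto) hcov kqs.1 kqs.2
  by_cases kqr : (Cc q).card = 1 ∧ (Cc r).card = 1
  · exact g4_all hL mp ms mq mr hps hpq hpr (Ne.symm hqs) (Ne.symm hrs) hqr (fun t ht => by have := hT' t ht; tauto) hcov kqr.1 kqr.2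
  by_cases kps : (Cc p).card = 1 ∧ (Cc s).card = 1
  · exact g4_all hL mq mr mp ms hqr (Ne.symm hpq) hqs (Ne.symm hpr) hrs hps (fun t ht => by have := hT' t ht; tauto) hcov kps.1 kps.2
  by_cases kpr : (Cc p).card = 1 ∧ (Cc r).card = 1
  · exact g4_all hL mq ms mp mr hqs (Ne.symm hpq) hqr (Ne.symm hps) (Ne.symm hrs) hpr (fun t ht => by have := hT' t ht; tauto) hcov kpr.1 kpr.2
  by_cases kpq : (Cc p).card = 1 ∧ (Cc q).card = 1
  · exact g4_all hL mr ms mp mq hrs (Ne.symm hpr) (Ne.symm hqr) (Ne.symm hps) (Ne.symm hqs) hpq (fun t ht => by have := hT' t ht; tauto) hcov kpq.1 kpq.2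
  exfalso
  omega

end Pool.Agent.TD7
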