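import Pool.Agent.TD7.G1
import Pool.Agent.TD7.G2
import Pool.Agent.TD7.G3
import Pool.Agent.TD7.G4

set_option autoImplicit false
set_option linter.unusedSectionVars false

namespace Pool.Agent.TD7

open Finset Pool.Agent.TD5 Pool.Agent.TD6

variable {ι V : Type*} [DecidableEq ι] [DecidableEq V] {e : ι → Finset V} {W : Finset ι}

theorem g5_four {T : Finset ι} (hT : T.card = 4) : ∃ p q r s : ι, p ≠ q ∧ p ≠ r ∧ p ≠ s ∧
    q ≠ r ∧ q ≠ s ∧ r ≠ s ∧ T = {p, q, r, s} := by
  have hne : T.Nonempty := by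
    rw [← Finset.card_pos, hT]
    norm_num
  obtain ⟨p, hp⟩ := hne
  have h1 : (T.erase p).card = 3 := by
    rw [Finset.card_erase_of_mem hp, hT]
  obtain ⟨q, r, s, h2, h3, h4, h5⟩ := Finset.card_eq_three.1 h1
  have hq : q ∈ T.erase p := by
    rw [h5]
    simp
  have hr : r ∈ T.erase p := by
    rw [h5]
    simp
  have hs : s ∈ T.erase p := by
    rw [h5]
    simp
  refine ⟨p, q, r, s, (Finset.mem_erase.1 hq).1.symm, (Finset.mem_erase.1 hr).1.symm,
    (Finset.mem_erase.1 hs).1.symm, h2, h3, h4, ?_⟩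
  rw [← h5, Finset.insert_erase hp]

/-- A fourth element. -/
theorem g5_fourth {T : Finset ι} (hT : T.card = 4) {a b c : ι} (ha : a ∈ T) (hb : b ∈ T)
    (hc : c ∈ T) (hab : a ≠ b) (hac : a ≠ c) (hbc : b ≠ c) :
    ∃ d : ι, a ≠ d ∧ b ≠ d ∧ c ≠ d ∧ T = {a, b, c, d} := by
  have hsub : ({a, b, c} : Finset ι) ⊆ T := by
    intro t ht
    simp only [Finset.mem_insert, Finset.mem_singleton] at ht
    rcases ht with rfl | rfl | rfl <;> assumption
  have h3 : ({a, b, c} : Finset ι).card = 3 := by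
    rw [Finset.card_eq_three]
    exact ⟨a, b, c, hab, hac, hbc, rfl⟩
  have h1 : (T \ {a, b, c}).card = 1 := by
    rw [Finset.card_sdiff_of_subset hsub, hT, h3]
  obtain ⟨d, hd⟩ := Finset.card_eq_one.1 h1
  have hdm : d ∈ T \ {a, b, c} := by
    rw [hd]
    simp
  rw [Finset.mem_sdiff] at hdm
  obtain ⟨hdT, hd'⟩ := hdm
  simp only [Finset.mem_insert, Finset.mem_singleton, not_or] at hd'
  refine ⟨d, fun h => hd'.1 h.symm, fun h => hd'.2.1 h.symm, fun h => hd'.2.2 h.symm, ?_⟩
  ext t
  constructor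
  · intro ht
    by_cases h : t ∈ ({a, b, c} : Finset ι)
    · simp only [Finset.mem_insert, Finset.mem_singleton] at h ⊢
      tauto
    · have : t ∈ T \ {a, b, c} := Finset.mem_sdiff.2 ⟨ht, h⟩
      rw [hd, Finset.mem_singleton] at this
      simp [this]
  · intro ht
    simp only [Finset.mem_insert, Finset.mem_singleton] at ht
    rcases ht with rfl | rfl | rfl | rfl <;> assumption

/-- The two other elements. -/
theorem g5_other {T : Finset ι} (hT : T.card = 4) {a b : ι} (ha : a ∈ T) (hb : b ∈ T)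
    (hab : a ≠ b) : ∃ c d : ι, a ≠ c ∧ a ≠ d ∧ b ≠ c ∧ b ≠ d ∧ c ≠ d ∧ T = {a, b, c, d} := by
  have hsub : ({a, b} : Finset ι) ⊆ T := by
    intro t ht
    simp only [Finset.mem_insert, Finset.mem_singleton] at ht
    rcases ht with rfl | rfl <;> assumption
  have h3 : ({a, b} : Finset ι).card = 2 := Finset.card_pair hab
  have h1 : 0 < (T \ {a, b}).card := by
    rw [Finset.card_sdiff_of_subset hsub, hT, h3]
    norm_num
  obtain ⟨c, hc⟩ := Finset.card_pos.1 h1
  rw [Finset.mem_sdiff] at hc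
  obtain ⟨hcT, hc'⟩ := hc
  simp only [Finset.mem_insert, Finset.mem_singleton, not_or] at hc'
  obtain ⟨d, h4, h5, h6, h7⟩ := g5_fourth hT ha hb hcT hab (fun h => hc'.1 h.symm)
    (fun h => hc'.2 h.symm)
  exact ⟨c, d, fun h => hc'.1 h.symm, h4, fun h => hc'.2 h.symm, h5, h6, h7⟩

theorem g5_a {T : Finset ι} {K : Finset V} {par : V → V} {v : V} {Cc O : ι → Finset V}
    (hL : Loc T K par v Cc O) (hT : T.card = 4) {a b c : ι} (ha : a ∈ T) (hb : b ∈ T)
    (hc : c ∈ T) (hab : a ≠ b) (hac : a ≠ c) (hbc : b ≠ c) {x y : V} (hx : x ∈ K) (hy : y ∈ K)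
    (hyx : y ≠ x) (hypx : y ≠ par x) (hxa : x ∈ Cc a) (hxb : x ∈ Cc b) (hyc : y ∈ Cc c) :
    GoodG T K par v Cc O := by
  obtain ⟨d, h1, h2, h3, h4⟩ := g5_fourth hT ha hb hc hab hac hbc
  exact good4a hL hab hac h1 hbc h2 h3 h4 hx hy hyx hypx hxa hxb hyc

/-- ROW G5.  Assembly of the local analysis.

PROOF.  Let `N = T.filter (fun t => (Cc t).Nonempty)`, `2 ≤ N.card ≤ 4`.  Write `T = {p, q, r, s}` with
`N = {p, q}`, `{p, q, r}` or `T` (`card_eq_two`, `card_eq_three`, and the complement `T \ N`).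
`N.card = 2`: `good2`.  `N.card = 3`: `good3`.  `N = T`: if some three different `a, b, c ∈ T` are covered by
`x, y`, one of `x, y` lies in two of the sets `Cc a, Cc b, Cc c` and the other one in the third (or also
there; rename so that `x ∈ Cc p ∩ Cc q`, `y ∈ Cc r`; if the same point lies in all three this
contradicts `not_three`; note `x ≠ par y` follows from `y ≠ par x` and `inv`), `s` the fourth element:
`good4a`.  Otherwise, if `x ∈ Cc a ∩ Cc b` for some `a ≠ b` in `T`: `good4b`
with `p = a`, `r = b` and `q, s` the other two.  Otherwise `good4c`. -/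
theorem good_all {T : Finset ι} {K : Finset V} {par : V → V} {v : V} {Cc O : ι → Finset V}
    (hL : Loc T K par v Cc O) (hT : T.card = 4)
    (hC2 : 2 ≤ (T.filter (fun t => (Cc t).Nonempty)).card) :
    GoodG T K par v Cc O ∨ BadG T Cc O := by
  classical
  obtain ⟨p, q, r, s, hpq, hpr, hps, hqr, hqs, hrs, hTe⟩ := g5_four hT
  have hpT : p ∈ T := by rw [hTe]; simp
  have hqT : q ∈ T := by rw [hTe]; simp
  have hrT : r ∈ T := by rw [hTe]; simp
  have hsT : s ∈ T := by rw [hTe]; simp
  by_cases hall : ∀ t ∈ T, (Cc t).Nonempty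
  · left
    by_cases h3 : ∃ a ∈ T, ∃ b ∈ T, ∃ c ∈ T, a ≠ b ∧ a ≠ c ∧ b ≠ c ∧ CovS K par Cc {a, b, c}
    · obtain ⟨a, ha, b, hb, c, hc, hab, hac, hbc, x, hx, y, hy, hyx, hypx, hcov⟩ := h3
      have hxy : x ≠ y := hyx.symm
      have hxpy : x ≠ par y := by
        intro h
        apply hypx
        rw [h, hL.par6.inv y hy]
      have ka := hcov a (by simp)
      have kb := hcov b (by simp)
      have kc := hcov c (by simp)
      rcases ka with ka | ka <;> rcases kb with kb | kb <;> rcases kc with kc | kc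
      · exact absurd kc (hL.not_three ha hb hc hab hac hbc ka kb)
      · exact g5_a hL hT ha hb hc hab hac hbc hx hy hyx hypx ka kb kc
      · exact g5_a hL hT ha hc hb hac hab hbc.symm hx hy hyx hypx ka kc kb
      · exact g5_a hL hT hb hc ha hbc hab.symm hac.symm hy hx hxy hxpy kb kc ka
      · exact g5_a hL hT hb hc ha hbc hab.symm hac.symm hx hy hyx hypx kb kc ka
      · exact g5_a hL hT ha hc hb hac hab hbc.symm hy hx hxy hxpy ka kc kb
      · exact g5_a hL hT ha hb hc hab hac hbc hy hx hxy hxpy ka kb kc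
      · exact absurd kc (hL.not_three ha hb hc hab hac hbc ka kb)
    · have h3' : ∀ a ∈ T, ∀ b ∈ T, ∀ c ∈ T, a ≠ b → a ≠ c → b ≠ c →
          ¬ CovS K par Cc {a, b, c} := by
        intro a ha b hb c hc hab hac hbc h
        exact h3 ⟨a, ha, b, hb, c, hc, hab, hac, hbc, h⟩
      by_cases h2 : ∃ a ∈ T, ∃ b ∈ T, a ≠ b ∧ ∃ x, x ∈ Cc a ∧ x ∈ Cc b
      · obtain ⟨a, ha, b, hb, hab, x, hxa, hxb⟩ := h2
        obtain ⟨c, d, k1, k2, k3, k4, k5, k6⟩ := g5_other hT ha hb hab
        refine good4b hL k1 hab k2 k3.symm k5 k4 ?_ hall h3' (hL.sub a ha hxa) hxa hxb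
        rw [k6]
        ext t
        simp only [Finset.mem_insert, Finset.mem_singleton]
        tauto
      · refine good4c hL hpq hpr hps hqr hqs hrs hTe hall ?_
        intro a ha b hb hab
        rw [Finset.disjoint_left]
        intro x hxa hxb
        exact h2 ⟨a, ha, b, hb, hab, x, hxa, hxb⟩
  · push Not at hall
    obtain ⟨d, hd, hdC⟩ := hall
    have hN : (T.filter (fun t => (Cc t).Nonempty)).card = 2 ∨
        (T.filter (fun t => (Cc t).Nonempty)).card = 3 := by
      have h1 : T.filter (fun t => (Cc t).Nonempty) ⊆ T.erase d := by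
        intro t ht
        rw [Finset.mem_filter] at ht
        rw [Finset.mem_erase]
        refine ⟨?_, ht.1⟩
        rintro rfl
        rw [hdC] at ht
        exact Finset.not_nonempty_empty ht.2
      have h2 := Finset.card_le_card h1
      rw [Finset.card_erase_of_mem hd, hT] at h2
      omega
    rcases hN with hN | hN
    · left
      obtain ⟨a, b, hab, hNe⟩ := Finset.card_eq_two.1 hN
      have ha : a ∈ T.filter (fun t => (Cc t).Nonempty) := by rw [hNe]; simp
      have hb : b ∈ T.filter (fun t => (Cc t).Nonempty) := by rw [hNe]; simp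
      rw [Finset.mem_filter] at ha hb
      obtain ⟨c, e', k1, k2, k3, k4, k5, k6⟩ := g5_other hT ha.1 hb.1 hab
      have hempty : ∀ t ∈ T, t ≠ a → t ≠ b → Cc t = ∅ := by
        intro t ht hta htb
        by_contra hcon
        have : t ∈ T.filter (fun t => (Cc t).Nonempty) :=
          Finset.mem_filter.2 ⟨ht, Finset.nonempty_iff_ne_empty.2 hcon⟩
        rw [hNe] at this
        simp only [Finset.mem_insert, Finset.mem_singleton] at this
        tauto
      exact good2 hL hab k1 k2 k3 k4 k5 k6 ha.2 hb.2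
        (hempty c (by rw [k6]; simp) k1.symm k3.symm)
        (hempty e' (by rw [k6]; simp) k2.symm k4.symm)
    · obtain ⟨a, b, c, hab, hac, hbc, hNe⟩ := Finset.card_eq_three.1 hN
      have ha : a ∈ T.filter (fun t => (Cc t).Nonempty) := by rw [hNe]; simp
      have hb : b ∈ T.filter (fun t => (Cc t).Nonempty) := by rw [hNe]; simp
      have hc : c ∈ T.filter (fun t => (Cc t).Nonempty) := by rw [hNe]; simp
      rw [Finset.mem_filter] at ha hb hc
      obtain ⟨e', k1, k2, k3, k4⟩ := g5_fourth hT ha.1 hb.1 hc.1 hab hac hbc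
      have hempty : ∀ t ∈ T, t ≠ a → t ≠ b → t ≠ c → Cc t = ∅ := by
        intro t ht hta htb htc
        by_contra hcon
        have : t ∈ T.filter (fun t => (Cc t).Nonempty) :=
          Finset.mem_filter.2 ⟨ht, Finset.nonempty_iff_ne_empty.2 hcon⟩
        rw [hNe] at this
        simp only [Finset.mem_insert, Finset.mem_singleton] at this
        tauto
      exact good3 hL hab hac k1 hbc k2 k3 k4 ha.2 hb.2 hc.2
        (hempty e' (by rw [k4]; simp) k1.symm k2.symm k3.symm)

end Pool.Agent.TD7
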