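import Pool.Agent.TD7.AZ
import Pool.Agent.TD7.B5
import Pool.Agent.TD7.B6
import Pool.Agent.TD7.B8
import Pool.Agent.TD7.B9
import Pool.Agent.TD7.B10
import Pool.Agent.TD7.B11
import Pool.Agent.TD7.G5

set_option autoImplicit false
set_option linter.unusedSectionVars false

namespace Pool.Agent.TD7

open Finset Pool.Agent.TD5 Pool.Agent.TD6

variable {ι V : Type*} [DecidableEq ι] [DecidableEq V] {e : ι → Finset V} {W : Finset ι}

theorem hi_of (h : Mx e W) {v : V} (hv : 4 ≤ (rho e W v).card) : Hi e W v := by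
  obtain ⟨h1, h2, h3, h4⟩ := pass1 h hv
  obtain ⟨h5, h6, h7⟩ := pass2 h hv
  have hne : (rho e W v).Nonempty := card_pos.1 (by omega)
  refine ⟨h, h1, ?_, h2, h3, h5, h6, h7, h4, fun K hK => two_adj_of h hne hK (h6 K hK)⟩
  intro x
  by_contra hc
  push Not at hc
  have := (pass1 h (show 4 ≤ (rho e W x).card by omega)).1
  omega

theorem hi_false {v : V} (hH : Hi e W v)
    (hall : ∀ x, (rho e W x).card = 4 → Hi e W x) : False := by
  obtain ⟨C, hC, hsp⟩ := hH.exf
  obtain ⟨c1, c2, c3, c4⟩ := special_three hH hC hsp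
  obtain ⟨par, hF⟩ := exists_f6 c1 c2 c3 c4
  have hL := loc_of hH hC hF
  have hC2 : 2 ≤ ((rho e W v).filter (fun t => (Ct e C t).Nonempty)).card := by
    refine (hH.two C hC).trans (card_le_card ?_)
    intro t ht
    obtain ⟨ht1, x, hx, hx'⟩ := mem_adjS.1 ht
    exact mem_filter.2 ⟨ht1, x, mem_inter.2 ⟨hx, hx'⟩⟩
  rcases good_all hL hH.deg hC2 with ⟨J, g, hG, hw⟩ | ⟨p, q, r, s, u, h⟩
  · have h1 := resolve hH hC hF hG
    obtain ⟨h2, h3⟩ := ks_new (par := par) hH hC hG
    rcases hw with hw | ⟨hw, hj⟩ | ⟨hw, hj, ho⟩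
    · omega
    · have := (h3 hj).1
      omega
    · have := (h3 hj).2 ho
      omega
  · obtain ⟨hpq, hpr, hps, hqr, hqs, hrs, hT, hp, hq, hr, hs⟩ := h
    exact bad_false hH hall hC hF hpq hpr hps hqr hqs hrs hT hp hq hr hs

theorem mx_false (h : Mx e W) : False := by
  by_cases hD : ∀ x, (rho e W x).card ≤ 3
  · exact Low.false ⟨h, hD⟩
  · push Not at hD
    obtain ⟨v, hv⟩ := hD
    exact hi_false (hi_of h (show 4 ≤ (rho e W v).card by omega))
      (fun x hx => hi_of h (by omega))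

/-- The main hypergraph theorem. -/
theorem main_bound (n : ℕ) : ∀ (e : ι → Finset V) (W : Finset ι), Sz e → W.card = n →
    26 * tau e W ≤ psi e W + ks e W := by
  induction n using Nat.strong_induction_on with
  | _ n ih =>
    intro e W hs hn
    by_contra hcon
    push Not at hcon
    exact mx_false (e := e) (W := W) ⟨hs, fun e' X hs' hX => ih X.card (by omega) e' X hs' rfl, hcon⟩

theorem bound (e : ι → Finset V) (W : Finset ι) (hs : Sz e) :
    26 * tau e W ≤ psi e W + ks e W := main_bound _ e W hs rfl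

end Pool.Agent.TD7
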