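import Pool.Agent.TD7.DefD

set_option autoImplicit false
set_option linter.unusedSectionVars false

namespace Pool.Agent.TD7

open Finset Pool.Agent.TD5 Pool.Agent.TD6

variable {ι V : Type*} [DecidableEq ι] [DecidableEq V] {e : ι → Finset V} {W : Finset ι}

/-- number of edges avoiding two points -/
def d0_cnt (e : ι → Finset V) (K : Finset ι) (x y : V) : ℕ :=
  (K.filter (fun i => x ∉ e i ∧ y ∉ e i)).card

theorem d0_L (h4 : ∀ i, (e i).card = 4) {K : Finset ι} (hF : FC e K) {i : ι} (hi : i ∈ K) :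
    (cols e K \ e i).card = 3 := by
  have h1 := card_sdiff_add_card_eq_card (sub_cols (e := e) hi)
  rw [h4, hF.2.1] at h1
  omega

theorem d0_pos {K : Finset ι} (hF : FC e K) {x y : V} : 1 ≤ d0_cnt e K x y := by
  rw [Nat.one_le_iff_ne_zero]
  intro h0
  unfold d0_cnt at h0
  rw [card_eq_zero, filter_eq_empty_iff] at h0
  have h1 : Hits e {x, y} K := by
    intro i hi
    have h2 := h0 hi
    by_cases hx : x ∈ e i
    · exact ⟨x, by simp, hx⟩
    · by_cases hy : y ∈ e i
      · exact ⟨y, by simp, hy⟩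
      · exact absurd ⟨hx, hy⟩ h2
  have h2 := tau_le h1
  have h3 : ({x, y} : Finset V).card ≤ 2 := card_le_two
  have h4 := hF.2.2
  omega

theorem d0_pair (h4 : ∀ i, (e i).card = 4) {K : Finset ι} (hF : FC e K) {x y : V}
    (hx : x ∈ cols e K) (hy : y ∈ cols e K) (hxy : x ≠ y) : d0_cnt e K x y = 1 := by
  have h1 : ∑ p ∈ (cols e K).offDiag, d0_cnt e K p.1 p.2 = 42 := by
    unfold d0_cnt
    simp only [card_filter]
    rw [sum_comm]
    have h2 : ∀ i ∈ K, (∑ p ∈ (cols e K).offDiag, if p.1 ∉ e i ∧ p.2 ∉ e i then 1 else 0) = 6 := by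
      intro i hi
      rw [← card_filter]
      have h3 : (cols e K).offDiag.filter (fun p => p.1 ∉ e i ∧ p.2 ∉ e i) =
          (cols e K \ e i).offDiag := by
        ext p
        simp only [mem_filter, mem_offDiag, mem_sdiff]
        tauto
      rw [h3, offDiag_card, d0_L h4 hF hi]
    rw [sum_congr rfl h2, sum_const, hF.1]
    rfl
  have h2 : ∑ p ∈ (cols e K).offDiag, 1 = ∑ p ∈ (cols e K).offDiag, d0_cnt e K p.1 p.2 := by
    rw [h1, sum_const, offDiag_card, hF.2.1]
    rfl
  have h3 := (sum_eq_sum_iff_of_le (fun p _ => d0_pos hF (x := p.1) (y := p.2))).1 h2 (x, y)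
    (mem_offDiag.2 ⟨hx, hy, hxy⟩)
  exact h3.symm

theorem d0_three (h4 : ∀ i, (e i).card = 4) {K : Finset ι} (hF : FC e K) {x : V}
    (hx : x ∈ cols e K) : (K.filter (fun i => x ∉ e i)).card = 3 := by
  have h1 : ∑ y ∈ (cols e K).erase x, d0_cnt e K x y = 6 := by
    rw [sum_congr rfl (fun y hy => d0_pair h4 hF hx (mem_of_mem_erase hy)
      (ne_of_mem_erase hy).symm), sum_const, card_erase_of_mem hx, hF.2.1]
    rfl
  have h2 : ∑ y ∈ (cols e K).erase x, d0_cnt e K x y =
      ∑ i ∈ K, if x ∉ e i then 2 else 0 := by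
    unfold d0_cnt
    simp only [card_filter]
    rw [sum_comm]
    refine sum_congr rfl fun i hi => ?_
    by_cases hxi : x ∉ e i
    · rw [if_pos hxi, ← card_filter]
      have h3 : ((cols e K).erase x).filter (fun y => x ∉ e i ∧ y ∉ e i) =
          (cols e K \ e i).erase x := by
        ext y
        simp only [mem_filter, mem_erase, mem_sdiff]
        tauto
      rw [h3, card_erase_of_mem (mem_sdiff.2 ⟨hx, hxi⟩), d0_L h4 hF hi]
    · rw [if_neg hxi]
      refine sum_eq_zero fun y _ => ?_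
      rw [if_neg fun h => hxi h.1]
  have h3 : (∑ i ∈ K, if x ∉ e i then 2 else 0) = (K.filter (fun i => x ∉ e i)).card * 2 := by
    rw [← sum_filter, sum_const, smul_eq_mul]
  omega

theorem d0_int (h4 : ∀ i, (e i).card = 4) {K : Finset ι} (hF : FC e K) {i j : ι} (hi : i ∈ K)
    (hj : j ∈ K) (hij : i ≠ j) : ((cols e K \ e i) ∩ (cols e K \ e j)).card ≤ 1 := by
  rw [card_le_one]
  intro x hx y hy
  by_contra hxy
  simp only [mem_inter, mem_sdiff] at hx hy
  have h1 := d0_pair h4 hF hx.1.1 hy.1.1 hxy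
  unfold d0_cnt at h1
  have h2 : ({i, j} : Finset ι) ⊆ K.filter (fun i => x ∉ e i ∧ y ∉ e i) := by
    intro k hk
    rw [mem_insert, mem_singleton] at hk
    rcases hk with rfl | rfl
    · exact mem_filter.2 ⟨hi, hx.1.2, hy.1.2⟩
    · exact mem_filter.2 ⟨hj, hx.2.2, hy.2.2⟩
  have h3 := card_le_card h2
  rw [card_pair hij, h1] at h3
  omega

theorem d0_int_eq (h4 : ∀ i, (e i).card = 4) {K : Finset ι} (hF : FC e K) {i j : ι} (hi : i ∈ K)
    (hj : j ∈ K) (hij : i ≠ j) : ((cols e K \ e i) ∩ (cols e K \ e j)).card = 1 := by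
  have h1 : ∑ k ∈ K.erase i, ((cols e K \ e i) ∩ (cols e K \ e k)).card = 6 := by
    have h2 : ∀ k ∈ K.erase i, ((cols e K \ e i) ∩ (cols e K \ e k)).card =
        ∑ x ∈ cols e K \ e i, if x ∉ e k then 1 else 0 := by
      intro k _
      rw [← card_filter]
      congr 1
      ext x
      simp only [mem_inter, mem_filter, mem_sdiff]
      tauto
    rw [sum_congr rfl h2, sum_comm]
    have h3 : ∀ x ∈ cols e K \ e i, (∑ k ∈ K.erase i, if x ∉ e k then 1 else 0) = 2 := by
      intro x hx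
      obtain ⟨hx1, hx2⟩ := mem_sdiff.1 hx
      rw [← card_filter]
      have h4' : (K.erase i).filter (fun k => x ∉ e k) = (K.filter (fun k => x ∉ e k)).erase i := by
        ext k
        simp only [mem_filter, mem_erase]
        tauto
      rw [h4', card_erase_of_mem (mem_filter.2 ⟨hi, hx2⟩), d0_three h4 hF hx1]
    rw [sum_congr rfl h3, sum_const, d0_L h4 hF hi]
    rfl
  have h2 : ∑ k ∈ K.erase i, ((cols e K \ e i) ∩ (cols e K \ e k)).card = ∑ k ∈ K.erase i, 1 := by
    rw [h1, sum_const, card_erase_of_mem hi, hF.1]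
    rfl
  exact (sum_eq_sum_iff_of_le (fun k hk => d0_int h4 hF hi (mem_of_mem_erase hk)
    (ne_of_mem_erase hk).symm)).1 h2 j (mem_erase.2 ⟨hij.symm, hj⟩)

/-- ROW D0.  The Fano structure.  All edges have size four, `K` has seven edges, seven vertices,
`tau e K = 3`.

PROOF.  For `i ∈ K` let `L i = cols e K \ e i`, `(L i).card = 3` (`e i ⊆ cols e K`).
(0) For `x ≠ y` in `cols e K` some `i ∈ K` has `x, y ∉ e i`: otherwise `{x, y}` hits `K` and
`tau_le` gives `tau e K ≤ 2`.
(1) Count the triples `(x, y, i)` with `x, y ∈ L i`, `x ≠ y`, `i ∈ K`: for each `i` there are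
`3 * 2 = 6` pairs (`offDiag_card`), so `42` in total; and there are `42 = 7 * 6` pairs `x ≠ y` in
`cols e K`, each with at least one `i` by (0).  So each pair has exactly one `i`: the second claim
(`sum_card_bipartiteAbove_eq_sum_card_bipartiteBelow`, or `sum_comm'`; then equality in
`sum_le_sum`, e.g. `Finset.sum_eq_sum_iff_of_le`).
(2) First claim: fix `x`; count the pairs `(y, i)`, `y ≠ x`, `x, y ∈ L i`: `6` by (1) (six `y`), and
`2` for every `i` with `x ∈ L i`; so exactly 3 of the `i ∈ K` have `x ∉ e i`, 4 have `x ∈ e i`.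
(3) Third claim: fix `i`; for `j ≠ i`, `(L i ∩ L j).card ≤ 1` by (1) (two common points would be
a pair with two edges); `∑ j ∈ K.erase i, (L i ∩ L j).card = ∑ x ∈ L i, 2 = 6` by (2) (`x ∈ L i` is in
`L j` for exactly two other `j`), and there are six `j`, so each is equal to 1; finally
`(e i ∩ e j).card = 7 - (L i ∪ L j).card = 7 - (3 + 3 - 1) = 2`. -/
theorem fc_facts (h4 : ∀ i, (e i).card = 4) {K : Finset ι} (hF : FC e K) :
    (∀ x ∈ cols e K, (rho e K x).card = 4) ∧
    (∀ x ∈ cols e K, ∀ y ∈ cols e K, x ≠ y →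
      (K.filter (fun i => x ∉ e i ∧ y ∉ e i)).card = 1) ∧
    (∀ i ∈ K, ∀ j ∈ K, i ≠ j → (e i ∩ e j).card = 2) := by
  refine ⟨fun x hx => ?_, fun x hx y hy hxy => d0_pair h4 hF hx hy hxy, fun i hi j hj hij => ?_⟩
  · have h1 := d0_three h4 hF hx
    have h2 := card_filter_add_card_filter_not (s := K) (fun i => x ∈ e i)
    have h3 : rho e K x = K.filter (fun i => x ∈ e i) := rfl
    have h5 := hF.1
    rw [h3]
    omega
  · have h1 := d0_int_eq h4 hF hi hj hij
    have h2 : (cols e K \ e i) ∩ (cols e K \ e j) = cols e K \ (e i ∪ e j) := by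
      ext x
      simp only [mem_inter, mem_sdiff, mem_union]
      tauto
    rw [h2] at h1
    have h3 := card_sdiff_add_card_eq_card (union_subset (sub_cols (e := e) hi) (sub_cols hj))
    have h5 := card_union_add_card_inter (e i) (e j)
    rw [h4, h4] at h5
    have h6 := hF.2.1
    omega

end Pool.Agent.TD7
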