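import Pool.Agent.TD7.DefB

set_option autoImplicit false
set_option linter.unusedSectionVars false

namespace Pool.Agent.TD7

open Finset Pool.Agent.TD5 Pool.Agent.TD6

variable {ι V : Type*} [DecidableEq ι] [DecidableEq V] {e : ι → Finset V} {W : Finset ι}

/-! Definitions for the second hypergraph theorem: all edges have size four,
`78 * tau ≤ 14 * edges + 19 * vertices + 3 * kf`, `kf` = number of components of type `FC`
(seven edges, seven vertices, transversal number three: the complement of the Fano plane). -/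

theorem sz_of (h4 : ∀ i, (e i).card = 4) : Sz e := fun i => Or.inr (h4 i)

theorem ne_of (h4 : ∀ i, (e i).card = 4) (i : ι) : (e i).Nonempty := (sz_of h4).hne i

/-- Seven edges on seven vertices with transversal number three. -/
def FC (e : ι → Finset V) (K : Finset ι) : Prop :=
  K.card = 7 ∧ (cols e K).card = 7 ∧ tau e K = 3

/-- The weight. -/
def phi (e : ι → Finset V) (W : Finset ι) : ℕ := 14 * W.card + 19 * (cols e W).card

/-- One for a set of type `FC`, otherwise zero. -/
noncomputable def fsp (e : ι → Finset V) (K : Finset ι) : ℕ := by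
  classical
  exact if FC e K then 1 else 0

/-- The number of components of type `FC`. -/
noncomputable def kf (e : ι → Finset V) (R : Finset ι) : ℕ := by
  classical
  exact ((comps e R).filter (fun P => FC e P)).card

theorem fsp_of {K : Finset ι} (h : FC e K) : fsp e K = 1 := by simp [fsp, h]

theorem fsp_of_not {K : Finset ι} (h : ¬ FC e K) : fsp e K = 0 := by simp [fsp, h]

theorem fsp_le (K : Finset ι) : fsp e K ≤ 1 := by
  by_cases h : FC e K
  · rw [fsp_of h]
  · rw [fsp_of_not h]
    exact Nat.zero_le _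

theorem kf_eq_sum (R : Finset ι) : kf e R = ∑ K ∈ comps e R, fsp e K := by
  classical
  unfold kf fsp
  rw [card_filter]

theorem kf_self {R K : Finset ι} (h : IsComp e R K) : kf e K = fsp e K := by
  rw [kf_eq_sum, comps_self (isComp_self h), sum_singleton]

theorem FC.phi_eq {K : Finset ι} (h : FC e K) : phi e K = 231 ∧ 78 * tau e K = phi e K + 3 := by
  obtain ⟨h1, h2, h3⟩ := h
  unfold phi
  rw [h1, h2, h3]
  exact ⟨rfl, rfl⟩

theorem kf_le (R : Finset ι) (S : Finset V)
    (h : ∀ P, IsComp e R P → FC e P → ∃ x ∈ S, x ∈ cols e P) : kf e R ≤ S.card := by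
  classical
  unfold kf
  apply card_le_cols (e := e)
  · intro P hP P' hP' hne
    exact (mem_comps.1 (mem_filter.1 hP).1).sep (mem_comps.1 (mem_filter.1 hP').1) hne
  · intro P hP
    obtain ⟨h1, h2⟩ := mem_filter.1 hP
    exact h P (mem_comps.1 h1) h2

theorem kf_eq_zero {R : Finset ι} (h : ∀ P, IsComp e R P → ¬ FC e P) : kf e R = 0 := by
  have := kf_le (e := e) R ∅ (fun P hP hS => absurd hS (h P hP))
  simpa using this

theorem not_fc_of_kf {R : Finset ι} (h : kf e R = 0) : ∀ P, IsComp e R P → ¬ FC e P := by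
  classical
  intro P hP hF
  unfold kf at h
  rw [card_eq_zero, filter_eq_empty_iff] at h
  exact h (mem_comps.2 hP) hF

theorem kf_add (hne : ∀ i, (e i).Nonempty) {X Y : Finset ι} (h : TD5.Sep e X Y) :
    kf e X + kf e Y ≤ kf e (X ∪ Y) := by
  classical
  unfold kf
  rw [← card_union_of_disjoint]
  · apply card_le_card
    intro P hP
    rcases mem_union.1 hP with hP | hP <;> obtain ⟨h1, h2⟩ := mem_filter.1 hP <;>
      rw [mem_comps] at h1 <;> rw [mem_filter, mem_comps] <;> refine ⟨?_, h2⟩
    · refine ⟨h1.sub.trans subset_union_left, h1.ne, ?_, h1.conn⟩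
      apply closed_trans h1.sub h1.closed
      refine h.mono (Subset.refl _) ?_
      intro i hi
      obtain ⟨h3, h4⟩ := mem_sdiff.1 hi
      exact (mem_union.1 h3).resolve_left h4
    · refine ⟨h1.sub.trans subset_union_right, h1.ne, ?_, h1.conn⟩
      apply closed_trans h1.sub h1.closed
      refine h.symm.mono (Subset.refl _) ?_
      intro i hi
      obtain ⟨h3, h4⟩ := mem_sdiff.1 hi
      exact (mem_union.1 h3).resolve_right h4
  · refine disjoint_left.2 ?_
    intro P hP hP'
    have h1 := mem_comps.1 (mem_filter.1 hP).1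
    have h2 := mem_comps.1 (mem_filter.1 hP').1
    obtain ⟨i, hi⟩ := h1.ne
    exact disjoint_left.1 (h.disj hne) (h1.sub hi) (h2.sub hi)

theorem phi_union (hne : ∀ i, (e i).Nonempty) {X Y : Finset ι} (h : TD5.Sep e X Y) :
    phi e (X ∪ Y) = phi e X + phi e Y := by
  unfold phi
  rw [card_union_of_disjoint (h.disj hne), h.card_cols]
  ring

theorem pack_phi (hne : ∀ i, (e i).Nonempty) (B : Finset (Finset ι))
    (hB : ∀ P ∈ B, ∀ P' ∈ B, P ≠ P' → TD5.Sep e P P') :
    phi e (B.biUnion id) = ∑ P ∈ B, phi e P := by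
  induction B using Finset.induction_on with
  | empty => simp [phi, cols]
  | insert P s hP ih =>
    have h1 := ih (fun P' hP' P'' hP'' hn =>
      hB P' (mem_insert_of_mem hP') P'' (mem_insert_of_mem hP'') hn)
    have h4 : TD5.Sep e P (s.biUnion id) := by
      apply sep_biUnion
      intro P' hP'
      apply hB P (mem_insert_self _ _) P' (mem_insert_of_mem hP')
      rintro rfl
      exact hP hP'
    have h5 : (insert P s).biUnion id = P ∪ s.biUnion id := by
      rw [biUnion_insert]
      rfl
    rw [h5, sum_insert hP, phi_union hne h4, h1]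

theorem phi_comps (hne : ∀ i, (e i).Nonempty) (R : Finset ι) :
    phi e R = ∑ K ∈ comps e R, phi e K := by
  have h := pack_phi hne (comps e R) comps_sep
  rwa [biUnion_comps] at h

/-- The weight after removing all edges at a vertex. -/
theorem phi_rho {M : Finset ι} {x : V} (hx : x ∈ cols e M) :
    phi e (M \ rho e M x) + 14 * (rho e M x).card + 19 ≤ phi e M := by
  have h1 : insert x (cols e (M \ rho e M x)) ⊆ cols e M :=
    insert_subset hx (cols_mono sdiff_subset)
  have h2 := card_le_card h1
  rw [card_insert_of_notMem (notMem_cols_rho M x)] at h2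
  have h3 := card_sdiff_add_card_eq_card (rho_sub (e := e) M x)
  unfold phi
  omega

/-- Bound for two separated parts. -/
theorem phi_split (hne : ∀ i, (e i).Nonempty) {X Y Z W : Finset ι} (hsep : TD5.Sep e X Y)
    (hX : X ⊆ W) (hY : Y ⊆ W) (hZ : Z ⊆ W) (hdX : Disjoint X Z) (hdY : Disjoint Y Z) :
    phi e X + phi e Y + 14 * Z.card ≤ phi e W := by
  have h1 := card_le_card (union_subset (union_subset hX hY) hZ)
  rw [card_union_of_disjoint (disjoint_union_left.2 ⟨hdX, hdY⟩),
    card_union_of_disjoint (hsep.disj hne)] at h1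
  have h2 := card_le_card (cols_mono (e := e) (union_subset hX hY))
  rw [hsep.card_cols] at h2
  unfold phi
  omega

/-- `W` is a minimal counterexample to the second theorem. -/
structure Mf (e : ι → Finset V) (W : Finset ι) : Prop where
  h4 : ∀ i, (e i).card = 4
  ih : ∀ X, X ⊆ W → X ≠ W → 78 * tau e X ≤ phi e X + 3 * kf e X
  neg : phi e W + 3 * kf e W < 78 * tau e W

theorem Mf.hne (h : Mf e W) (i : ι) : (e i).Nonempty := ne_of h.h4 i

theorem Mf.lt (h : Mf e W) : phi e W < 78 * tau e W := by
  have := h.neg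
  omega

theorem Mf.nonempty (h : Mf e W) : W.Nonempty := by
  rw [nonempty_iff_ne_empty]
  rintro rfl
  have := h.neg
  rw [tau_empty] at this
  omega

theorem Mf.conn (h : Mf e W) : Conn e W := by
  intro X hX h1 h2 hsep
  have h3 := h.ih X hX h2
  have h4 : W \ X ≠ W := by
    obtain ⟨i, hi⟩ := h1
    intro hcon
    have := hX hi
    rw [← hcon] at this
    exact (mem_sdiff.1 this).2 hi
  have h5 := h.ih (W \ X) sdiff_subset h4
  have h6 : X ∪ (W \ X) = W := union_sdiff_of_subset hX
  have h7 := tau_union h.hne X (W \ X)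
  have h8 := phi_union h.hne hsep
  have h9 := kf_add h.hne hsep
  have h11 := h.neg
  rw [h6] at h7 h8 h9
  omega

/-- The bound for a component of a proper subset. -/
theorem mf_comp_le (h : Mf e W) {R K : Finset ι} (hR : R ⊆ W) (hRW : R ≠ W)
    (hK : IsComp e R K) : 78 * tau e K ≤ phi e K + 3 * fsp e K := by
  rw [← kf_self hK]
  apply h.ih K (hK.sub.trans hR)
  rintro rfl
  exact hRW (Subset.antisymm hR hK.sub)

/-- Removing all edges at a vertex of a connected set. -/
theorem kf_rho (h4 : ∀ i, (e i).card = 4) {M : Finset ι} (hM : Conn e M) {x : V}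
    (hx : x ∈ cols e M) : kf e (M \ rho e M x) ≤ 3 * (rho e M x).card := by
  refine le_trans ?_ (card_cols_erase (sz_of h4) (Z := rho e M x) (x := x)
    (fun i hi => (mem_rho.1 hi).2))
  apply kf_le
  intro P hP _
  have hne : (rho e M x).Nonempty := by
    obtain ⟨i, hi, hxi⟩ := mem_cols.1 hx
    exact ⟨i, mem_rho.2 ⟨hi, hxi⟩⟩
  obtain ⟨y, hy, hyP⟩ := exists_col_of_not_sep (comp_adj hM (rho_sub M x) hne hP)
  refine ⟨y, mem_erase.2 ⟨?_, hy⟩, hyP⟩
  rintro rfl
  exact notMem_cols_rho M y (cols_mono hP.sub hyP)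

end Pool.Agent.TD7
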