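import Pool.Agent.TD7.BZ
import Pool.Agent.TD7.DefD

set_option autoImplicit false
set_option linter.unusedSectionVars false

namespace Pool.Agent.TD7

open Finset Pool.Agent.TD5 Pool.Agent.TD6

variable {ι V : Type*} [DecidableEq ι] [DecidableEq V] {e : ι → Finset V} {W : Finset ι}

theorem d1_comp (h4 : ∀ i, (e i).card = 4) (hD : ∀ x, (rho e W x).card ≤ 4) {K : Finset ι}
    (hK : IsComp e W K) : K.card + 3 * sp e K ≤ (cols e K).card + 3 * fsp e K := by
  by_cases hS : Special e K
  · rw [sp_of hS]
    rcases hS.2 with ⟨h1, h2, h3⟩ | ⟨h1, h2, h3⟩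
    · omega
    · rw [fsp_of (show FC e K from ⟨h1, h2, h3⟩)]
      omega
  · rw [sp_of_not hS]
    have h1 := sum_card (e := e) K
    have h2 : ∑ i ∈ K, (e i).card = K.card * 4 := by
      rw [sum_congr rfl (fun i _ => h4 i), sum_const, smul_eq_mul]
    have h3 : ∑ x ∈ cols e K, (rho e K x).card ≤ (cols e K).card * 4 := by
      rw [← smul_eq_mul]
      exact sum_le_card_nsmul _ _ _ (fun x _ =>
        (card_le_card (rho_mono hK.sub x)).trans (hD x))
    omega

/-- ROW D1.  The case of maximum degree four, from the first theorem.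

PROOF.  `bound e W (sz_of h4) : 26 * tau e W ≤ psi e W + ks e W` (file BZ, imported).
`psi e W = 5 * W.card + 6 * (cols e W).card` (all weights are 5).  The exceptional components of `W`
are those with 3 edges and 6 vertices (`k6` of them) and those of type `FC` (`kf e W`):
`ks e W ≤ k6 + kf e W`, where `k6 = ((comps e W).filter (fun P => Special e P ∧ P.card = 3)).card`.
Claim: `W.card + 3 * k6 ≤ (cols e W).card`.  Let `F` be this family and `S = F.biUnion (cols e)`,
`S.card = 6 * k6` (the `cols e P` are pairwise disjoint, `comps_sep`, each has 6 elements).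
For `x ∈ cols e P`, `P ∈ F`: `rho e W x = rho e P x` (`P` is closed in `W`), and
`∑ x ∈ cols e P, (rho e P x).card = ∑ i ∈ P, (e i).card = 12` (`TD5.sum_card`).  So
`4 * W.card = ∑ x ∈ cols e W, (rho e W x).card ≤ 12 * k6 + 4 * ((cols e W).card - 6 * k6)`.
Hence `3 * k6 ≤ (cols e W).card - W.card` and
`78 * tau e W ≤ 15 * W.card + 18 * (cols e W).card + 3 * k6 + 3 * kf e W ≤ phi e W + 3 * kf e W`. -/
theorem low_phi (h4 : ∀ i, (e i).card = 4) (hD : ∀ x, (rho e W x).card ≤ 4) :
    78 * tau e W ≤ phi e W + 3 * kf e W := by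
  have hs := sz_of h4
  have h1 := bound e W hs
  have h2 := sum_le_sum (fun K (hK : K ∈ comps e W) => d1_comp h4 hD (mem_comps.1 hK))
  rw [sum_add_distrib, sum_add_distrib, ← mul_sum, ← mul_sum, ← ks_eq_sum, ← kf_eq_sum] at h2
  have h3 := (pack_psi hs (comps e W) comps_sep).2
  rw [biUnion_comps] at h3
  have h5 := phi_comps (ne_of h4) W
  unfold phi at h5
  rw [sum_add_distrib, ← mul_sum, ← mul_sum, ← h3] at h5
  have h6 : psi e W = 5 * W.card + 6 * (cols e W).card := by
    unfold psi ws
    rw [sum_congr rfl (fun i _ => wt_four (h4 i)), sum_const, smul_eq_mul]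
    ring
  unfold phi
  omega

end Pool.Agent.TD7
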