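import Pool.Agent.TD7.B3
import Pool.Agent.TD7.DefD

set_option autoImplicit false
set_option linter.unusedSectionVars false

namespace Pool.Agent.TD7

open Finset Pool.Agent.TD5 Pool.Agent.TD6

variable {ι V : Type*} [DecidableEq ι] [DecidableEq V] {e : ι → Finset V} {W : Finset ι}

/-- ROW D2.  PROOF.  Port of `special_count` (file B3) with `fsp`, `kf`, `FC`, `kf_eq_sum`, and
`hconn` instead of `h.not_closed`.  (Copy the proof; nothing else changes.) -/
theorem fc_count (h4 : ∀ i, (e i).card = 4) (hconn : Conn e W) {v : V} {Z : Finset ι}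
    (hZ : Z ⊆ rho e W v) (hZne : Z.Nonempty) {G : Finset (Finset ι)}
    (hG : ∀ K ∈ G, IsComp e (W \ rho e W v) K)
    (hadj : ∀ K ∈ G, ∃ z ∈ Z, ∃ x ∈ e z, x ∈ cols e K)
    (hsep : ∀ K ∈ G, TD5.Sep e K (W \ (G.biUnion id ∪ Z))) :
    ∑ K ∈ G, fsp e K + kf e (W \ (G.biUnion id ∪ Z)) ≤ 3 * Z.card + 1 := by
  classical
  have hs := sz_of h4
  have hne := ne_of h4
  set X : Finset ι := W \ (G.biUnion id ∪ Z) with hX
  set S : Finset V := (cols e Z).erase v with hS
  have hScard : S.card ≤ 3 * Z.card :=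
    card_cols_erase hs (Z := Z) (x := v) (fun i hi => (mem_rho.1 (hZ hi)).2)
  -- the three families
  have hsum : ∑ K ∈ G, fsp e K = (G.filter (fun K => FC e K)).card := by
    unfold fsp
    rw [card_filter]
  have hkf : kf e X = (((comps e X).filter (fun P => FC e P)).filter
      (fun M => v ∉ cols e M)).card + (((comps e X).filter (fun P => FC e P)).filter
      (fun M => ¬ (v ∉ cols e M))).card := by
    unfold kf
    rw [card_filter_add_card_filter_not]
  have hF3 : (((comps e X).filter (fun P => FC e P)).filter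
      (fun M => ¬ (v ∉ cols e M))).card ≤ 1 := by
    rw [card_le_one]
    intro M hM M' hM'
    obtain ⟨h1, h2⟩ := mem_filter.1 hM
    obtain ⟨h1', h2'⟩ := mem_filter.1 hM'
    rw [not_not] at h2 h2'
    by_contra hcon
    exact disjoint_left.1 (comps_sep M (mem_filter.1 h1).1 M' (mem_filter.1 h1').1 hcon) h2 h2'
  set F1 := G.filter (fun K => FC e K) with hF1
  set F2 := ((comps e X).filter (fun P => FC e P)).filter (fun M => v ∉ cols e M) with hF2
  have hGX : ∀ K ∈ G, ∀ M, IsComp e X M → TD5.Sep e K M := fun K hK M hM =>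
    (hsep K hK).mono (Subset.refl _) hM.sub
  have hd : Disjoint F1 F2 := by
    refine disjoint_left.2 ?_
    intro K hK hK'
    have hKG := (mem_filter.1 hK).1
    have hKX := mem_comps.1 (mem_filter.1 (mem_filter.1 hK').1).1
    obtain ⟨i, hi⟩ := hKX.ne
    exact disjoint_left.1 ((hGX K hKG K hKX).disj hne) hi hi
  have hpair : ∀ P ∈ F1 ∪ F2, ∀ P' ∈ F1 ∪ F2, P ≠ P' → TD5.Sep e P P' := by
    intro P hP P' hP' hPP
    rcases mem_union.1 hP with hP | hP <;> rcases mem_union.1 hP' with hP' | hP'
    · exact (hG P (mem_filter.1 hP).1).sep (hG P' (mem_filter.1 hP').1) hPP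
    · exact hGX P (mem_filter.1 hP).1 P' (mem_comps.1 (mem_filter.1 (mem_filter.1 hP').1).1)
    · exact (hGX P' (mem_filter.1 hP').1 P (mem_comps.1 (mem_filter.1 (mem_filter.1 hP).1).1)).symm
    · exact comps_sep P (mem_filter.1 (mem_filter.1 hP).1).1 P' (mem_filter.1 (mem_filter.1 hP').1).1
        hPP
  have hcol : ∀ P ∈ F1 ∪ F2, ∃ x ∈ S, x ∈ cols e P := by
    intro P hP
    rcases mem_union.1 hP with hP | hP
    · have hPG := (mem_filter.1 hP).1
      obtain ⟨z, hz, x, hx, hxP⟩ := hadj P hPG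
      refine ⟨x, mem_erase.2 ⟨?_, mem_cols.2 ⟨z, hz, hx⟩⟩, hxP⟩
      rintro rfl
      exact notMem_cols_rho W x (cols_mono (hG P hPG).sub hxP)
    · obtain ⟨h1, h2⟩ := mem_filter.1 hP
      have hPX := mem_comps.1 (mem_filter.1 h1).1
      have hPW : P ⊆ W := hPX.sub.trans sdiff_subset
      have hnsep : ¬ TD5.Sep e P Z := by
        intro hsepZ
        have hPne : P ≠ W := by
          rintro rfl
          obtain ⟨z, hz⟩ := hZne
          have h3 := hPX.sub (rho_sub P v (hZ hz))
          rw [hX, mem_sdiff, mem_union] at h3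
          exact h3.2 (Or.inr hz)
        apply hconn P hPW hPX.ne hPne
        have h4' : TD5.Sep e P (G.biUnion id) := sep_biUnion (fun K hK => (hGX K hK P hPX).symm)
        refine ((hPX.closed.union_right h4').union_right hsepZ).mono (Subset.refl _) ?_
        intro i hi
        obtain ⟨h5, h6⟩ := mem_sdiff.1 hi
        by_cases h7 : i ∈ G.biUnion id
        · exact mem_union_left _ (mem_union_right _ h7)
        · by_cases h8 : i ∈ Z
          · exact mem_union_right _ h8
          · refine mem_union_left _ (mem_union_left _ (mem_sdiff.2 ⟨?_, h6⟩))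
            rw [hX, mem_sdiff, mem_union]
            exact ⟨h5, fun h9 => h9.elim h7 h8⟩
      obtain ⟨x, hx, hxP⟩ := exists_col_of_not_sep hnsep
      refine ⟨x, mem_erase.2 ⟨?_, hx⟩, hxP⟩
      rintro rfl
      exact h2 hxP
  have hmain := card_le_cols (e := e) (F1 ∪ F2) hpair S hcol
  rw [card_union_of_disjoint hd] at hmain
  rw [hsum, hkf]
  omega

end Pool.Agent.TD7
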