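import Pool.Agent.TD7.B2
import Pool.Agent.TD7.D2

set_option autoImplicit false
set_option linter.unusedSectionVars false

namespace Pool.Agent.TD7

open Finset Pool.Agent.TD5 Pool.Agent.TD6

variable {ι V : Type*} [DecidableEq ι] [DecidableEq V] {e : ι → Finset V} {W : Finset ι}

/-- ROW D3, first part.  PROOF.  Port of `free_of` (file B1): `K' = K \ rho e K x`,
`78 * tau e K' ≤ phi e K' + 3 * kf e K'` (`h.ih`), `phi_rho`, `kf_rho h.h4 hK hx`:
`78 * tau e K' ≤ phi e K - 14 * r - 19 + 9 * r ≤ 78 * tau e K + 23 - 24`. -/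
theorem free_f (h : Mf e W) {K : Finset ι} (hK : Conn e K) (hKW : K ⊆ W)
    (hle : phi e K ≤ 78 * tau e K + 23) : FreeC e K := by
  intro x hx
  have hpos : 0 < (rho e K x).card := by
    obtain ⟨i, hi, hxi⟩ := mem_cols.1 hx
    exact card_pos.2 ⟨i, mem_rho.2 ⟨hi, hxi⟩⟩
  have h7 := card_sdiff_add_card_eq_card (rho_sub (e := e) K x)
  have hne : K \ rho e K x ≠ W := by
    intro hcon
    have h8 := card_le_card hKW
    rw [hcon] at h7
    omega
  have h2 := h.ih _ (sdiff_subset.trans hKW) hne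
  have h3 := phi_rho hx
  have h5 := kf_rho h.h4 hK hx
  omega

/-- ROW D3, second part.  PROOF.  Port of `hall_lt` (file B4): `hall_choice` (file B2), `fc_count` (row
D2) instead of `special_count`, `phi_split`, `pack_phi`, `mf_comp_le`; the final count is
`78 * tau e W ≤ phi e W - 14 * Z.card + 3 * (3 * Z.card + 1) = phi e W - 5 * Z.card + 3 < phi e W`
(as `1 ≤ Z.card`), against `h.lt`. -/
theorem hall_lt_f (h : Mf e W) {v : V} (hv : (rho e W v).Nonempty) {G : Finset (Finset ι)}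
    (hG : ∀ K ∈ G, IsComp e (W \ rho e W v) K) (hfree : ∀ K ∈ G, FreeC e K) :
    G.card < (rho e W v).card := by
  classical
  have hne := h.hne
  by_contra hcon
  push Not at hcon
  have hGadj : ∀ K ∈ G, ∃ t ∈ rho e W v, ∃ x ∈ e t, x ∈ cols e K := by
    intro K hK
    have h1 := comp_adj h.conn (rho_sub W v) hv (hG K hK)
    obtain ⟨x, hx, hxK⟩ := exists_col_of_not_sep h1
    obtain ⟨t, ht, hxt⟩ := mem_cols.1 hx
    exact ⟨t, ht, x, hxt, hxK⟩
  obtain ⟨Z, hZT, hZne, f, hinj, hf⟩ := hall_choice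
    (fun (t : ι) (K : Finset ι) => ∃ x ∈ e t, x ∈ cols e K) (rho e W v) G hv hcon hGadj
  have hZW : Z ⊆ W := hZT.trans (rho_sub W v)
  set G2 : Finset (Finset ι) := Z.image f with hG2
  set U : Finset ι := G2.biUnion id with hU
  set X : Finset ι := W \ (U ∪ Z) with hX
  have hG2G : ∀ K ∈ G2, ∃ z ∈ Z, f z = K := fun K hK => mem_image.1 hK
  have hcomp : ∀ K ∈ G2, IsComp e (W \ rho e W v) K := by
    intro K hK
    obtain ⟨z, hz, rfl⟩ := hG2G K hK
    exact hG _ (hf z hz).1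
  have hKU : ∀ K ∈ G2, K ⊆ U := fun K hK i hi => mem_biUnion.2 ⟨K, hK, hi⟩
  have hsep : ∀ K ∈ G2, TD5.Sep e K X := by
    intro K hK
    have hKc := hcomp K hK
    have hKc' := sep_iff.1 hKc.closed
    obtain ⟨z, hz, hzK⟩ := hG2G K hK
    have h3 := (hf z hz).2.2
    rw [hzK] at h3
    rw [sep_iff]
    intro i hi j hj
    obtain ⟨hj1, hj2⟩ := mem_sdiff.1 hj
    by_cases hjT : j ∈ rho e W v
    · refine disjoint_left.2 ?_
      intro x hxi hxj
      exact h3 j (mem_sdiff.2 ⟨hjT, fun h' => hj2 (mem_union_right _ h')⟩)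
        ⟨x, hxj, sub_cols hi hxi⟩
    · exact hKc' i hi j (mem_sdiff.2 ⟨mem_sdiff.2 ⟨hj1, hjT⟩, fun h' =>
        hj2 (mem_union_left _ (hKU K hK h'))⟩)
  have hadj : ∀ K ∈ G2, ∃ z ∈ Z, ∃ x ∈ e z, x ∈ cols e K := by
    intro K hK
    obtain ⟨z, hz, rfl⟩ := hG2G K hK
    exact ⟨z, hz, (hf z hz).2.1⟩
  have hcount := fc_count h.h4 h.conn hZT hZne hcomp hadj hsep
  rw [← hU, ← hX] at hcount
  have hcover : W ⊆ X ∪ Z.biUnion (fun z => f z ∪ {z}) := by
    intro i hi
    by_cases hiU : i ∈ U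
    · obtain ⟨K, hK, hiK⟩ := mem_biUnion.1 hiU
      obtain ⟨z, hz, rfl⟩ := hG2G K hK
      exact mem_union_right _ (mem_biUnion.2 ⟨z, hz, mem_union_left _ hiK⟩)
    · by_cases hiZ : i ∈ Z
      · exact mem_union_right _ (mem_biUnion.2 ⟨i, hiZ, mem_union_right _ (mem_singleton_self i)⟩)
      · refine mem_union_left _ (mem_sdiff.2 ⟨hi, ?_⟩)
        rw [mem_union]
        exact fun h' => h'.elim hiU hiZ
  have t1 := tau_le_of_subset hne hcover
  have t2 := tau_biUnion (e := e) hne Z (fun z => f z ∪ {z})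
  have t3 : ∑ z ∈ Z, tau e (f z ∪ {z}) ≤ ∑ z ∈ Z, tau e (f z) := by
    apply sum_le_sum
    intro z hz
    obtain ⟨x, hxz, hxK⟩ := (hf z hz).2.1
    exact (hfree _ (hf z hz).1).adj hne hxK (fun t ht => by rw [mem_singleton.1 ht]; exact hxz)
  have hRne : W \ rho e W v ≠ W := by
    intro h1
    obtain ⟨t, ht⟩ := hv
    have h2 := rho_sub W v ht
    rw [← h1] at h2
    exact (mem_sdiff.1 h2).2 ht
  have t4 : 78 * ∑ z ∈ Z, tau e (f z) ≤ ∑ z ∈ Z, phi e (f z) + 3 * ∑ z ∈ Z, fsp e (f z) := by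
    rw [mul_sum, mul_sum, ← sum_add_distrib]
    apply sum_le_sum
    intro z hz
    exact mf_comp_le h sdiff_subset hRne (hG _ (hf z hz).1)
  have e1 : ∑ K ∈ G2, phi e K = ∑ z ∈ Z, phi e (f z) := sum_image hinj
  have e2 : ∑ K ∈ G2, fsp e K = ∑ z ∈ Z, fsp e (f z) := sum_image hinj
  have e3 := pack_phi hne G2 (fun P hP P' hP' hn => (hcomp P hP).sep (hcomp P' hP') hn)
  rw [← hU] at e3
  have hUR : U ⊆ W \ rho e W v := by
    intro i hi
    obtain ⟨K, hK, hiK⟩ := mem_biUnion.1 hi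
    exact (hcomp K hK).sub hiK
  have hUX : TD5.Sep e U X := (sep_biUnion (fun K hK => (hsep K hK).symm)).symm
  have hdU : Disjoint U Z := by
    refine disjoint_left.2 ?_
    intro i hi hi'
    exact (mem_sdiff.1 (hUR hi)).2 (hZT hi')
  have hdX : Disjoint X Z := by
    refine disjoint_left.2 ?_
    intro i hi hi'
    exact (mem_sdiff.1 hi).2 (mem_union_right _ hi')
  have e4 := phi_split hne hUX (hUR.trans sdiff_subset) sdiff_subset hZW hdU hdX
  have hXne : X ≠ W := by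
    intro h1
    obtain ⟨z, hz⟩ := hZne
    have h2 := hZW hz
    rw [← h1] at h2
    exact disjoint_left.1 hdX h2 hz
  have e6 := h.ih X sdiff_subset hXne
  have e7 := h.lt
  have e8 := card_pos.2 hZne
  omega

end Pool.Agent.TD7
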