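import Pool.Agent.TD7.D0

set_option autoImplicit false
set_option linter.unusedSectionVars false

namespace Pool.Agent.TD7

open Finset Pool.Agent.TD5 Pool.Agent.TD6

variable {ι V : Type*} [DecidableEq ι] [DecidableEq V] {e : ι → Finset V} {W : Finset ι}

theorem d5_aux (h4 : ∀ i, (e i).card = 4) {K : Finset ι} (hF : FC e K) {x y : V}
    (hx : x ∈ cols e K) (hy : y ∈ cols e K) (hxy : x ≠ y) {S : Finset ι}
    (hS : ∀ t ∈ S, x ∈ e t ∨ y ∈ e t) : tau e (K ∪ S) ≤ 3 := by
  obtain ⟨-, h2, -⟩ := fc_facts h4 hF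
  have h3 := h2 x hx y hy hxy
  obtain ⟨i, hi⟩ := card_eq_one.1 h3
  have hiK : i ∈ K ∧ x ∉ e i ∧ y ∉ e i := by
    have : i ∈ K.filter (fun i => x ∉ e i ∧ y ∉ e i) := by
      rw [hi]
      exact mem_singleton_self i
    exact mem_filter.1 this
  obtain ⟨z, hz⟩ := ne_of h4 i
  have h5 : Hits e {x, y, z} (K ∪ S) := by
    intro j hj
    by_cases hxj : x ∈ e j
    · exact ⟨x, by simp, hxj⟩
    by_cases hyj : y ∈ e j
    · exact ⟨y, by simp, hyj⟩
    rcases mem_union.1 hj with hj | hj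
    · have : j ∈ K.filter (fun i => x ∉ e i ∧ y ∉ e i) := mem_filter.2 ⟨hj, hxj, hyj⟩
      rw [hi, mem_singleton] at this
      rw [this]
      exact ⟨z, by simp, hz⟩
    · rcases hS j hj with h | h
      · exact absurd h hxj
      · exact absurd h hyj
  exact (tau_le h5).trans card_le_three

theorem d5_two (h4 : ∀ i, (e i).card = 4) {K : Finset ι} (hF : FC e K) {x : V}
    (hx : x ∈ cols e K) : ∃ y ∈ cols e K, x ≠ y := by
  have h1 : 1 < (cols e K).card := by
    rw [hF.2.1]
    norm_num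
  obtain ⟨y, hy, hne⟩ := exists_mem_ne h1 x
  exact ⟨y, hy, hne.symm⟩

/-- ROW D5, first part.  Two prescribed vertices of a set of type `FC`.

PROOF.  If `x = y`, choose another vertex of `cols e K` for `y`.  For `x ≠ y`, `fc_facts` (row D0)
says that exactly one `i ∈ K` has `x, y ∉ e i`; take `z ∈ e i`.  `{x, y, z}` hits `K ∪ S`. -/
theorem fc_absorb (h4 : ∀ i, (e i).card = 4) {K : Finset ι} (hF : FC e K) {x y : V}
    (hx : x ∈ cols e K) (hy : y ∈ cols e K) {S : Finset ι} (hS : ∀ t ∈ S, x ∈ e t ∨ y ∈ e t) :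
    tau e (K ∪ S) ≤ 3 := by
  by_cases hxy : x = y
  · subst hxy
    obtain ⟨y, hy', hne⟩ := d5_two h4 hF hx
    exact d5_aux h4 hF hx hy' hne (fun t ht => by
      rcases hS t ht with h | h
      · exact Or.inl h
      · exact Or.inl h)
  · exact d5_aux h4 hF hx hy hxy hS

/-- ROW D5, second part.  PROOF.  `G.biUnion id ∪ Z ⊆ G.biUnion (fun K => K ∪ Z.filter (f · = K))`;
`tau_biUnion`; each term is at most 3: `Z.filter (f · = K)` has at most two elements, each meets
`cols e K`; use `fc_absorb` (empty, one or two elements; `cols e K` is nonempty). -/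
theorem two_cover (h4 : ∀ i, (e i).card = 4) {G : Finset (Finset ι)} {Z : Finset ι}
    {f : ι → Finset ι} (hG : ∀ K ∈ G, FC e K)
    (hf : ∀ z ∈ Z, f z ∈ G ∧ ∃ x ∈ e z, x ∈ cols e (f z))
    (h2 : ∀ K ∈ G, (Z.filter (fun z => f z = K)).card ≤ 2) :
    tau e (G.biUnion id ∪ Z) ≤ 3 * G.card := by
  classical
  have hne : ∀ i, (e i).Nonempty := ne_of h4
  have h1 : G.biUnion id ∪ Z ⊆ G.biUnion (fun K => K ∪ Z.filter (fun z => f z = K)) := by
    intro i hi
    rcases mem_union.1 hi with hi | hi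
    · obtain ⟨K, hK, hiK⟩ := mem_biUnion.1 hi
      exact mem_biUnion.2 ⟨K, hK, mem_union_left _ hiK⟩
    · exact mem_biUnion.2 ⟨f i, (hf i hi).1, mem_union_right _ (mem_filter.2 ⟨hi, rfl⟩)⟩
  refine (tau_mono hne h1).trans ((tau_biUnion hne G _).trans ?_)
  rw [mul_comm, ← smul_eq_mul]
  apply sum_le_card_nsmul
  intro K hK
  have hF := hG K hK
  have hcne : (cols e K).Nonempty := by
    rw [← card_pos, hF.2.1]
    norm_num
  have key : ∀ z ∈ Z.filter (fun z => f z = K), ∃ x ∈ cols e K, x ∈ e z := by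
    intro z hz
    obtain ⟨hz1, hz2⟩ := mem_filter.1 hz
    obtain ⟨x, hx, hxK⟩ := (hf z hz1).2
    rw [hz2] at hxK
    exact ⟨x, hxK, hx⟩
  have h3 := h2 K hK
  obtain ⟨w, hw⟩ := hcne
  -- elements
  rcases Nat.lt_or_ge (Z.filter (fun z => f z = K)).card 1 with h5 | h5
  · have h6 : Z.filter (fun z => f z = K) = ∅ := card_eq_zero.1 (by omega)
    exact fc_absorb h4 hF hw hw (fun t ht => by
      rw [h6] at ht
      exact absurd ht (notMem_empty t))
  rcases Nat.lt_or_ge (Z.filter (fun z => f z = K)).card 2 with h6 | h6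
  · obtain ⟨a, ha⟩ := card_eq_one.1 (show (Z.filter (fun z => f z = K)).card = 1 by omega)
    obtain ⟨x, hx, hxa⟩ := key a (by rw [ha]; exact mem_singleton_self a)
    exact fc_absorb h4 hF hx hx (fun t ht => by
      rw [ha, mem_singleton] at ht
      rw [ht]
      exact Or.inl hxa)
  · obtain ⟨a, b, hab, hset⟩ := card_eq_two.1 (show (Z.filter (fun z => f z = K)).card = 2 by omega)
    obtain ⟨x, hx, hxa⟩ := key a (by rw [hset]; simp)
    obtain ⟨y, hy, hyb⟩ := key b (by rw [hset]; simp)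
    exact fc_absorb h4 hF hx hy (fun t ht => by
      rw [hset, mem_insert, mem_singleton] at ht
      rcases ht with rfl | rfl
      · exact Or.inl hxa
      · exact Or.inr hyb)

end Pool.Agent.TD7
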