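import Pool.Agent.TD6.LowA

set_option autoImplicit false
set_option linter.unusedSectionVars false

namespace Pool.Agent.TD7

open Finset Pool.Agent.TD5 Pool.Agent.TD6

variable {ι V : Type*} [DecidableEq ι] [DecidableEq V] {e : ι → Finset V} {W : Finset ι}

/-! Definitions for the case of maximum degree three.  All sets of edges are `Finset ι`;
`rho e W v` is the set of edges of `W` at the vertex `v`, `cols e X` the set of vertices of `X`,
`tau e X` the transversal number, `psi e X = ws e X + 6 * (cols e X).card` the weight. -/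

/-- A side: a minimal closed part of `R` that is not perfectly coverable. -/
structure LSide (e : ι → Finset V) (R P : Finset ι) : Prop where
  sub : P ⊆ R
  closed : TD5.Sep e P (R \ P)
  conn : Conn e P
  tau_eq : 2 * tau e P = P.card + 1
  le_val : 13 * P.card + 12 ≤ psi e P

/-- The decomposition of `W` without the three edges at `v`. -/
structure LDec (e : ι → Finset V) (W : Finset ι) (v : V) (P P' : Finset ι) : Prop where
  triple : (rho e W v).card = 3
  s1 : LSide e (W \ rho e W v) P
  s2 : LSide e (W \ rho e W v) P'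
  disj : Disjoint P P'
  bound : psi e P + psi e P' + psi e ((W \ rho e W v) \ (P ∪ P')) + ws e (rho e W v) +
    6 * ((cols e W) \ insert v (cols e (W \ rho e W v))).card ≤
    13 * P.card + 13 * P'.card + 13 * ((W \ rho e W v) \ (P ∪ P')).card + 45

theorem LDec.symm {v : V} {P P' : Finset ι} (h : LDec e W v P P') : LDec e W v P' P := by
  refine ⟨h.triple, h.s2, h.s1, h.disj.symm, ?_⟩
  have := h.bound
  rw [union_comm P' P]
  omega

theorem LSide.nonempty {R P : Finset ι} (h : LSide e R P) : P.Nonempty := by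
  rw [nonempty_iff_ne_empty]
  rintro rfl
  have := h.tau_eq
  rw [tau_empty, card_empty] at this
  omega

theorem LDec.sep {v : V} {P P' : Finset ι} (h : LDec e W v P P') : TD5.Sep e P P' :=
  h.s1.closed.mono (Subset.refl _) (fun _ hi => mem_sdiff.2 ⟨h.s2.sub hi,
    fun h' => disjoint_left.1 h.disj h' hi⟩)

theorem LDec.side_sub {v : V} {P P' : Finset ι} (hd : LDec e W v P P') : P ⊆ W :=
  hd.s1.sub.trans sdiff_subset

theorem LDec.side_ne {v : V} {P P' : Finset ι} (hd : LDec e W v P P') {X : Finset ι}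
    (hX : X ⊆ W \ rho e W v) : X ≠ W := by
  rintro rfl
  have h1 := card_le_card hX
  have h2 := card_sdiff_add_card_eq_card (rho_sub (e := e) X v)
  have h3 := hd.triple
  omega

theorem LDec.ws_ge {v : V} {P P' : Finset ι} (hd : LDec e W v P P') :
    15 ≤ ws e (rho e W v) := by
  have h1 := TD6.ws_ge e (rho e W v)
  have h2 := hd.triple
  omega

theorem LDec.rest_ge (h : Low e W) {v : V} {P P' : Finset ι} :
    13 * ((W \ rho e W v) \ (P ∪ P')).card ≤ psi e ((W \ rho e W v) \ (P ∪ P')) :=
  h.ge (sdiff_subset.trans sdiff_subset)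

/-- The weight of a side. -/
theorem LDec.val_le (h : Low e W) {v : V} {P P' : Finset ι} (hd : LDec e W v P P') :
    psi e P ≤ 13 * P.card + 18 := by
  have h1 := hd.bound
  have h2 := hd.ws_ge
  have h3 := LDec.rest_ge (e := e) h (v := v) (P := P) (P' := P')
  have h4 := hd.s2.le_val
  omega

/-- The defect of a side: vertices of degree at most two and edges of size three. -/
def Dval (e : ι → Finset V) (W P : Finset ι) : ℕ :=
  ((cols e P).filter (fun x => (rho e W x).card ≤ 2)).card +
    (P.filter (fun i => (e i).card = 3)).card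

theorem Dval_mono {P Q : Finset ι} (h : Q ⊆ P) : Dval e W Q ≤ Dval e W P :=
  Nat.add_le_add (card_le_card (filter_subset_filter _ (cols_mono h)))
    (card_le_card (filter_subset_filter _ h))

/-- The second possible structure: an edge `a` and three separated parts. -/
structure Tri (e : ι → Finset V) (W : Finset ι) (v : V) (a : ι) (P1 P2 P3 Y : Finset ι) :
    Prop where
  triple : (rho e W v).card = 3
  haW : a ∈ W
  haT : a ∉ rho e W v
  sub1 : P1 ⊆ W
  sub2 : P2 ⊆ W
  sub3 : P3 ⊆ W
  subY : Y ⊆ W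
  dis1 : Disjoint P1 (insert a (rho e W v))
  dis2 : Disjoint P2 (insert a (rho e W v))
  dis3 : Disjoint P3 (insert a (rho e W v))
  disY : Disjoint Y (insert a (rho e W v))
  cover : W ⊆ P1 ∪ P2 ∪ P3 ∪ Y ∪ insert a (rho e W v)
  tau1 : 2 * tau e P1 = P1.card + 1
  tau2 : 2 * tau e P2 = P2.card + 1
  tau3 : 2 * tau e P3 = P3.card + 1
  val1 : 13 * P1.card + 12 ≤ psi e P1
  val2 : 13 * P2.card + 12 ≤ psi e P2
  val3 : 13 * P3.card + 12 ≤ psi e P3
  s12 : TD5.Sep e P1 P2
  s13 : TD5.Sep e P1 P3
  s23 : TD5.Sep e P2 P3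
  s1Y : TD5.Sep e P1 Y
  s2Y : TD5.Sep e P2 Y
  s3Y : TD5.Sep e P3 Y
  total : psi e P1 + psi e P2 + psi e P3 + psi e Y ≤
    13 * P1.card + 13 * P2.card + 13 * P3.card + 13 * Y.card + 38
  four : ∀ t ∈ insert a (rho e W v), (e t).card = 4
  cols_sub : cols e W ⊆ insert v (cols e P1 ∪ cols e P2 ∪ cols e P3 ∪ cols e Y)

theorem Tri.swap {v : V} {a : ι} {P1 P2 P3 Y : Finset ι} (h : Tri e W v a P1 P2 P3 Y) :
    Tri e W v a P2 P1 P3 Y where
  triple := h.triple
  haW := h.haW
  haT := h.haT
  sub1 := h.sub2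
  sub2 := h.sub1
  sub3 := h.sub3
  subY := h.subY
  dis1 := h.dis2
  dis2 := h.dis1
  dis3 := h.dis3
  disY := h.disY
  cover := by rw [union_comm P2 P1]; exact h.cover
  tau1 := h.tau2
  tau2 := h.tau1
  tau3 := h.tau3
  val1 := h.val2
  val2 := h.val1
  val3 := h.val3
  s12 := h.s12.symm
  s13 := h.s23
  s23 := h.s13
  s1Y := h.s2Y
  s2Y := h.s1Y
  s3Y := h.s3Y
  total := by have := h.total; omega
  four := h.four
  cols_sub := by rw [union_comm (cols e P2) (cols e P1)]; exact h.cols_sub

theorem Tri.rot {v : V} {a : ι} {P1 P2 P3 Y : Finset ι} (h : Tri e W v a P1 P2 P3 Y) :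
    Tri e W v a P2 P3 P1 Y where
  triple := h.triple
  haW := h.haW
  haT := h.haT
  sub1 := h.sub2
  sub2 := h.sub3
  sub3 := h.sub1
  subY := h.subY
  dis1 := h.dis2
  dis2 := h.dis3
  dis3 := h.dis1
  disY := h.disY
  cover := by rw [union_comm (P2 ∪ P3) P1, ← union_assoc]; exact h.cover
  tau1 := h.tau2
  tau2 := h.tau3
  tau3 := h.tau1
  val1 := h.val2
  val2 := h.val3
  val3 := h.val1
  s12 := h.s23
  s13 := h.s12.symm
  s23 := h.s13.symm
  s1Y := h.s2Y
  s2Y := h.s3Y
  s3Y := h.s1Y
  total := by have := h.total; omega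
  four := h.four
  cols_sub := by
    rw [union_comm (cols e P2 ∪ cols e P3) (cols e P1), ← union_assoc]
    exact h.cols_sub

/-- The edges of `S` that meet `P`. -/
def adjS (e : ι → Finset V) (S P : Finset ι) : Finset ι :=
  S.filter (fun t => ¬ Disjoint (cols e P) (e t))

theorem mem_adjS {S P : Finset ι} {t : ι} : t ∈ adjS e S P ↔ t ∈ S ∧ ∃ x ∈ e t, x ∈ cols e P := by
  rw [adjS, mem_filter, not_disjoint_iff]
  constructor
  · rintro ⟨h1, x, h2, h3⟩
    exact ⟨h1, x, h3, h2⟩
  · rintro ⟨h1, x, h2, h3⟩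
    exact ⟨h1, x, h3, h2⟩

theorem not_sep_single {P : Finset ι} {t : ι} {x : V} (h : x ∈ e t) (h' : x ∈ cols e P) :
    ¬ TD5.Sep e P {t} := by
  intro hs
  unfold TD5.Sep at hs
  rw [cols_singleton] at hs
  exact disjoint_left.1 hs h' h

/-! ### Double triangles -/

/-- Six points with a fixed point free involution `par` (the vertices of a double triangle;
`x` and `par x` lie in the same two edges). -/
structure Par6 (K : Finset V) (par : V → V) : Prop where
  card : K.card = 6
  mem : ∀ x ∈ K, par x ∈ K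
  ne : ∀ x ∈ K, par x ≠ x
  inv : ∀ x ∈ K, par (par x) = x

/-- Two points of `K` in different classes that meet all `Cc t`, `t` in `S`. -/
def CovS (K : Finset V) (par : V → V) (Cc : ι → Finset V) (S : Finset ι) : Prop :=
  ∃ x ∈ K, ∃ y ∈ K, y ≠ x ∧ y ≠ par x ∧ ∀ t ∈ S, x ∈ Cc t ∨ y ∈ Cc t

theorem CovS.mono {K : Finset V} {par : V → V} {Cc : ι → Finset V} {S S' : Finset ι}
    (h : CovS K par Cc S) (hS : S' ⊆ S) : CovS K par Cc S' := by
  obtain ⟨x, hx, y, hy, h1, h2, h3⟩ := h
  exact ⟨x, hx, y, hy, h1, h2, fun t ht => h3 t (hS ht)⟩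

/-- The double triangle: three edges of size four on six vertices, every vertex in exactly two
of them; two vertices in different classes meet all three edges. -/
structure F6 (e : ι → Finset V) (C : Finset ι) (par : V → V) : Prop extends
    Par6 (cols e C) par where
  c3 : C.card = 3
  four : ∀ i ∈ C, (e i).card = 4
  tau2 : tau e C = 2
  psi51 : psi e C = 51
  deg : ∀ x ∈ cols e C, (rho e C x).card = 2
  cov : ∀ x ∈ cols e C, ∀ y ∈ cols e C, y ≠ x → y ≠ par x → ∀ i ∈ C, x ∈ e i ∨ y ∈ e i

end Pool.Agent.TD7
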