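import Pool.Agent.TD7.DefA

set_option autoImplicit false
set_option linter.unusedSectionVars false

namespace Pool.Agent.TD7

open Finset Pool.Agent.TD5 Pool.Agent.TD6

variable {ι V : Type*} [DecidableEq ι] [DecidableEq V] {e : ι → Finset V} {W : Finset ι}

/-! Definitions for the case of a vertex of degree at least four. -/

/-- One for an exceptional (special) set, otherwise zero. -/
noncomputable def sp (e : ι → Finset V) (K : Finset ι) : ℕ := by
  classical
  exact if Special e K then 1 else 0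

theorem sp_of {K : Finset ι} (h : Special e K) : sp e K = 1 := by simp [sp, h]

theorem sp_of_not {K : Finset ι} (h : ¬ Special e K) : sp e K = 0 := by simp [sp, h]

theorem sp_le (K : Finset ι) : sp e K ≤ 1 := by
  by_cases h : Special e K
  · rw [sp_of h]
  · rw [sp_of_not h]
    exact Nat.zero_le _

theorem ks_eq_sum (R : Finset ι) : ks e R = ∑ K ∈ comps e R, sp e K := by
  classical
  unfold ks sp
  rw [card_filter]

theorem comps_self {K : Finset ι} (h : IsComp e K K) : comps e K = {K} := by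
  ext M
  rw [mem_comps, mem_singleton]
  constructor
  · intro hM
    obtain ⟨i, hi⟩ := hM.ne
    exact hM.eq_of_mem h hi (hM.sub hi)
  · rintro rfl
    exact h

theorem isComp_self {R K : Finset ι} (h : IsComp e R K) : IsComp e K K :=
  ⟨Subset.refl _, h.ne, by rw [sdiff_self]; exact sep_empty K, h.conn⟩

theorem ks_self {R K : Finset ι} (h : IsComp e R K) : ks e K = sp e K := by
  rw [ks_eq_sum, comps_self (isComp_self h), sum_singleton]

/-- The bound for a component of a proper subset. -/
theorem mx_comp_le (h : Mx e W) {R K : Finset ι} (hR : R ⊆ W) (hRW : R ≠ W)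
    (hK : IsComp e R K) : 26 * tau e K ≤ psi e K + sp e K := by
  rw [← ks_self hK]
  apply h.sub (hK.sub.trans hR)
  rintro rfl
  exact hRW (Subset.antisymm hR hK.sub)

theorem comps_sep {R : Finset ι} : ∀ P ∈ comps e R, ∀ P' ∈ comps e R, P ≠ P' →
    TD5.Sep e P P' := fun _ hP _ hP' hne => (mem_comps.1 hP).sep (mem_comps.1 hP') hne

theorem psi_comps (hs : Sz e) (R : Finset ι) : psi e R = ∑ K ∈ comps e R, psi e K := by
  have h := (pack_psi hs (comps e R) comps_sep).1
  rwa [biUnion_comps] at h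

theorem tau_comps (hne : ∀ i, (e i).Nonempty) (R : Finset ι) :
    tau e R ≤ ∑ K ∈ comps e R, tau e K := by
  have h := pack_tau hne (comps e R)
  rwa [biUnion_comps] at h

/-- A component that absorbs any adjacent edge. -/
def FreeC (e : ι → Finset V) (K : Finset ι) : Prop :=
  ∀ x ∈ cols e K, tau e (K \ rho e K x) + 1 ≤ tau e K

theorem FreeC.adj (hne : ∀ i, (e i).Nonempty) {K S : Finset ι} (h : FreeC e K) {x : V}
    (hx : x ∈ cols e K) (hS : ∀ t ∈ S, x ∈ e t) : tau e (K ∪ S) ≤ tau e K := by
  have h1 : K ∪ S ⊆ (K \ rho e K x) ∪ (rho e K x ∪ S) := by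
    intro i hi
    simp only [mem_union, mem_sdiff] at hi ⊢
    tauto
  have h2 := tau_le_of_subset hne h1
  have h3 : tau e (rho e K x ∪ S) ≤ 1 := by
    apply tau_le_one x
    intro i hi
    rcases mem_union.1 hi with h | h
    · exact (mem_rho.1 h).2
    · exact hS i h
  have := h x hx
  omega

/-- What is known about a minimal counterexample at a vertex `v` of degree at least four. -/
structure Hi (e : ι → Finset V) (W : Finset ι) (v : V) : Prop where
  mx : Mx e W
  deg : (rho e W v).card = 4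
  maxdeg : ∀ x, (rho e W x).card ≤ 4
  four : ∀ t ∈ rho e W v, (e t).card = 4
  cols_eq : cols e W = insert v (cols e (W \ rho e W v))
  psi_eq : psi e W = psi e (W \ rho e W v) + 26
  free : ∀ K, IsComp e (W \ rho e W v) K → FreeC e K
  three : (comps e (W \ rho e W v)).card ≤ 3
  exf : ∃ K, IsComp e (W \ rho e W v) K ∧ Special e K
  two : ∀ K, IsComp e (W \ rho e W v) K → 2 ≤ (adjS e (rho e W v) K).card

/-- The vertices of `e t` other than `v` and outside the double triangle `C`. -/
def Ot (e : ι → Finset V) (C : Finset ι) (v : V) (t : ι) : Finset V :=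
  (e t).erase v \ cols e C

/-- The vertices of `e t` in the double triangle `C`. -/
def Ct (e : ι → Finset V) (C : Finset ι) (t : ι) : Finset V := e t ∩ cols e C

/-- The weight of a new edge. -/
def gw (A : Finset V) : ℕ := if A.card = 4 then 5 else 9

/-- New edges `g j`, `j ∈ J`, replacing the double triangle and the edges at `v`: every set `D`
without `v` that meets them leaves a coverable set of old edges unmet. -/
structure Gad (T : Finset ι) (K : Finset V) (par : V → V) (v : V) (Cc O : ι → Finset V)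
    (J : Finset ι) (g : ι → Finset V) : Prop where
  sub : J ⊆ T
  size : ∀ j ∈ J, (g j).card = 3 ∨ (g j).card = 4
  mem : ∀ j ∈ J, v ∈ g j
  inside : ∀ j ∈ J, g j ⊆ insert v (T.biUnion O)
  cov : ∀ D : Finset V, v ∉ D → (∀ j ∈ J, ∃ x ∈ D, x ∈ g j) →
    CovS K par Cc (T.filter (fun t => ∀ x ∈ D, x ∉ O t))

/-- The three kinds of good families of new edges. -/
def GoodG (T : Finset ι) (K : Finset V) (par : V → V) (v : V) (Cc O : ι → Finset V) : Prop :=
  ∃ J g, Gad T K par v Cc O J g ∧ ((∑ j ∈ J, gw (g j) ≤ 16) ∨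
    (∑ j ∈ J, gw (g j) ≤ 18 ∧ ∃ j ∈ J, (g j).card = 3) ∨
    (∑ j ∈ J, gw (g j) ≤ 19 ∧ (∃ j ∈ J, (g j).card = 3) ∧ ∀ t ∈ T, O t ⊆ J.biUnion g))

/-- The situation around the double triangle, seen from the four edges of `T`. -/
structure Loc (T : Finset ι) (K : Finset V) (par : V → V) (v : V) (Cc O : ι → Finset V) :
    Prop where
  par6 : Par6 K par
  sub : ∀ t ∈ T, Cc t ⊆ K
  sum : ∀ t ∈ T, (Cc t).card + (O t).card = 3
  notv : ∀ t ∈ T, v ∉ O t
  deg : ∀ x ∈ K, (T.filter (fun t => x ∈ Cc t)).card ≤ 2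
  c3 : ∀ t ∈ T, ∀ u ∈ O t, ¬ CovS K par Cc (T.filter (fun s => u ∉ O s))
  two : 2 ≤ (T.filter (fun t => (O t).Nonempty)).card

/-- The exceptional situation. -/
def BadG (T : Finset ι) (Cc O : ι → Finset V) : Prop :=
  ∃ p q r s u, p ≠ q ∧ p ≠ r ∧ p ≠ s ∧ q ≠ r ∧ q ≠ s ∧ r ≠ s ∧ T = {p, q, r, s} ∧
    O p = {u} ∧ O q = {u} ∧ O r = {u} ∧ Cc s = ∅

end Pool.Agent.TD7
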