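import Pool.Agent.TD7.DefD
import Pool.Agent.TD4.Iso2

set_option autoImplicit false
set_option linter.unusedSectionVars false

namespace Pool.Agent.TD7

open Finset Pool.Agent.TD5 Pool.Agent.TD6

/-! Definitions for the graph part. -/

variable {V : Type*} [Fintype V] [DecidableEq V]

/-- A copy of the bipartite complement of the Heawood graph in `G` with colour classes `P`, `Q`
(there may be other edges of `G`). -/
structure Copy (G : SimpleGraph V) [DecidableRel G.Adj] (P Q : Finset V) : Prop where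
  dis : Disjoint P Q
  cP : P.card = 7
  cQ : Q.card = 7
  dP : ∀ b ∈ P, (Q.filter (fun y => G.Adj b y)).card = 4
  dQ : ∀ y ∈ Q, (P.filter (fun b => G.Adj y b)).card = 4
  pP : ∀ b ∈ P, ∀ c ∈ P, b ≠ c → (Q.filter (fun y => ¬ G.Adj b y ∧ ¬ G.Adj c y)).card = 1
  pQ : ∀ y ∈ Q, ∀ z ∈ Q, y ≠ z → (P.filter (fun b => ¬ G.Adj y b ∧ ¬ G.Adj z b)).card = 1

theorem Copy.symm {G : SimpleGraph V} [DecidableRel G.Adj] {P Q : Finset V}
    (h : Copy G P Q) : Copy G Q P := ⟨h.dis.symm, h.cQ, h.cP, h.dQ, h.dP, h.pQ, h.pP⟩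

/-- A choice of four neighbours for every vertex, inside `V0` for the vertices of `V0`. -/
structure Trim (G : SimpleGraph V) (V0 : Finset V) (e : V → Finset V) : Prop where
  card : ∀ x, (e x).card = 4
  adj : ∀ x, ∀ y ∈ e x, G.Adj x y
  sub : ∀ x ∈ V0, e x ⊆ V0

/-- An edge `u r` of `G` that is not between the two classes of the copy, `u` in the copy. -/
def IsAtt (G : SimpleGraph V) (p : Finset V × Finset V) (u r : V) : Prop :=
  G.Adj u r ∧ ((u ∈ p.2 ∧ r ∉ p.1) ∨ (u ∈ p.1 ∧ r ∉ p.2))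

/-- The vertices of a copy. -/
def U (p : Finset V × Finset V) : Finset V := p.1 ∪ p.2

end Pool.Agent.TD7
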