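import Pool.Agent.TD7.DefE

set_option autoImplicit false
set_option linter.unusedSectionVars false

namespace Pool.Agent.TD7

open Finset Pool.Agent.TD5 Pool.Agent.TD6

variable {V : Type*} [Fintype V] [DecidableEq V] {G : SimpleGraph V} [DecidableRel G.Adj]

/-- ROW E1.  Any `M ⊆ Q` extends to a subset of `Q` dominating `P`.

PROOF.  `M` empty: take any two different `y, z ∈ Q`, reduce to `M = {y, z}` below (the set
has at most three elements).  `M = {y}`: choose `z ∈ Q`, `z ≠ y`.  In general let `y ≠ z` be two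
elements of the (enlarged) set `M'`: by `pQ` exactly one `b ∈ P` is adjacent to neither; by `dP` it has
some neighbour `w ∈ Q`; `D = insert w M'`.  `D.card ≤ M'.card + 1`, and
`M'.card = max 2 M.card`. -/
theorem side_hit {P Q : Finset V} (hc : Copy G P Q) {M : Finset V} (hM : M ⊆ Q) :
    ∃ D ⊆ Q, M ⊆ D ∧ (∀ b ∈ P, ∃ y ∈ D, G.Adj b y) ∧ D.card ≤ max 3 (M.card + 1) := by
  classical
  have hM7 : M.card ≤ 7 := by
    have := card_le_card hM
    rw [hc.cQ] at this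
    exact this
  obtain ⟨M', h1, h2, h3⟩ := exists_subsuperset_card_eq hM (n := max 2 M.card)
    (le_max_right _ _) (by rw [hc.cQ]; exact max_le (by norm_num) hM7)
  have h4 : 1 < M'.card := by
    rw [h3]
    exact lt_of_lt_of_le (by norm_num) (le_max_left _ _)
  obtain ⟨y, hy, z, hz, hyz⟩ := one_lt_card.1 h4
  obtain ⟨b0, hb0⟩ := card_eq_one.1 (hc.pQ y (h2 hy) z (h2 hz) hyz)
  have hb0P : b0 ∈ P := by
    have h5 : b0 ∈ P.filter (fun b => ¬ G.Adj y b ∧ ¬ G.Adj z b) := by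
      rw [hb0]
      exact mem_singleton_self b0
    exact (mem_filter.1 h5).1
  have h6 : (Q.filter (fun y => G.Adj b0 y)).Nonempty := by
    rw [← card_pos, hc.dP b0 hb0P]
    norm_num
  obtain ⟨w, hw⟩ := h6
  obtain ⟨hwQ, hwb⟩ := mem_filter.1 hw
  refine ⟨insert w M', insert_subset hwQ h2, h1.trans (subset_insert _ _), ?_, ?_⟩
  · intro b hb
    by_cases hyb : G.Adj y b
    · exact ⟨y, mem_insert_of_mem hy, hyb.symm⟩
    by_cases hzb : G.Adj z b
    · exact ⟨z, mem_insert_of_mem hz, hzb.symm⟩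
    have h7 : b ∈ P.filter (fun b => ¬ G.Adj y b ∧ ¬ G.Adj z b) :=
      mem_filter.2 ⟨hb, hyb, hzb⟩
    rw [hb0, mem_singleton] at h7
    rw [h7]
    exact ⟨w, mem_insert_self _ _, hwb⟩
  · have h8 := card_insert_le w M'
    rw [h3] at h8
    omega

/-- PROOF.  `u ∈ P` has exactly three non-neighbours in `Q` (`dP`, `cQ`); let `y ≠ z` be two of them.
By `pQ` the only `b ∈ P` adjacent to neither is `u`.  `D = {y, z}`. -/
theorem side_two {P Q : Finset V} (hc : Copy G P Q) {u : V} (hu : u ∈ P) :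
    ∃ D ⊆ Q, D.card = 2 ∧ ∀ b ∈ P, b ≠ u → ∃ y ∈ D, G.Adj b y := by
  classical
  have h1 := card_filter_add_card_filter_not (s := Q) (fun y => G.Adj u y)
  rw [hc.dP u hu, hc.cQ] at h1
  have h2 : 1 < (Q.filter (fun y => ¬ G.Adj u y)).card := by omega
  obtain ⟨y, hy, z, hz, hyz⟩ := one_lt_card.1 h2
  obtain ⟨hyQ, hyu⟩ := mem_filter.1 hy
  obtain ⟨hzQ, hzu⟩ := mem_filter.1 hz
  obtain ⟨b0, hb0⟩ := card_eq_one.1 (hc.pQ y hyQ z hzQ hyz)
  have hub : u = b0 := by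
    have h3 : u ∈ P.filter (fun b => ¬ G.Adj y b ∧ ¬ G.Adj z b) :=
      mem_filter.2 ⟨hu, fun h => hyu h.symm, fun h => hzu h.symm⟩
    rwa [hb0, mem_singleton] at h3
  refine ⟨{y, z}, ?_, card_pair hyz, ?_⟩
  · intro x hx
    rcases mem_insert.1 hx with rfl | hx
    · exact hyQ
    · rw [mem_singleton.1 hx]
      exact hzQ
  · intro b hb hbu
    by_cases hyb : G.Adj y b
    · exact ⟨y, mem_insert_self _ _, hyb.symm⟩
    by_cases hzb : G.Adj z b
    · exact ⟨z, mem_insert_of_mem (mem_singleton_self _), hzb.symm⟩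
    have h7 : b ∈ P.filter (fun b => ¬ G.Adj y b ∧ ¬ G.Adj z b) :=
      mem_filter.2 ⟨hb, hyb, hzb⟩
    rw [hb0, mem_singleton] at h7
    exact absurd (h7.trans hub.symm) hbu

/-- PROOF.  `side_hit` for `(P, Q)` with `M = R ∩ Q` and for `(Q, P)` with `M = R ∩ P`
(`hc.symm`); `D` the union.  With `m = (R ∩ Q).card ≤ 7`: `78 * max 3 (m + 1) ≤ 234 + 56 * m`
(check `m = 0, .., 7`; `interval_cases` or `omega` after `le_max`/`max_def`). -/
theorem cost_off {P Q : Finset V} (hc : Copy G P Q) (R : Finset V) :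
    ∃ D ⊆ P ∪ Q, R ∩ (P ∪ Q) ⊆ D ∧ (∀ x ∈ P ∪ Q, ∃ y ∈ D, G.Adj x y) ∧
      78 * D.card ≤ 468 + 56 * (R ∩ (P ∪ Q)).card := by
  classical
  obtain ⟨D1, h1, h2, h3, h4⟩ := side_hit hc (M := R ∩ Q) inter_subset_right
  obtain ⟨D2, g1, g2, g3, g4⟩ := side_hit hc.symm (M := R ∩ P) inter_subset_right
  have hQ7 : (R ∩ Q).card ≤ 7 := by
    have := card_le_card (inter_subset_right (s₁ := R) (s₂ := Q))
    rwa [hc.cQ] at this
  have hP7 : (R ∩ P).card ≤ 7 := by
    have := card_le_card (inter_subset_right (s₁ := R) (s₂ := P))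
    rwa [hc.cP] at this
  have hsum : (R ∩ (P ∪ Q)).card = (R ∩ P).card + (R ∩ Q).card := by
    rw [inter_union_distrib_left, card_union_of_disjoint]
    exact disjoint_of_subset_left inter_subset_right
      (disjoint_of_subset_right inter_subset_right hc.dis)
  refine ⟨D2 ∪ D1, union_subset_union g1 h1, ?_, ?_, ?_⟩
  · rw [inter_union_distrib_left]
    exact union_subset_union g2 h2
  · intro x hx
    rcases mem_union.1 hx with hx | hx
    · obtain ⟨y, hy, hxy⟩ := h3 x hx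
      exact ⟨y, mem_union_right _ hy, hxy⟩
    · obtain ⟨y, hy, hxy⟩ := g3 x hx
      exact ⟨y, mem_union_left _ hy, hxy⟩
  · have h5 := card_union_le D2 D1
    rw [hsum]
    omega

theorem e1_on {P Q : Finset V} (hc : Copy G P Q) {R : Finset V} {u r : V}
    (hu : u ∈ Q) (hr : r ∉ P) (hR : R ∩ (P ∪ Q) ⊆ {r}) :
    ∃ D ⊆ P ∪ Q, R ∩ (P ∪ Q) ⊆ D ∧ (∀ x ∈ P ∪ Q, x = u ∨ ∃ y ∈ D, G.Adj x y) ∧
      D.card ≤ 5 := by
  classical
  obtain ⟨D1, h1, h2, h3⟩ := side_two hc.symm hu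
  obtain ⟨D2, g1, g2, g3, g4⟩ := side_hit hc (M := R ∩ Q) inter_subset_right
  have h4 : (R ∩ Q).card ≤ 1 := by
    have h5 : R ∩ Q ⊆ {r} := (inter_subset_inter_left subset_union_right).trans hR
    have := card_le_card h5
    rwa [card_singleton] at this
  refine ⟨D1 ∪ D2, union_subset_union h1 g1, ?_, ?_, ?_⟩
  · intro x hx
    have h6 := mem_singleton.1 (hR hx)
    obtain ⟨h7, h8⟩ := mem_inter.1 hx
    rcases mem_union.1 h8 with h9 | h9
    · rw [h6] at h9
      exact absurd h9 hr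
    · exact mem_union_right _ (g2 (mem_inter.2 ⟨h7, h9⟩))
  · intro x hx
    rcases mem_union.1 hx with hx | hx
    · obtain ⟨y, hy, hxy⟩ := g3 x hx
      exact Or.inr ⟨y, mem_union_right _ hy, hxy⟩
    · by_cases hxu : x = u
      · exact Or.inl hxu
      · obtain ⟨y, hy, hxy⟩ := h3 x hx hxu
        exact Or.inr ⟨y, mem_union_left _ hy, hxy⟩
  · have h5 := card_union_le D1 D2
    omega

/-- PROOF.  Case `u ∈ Q`, `r ∉ P`: `side_two hc.symm` gives two vertices of `P` dominating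
`Q` except `u`; `side_hit hc` with `M = R ∩ Q` (at most one element, as it is contained in
`{r}`) gives at most three vertices of `Q` dominating `P` and containing `R ∩ Q`.  `R ∩ P = ∅`
since `R ∩ (P ∪ Q) ⊆ {r}` and `r ∉ P`.  The case `u ∈ P`, `r ∉ Q` is symmetric. -/
theorem cost_on {P Q : Finset V} (hc : Copy G P Q) {R : Finset V} {u r : V}
    (ha : IsAtt G (P, Q) u r) (hR : R ∩ (P ∪ Q) ⊆ {r}) :
    ∃ D ⊆ P ∪ Q, R ∩ (P ∪ Q) ⊆ D ∧ (∀ x ∈ P ∪ Q, x = u ∨ ∃ y ∈ D, G.Adj x y) ∧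
      D.card ≤ 5 := by
  rcases ha with ⟨-, ⟨hu, hr⟩ | ⟨hu, hr⟩⟩
  · exact e1_on hc hu hr hR
  · obtain ⟨D, h1, h2, h3, h4⟩ := e1_on hc.symm (R := R) hu hr (by rwa [union_comm])
    rw [union_comm Q P] at h1 h2 h3
    exact ⟨D, h1, h2, h3, h4⟩

end Pool.Agent.TD7
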