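import Pool.Agent.TD7.DefE

set_option autoImplicit false
set_option linter.unusedSectionVars false

namespace Pool.Agent.TD7

open Finset Pool.Agent.TD5 Pool.Agent.TD6

variable {V : Type*} [Fintype V] [DecidableEq V] {G : SimpleGraph V} [DecidableRel G.Adj]

theorem e2_line {P Q : Finset V} (hc : Copy G P Q)
    (hP : ∀ b ∈ P, ∀ x, G.Adj b x → x ∈ Q) {b x y z : V} (hb : b ∈ P) (hx : x ∈ Q) (hy : y ∈ Q)
    (hz : z ∈ Q) (hxy : x ≠ y) (hxz : x ≠ z) (hyz : y ≠ z) (bx : ¬ G.Adj b x) (b_y : ¬ G.Adj b y)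
    (bz : ¬ G.Adj b z) (p : V) : G.Adj b p ↔ p ∈ Q ∧ p ≠ x ∧ p ≠ y ∧ p ≠ z := by
  have h1 := card_filter_add_card_filter_not (s := Q) (fun y => G.Adj b y)
  rw [hc.dP b hb, hc.cQ] at h1
  have h2 : ({x, y, z} : Finset V) ⊆ Q.filter (fun y => ¬ G.Adj b y) := by
    intro w hw
    simp only [mem_insert, mem_singleton] at hw
    rcases hw with rfl | rfl | rfl
    · exact mem_filter.2 ⟨hx, bx⟩
    · exact mem_filter.2 ⟨hy, b_y⟩
    · exact mem_filter.2 ⟨hz, bz⟩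
  have h3 : ({x, y, z} : Finset V).card = 3 := card_eq_three.2 ⟨x, y, z, hxy, hxz, hyz, rfl⟩
  have h4 := eq_of_subset_of_card_le h2 (by rw [h3]; omega)
  constructor
  · intro h
    refine ⟨hP b hb p h, ?_, ?_, ?_⟩
    · rintro rfl
      exact bx h
    · rintro rfl
      exact b_y h
    · rintro rfl
      exact bz h
  · rintro ⟨h5, h6, h7, h8⟩
    by_contra hcon
    have h9 : p ∈ Q.filter (fun y => ¬ G.Adj b y) := mem_filter.2 ⟨h5, hcon⟩
    rw [← h4] at h9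
    simp only [mem_insert, mem_singleton] at h9
    tauto

theorem e2_inter {P Q : Finset V} (hc : Copy G P Q) {b c y z : V} (hb : b ∈ P) (hc' : c ∈ P)
    (hne : b ≠ c) (hy : y ∈ Q) (hz : z ∈ Q) (b_y : ¬ G.Adj b y) (cy : ¬ G.Adj c y)
    (bz : ¬ G.Adj b z) (cz : ¬ G.Adj c z) : y = z := by
  have h1 := hc.pP b hb c hc' hne
  exact card_le_one.1 h1.le y (mem_filter.2 ⟨hy, b_y, cy⟩) z (mem_filter.2 ⟨hz, bz, cz⟩)

theorem e2_meet {P Q : Finset V} (hc : Copy G P Q) {b c : V} (hb : b ∈ P) (hc' : c ∈ P)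
    (hne : b ≠ c) : ∃ y ∈ Q, ¬ G.Adj b y ∧ ¬ G.Adj c y := by
  obtain ⟨y, hy⟩ := card_eq_one.1 (hc.pP b hb c hc' hne)
  have h1 : y ∈ Q.filter (fun y => ¬ G.Adj b y ∧ ¬ G.Adj c y) := by
    rw [hy]
    exact mem_singleton_self y
  exact ⟨y, (mem_filter.1 h1).1, (mem_filter.1 h1).2⟩

theorem e2_third {P Q : Finset V} (hc : Copy G P Q) {b : V} (hb : b ∈ P) (x y : V) :
    ∃ z ∈ Q, ¬ G.Adj b z ∧ z ≠ x ∧ z ≠ y := by
  have h1 := card_filter_add_card_filter_not (s := Q) (fun y => G.Adj b y)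
  rw [hc.dP b hb, hc.cQ] at h1
  have h2 : ({x, y} : Finset V).card < (Q.filter (fun y => ¬ G.Adj b y)).card := by
    have := card_le_two (a := x) (b := y)
    omega
  obtain ⟨z, hz, hz'⟩ := exists_mem_notMem_of_card_lt_card h2
  obtain ⟨h3, h4⟩ := mem_filter.1 hz
  simp only [mem_insert, mem_singleton, not_or] at hz'
  exact ⟨z, h3, h4, hz'.1, hz'.2⟩

/-- The line through `v2` and `v3`. -/
theorem e2_h {P Q : Finset V} (hc : Copy G P Q)
    (hP : ∀ b ∈ P, ∀ x, G.Adj b x → x ∈ Q) {a b c g s v2 v3 w1 w2 w3 : V}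
    (ha : a ∈ P) (hb : b ∈ P) (hcc : c ∈ P) (hg : g ∈ P) (hab : a ≠ b) (hbc : b ≠ c)
    (hs : s ∈ Q) (hv2 : v2 ∈ Q) (hv3 : v3 ∈ Q) (hw1 : w1 ∈ Q) (hw2 : w2 ∈ Q) (hw3 : w3 ∈ Q)
    (as : ¬ G.Adj a s) (bs : ¬ G.Adj b s) (cs : ¬ G.Adj c s) (gs : G.Adj g s)
    (a3 : ¬ G.Adj a v3) (a3' : ¬ G.Adj a w3) (b2 : ¬ G.Adj b v2) (b2' : ¬ G.Adj b w2)
    (g1 : ¬ G.Adj g w1) (g2 : ¬ G.Adj g w2) (g3 : ¬ G.Adj g w3)
    (s2 : v2 ≠ s) (s3 : v3 ≠ s) (e2 : v2 ≠ w2) (e3 : v3 ≠ w3) (e23 : v2 ≠ v3)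
    (w12 : w1 ≠ w2) (w13 : w1 ≠ w3) (w23 : w2 ≠ w3) :
    ∃ h ∈ P, h ≠ a ∧ h ≠ b ∧ h ≠ c ∧ h ≠ g ∧ ¬ G.Adj h v2 ∧ ¬ G.Adj h v3 ∧ ¬ G.Adj h w1 := by
  obtain ⟨h, hh⟩ := card_eq_one.1 (hc.pQ v2 hv2 v3 hv3 e23)
  have h1 : h ∈ P.filter (fun b => ¬ G.Adj v2 b ∧ ¬ G.Adj v3 b) := by
    rw [hh]
    exact mem_singleton_self h
  obtain ⟨hhP, h2, h3⟩ := mem_filter.1 h1
  have h2' : ¬ G.Adj h v2 := fun k => h2 k.symm
  have h3' : ¬ G.Adj h v3 := fun k => h3 k.symm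
  have na : h ≠ a := by
    rintro rfl
    exact s2 (e2_inter hc hhP hb hab hv2 hs h2' b2 as bs)
  have nb : h ≠ b := by
    rintro rfl
    exact s3 (e2_inter hc ha hhP hab hv3 hs a3 h3' as bs)
  have nc : h ≠ c := by
    rintro rfl
    exact s2 (e2_inter hc hb hhP hbc hv2 hs b2 h2' bs cs)
  have ngb : g ≠ b := by
    rintro rfl
    exact bs gs
  have ng : h ≠ g := by
    rintro rfl
    exact e2 (e2_inter hc hhP hb ngb hv2 hw2 h2' b2 g2 b2')
  obtain ⟨y, hy, hy1, hy2⟩ := e2_meet hc hhP hg ng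
  have h4 := e2_line hc hP hg hw1 hw2 hw3 w12 w13 w23 g1 g2 g3 y
  have h5 : y = w1 ∨ y = w2 ∨ y = w3 := by
    by_contra hcon
    push Not at hcon
    exact hy2 (h4.2 ⟨hy, hcon⟩)
  refine ⟨h, hhP, na, nb, nc, ng, h2', h3', ?_⟩
  rcases h5 with rfl | rfl | rfl
  · exact hy1
  · exact absurd (e2_inter hc hhP hb nb hv2 hy h2' b2 hy1 b2') e2
  · exact absurd (e2_inter hc hhP ha na hv3 hy h3' a3 hy1 a3') e3

theorem e2_full {Q : Finset V} (hQ : Q.card = 7) {x1 x2 x3 x4 x5 x6 x7 : V}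
    (hf : Function.Injective (![x1, x2, x3, x4, x5, x6, x7] : Fin 7 → V))
    (h1 : x1 ∈ Q) (h2 : x2 ∈ Q) (h3 : x3 ∈ Q) (h4 : x4 ∈ Q) (h5 : x5 ∈ Q) (h6 : x6 ∈ Q)
    (h7 : x7 ∈ Q) (x : V) : x ∈ Q ↔ (x = x1 ∨ x = x2 ∨ x = x3 ∨ x = x4 ∨ x = x5 ∨ x = x6 ∨
      x = x7) := by
  constructor
  · intro hx
    have k1 : (univ : Finset (Fin 7)).image (![x1, x2, x3, x4, x5, x6, x7] : Fin 7 → V) ⊆ Q := by
      intro y hy
      obtain ⟨i, -, rfl⟩ := mem_image.1 hy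
      match i with
      | 0 => exact h1
      | 1 => exact h2
      | 2 => exact h3
      | 3 => exact h4
      | 4 => exact h5
      | 5 => exact h6
      | 6 => exact h7
    have k2 := eq_of_subset_of_card_le k1 (by
      rw [card_image_of_injective _ hf, hQ, card_univ, Fintype.card_fin])
    rw [← k2] at hx
    obtain ⟨i, -, hi⟩ := mem_image.1 hx
    match i with
    | 0 => exact Or.inl hi.symm
    | 1 => exact Or.inr (Or.inl hi.symm)
    | 2 => exact Or.inr (Or.inr (Or.inl hi.symm))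
    | 3 => exact Or.inr (Or.inr (Or.inr (Or.inl hi.symm)))
    | 4 => exact Or.inr (Or.inr (Or.inr (Or.inr (Or.inl hi.symm))))
    | 5 => exact Or.inr (Or.inr (Or.inr (Or.inr (Or.inr (Or.inl hi.symm)))))
    | 6 => exact Or.inr (Or.inr (Or.inr (Or.inr (Or.inr (Or.inr hi.symm)))))
  · rintro (rfl | rfl | rfl | rfl | rfl | rfl | rfl) <;> assumption

/-- ROW E2.  A closed copy is the whole graph and `G` is the bipartite complement of the
Heawood graph.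

PROOF.  Use `TD4.iso_explicit` (file TD4/Iso2.lean).  The roles: the vertices `s, v1, v2, v3, w1, w2, w3`
are the elements of `Q`, and `a, b, c, g, h1, h2, h3` those of `P` (`Nb G a v1 w1 v2 w2` etc. are the
full neighbourhoods, by `hP` and `dP`).
Choose any `s ∈ Q`.  Exactly three elements `a, b, c` of `P` are not adjacent to `s` (`dQ`).  Any two
elements of `P` have exactly two common neighbours in `Q` (from `dP`, `pP`, `cQ`:
`4 + 4 - 2 = 6 = 7 - 1`).  The neighbours of `a, b, c` are in the six-element set `Q.erase s`; any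
`y ∈ Q.erase s` is not adjacent to exactly one of `a, b, c` (`pQ` for `s, y`: exactly one `b' ∈ P` is
adjacent to neither `s` nor `y`, and it is one of `a, b, c`), so it is adjacent to exactly two of them: the
classes `a ∩ b = {v1, w1}`, `a ∩ c = {v2, w2}`, `b ∩ c = {v3, w3}` have two elements each
and partition `Q.erase s`.  The other four elements of `P` are adjacent to `s` and to three
more vertices, one in each class (such a vertex `g'` has two common neighbours with each of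
`a, b, c`; if `n1, n2, n3` are the numbers in the three classes, `n1 + n2 = n1 + n3 = n2 + n3 = 2`).
Let `g` be one of the four; name its neighbours `v1, v2, v3` (and the other elements `w1, w2, w3`).
Each of the other three has exactly two common neighbours with `g`, `s` and one `v_i`: so it is adjacent
to `v_i` and to the two `w_j`, `j ≠ i`; call it `h_i`; different ones have different `i` (two with the
same `i` would have four common neighbours).  That is the pattern of `iso_explicit`: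
`g : s v1 v2 v3`, `h1 : s v1 w2 w3`, `h2 : s v2 w1 w3`, `h3 : s v3 w1 w2`.  `blk`: from `hQ` (all
neighbours of elements of `Q` are in `P = {a, b, c, g, h1, h2, h3}`).  Injectivity: `TD4.inj7`. -/
theorem copy_iso (hG : G.Connected) {P Q : Finset V} (hc : Copy G P Q)
    (hP : ∀ b ∈ P, ∀ x, G.Adj b x → x ∈ Q) (hQ : ∀ y ∈ Q, ∀ x, G.Adj y x → x ∈ P) :
    Nonempty (G ≃g TD4.HC) := by
  classical
  obtain ⟨s, hs⟩ := card_pos.1 (show 0 < Q.card by rw [hc.cQ]; norm_num)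
  have h1 := card_filter_add_card_filter_not (s := P) (fun y => G.Adj s y)
  rw [hc.dQ s hs, hc.cP] at h1
  have hsg : (P.filter (fun y => G.Adj s y)).Nonempty := by
    rw [← card_pos, hc.dQ s hs]
    norm_num
  obtain ⟨g, hg'⟩ := hsg
  obtain ⟨hg, hsg⟩ := mem_filter.1 hg'
  obtain ⟨a, b, c, hab, hac, hbc, habc⟩ := card_eq_three.1
    (show (P.filter (fun y => ¬ G.Adj s y)).card = 3 by omega)
  have mem3 : ∀ x, x = a ∨ x = b ∨ x = c → x ∈ P ∧ ¬ G.Adj x s := by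
    intro x hx
    have h2 : x ∈ P.filter (fun y => ¬ G.Adj s y) := by
      rw [habc]
      simp only [mem_insert, mem_singleton]
      exact hx
    exact ⟨(mem_filter.1 h2).1, fun k => (mem_filter.1 h2).2 k.symm⟩
  obtain ⟨ha, as⟩ := mem3 a (Or.inl rfl)
  obtain ⟨hb, bs⟩ := mem3 b (Or.inr (Or.inl rfl))
  obtain ⟨hcc, cs⟩ := mem3 c (Or.inr (Or.inr rfl))
  have gs : G.Adj g s := hsg.symm
  have nag : a ≠ g := by
    rintro rfl
    exact as gs
  have nbg : b ≠ g := by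
    rintro rfl
    exact bs gs
  have ncg : c ≠ g := by
    rintro rfl
    exact cs gs
  obtain ⟨w3, hw3, a3', g3⟩ := e2_meet hc ha hg nag
  obtain ⟨w2, hw2, b2', g2⟩ := e2_meet hc hb hg nbg
  obtain ⟨w1, hw1, c1', g1⟩ := e2_meet hc hcc hg ncg
  obtain ⟨v3, hv3, a3, s3, e3⟩ := e2_third hc ha s w3
  obtain ⟨v2, hv2, b2, s2, e2⟩ := e2_third hc hb s w2
  obtain ⟨v1, hv1, c1, s1, e1⟩ := e2_third hc hcc s w1
  have sw : ∀ w, ¬ G.Adj g w → w ≠ s := by
    rintro w hw rfl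
    exact hw gs
  have sw1 := sw w1 g1
  have sw2 := sw w2 g2
  have sw3 := sw w3 g3
  have dis : ∀ {a' b' x y : V}, a' ∈ P → b' ∈ P → a' ≠ b' → ¬ G.Adj a' s → ¬ G.Adj b' s →
      x ∈ Q → ¬ G.Adj a' x → ¬ G.Adj b' y → x ≠ s → x ≠ y := by
    rintro a' b' x y ha' hb' hne has hbs hx hax hby hxs rfl
    exact hxs (e2_inter hc ha' hb' hne hx hs hax hby has hbs)
  have n21 : v2 ≠ v1 := dis hb hcc hbc bs cs hv2 b2 c1 s2
  have n21' : v2 ≠ w1 := dis hb hcc hbc bs cs hv2 b2 c1' s2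
  have m21 : w2 ≠ v1 := dis hb hcc hbc bs cs hw2 b2' c1 sw2
  have m21' : w2 ≠ w1 := dis hb hcc hbc bs cs hw2 b2' c1' sw2
  have n31 : v3 ≠ v1 := dis ha hcc hac as cs hv3 a3 c1 s3
  have n31' : v3 ≠ w1 := dis ha hcc hac as cs hv3 a3 c1' s3
  have m31 : w3 ≠ v1 := dis ha hcc hac as cs hw3 a3' c1 sw3
  have m31' : w3 ≠ w1 := dis ha hcc hac as cs hw3 a3' c1' sw3
  have n32 : v3 ≠ v2 := dis ha hb hab as bs hv3 a3 b2 s3
  have n32' : v3 ≠ w2 := dis ha hb hab as bs hv3 a3 b2' s3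
  have m32 : w3 ≠ v2 := dis ha hb hab as bs hw3 a3' b2 sw3
  have m32' : w3 ≠ w2 := dis ha hb hab as bs hw3 a3' b2' sw3
  obtain ⟨k1, hk1, k1a, k1b, k1c, k1g, k12, k13, k11⟩ := e2_h hc hP ha hb hcc hg hab hbc hs
    hv2 hv3 hw1 hw2 hw3 as bs cs gs a3 a3' b2 b2' g1 g2 g3 s2 s3 e2 e3 n32.symm
    m21'.symm m31'.symm m32'.symm
  obtain ⟨k2, hk2, k2a, k2c, k2b, k2g, k21, k23, k22⟩ := e2_h hc hP ha hcc hb hg hac hbc.symm hs
    hv1 hv3 hw2 hw1 hw3 as cs bs gs a3 a3' c1 c1' g2 g1 g3 s1 s3 e1 e3 n31.symm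
    m21' m32'.symm m31'.symm
  obtain ⟨k3, hk3, k3b, k3c, k3a, k3g, k31, k32, k33⟩ := e2_h hc hP hb hcc ha hg hbc hac.symm hs
    hv1 hv2 hw3 hw1 hw2 bs cs as gs b2 b2' c1 c1' g3 g1 g2 s1 s2 e1 e2 n21.symm
    m31' m32' m21'.symm
  have d12 : k1 ≠ k2 := by
    rintro rfl
    exact e1 (e2_inter hc hk1 hcc k1c hv1 hw1 k21 c1 k11 c1')
  have d13 : k1 ≠ k3 := by
    rintro rfl
    exact e1 (e2_inter hc hk1 hcc k1c hv1 hw1 k31 c1 k11 c1')
  have d23 : k2 ≠ k3 := by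
    rintro rfl
    exact e2 (e2_inter hc hk2 hb k2b hv2 hw2 k32 b2 k22 b2')
  have ix : Function.Injective (![s, w3, w2, v3, w1, v1, v2] : Fin 7 → V) :=
    TD4.inj7 ⟨sw3.symm, sw2.symm, s3.symm, sw1.symm, s1.symm, s2.symm⟩
      ⟨m32', e3.symm, m31', m31, m32⟩ ⟨n32'.symm, m21', m21, e2.symm⟩ ⟨n31', n31, n32⟩
      ⟨e1.symm, n21'.symm⟩ n21.symm
  have iy : Function.Injective (![a, g, k2, k1, c, k3, b] : Fin 7 → V) :=
    TD4.inj7 ⟨nag, k2a.symm, k1a.symm, hac, k3a.symm, hab⟩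
      ⟨k2g.symm, k1g.symm, ncg.symm, k3g.symm, nbg.symm⟩ ⟨d12.symm, k2c, d23, k2b⟩
      ⟨k1c, d13, k1b⟩ ⟨k3c.symm, hbc.symm⟩ k3b
  have hQ7 := e2_full hc.cQ ix hs hw3 hw2 hv3 hw1 hv1 hv2
  have hP7 := e2_full hc.cP iy ha hg hk2 hk1 hcc hk3 hb
  refine TD4.iso_explicit hG (a := a) (b := b) (c := c) (g := g) (h1 := k1) (h2 := k2) (h3 := k3)
    (s := s) (v1 := v1) (v2 := v2) (v3 := v3) (w1 := w1) (w2 := w2) (w3 := w3) ix iy
    ?_ ?_ ?_ ?_ ?_ ?_ ?_ ?_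
  · intro p
    rw [e2_line hc hP ha hs hw3 hv3 sw3.symm s3.symm e3.symm as a3' a3 p, hQ7 p]
    constructor
    · rintro ⟨q1, q2, q3, q4⟩
      clear * - q1 q2 q3 q4
      tauto
    · rintro (rfl | rfl | rfl | rfl)
      · exact ⟨by simp, s1, m31.symm, n31.symm⟩
      · exact ⟨by simp, sw1, m31'.symm, n31'.symm⟩
      · exact ⟨by simp, s2, m32.symm, n32.symm⟩
      · exact ⟨by simp, sw2, m32'.symm, n32'.symm⟩
  · intro p
    rw [e2_line hc hP hb hs hw2 hv2 sw2.symm s2.symm e2.symm bs b2' b2 p, hQ7 p]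
    constructor
    · rintro ⟨q1, q2, q3, q4⟩
      clear * - q1 q2 q3 q4
      tauto
    · rintro (rfl | rfl | rfl | rfl)
      · exact ⟨by simp, s1, m21.symm, n21.symm⟩
      · exact ⟨by simp, sw1, m21'.symm, n21'.symm⟩
      · exact ⟨by simp, s3, n32', n32⟩
      · exact ⟨by simp, sw3, m32', m32⟩
  · intro p
    rw [e2_line hc hP hcc hs hw1 hv1 sw1.symm s1.symm e1.symm cs c1' c1 p, hQ7 p]
    constructor
    · rintro ⟨q1, q2, q3, q4⟩
      clear * - q1 q2 q3 q4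
      tauto
    · rintro (rfl | rfl | rfl | rfl)
      · exact ⟨by simp, s2, n21', n21⟩
      · exact ⟨by simp, sw2, m21', m21⟩
      · exact ⟨by simp, s3, n31', n31⟩
      · exact ⟨by simp, sw3, m31', m31⟩
  · intro p
    rw [e2_line hc hP hg hw1 hw2 hw3 m21'.symm m31'.symm m32'.symm g1 g2 g3 p, hQ7 p]
    constructor
    · rintro ⟨q1, q2, q3, q4⟩
      clear * - q1 q2 q3 q4
      tauto
    · rintro (rfl | rfl | rfl | rfl)
      · exact ⟨by simp, sw1.symm, sw2.symm, sw3.symm⟩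
      · exact ⟨by simp, e1, m21.symm, m31.symm⟩
      · exact ⟨by simp, n21', e2, m32.symm⟩
      · exact ⟨by simp, n31', n32', e3⟩
  · intro p
    rw [e2_line hc hP hk1 hw1 hv2 hv3 n21'.symm n31'.symm n32.symm k11 k12 k13 p, hQ7 p]
    constructor
    · rintro ⟨q1, q2, q3, q4⟩
      clear * - q1 q2 q3 q4
      tauto
    · rintro (rfl | rfl | rfl | rfl)
      · exact ⟨by simp, sw1.symm, s2.symm, s3.symm⟩
      · exact ⟨by simp, e1, n21.symm, n31.symm⟩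
      · exact ⟨by simp, m21', e2.symm, n32'.symm⟩
      · exact ⟨by simp, m31', m32, e3.symm⟩
  · intro p
    rw [e2_line hc hP hk2 hw2 hv1 hv3 m21 n32'.symm n31.symm k22 k21 k23 p, hQ7 p]
    constructor
    · rintro ⟨q1, q2, q3, q4⟩
      clear * - q1 q2 q3 q4
      tauto
    · rintro (rfl | rfl | rfl | rfl)
      · exact ⟨by simp, sw2.symm, s1.symm, s3.symm⟩
      · exact ⟨by simp, e2, n21, n32.symm⟩
      · exact ⟨by simp, m21'.symm, e1.symm, n31'.symm⟩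
      · exact ⟨by simp, m32', m31, e3.symm⟩
  · intro p
    rw [e2_line hc hP hk3 hw3 hv1 hv2 m31 m32 n21.symm k33 k31 k32 p, hQ7 p]
    constructor
    · rintro ⟨q1, q2, q3, q4⟩
      clear * - q1 q2 q3 q4
      tauto
    · rintro (rfl | rfl | rfl | rfl)
      · exact ⟨by simp, sw3.symm, s1.symm, s2.symm⟩
      · exact ⟨by simp, e3, n31, n32⟩
      · exact ⟨by simp, m31'.symm, e1.symm, n21'.symm⟩
      · exact ⟨by simp, m32'.symm, m21, e2.symm⟩
  · intro p hp x hx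
    have h2 : p ∈ Q := (hQ7 p).2 (by
      clear * - hp
      tauto)
    have h3 := (hP7 x).1 (hQ p h2 x hx)
    clear * - h3
    tauto

end Pool.Agent.TD7
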