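import Pool.Agent.TD7.D0

set_option autoImplicit false
set_option linter.unusedSectionVars false

namespace Pool.Agent.TD7

open Finset Pool.Agent.TD5 Pool.Agent.TD6

variable {ι V : Type*} [DecidableEq ι] [DecidableEq V] {e : ι → Finset V} {W : Finset ι}

theorem e3_cols {e e' : ι → Finset V} {M : Finset ι} (h : ∀ i ∈ M, e' i = e i) {X : Finset ι}
    (hX : X ⊆ M) : cols e' X = cols e X := by
  ext x
  rw [mem_cols, mem_cols]
  constructor
  · rintro ⟨i, hi, hx⟩
    exact ⟨i, hi, by rwa [← h i (hX hi)]⟩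
  · rintro ⟨i, hi, hx⟩
    exact ⟨i, hi, by rwa [h i (hX hi)]⟩

theorem e3_tau {e e' : ι → Finset V} {M : Finset ι} (h : ∀ i ∈ M, e' i = e i) :
    tau e' M = tau e M := by
  have h1 : ∀ D : Finset V, Hits e' D M ↔ Hits e D M := by
    intro D
    constructor
    · intro hD i hi
      obtain ⟨x, hx, hx'⟩ := hD i hi
      exact ⟨x, hx, by rwa [← h i hi]⟩
    · intro hD i hi
      obtain ⟨x, hx, hx'⟩ := hD i hi
      exact ⟨x, hx, by rwa [h i hi]⟩
  unfold tau
  simp only [h1]

theorem e3_conn {e e' : ι → Finset V} {M : Finset ι} (h : ∀ i ∈ M, e' i = e i)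
    (hc : Conn e' M) : Conn e M := by
  intro X hX hne hXM hsep
  refine hc X hX hne hXM ?_
  unfold TD5.Sep at hsep ⊢
  rw [e3_cols h hX, e3_cols h sdiff_subset]
  exact hsep

/-- ROW E3.  Changing one edge of a component of type `FC` destroys it and creates no other.
(Here `V` is any type of vertices.)

PROOF.  Let `e' = Function.update e b (insert w ((e b).erase z))`; all its sizes are 4.  Facts for
`K` (`fc_facts h4 hF`, row D0): every `x ∈ cols e K` is in four edges of `K`; any two edges of `K` have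
two common vertices.
(A) If `M` is closed in `V0` for `e'` (`IsComp e' V0 M`) and contains an element of `K`, then
`K ⊆ M`: `M` contains with `i` every `j ∈ V0` such that `e' i`, `e' j` have a common vertex
(`sep_iff` and `closed`); elements of `K.erase b` have their old edges and pairwise common vertices;
and `e' b` contains the three elements of `(e b).erase z`, each of which lies in some `e c`, `c ∈ K`,
`c ≠ b` (four edges of `K` contain it).
(B) No `M` with `IsComp e' V0 M`, `FC e' M` contains `b`: otherwise `K ⊆ M`, so `M = K` (seven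
elements); `z` is in exactly three edges `e' i`, `i ∈ K` (four for `e`, and not in `e' b`, as `z ≠ w`),
so `z ∈ cols e' K`, contradiction with `fc_facts` for `e'`.
(C) Let `IsComp e' V0 M`, `FC e' M`.  By (B) `b ∉ M`, by (A) `M` is disjoint from `K`.  `e' = e` on
`M`, so `FC e M`, `Conn e M` (`Sep` of subsets of `M`, `cols`, `tau` only depend on `e` on `M`).
`M` is closed for `e`: let `i ∈ M`, `j ∈ V0 \ M`; if `j ≠ b`, `e j = e' j`.  If `j = b`: `(e b).erase z ⊆
e' b` is disjoint from `e i = e' i`; and `z ∉ e i`: some `c ∈ K`, `c ≠ b` has `z ∈ e c = e' c`, and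
`c ∉ M`, so `e' i`, `e' c` are disjoint.  So `IsComp e V0 M`, and `M ≠ K` (`b ∉ M`).
Hence `(comps e' V0).filter FC ⊆ ((comps e V0).filter FC).erase K`, `card_lt`. -/
theorem kf_switch (h4 : ∀ i, (e i).card = 4) {V0 K : Finset ι} (hK : IsComp e V0 K)
    (hF : FC e K) {b : ι} (hb : b ∈ K) {w z : V} (hw : w ∉ e b) (hz : z ∈ e b) :
    kf (Function.update e b (insert w ((e b).erase z))) V0 < kf e V0 := by
  classical
  obtain ⟨f1, f2, f3⟩ := fc_facts h4 hF
  have hzw : z ≠ w := by
    rintro rfl
    exact hw hz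
  have hwe : w ∉ (e b).erase z := fun h => hw (mem_of_mem_erase h)
  obtain ⟨e', he'⟩ : ∃ e', e' = Function.update e b (insert w ((e b).erase z)) := ⟨_, rfl⟩
  rw [← he']
  have heb : e' b = insert w ((e b).erase z) := by
    rw [he', Function.update_self]
  have hei : ∀ i, i ≠ b → e' i = e i := by
    intro i hi
    rw [he', Function.update_of_ne hi]
  have h4' : ∀ i, (e' i).card = 4 := by
    intro i
    by_cases hi : i = b
    · rw [hi, heb, card_insert_of_notMem hwe, card_erase_of_mem hz, h4]
    · rw [hei i hi]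
      exact h4 i
  have hKV : K ⊆ V0 := hK.sub
  -- another edge through a vertex
  have hoth : ∀ x ∈ e b, ∃ c ∈ K, c ≠ b ∧ x ∈ e c := by
    intro x hx
    have h1 := f1 x (sub_cols hb hx)
    have h2 : ((rho e K x).erase b).Nonempty := by
      rw [← card_pos, card_erase_of_mem (mem_rho.2 ⟨hb, hx⟩), h1]
      norm_num
    obtain ⟨c, hc⟩ := h2
    obtain ⟨hc1, hc2⟩ := mem_erase.1 hc
    rw [mem_rho] at hc2
    exact ⟨c, hc2.1, hc1, hc2.2⟩
  obtain ⟨x0, hx0⟩ : ((e b).erase z).Nonempty := by
    rw [← card_pos, card_erase_of_mem hz, h4]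
    norm_num
  have hx0b : x0 ∈ e b := mem_of_mem_erase hx0
  have hx0' : x0 ∈ e' b := by
    rw [heb]
    exact mem_insert_of_mem hx0
  -- closedness
  have hcl : ∀ M, IsComp e' V0 M → ∀ i ∈ M, ∀ j ∈ V0, ∀ x, x ∈ e' i → x ∈ e' j → j ∈ M := by
    intro M hM i hi j hj x hxi hxj
    by_contra hjM
    exact disjoint_left.1 (sep_iff.1 hM.closed i hi j (mem_sdiff.2 ⟨hj, hjM⟩)) hxi hxj
  have hA : ∀ M, IsComp e' V0 M → ∀ k ∈ M, k ∈ K → K ⊆ M := by
    intro M hM k hkM hkK
    obtain ⟨c0, hc0, hc0b, hx0c⟩ := hoth x0 hx0b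
    have s1 : ∃ c ∈ K, c ≠ b ∧ c ∈ M := by
      by_cases hkb : k = b
      · refine ⟨c0, hc0, hc0b, ?_⟩
        refine hcl M hM k hkM c0 (hKV hc0) x0 ?_ ?_
        · rw [hkb]
          exact hx0'
        · rw [hei c0 hc0b]
          exact hx0c
      · exact ⟨k, hkK, hkb, hkM⟩
    obtain ⟨c, hc, hcb, hcM⟩ := s1
    have s2 : ∀ d ∈ K, d ≠ b → d ∈ M := by
      intro d hd hdb
      by_cases hdc : d = c
      · rw [hdc]
        exact hcM
      · have h1 := f3 c hc d hd (Ne.symm hdc)
        have h2 : (e c ∩ e d).Nonempty := by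
          rw [← card_pos, h1]
          norm_num
        obtain ⟨x, hx⟩ := h2
        rw [mem_inter] at hx
        refine hcl M hM c hcM d (hKV hd) x ?_ ?_
        · rw [hei c hcb]
          exact hx.1
        · rw [hei d hdb]
          exact hx.2
    intro d hd
    by_cases hdb : d = b
    · rw [hdb]
      refine hcl M hM c0 (s2 c0 hc0 hc0b) b (hKV hb) x0 ?_ hx0'
      rw [hei c0 hc0b]
      exact hx0c
    · exact s2 d hd hdb
  have hB : ∀ M, IsComp e' V0 M → FC e' M → b ∉ M := by
    intro M hM hFM hbM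
    have h1 := hA M hM b hbM hb
    have h2 : K = M := by
      apply eq_of_subset_of_card_le h1
      rw [hFM.1, hF.1]
    rw [← h2] at hFM
    have hr : rho e' K z = (rho e K z).erase b := by
      ext i
      rw [mem_rho, mem_erase, mem_rho]
      by_cases hib : i = b
      · constructor
        · rintro ⟨_, h3⟩
          rw [hib, heb, mem_insert, mem_erase] at h3
          rcases h3 with h3 | h3
          · exact absurd h3 hzw
          · exact absurd rfl h3.1
        · rintro ⟨h3, _⟩
          exact absurd hib h3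
      · rw [hei i hib]
        tauto
    have h3 : (rho e' K z).card = 3 := by
      rw [hr, card_erase_of_mem (mem_rho.2 ⟨hb, hz⟩), f1 z (sub_cols hb hz)]
    have h5 : z ∈ cols e' K := by
      obtain ⟨c, hc, hcb, hzc⟩ := hoth z hz
      rw [mem_cols]
      refine ⟨c, hc, ?_⟩
      rw [hei c hcb]
      exact hzc
    have h6 := (fc_facts h4' hFM).1 z h5
    omega
  have hC : ∀ M, IsComp e' V0 M → FC e' M → IsComp e V0 M ∧ FC e M ∧ M ≠ K := by
    intro M hM hFM
    have hbM := hB M hM hFM
    have hMK : ∀ k ∈ K, k ∉ M := fun k hk hkM => hbM (hA M hM k hkM hk hb)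
    have hag : ∀ i ∈ M, e' i = e i := by
      intro i hi
      apply hei
      rintro rfl
      exact hbM hi
    refine ⟨⟨hM.sub, hM.ne, ?_, e3_conn hag hM.conn⟩, ⟨hFM.1, ?_, ?_⟩, ?_⟩
    · rw [sep_iff]
      intro i hi j hj
      obtain ⟨hjV, hjM⟩ := mem_sdiff.1 hj
      rw [disjoint_left]
      intro x hxi hxj
      rw [← hag i hi] at hxi
      by_cases hjb : j = b
      · rw [hjb] at hxj
        by_cases hxz : x = z
        · rw [hxz] at hxi
          obtain ⟨c, hc, hcb, hzc⟩ := hoth z hz
          refine hMK c hc (hcl M hM i hi c (hKV hc) z hxi ?_)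
          rw [hei c hcb]
          exact hzc
        · refine hbM (hcl M hM i hi b (hKV hb) x hxi ?_)
          rw [heb]
          exact mem_insert_of_mem (mem_erase.2 ⟨hxz, hxj⟩)
      · refine hjM (hcl M hM i hi j hjV x hxi ?_)
        rw [hei j hjb]
        exact hxj
    · rw [← e3_cols hag (Subset.refl M)]
      exact hFM.2.1
    · rw [← e3_tau hag]
      exact hFM.2.2
    · rintro rfl
      exact hbM hb
  unfold kf
  have hKmem : K ∈ (comps e V0).filter (fun P => FC e P) := mem_filter.2 ⟨mem_comps.2 hK, hF⟩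
  have hsub : (comps e' V0).filter (fun P => FC e' P) ⊆
      ((comps e V0).filter (fun P => FC e P)).erase K := by
    intro M hM
    obtain ⟨h1, h2⟩ := mem_filter.1 hM
    obtain ⟨h3, h5, h6⟩ := hC M (mem_comps.1 h1) h2
    exact mem_erase.2 ⟨h6, mem_filter.2 ⟨mem_comps.2 h3, h5⟩⟩
  have h7 := card_le_card hsub
  rw [card_erase_of_mem hKmem] at h7
  have h8 := card_pos.2 ⟨K, hKmem⟩
  omega

end Pool.Agent.TD7
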