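import Pool.Agent.TD7.DefE
import Pool.Agent.TD7.E3

set_option autoImplicit false
set_option linter.unusedSectionVars false

namespace Pool.Agent.TD7

open Finset Pool.Agent.TD5 Pool.Agent.TD6

variable {V : Type*} [Fintype V] [DecidableEq V] {G : SimpleGraph V} [DecidableRel G.Adj]

/-- ROW E4, first part.  PROOF.  Choose four elements (`exists_subset_card_eq`) of
`V0.filter (G.Adj x)` for `x ∈ V0` and of `G.neighborFinset x` for the others. -/
theorem exists_trim (hd : ∀ x, 4 ≤ G.degree x) {V0 : Finset V}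
    (h0 : ∀ x ∈ V0, 4 ≤ (V0.filter (fun y => G.Adj x y)).card) : ∃ e, Trim G V0 e := by
  have key : ∀ x, ∃ s : Finset V, s.card = 4 ∧ (∀ y ∈ s, G.Adj x y) ∧ (x ∈ V0 → s ⊆ V0) := by
    intro x
    by_cases hx : x ∈ V0
    · obtain ⟨s, hs, hs4⟩ := exists_subset_card_eq (h0 x hx)
      exact ⟨s, hs4, fun y hy => (mem_filter.1 (hs hy)).2, fun _ => hs.trans (filter_subset _ _)⟩
    · have h1 : 4 ≤ (G.neighborFinset x).card := hd x
      obtain ⟨s, hs, hs4⟩ := exists_subset_card_eq h1
      exact ⟨s, hs4, fun y hy => (G.mem_neighborFinset x y).1 (hs hy), fun h => absurd h hx⟩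
  choose e h1 h2 h3 using key
  exact ⟨e, h1, h2, h3⟩

/-- Second part.  PROOF.  Take a trimming with `kf e V0` minimal (`exists_trim`, well-foundedness of `ℕ`, for
example `Nat.find` or `WellFounded.min` on the set of values).  If `w ∉ e b`, take any `z ∈ e b`;
`Function.update e b (insert w ((e b).erase z))` is again a trimming (`w ∈ V0`, `G.Adj b w`,
`b ∈ K ⊆ V0`), and `kf_switch` (row E3) contradicts minimality. -/
theorem exists_tight (hd : ∀ x, 4 ≤ G.degree x) {V0 : Finset V}
    (h0 : ∀ x ∈ V0, 4 ≤ (V0.filter (fun y => G.Adj x y)).card) : ∃ e, Trim G V0 e ∧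
      ∀ K, IsComp e V0 K → FC e K → ∀ b ∈ K, ∀ w ∈ V0, G.Adj b w → w ∈ e b := by
  classical
  obtain ⟨e0, he0⟩ := exists_trim hd h0
  have hex : ∃ n : ℕ, ∃ e, Trim G V0 e ∧ kf e V0 = n := ⟨kf e0 V0, e0, he0, rfl⟩
  obtain ⟨e, hT, hkf⟩ := Nat.find_spec hex
  have hmin : ∀ e', Trim G V0 e' → kf e V0 ≤ kf e' V0 := by
    intro e' he'
    rw [hkf]
    exact Nat.find_min' hex ⟨e', he', rfl⟩
  refine ⟨e, hT, ?_⟩
  intro K hK hF b hb w hw hbw
  by_contra hwe
  obtain ⟨z, hz⟩ : (e b).Nonempty := by
    rw [← card_pos, hT.card]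
    norm_num
  have hbV : b ∈ V0 := hK.sub hb
  have hwz : w ∉ (e b).erase z := fun h => hwe (mem_of_mem_erase h)
  have hT' : Trim G V0 (Function.update e b (insert w ((e b).erase z))) := by
    refine ⟨?_, ?_, ?_⟩
    · intro x
      by_cases hx : x = b
      · rw [hx, Function.update_self, card_insert_of_notMem hwz, card_erase_of_mem hz, hT.card]
      · rw [Function.update_of_ne hx]
        exact hT.card x
    · intro x y hy
      by_cases hx : x = b
      · rw [hx, Function.update_self, mem_insert] at hy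
        rw [hx]
        rcases hy with hy | hy
        · rw [hy]
          exact hbw
        · exact hT.adj b y (mem_of_mem_erase hy)
      · rw [Function.update_of_ne hx] at hy
        exact hT.adj x y hy
    · intro x hxV
      by_cases hx : x = b
      · rw [hx, Function.update_self]
        refine insert_subset hw ?_
        exact (erase_subset _ _).trans (hT.sub b hbV)
      · rw [Function.update_of_ne hx]
        exact hT.sub x hxV
  have h1 := kf_switch hT.card hK hF hb hwe hz
  have h2 := hmin _ hT'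
  omega

end Pool.Agent.TD7
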