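import Pool.Agent.TD7.DefE
import Pool.Agent.TD7.D0

set_option autoImplicit false
set_option linter.unusedSectionVars false

namespace Pool.Agent.TD7

open Finset Pool.Agent.TD5 Pool.Agent.TD6

variable {V : Type*} [Fintype V] [DecidableEq V] {G : SimpleGraph V} [DecidableRel G.Adj]

/-- ROW E5.  A tight component of type `FC` is a copy.  Let `P = K`, `Q = cols e K`.

PROOF.  `K ⊆ V0`, `Q ⊆ V0` (`hT.sub`).  For `b ∈ K`: `e b = V0.filter (G.Adj b)` (tightness,
`hT.adj`), so `Q.filter (G.Adj b) = e b` (four elements: `dP`).  For `y ∈ Q`: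
`P.filter (G.Adj y) = rho e K y` (`y ∈ V0`, `G.Adj y b ↔ G.Adj b y ↔ y ∈ e b`), four elements by
`fc_facts` (row D0).  `pP`: `Q.filter (not adjacent to b, c) = Q \ (e b ∪ e c)`,
`7 - (4 + 4 - 2) = 1` by `fc_facts`.  `pQ`: second claim of `fc_facts`.
Disjointness: suppose `z ∈ K ∩ Q`.  `rho e K z ⊆ e z` (if `z ∈ e x`, `x ∈ K`, then `G.Adj z x`,
`x ∈ V0`, so `x ∈ e z` by tightness of `z`), both have four elements, so `e z = rho e K z ⊆ K`; also
`e z ⊆ Q`.  So `X = K ∩ Q` satisfies `e z ⊆ X` for `z ∈ X`.  If `X ≠ K`, `hK.conn` gives a vertex `y` in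
`e z ∩ e c`, `z ∈ X`, `c ∈ K \ X`; then `y ∈ X`, and `c ∈ rho e K y = e y ⊆ X`, contradiction.  So
`X = K`, `K ⊆ Q`, `K = Q` (seven elements each).  Now take `z ∈ K`; `z ∉ e z`; as `(e z).card = 4` and
`K.card = 7` there is `y ∈ K`, `y ≠ z`, `y ∉ e z`.  Then `z ∉ e y` (symmetry and tightness),
`y ∉ e y`.  So `z` and `y` are both in `Q \ (e z ∪ e y)`, which has one element.  Contradiction.
Last claim: let `x ∈ V0`, `x ∉ K`, `x ∉ Q`.  `e x ⊆ V0`; `e x` is disjoint from `Q` (`K` is closed in `V0`,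
`hK.closed`), and from `K` (if `b ∈ e x ∩ K`, then `G.Adj b x`, so `x ∈ e b ⊆ Q` by tightness).
So the four elements of `e x` are in the filter. -/
theorem copy_of_tight {V0 : Finset V} {e : V → Finset V} (hT : Trim G V0 e) {K : Finset V}
    (hK : IsComp e V0 K) (hF : FC e K)
    (ht : ∀ b ∈ K, ∀ w ∈ V0, G.Adj b w → w ∈ e b) :
    Copy G K (cols e K) ∧ K ⊆ V0 ∧ cols e K ⊆ V0 ∧
      ∀ x ∈ V0 \ (K ∪ cols e K), 4 ≤ ((V0 \ (K ∪ cols e K)).filter (fun y => G.Adj x y)).card := by
  classical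
  obtain ⟨f1, f2, f3⟩ := fc_facts hT.card hF
  have hKV : K ⊆ V0 := hK.sub
  have hQV : cols e K ⊆ V0 := by
    intro y hy
    obtain ⟨b, hb, hyb⟩ := mem_cols.1 hy
    exact hT.sub b (hKV hb) hyb
  have hiff : ∀ b ∈ K, ∀ w ∈ V0, (G.Adj b w ↔ w ∈ e b) := fun b hb w hw =>
    ⟨fun h => ht b hb w hw h, fun h => hT.adj b w h⟩
  have hpP : ∀ b ∈ K, ∀ c ∈ K, b ≠ c →
      ((cols e K).filter (fun y => ¬ G.Adj b y ∧ ¬ G.Adj c y)).card = 1 := by
    intro b hb c hc hbc
    have h1 : (cols e K).filter (fun y => ¬ G.Adj b y ∧ ¬ G.Adj c y) =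
        cols e K \ (e b ∪ e c) := by
      ext y
      rw [mem_filter, mem_sdiff, mem_union]
      constructor
      · rintro ⟨h2, h3, h4⟩
        rw [hiff b hb y (hQV h2)] at h3
        rw [hiff c hc y (hQV h2)] at h4
        tauto
      · rintro ⟨h2, h3⟩
        rw [hiff b hb y (hQV h2), hiff c hc y (hQV h2)]
        tauto
    rw [h1]
    have h2 := card_sdiff_add_card_eq_card (union_subset (sub_cols (e := e) hb) (sub_cols hc))
    have h3 := card_union_add_card_inter (e b) (e c)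
    have h5 := f3 b hb c hc hbc
    have h6 := hF.2.1
    rw [hT.card, hT.card] at h3
    omega
  have hez : ∀ z ∈ K, z ∈ cols e K → e z = rho e K z := by
    intro z hz hzQ
    symm
    apply eq_of_subset_of_card_le
    · intro x hx
      rw [mem_rho] at hx
      exact ht z hz x (hKV hx.1) (hT.adj x z hx.2).symm
    · rw [hT.card, f1 z hzQ]
  have hdis : Disjoint K (cols e K) := by
    by_contra hcon
    rw [not_disjoint_iff] at hcon
    obtain ⟨z, hz, hzQ⟩ := hcon
    have hX : K ∩ cols e K = K := by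
      by_contra hXK
      have h1 := hK.conn (K ∩ cols e K) inter_subset_left ⟨z, mem_inter.2 ⟨hz, hzQ⟩⟩ hXK
      obtain ⟨y, i, hi, j, hj, hyi, hyj⟩ := not_sep h1
      obtain ⟨hiK, hiQ⟩ := mem_inter.1 hi
      obtain ⟨hjK, hjX⟩ := mem_sdiff.1 hj
      have hyK : y ∈ K := by
        rw [hez i hiK hiQ, mem_rho] at hyi
        exact hyi.1
      have hyQ : y ∈ cols e K := sub_cols hiK hyi
      have hjy : j ∈ e y := by
        rw [hez y hyK hyQ, mem_rho]
        exact ⟨hjK, hyj⟩
      exact hjX (mem_inter.2 ⟨hjK, sub_cols hyK hjy⟩)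
    have hKQ : K ⊆ cols e K := by
      intro v hv
      have h1 : v ∈ K ∩ cols e K := by
        rw [hX]
        exact hv
      exact (mem_inter.1 h1).2
    have hirr : ∀ v : V, ¬ G.Adj v v := fun v => G.irrefl
    have h2 : ∃ y ∈ K, y ≠ z ∧ y ∉ e z := by
      by_contra hcon
      push Not at hcon
      have h3 : K ⊆ insert z (e z) := by
        intro y hy
        by_cases hyz : y = z
        · exact mem_insert.2 (Or.inl hyz)
        · exact mem_insert.2 (Or.inr (hcon y hy hyz))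
      have h4 := card_le_card h3
      have h5 := card_insert_le z (e z)
      have h6 := hF.1
      have h7 := hT.card z
      omega
    obtain ⟨y, hy, hyz, hyez⟩ := h2
    have hnzy : ¬ G.Adj z y := by
      rw [hiff z hz y (hKV hy)]
      exact hyez
    have hnyz : ¬ G.Adj y z := fun h => hnzy h.symm
    have h3 := hpP z hz y hy hyz.symm
    have h4 : ({z, y} : Finset V) ⊆ (cols e K).filter (fun x => ¬ G.Adj z x ∧ ¬ G.Adj y x) := by
      intro x hx
      rw [mem_insert, mem_singleton] at hx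
      rcases hx with rfl | rfl
      · exact mem_filter.2 ⟨hzQ, hirr _, hnyz⟩
      · exact mem_filter.2 ⟨hKQ hy, hnzy, hirr _⟩
    have h5 := card_le_card h4
    rw [card_pair hyz.symm, h3] at h5
    omega
  refine ⟨⟨hdis, hF.1, hF.2.1, ?_, ?_, hpP, ?_⟩, hKV, hQV, ?_⟩
  · intro b hb
    have h1 : (cols e K).filter (fun y => G.Adj b y) = e b := by
      ext y
      rw [mem_filter]
      constructor
      · rintro ⟨h2, h3⟩
        exact ht b hb y (hQV h2) h3
      · intro h2
        exact ⟨sub_cols (e := e) hb h2, hT.adj b y h2⟩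
    rw [h1, hT.card]
  · intro y hy
    have h1 : K.filter (fun b => G.Adj y b) = rho e K y := by
      ext b
      rw [mem_filter, mem_rho]
      constructor
      · rintro ⟨h2, h3⟩
        exact ⟨h2, ht b h2 y (hQV hy) h3.symm⟩
      · rintro ⟨h2, h3⟩
        exact ⟨h2, (hT.adj b y h3).symm⟩
    rw [h1, f1 y hy]
  · intro y hy z hz hyz
    have h1 : K.filter (fun b => ¬ G.Adj y b ∧ ¬ G.Adj z b) =
        K.filter (fun i => y ∉ e i ∧ z ∉ e i) := by
      refine filter_congr fun b hb => ?_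
      rw [G.adj_comm y b, G.adj_comm z b, hiff b hb y (hQV hy), hiff b hb z (hQV hz)]
    rw [h1]
    exact f2 y hy z hz hyz
  · intro x hx
    obtain ⟨hxV, hxU⟩ := mem_sdiff.1 hx
    rw [mem_union, not_or] at hxU
    have h1 : e x ⊆ (V0 \ (K ∪ cols e K)).filter (fun y => G.Adj x y) := by
      intro y hy
      have hyV : y ∈ V0 := hT.sub x hxV hy
      have hxy := hT.adj x y hy
      refine mem_filter.2 ⟨mem_sdiff.2 ⟨hyV, ?_⟩, hxy⟩
      rw [mem_union, not_or]
      constructor
      · intro hyK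
        exact hxU.2 (sub_cols hyK (ht y hyK x hxV hxy.symm))
      · intro hyQ
        obtain ⟨c, hc, hyc⟩ := mem_cols.1 hyQ
        exact disjoint_left.1 (sep_iff.1 hK.closed c hc x (mem_sdiff.2 ⟨hxV, hxU.1⟩)) hyc hy
    have h2 := card_le_card h1
    rw [hT.card] at h2
    exact h2

end Pool.Agent.TD7
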