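import Pool.Agent.TD7.E4
import Pool.Agent.TD7.E5

set_option autoImplicit false
set_option linter.unusedSectionVars false

namespace Pool.Agent.TD7

open Finset Pool.Agent.TD5 Pool.Agent.TD6

variable {V : Type*} [Fintype V] [DecidableEq V] {G : SimpleGraph V} [DecidableRel G.Adj]

/-- ROW E6.  Splitting off copies as long as possible.

PROOF.  Strong induction on `V0.card` (generalize `V0`).  Take `e` from `exists_tight` (row E4).  If
`kf e V0 = 0`: `F = ∅`, `V1 = V0`.  Otherwise there is `K` with `IsComp e V0 K`, `FC e K`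
(`kf_eq_zero` contrapositive); `copy_of_tight` (row E5) gives the copy `(K, cols e K)`, and
`V0' = V0 \ (K ∪ cols e K)` satisfies the hypothesis and is smaller.  By induction `F', V1, e'`;
`F = insert (K, cols e K) F'` (`U (K, cols e K) = K ∪ cols e K`). -/
theorem exists_family (hd : ∀ x, 4 ≤ G.degree x) (n : ℕ) : ∀ V0 : Finset V, V0.card = n →
    (∀ x ∈ V0, 4 ≤ (V0.filter (fun y => G.Adj x y)).card) →
    ∃ (F : Finset (Finset V × Finset V)) (V1 : Finset V) (e : V → Finset V),
      (∀ p ∈ F, Copy G p.1 p.2 ∧ U p ⊆ V0) ∧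
      (∀ p ∈ F, ∀ q ∈ F, p ≠ q → Disjoint (U p) (U q)) ∧ V1 ⊆ V0 ∧
      (∀ p ∈ F, Disjoint (U p) V1) ∧ V0 ⊆ V1 ∪ F.biUnion U ∧ Trim G V1 e ∧ kf e V1 = 0 := by
  classical
  induction n using Nat.strong_induction_on with
  | _ n ih =>
    intro V0 hn h0
    obtain ⟨e, hT, ht⟩ := exists_tight hd h0
    by_cases hkf : kf e V0 = 0
    · refine ⟨∅, V0, e, ?_, ?_, Subset.refl _, ?_, ?_, hT, hkf⟩
      · intro p hp
        exact absurd hp (notMem_empty p)
      · intro p hp
        exact absurd hp (notMem_empty p)
      · intro p hp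
        exact absurd hp (notMem_empty p)
      · intro x hx
        exact mem_union_left _ hx
    · obtain ⟨K, hK, hF⟩ : ∃ K, IsComp e V0 K ∧ FC e K := by
        by_contra hcon
        push Not at hcon
        exact hkf (kf_eq_zero hcon)
      obtain ⟨hc, hKV, hQV, hdeg⟩ := copy_of_tight hT hK hF (ht K hK hF)
      have hU : U (K, cols e K) = K ∪ cols e K := rfl
      have hUV : K ∪ cols e K ⊆ V0 := union_subset hKV hQV
      have hlt : (V0 \ (K ∪ cols e K)).card < n := by
        rw [card_sdiff_of_subset hUV, hn]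
        have h1 : 7 ≤ (K ∪ cols e K).card := by
          rw [← hF.1]
          exact card_le_card subset_union_left
        have h2 := card_le_card hUV
        omega
      obtain ⟨F, V1, e', i1, i2, i3, i4, i5, i6, i7⟩ := ih _ hlt (V0 \ (K ∪ cols e K)) rfl hdeg
      have hdisj : ∀ p ∈ F, Disjoint (U (K, cols e K)) (U p) := by
        intro p hp
        rw [disjoint_left]
        intro x hx hx'
        have h1 := (i1 p hp).2 hx'
        exact (mem_sdiff.1 h1).2 hx
      refine ⟨insert (K, cols e K) F, V1, e', ?_, ?_, i3.trans sdiff_subset, ?_, ?_, i6, i7⟩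
      · intro p hp
        rcases mem_insert.1 hp with rfl | hp
        · exact ⟨hc, hUV⟩
        · exact ⟨(i1 p hp).1, (i1 p hp).2.trans sdiff_subset⟩
      · intro p hp q hq hpq
        rcases mem_insert.1 hp with rfl | hp <;> rcases mem_insert.1 hq with rfl | hq
        · exact absurd rfl hpq
        · exact hdisj q hq
        · exact (hdisj p hp).symm
        · exact i2 p hp q hq hpq
      · intro p hp
        rcases mem_insert.1 hp with rfl | hp
        · rw [disjoint_left]
          intro x hx hx'
          exact (mem_sdiff.1 (i3 hx')).2 hx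
        · exact i4 p hp
      · intro x hx
        by_cases hxU : x ∈ K ∪ cols e K
        · refine mem_union_right _ (mem_biUnion.2 ⟨(K, cols e K), mem_insert_self _ _, hxU⟩)
        · rcases mem_union.1 (i5 (mem_sdiff.2 ⟨hx, hxU⟩)) with h | h
          · exact mem_union_left _ h
          · obtain ⟨p, hp, hxp⟩ := mem_biUnion.1 h
            exact mem_union_right _ (mem_biUnion.2 ⟨p, mem_insert_of_mem hp, hxp⟩)

end Pool.Agent.TD7
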