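import Pool.Agent.TD7.E2

set_option autoImplicit false
set_option linter.unusedSectionVars false

namespace Pool.Agent.TD7

open Finset Pool.Agent.TD5 Pool.Agent.TD6

variable {V : Type*} [Fintype V] [DecidableEq V] {G : SimpleGraph V} [DecidableRel G.Adj]

/-- ROW E7, first part.  PROOF.  Otherwise all neighbours of `P` are in `Q` and all neighbours of
`Q` are in `P` (`not_exists`, symmetry), and `copy_iso` (row E2) contradicts `hHC`. -/
theorem attach (hG : G.Connected) (hHC : ¬ Nonempty (G ≃g TD4.HC)) {P Q : Finset V}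
    (hc : Copy G P Q) : ∃ u r, IsAtt G (P, Q) u r := by
  by_contra hcon
  push Not at hcon
  apply hHC
  apply copy_iso hG hc
  · intro b hb x hx
    by_contra hxQ
    exact hcon b x ⟨hx, Or.inr ⟨hb, hxQ⟩⟩
  · intro y hy x hx
    by_contra hxP
    exact hcon y x ⟨hx, Or.inl ⟨hy, hxP⟩⟩

/-- Second part (independent sets of functional graphs).

PROOF.  Strong induction on `S.card`.  `S = ∅`: `A = ∅`.  Otherwise some `k ∈ S` has at most one
`l ∈ S`, `l ≠ k`, with `f l = k` (`∑ k ∈ S, (S.filter (fun l => l ≠ k ∧ f l = k)).card ≤ S.card`, since every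
`l` is counted for at most one `k`; if all terms were `≥ 2` the sum would be `≥ 2 * S.card`).  Let
`S' = S \ ({k, f k} ∪ S.filter (fun l => l ≠ k ∧ f l = k))`; at most three elements are
removed.  `A = insert k A'`. -/
theorem indep {κ : Type*} [DecidableEq κ] (f : κ → κ) (n : ℕ) : ∀ S : Finset κ, S.card = n →
    ∃ A ⊆ S, S.card ≤ 3 * A.card ∧ ∀ k ∈ A, ∀ l ∈ A, f k = l → k = l := by
  induction n using Nat.strong_induction_on with
  | _ n ih =>
  intro S hS
  rcases S.eq_empty_or_nonempty with hemp | hne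
  · subst hemp
    exact ⟨∅, Subset.refl _, by simp, by simp⟩
  obtain ⟨k, hk, hk1⟩ : ∃ k ∈ S, (S.filter (fun l => l ≠ k ∧ f l = k)).card ≤ 1 := by
    by_contra hcon
    push Not at hcon
    have h1 : (S.biUnion fun k => S.filter (fun l => l ≠ k ∧ f l = k)).card
        = ∑ k ∈ S, (S.filter (fun l => l ≠ k ∧ f l = k)).card := by
      apply card_biUnion
      intro a _ b _ hab
      refine disjoint_left.2 ?_
      intro l hl hl'
      exact hab ((mem_filter.1 hl).2.2.symm.trans (mem_filter.1 hl').2.2)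
    have h2 : (S.biUnion fun k => S.filter (fun l => l ≠ k ∧ f l = k)).card ≤ S.card := by
      apply card_le_card
      intro l hl
      obtain ⟨k, _, hl⟩ := mem_biUnion.1 hl
      exact (mem_filter.1 hl).1
    have h3 : ∑ _k ∈ S, 2 ≤ ∑ k ∈ S, (S.filter (fun l => l ≠ k ∧ f l = k)).card :=
      sum_le_sum (fun k hk => hcon k hk)
    rw [sum_const, smul_eq_mul] at h3
    have h4 := hne.card_pos
    omega
  obtain ⟨T, hT⟩ : ∃ T, T = S.filter (fun l => l ≠ k ∧ f l = k) := ⟨_, rfl⟩
  rw [← hT] at hk1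
  obtain ⟨R, hR⟩ : ∃ R, R = insert k (insert (f k) T) := ⟨_, rfl⟩
  have hkR : k ∈ R := by rw [hR]; exact mem_insert_self _ _
  have hRc : R.card ≤ 3 := by
    rw [hR]
    have h1 := card_insert_le k (insert (f k) T)
    have h2 := card_insert_le (f k) T
    omega
  have hlt : (S \ R).card < n := by
    rw [← hS]
    apply card_lt_card
    refine ⟨sdiff_subset, fun h => ?_⟩
    exact (mem_sdiff.1 (h hk)).2 hkR
  obtain ⟨A, hA, hA1, hA2⟩ := ih _ hlt (S \ R) rfl
  have hkA : k ∉ A := fun h => (mem_sdiff.1 (hA h)).2 hkR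
  refine ⟨insert k A, insert_subset hk (hA.trans sdiff_subset), ?_, ?_⟩
  · rw [card_insert_of_notMem hkA]
    have h1 := le_card_sdiff R S
    omega
  · intro a ha l hl hal
    rcases mem_insert.1 ha with ha | ha <;> rcases mem_insert.1 hl with hl | hl
    · rw [ha, hl]
    · exfalso
      apply (mem_sdiff.1 (hA hl)).2
      rw [hR, ← hal, ha]
      exact mem_insert_of_mem (mem_insert_self _ _)
    · exfalso
      apply (mem_sdiff.1 (hA ha)).2
      rw [hR]
      apply mem_insert_of_mem
      apply mem_insert_of_mem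
      rw [hT]
      refine mem_filter.2 ⟨(mem_sdiff.1 (hA ha)).1, fun hak => ?_, hal.trans hl⟩
      rw [hak] at ha
      exact hkA ha
    · exact hA2 a ha l hl hal

end Pool.Agent.TD7
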