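import Pool.Agent.TD7.DefE
import Pool.Agent.TD7.DZ

set_option autoImplicit false
set_option linter.unusedSectionVars false

namespace Pool.Agent.TD7

open Finset Pool.Agent.TD5 Pool.Agent.TD6

variable {V : Type*} [Fintype V] [DecidableEq V] {G : SimpleGraph V} [DecidableRel G.Adj]

/-- ROW E8.  The part without copies.

PROOF.  Let `W1 = V1.filter (fun x => Disjoint (e x) R0)`, `D1` a smallest transversal of `W1`
(`tau_spec`).  `boundF` (file DZ, imported): `78 * D1.card ≤ phi e W1 + 3 * kf e W1`.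
`cols e W1 ⊆ V1 \ R0`, so `(cols e W1).card ≤ V1.card - R0.card`.  `kf e W1 ≤ 4 * (V1 \ W1).card`:
`kf_le` with `S = (V1 \ W1).biUnion e`: a component `M` of `W1` of type `FC` is not a component of
`V1` (`not_fc_of_kf hk`), so it is not closed in `V1` (it is connected, nonempty, `M ⊆ V1`), but
it is closed in `W1`, so some vertex of `cols e M` lies in `e x`, `x ∈ V1 \ W1`.
`phi e W1 ≤ 14 * W1.card + 19 * (V1.card - R0.card)`, so
`78 * D1.card ≤ 14 * W1.card + 19 * V1.card - 19 * R0.card + 12 * (V1.card - W1.card)`.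
Every `x ∈ V1` is in `W1` (then it is hit by `D1`, `hT.adj`) or `e x` contains an element of `R0`. -/
theorem rest_count {V1 : Finset V} {e : V → Finset V} (hT : Trim G V1 e)
    (hk : kf e V1 = 0) {R0 : Finset V} (hR : R0 ⊆ V1) :
    ∃ D1 : Finset V, (∀ x ∈ V1, (∃ y ∈ R0, G.Adj x y) ∨ ∃ y ∈ D1, G.Adj x y) ∧
      78 * D1.card + 19 * R0.card ≤ 33 * V1.card := by
  classical
  have h4 := hT.card
  set W1 := V1.filter (fun x => Disjoint (e x) R0) with hW1
  have hsub : W1 ⊆ V1 := filter_subset _ _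
  obtain ⟨D1, hD, hDc⟩ := tau_spec (ne_of h4) W1
  have hb := boundF h4 W1
  have hcols : cols e W1 ⊆ V1 \ R0 := by
    intro x hx
    obtain ⟨i, hi, hxi⟩ := mem_cols.1 hx
    rw [hW1, mem_filter] at hi
    exact mem_sdiff.2 ⟨hT.sub i hi.1 hxi, fun h => disjoint_left.1 hi.2 hxi h⟩
  have hc1 := card_le_card hcols
  have hc2 := card_sdiff_add_card_eq_card hR
  have hc3 := card_sdiff_add_card_eq_card hsub
  have hkf : kf e W1 ≤ 4 * (V1 \ W1).card := by
    refine (kf_le W1 ((V1 \ W1).biUnion e) ?_).trans ?_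
    · intro P hP hF
      by_contra hcon
      push Not at hcon
      refine not_fc_of_kf hk P ⟨hP.sub.trans hsub, hP.ne, ?_, hP.conn⟩ hF
      rw [sep_iff]
      intro i hi j hj
      obtain ⟨hj1, hj2⟩ := mem_sdiff.1 hj
      by_cases hjW : j ∈ W1
      · exact sep_iff.1 hP.closed i hi j (mem_sdiff.2 ⟨hjW, hj2⟩)
      · refine disjoint_left.2 ?_
        intro x hxi hxj
        exact hcon x (mem_biUnion.2 ⟨j, mem_sdiff.2 ⟨hj1, hjW⟩, hxj⟩) (mem_cols.2 ⟨i, hi, hxi⟩)
    · have := card_biUnion_le_card_mul (V1 \ W1) e 4 (fun x _ => (h4 x).le)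
      omega
  refine ⟨D1, ?_, ?_⟩
  · intro x hx
    by_cases hxW : x ∈ W1
    · obtain ⟨y, hy, hyx⟩ := hD x hxW
      exact Or.inr ⟨y, hy, hT.adj x y hyx⟩
    · left
      have hnd : ¬ Disjoint (e x) R0 := fun h => hxW (mem_filter.2 ⟨hx, h⟩)
      obtain ⟨y, hy, hyR⟩ := not_disjoint_iff.1 hnd
      exact ⟨y, hyR, hT.adj x y hy⟩
  · unfold phi at hb
    rw [← hDc] at hb
    omega

end Pool.Agent.TD7
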