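import Pool.Agent.TD7.E1
import Pool.Agent.TD7.E6
import Pool.Agent.TD7.E7
import Pool.Agent.TD7.E8

set_option autoImplicit false
set_option linter.unusedSectionVars false

namespace Pool.Agent.TD7

open Finset Pool.Agent.TD5 Pool.Agent.TD6

variable {V : Type*} [Fintype V] [DecidableEq V] {G : SimpleGraph V} [DecidableRel G.Adj]

/-- The main theorem for graphs. -/
theorem graph_main (hG : G.Connected) (hd : ∀ x, 4 ≤ G.degree x)
    (hHC : ¬ Nonempty (G ≃g TD4.HC)) :
    ∃ D : Finset V, (∀ x, ∃ y ∈ D, G.Adj x y) ∧ 26 * D.card ≤ 11 * Fintype.card V := by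
  classical
  obtain ⟨F, V1, e, hF, hdis, -, hdV, hcov, hT, hk⟩ := exists_family hd _ univ rfl (by
    intro x _
    have h1 : (univ.filter (fun y => G.Adj x y)) = G.neighborFinset x := by
      ext y
      simp
    rw [h1, SimpleGraph.card_neighborFinset_eq_degree]
    exact hd x)
  -- attachments
  have hatt : ∀ p : Finset V × Finset V, ∃ ur : V × V, p ∈ F → IsAtt G p ur.1 ur.2 := by
    intro p
    by_cases hp : p ∈ F
    · obtain ⟨u, r, h⟩ := attach hG hHC (hF p hp).1
      exact ⟨(u, r), fun _ => h⟩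
    · obtain ⟨v⟩ := hG.nonempty
      exact ⟨(v, v), fun h => absurd h hp⟩
  choose ur hur using hatt
  -- the copy containing the second end
  set f : Finset V × Finset V → Finset V × Finset V := fun p =>
    if h : ∃ q ∈ F, (ur p).2 ∈ U q then h.choose else p with hf
  have hfs : ∀ p, ∀ q ∈ F, (ur p).2 ∈ U q → f p = q := by
    intro p q hq hr
    have hex : ∃ q ∈ F, (ur p).2 ∈ U q := ⟨q, hq, hr⟩
    have h1 : f p = hex.choose := by
      rw [hf]
      simp only
      rw [dif_pos hex]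
    obtain ⟨h2, h3⟩ := hex.choose_spec
    rw [h1]
    by_contra hne
    exact disjoint_left.1 (hdis _ h2 q hq hne) h3 hr
  obtain ⟨A, hAF, hA3, hAi⟩ := indep f _ F rfl
  set R : Finset V := A.image (fun p => (ur p).2) with hR
  have hRc : R.card ≤ A.card := card_image_le
  -- the costs
  have hoff : ∀ p : Finset V × Finset V, ∃ D : Finset V, p ∈ F \ A → D ⊆ U p ∧ R ∩ U p ⊆ D ∧
      (∀ x ∈ U p, ∃ y ∈ D, G.Adj x y) ∧ 78 * D.card ≤ 468 + 56 * (R ∩ U p).card := by
    intro p
    by_cases hp : p ∈ F \ A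
    · obtain ⟨D, h1, h2, h3, h4⟩ := cost_off (hF p (mem_sdiff.1 hp).1).1 R
      exact ⟨D, fun _ => ⟨h1, h2, h3, h4⟩⟩
    · exact ⟨∅, fun h => absurd h hp⟩
  have hon : ∀ p : Finset V × Finset V, ∃ D : Finset V, p ∈ A → D ⊆ U p ∧ R ∩ U p ⊆ D ∧
      (∀ x ∈ U p, x = (ur p).1 ∨ ∃ y ∈ D, G.Adj x y) ∧ D.card ≤ 5 := by
    intro p
    by_cases hp : p ∈ A
    · have hRp : R ∩ (p.1 ∪ p.2) ⊆ {(ur p).2} := by
        intro x hx
        obtain ⟨hx1, hx2⟩ := mem_inter.1 hx
        obtain ⟨q, hq, rfl⟩ := mem_image.1 hx1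
        have h1 : f q = p := hfs q p (hAF hp) hx2
        have h2 : q = p := hAi q hq p hp h1
        rw [h2]
        exact mem_singleton_self _
      obtain ⟨D, h1, h2, h3, h4⟩ := cost_on (hF p (hAF hp)).1 (hur p (hAF hp)) hRp
      exact ⟨D, fun _ => ⟨h1, h2, h3, h4⟩⟩
    · exact ⟨∅, fun h => absurd h hp⟩
  choose D0 hD0 using hoff
  choose D2 hD2 using hon
  obtain ⟨D1, hD1, hD1c⟩ := rest_count hT hk (R0 := R ∩ V1) inter_subset_right
  set D : Finset V := (R ∩ V1) ∪ D1 ∪ (F \ A).biUnion D0 ∪ A.biUnion D2 with hD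
  have hUcov : ∀ x : V, x ∈ V1 ∨ ∃ p ∈ F, x ∈ U p := by
    intro x
    rcases mem_union.1 (hcov (mem_univ x)) with h | h
    · exact Or.inl h
    · obtain ⟨p, hp, hx⟩ := mem_biUnion.1 h
      exact Or.inr ⟨p, hp, hx⟩
  have hRD : R ⊆ D := by
    intro x hx
    rcases hUcov x with h | ⟨p, hp, hxp⟩
    · rw [hD]
      exact mem_union_left _ (mem_union_left _ (mem_union_left _ (mem_inter.2 ⟨hx, h⟩)))
    · by_cases hpA : p ∈ A
      · rw [hD]
        exact mem_union_right _ (mem_biUnion.2 ⟨p, hpA, (hD2 p hpA).2.1 (mem_inter.2 ⟨hx, hxp⟩)⟩)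
      · have hpF : p ∈ F \ A := mem_sdiff.2 ⟨hp, hpA⟩
        rw [hD]
        exact mem_union_left _ (mem_union_right _
          (mem_biUnion.2 ⟨p, hpF, (hD0 p hpF).2.1 (mem_inter.2 ⟨hx, hxp⟩)⟩))
  refine ⟨D, ?_, ?_⟩
  · intro x
    rcases hUcov x with h | ⟨p, hp, hxp⟩
    · rcases hD1 x h with ⟨y, hy, hxy⟩ | ⟨y, hy, hxy⟩
      · exact ⟨y, hRD (mem_inter.1 hy).1, hxy⟩
      · refine ⟨y, ?_, hxy⟩
        rw [hD]
        exact mem_union_left _ (mem_union_left _ (mem_union_right _ hy))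
    · by_cases hpA : p ∈ A
      · rcases (hD2 p hpA).2.2.1 x hxp with h | ⟨y, hy, hxy⟩
        · refine ⟨(ur p).2, hRD (mem_image.2 ⟨p, hpA, rfl⟩), ?_⟩
          rw [h]
          exact (hur p hp).1
        · refine ⟨y, ?_, hxy⟩
          rw [hD]
          exact mem_union_right _ (mem_biUnion.2 ⟨p, hpA, hy⟩)
      · have hpF : p ∈ F \ A := mem_sdiff.2 ⟨hp, hpA⟩
        obtain ⟨y, hy, hxy⟩ := (hD0 p hpF).2.2.1 x hxp
        refine ⟨y, ?_, hxy⟩
        rw [hD]
        exact mem_union_left _ (mem_union_right _ (mem_biUnion.2 ⟨p, hpF, hy⟩))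
  · -- the count
    have c1 : D.card ≤ (R ∩ V1).card + D1.card + ∑ p ∈ F \ A, (D0 p).card + 5 * A.card := by
      have h1 : D.card ≤ ((R ∩ V1) ∪ D1 ∪ (F \ A).biUnion D0).card + (A.biUnion D2).card :=
        card_union_le _ _
      have h2 := card_union_le ((R ∩ V1) ∪ D1) ((F \ A).biUnion D0)
      have h3 := card_union_le (R ∩ V1) D1
      have h4 : ((F \ A).biUnion D0).card ≤ ∑ p ∈ F \ A, (D0 p).card := card_biUnion_le
      have h5 : (A.biUnion D2).card ≤ A.card * 5 :=
        card_biUnion_le_card_mul _ _ _ (fun p hp => (hD2 p hp).2.2.2)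
      omega
    have c2 : 78 * ∑ p ∈ F \ A, (D0 p).card ≤ 468 * (F \ A).card +
        56 * ∑ p ∈ F \ A, (R ∩ U p).card := by
      rw [mul_sum, mul_sum]
      have h1 : ∑ p ∈ F \ A, 78 * (D0 p).card ≤ ∑ p ∈ F \ A, (468 + 56 * (R ∩ U p).card) :=
        sum_le_sum (fun p hp => (hD0 p hp).2.2.2)
      rw [sum_add_distrib, sum_const, smul_eq_mul] at h1
      omega
    have c3 : (R ∩ V1).card + ∑ p ∈ F \ A, (R ∩ U p).card ≤ R.card := by
      have h1 : ((F \ A).biUnion (fun p => R ∩ U p)).card = ∑ p ∈ F \ A, (R ∩ U p).card := by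
        apply card_biUnion
        intro p hp q hq hne
        exact disjoint_of_subset_left inter_subset_right (disjoint_of_subset_right
          inter_subset_right (hdis p (mem_sdiff.1 hp).1 q (mem_sdiff.1 hq).1 hne))
      rw [← h1, ← card_union_of_disjoint]
      · apply card_le_card
        apply union_subset inter_subset_left
        exact biUnion_subset.2 (fun p _ => inter_subset_left)
      · refine disjoint_left.2 ?_
        intro x hx hx'
        obtain ⟨p, hp, hxp⟩ := mem_biUnion.1 hx'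
        exact disjoint_left.1 (hdV p (mem_sdiff.1 hp).1) (mem_inter.1 hxp).2 (mem_inter.1 hx).2
    have c4 : V1.card + 14 * F.card ≤ Fintype.card V := by
      have h1 : (F.biUnion U).card = ∑ p ∈ F, (U p).card := by
        apply card_biUnion
        intro p hp q hq hne
        exact hdis p hp q hq hne
      have h2 : ∑ p ∈ F, (U p).card = ∑ p ∈ F, 14 := by
        apply sum_congr rfl
        intro p hp
        have h3 := (hF p hp).1
        unfold U
        rw [card_union_of_disjoint h3.dis, h3.cP, h3.cQ]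
      rw [sum_const, smul_eq_mul] at h2
      have h3 : Disjoint V1 (F.biUnion U) := by
        refine disjoint_left.2 ?_
        intro x hx hx'
        obtain ⟨p, hp, hxp⟩ := mem_biUnion.1 hx'
        exact disjoint_left.1 (hdV p hp) hxp hx
      have h4 := card_le_univ (V1 ∪ F.biUnion U)
      rw [card_union_of_disjoint h3] at h4
      omega
    have c5 := card_sdiff_add_card_eq_card hAF
    omega

end Pool.Agent.TD7
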