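import Pool.Agent.TD7.DefB
import Pool.Agent.TD7.A15

set_option autoImplicit false
set_option linter.unusedSectionVars false

namespace Pool.Agent.TD7

open Finset Pool.Agent.TD5 Pool.Agent.TD6

variable {ι V : Type*} [DecidableEq ι] [DecidableEq V] {e : ι → Finset V} {W : Finset ι}

/-! ROW G0: small tools for the local situation (pure combinatorics). -/

/-- PROOF.  `K` has six elements; choose `y ∈ K` different from `x` and `par x`. -/
theorem covS_of_mem {K : Finset V} {par : V → V} (hP : Par6 K par) {Cc : ι → Finset V}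
    {S : Finset ι} {x : V} (hx : x ∈ K) (h : ∀ t ∈ S, x ∈ Cc t) : CovS K par Cc S := by
  have h1 := card_erase_add_one hx
  have h2 := hP.card
  have h3 := pred_card_le_card_erase (s := K.erase x) (a := par x)
  obtain ⟨y, hy⟩ : ((K.erase x).erase (par x)).Nonempty := card_pos.1 (by omega)
  obtain ⟨h4, h5⟩ := mem_erase.1 hy
  obtain ⟨h6, h7⟩ := mem_erase.1 h5
  exact ⟨x, hx, y, h7, h6, h4, fun t ht => Or.inl (h t ht)⟩

/-- PROOF.  `exists_subsuperset_card_eq` (or: if `(insert v A).card = 3` take `g = insert v A`;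
otherwise `(insert v A).card ≥ 4` and there is a set of four elements between `{v}` and
`insert v A`). -/
theorem trim {A : Finset V} {v : V} (hA : 2 ≤ A.card) (hv : v ∉ A) : ∃ g : Finset V, v ∈ g ∧
    g ⊆ insert v A ∧ ((g.card = 3 ∧ g = insert v A) ∨ g.card = 4) := by
  have h1 := card_insert_of_notMem hv
  by_cases h2 : A.card = 2
  · exact ⟨insert v A, mem_insert_self v A, Subset.refl _, Or.inl ⟨by omega, rfl⟩⟩
  · obtain ⟨g, h3, h4, h5⟩ := exists_subsuperset_card_eq (s := {v}) (t := insert v A) (n := 4)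
      (singleton_subset_iff.2 (mem_insert_self v A)) (by rw [card_singleton]; omega) (by omega)
    exact ⟨g, h3 (mem_singleton_self v), h4, Or.inr h5⟩

/-- If `D` avoids `v` and meets `g ⊆ insert v A`, it meets `A`. -/
theorem meets_of {A g D : Finset V} {v : V} (hg : g ⊆ insert v A) (hv : v ∉ D)
    (h : ∃ x ∈ D, x ∈ g) : ∃ x ∈ D, x ∈ A := by
  obtain ⟨x, hx, hxg⟩ := h
  refine ⟨x, hx, ?_⟩
  rcases mem_insert.1 (hg hxg) with h1 | h1
  · subst h1
    exact absurd hx hv
  · exact h1

/-- PROOF.  `hL.c3 s hs u hu`: the set `T.filter (fun t => u ∉ O t)` is contained in `T.erase s`;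
so if `CovS` held for `T.erase s`, it would hold for this set (`CovS.mono`). -/
theorem Loc.empty_of {T : Finset ι} {K : Finset V} {par : V → V} {v : V}
    {Cc O : ι → Finset V} (hL : Loc T K par v Cc O) {s : ι} (hs : s ∈ T) {S : Finset ι}
    (hS : ∀ t ∈ T, t ≠ s → t ∈ S) (hcov : CovS K par Cc S) : O s = ∅ := by
  by_contra hne
  obtain ⟨u, hu⟩ := nonempty_iff_ne_empty.2 hne
  refine hL.c3 s hs u hu (hcov.mono ?_)
  intro t ht
  obtain ⟨h1, h2⟩ := mem_filter.1 ht
  apply hS t h1
  rintro rfl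
  exact h2 hu

/-- `T` itself is not covered.  PROOF.  By `hL.two` some `t ∈ T` has `u ∈ O t`; `c3` and `CovS.mono`. -/
theorem Loc.not_all {T : Finset ι} {K : Finset V} {par : V → V} {v : V}
    {Cc O : ι → Finset V} (hL : Loc T K par v Cc O) : ¬ CovS K par Cc T := by
  intro hcov
  have h1 := hL.two
  obtain ⟨t, ht⟩ : (T.filter (fun t => (O t).Nonempty)).Nonempty := card_pos.1 (by omega)
  obtain ⟨h2, u, hu⟩ := mem_filter.1 ht
  exact hL.c3 t h2 u hu (hcov.mono (filter_subset _ _))

/-- PROOF.  Three different elements of `T` with `x ∈ Cc` contradict `hL.deg x`. -/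
theorem Loc.not_three {T : Finset ι} {K : Finset V} {par : V → V} {v : V}
    {Cc O : ι → Finset V} (hL : Loc T K par v Cc O) {p q r : ι} (hp : p ∈ T) (hq : q ∈ T)
    (hr : r ∈ T) (hpq : p ≠ q) (hpr : p ≠ r) (hqr : q ≠ r) {x : V} (hxp : x ∈ Cc p)
    (hxq : x ∈ Cc q) : x ∉ Cc r := by
  intro hxr
  have h1 := hL.deg x (hL.sub p hp hxp)
  have h2 : ({p, q, r} : Finset ι) ⊆ T.filter (fun t => x ∈ Cc t) := by
    intro i hi
    rw [mem_filter]
    simp only [mem_insert, mem_singleton] at hi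
    rcases hi with rfl | rfl | rfl
    · exact ⟨hp, hxp⟩
    · exact ⟨hq, hxq⟩
    · exact ⟨hr, hxr⟩
  have h3 := card_le_card h2
  have h4 : ({p, q, r} : Finset ι).card = 3 := card_eq_three.2 ⟨p, q, r, hpq, hpr, hqr, rfl⟩
  omega

end Pool.Agent.TD7
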