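import Pool.Agent.TD7.G0

set_option autoImplicit false
set_option linter.unusedSectionVars false

namespace Pool.Agent.TD7

open Finset Pool.Agent.TD5 Pool.Agent.TD6

variable {ι V : Type*} [DecidableEq ι] [DecidableEq V] {e : ι → Finset V} {W : Finset ι}

/-- ROW G1 (pure combinatorics; all rows G use the tools of G0 and `covS_pair` of A15).
Exactly two of the four edges meet the double triangle.

PROOF.  `(O r).card = (O s).card = 3` (`hL.sum`).  Put `g r = insert v (O r)`,
`g s = insert v (O s)` (four elements: `hL.notv`).
Case `CovS K par Cc {p, q}`: `J = {r, s}`; weights `5 + 5 ≤ 16`; `cov`: if `D` avoids `v` and meets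
`g r`, `g s`, it meets `O r` and `O s` (`meets_of`), so the filter is contained in `{p, q}`
(`CovS.mono`).
Case not covered: `covS_pair` gives `Cc p = {x}`, `Cc q = {par x}`, so
`(O p).card = (O q).card = 2`.  `J = {r, s, p}`, `g p` from `trim` for `A = O p ∪ O q`.  `cov`: `D`
meets `O r`, `O s` and `O p ∪ O q`, so the filter is contained in `{p}` or in `{q}`
(`covS_of_mem`).  If `(g p).card = 4` the sum is `15 ≤ 16`.  If `(g p).card = 3`, `g p = insert v A`,
the sum is `19`, and all `O t ⊆ J.biUnion g`: third alternative of `GoodG`.
(Define `g := fun j => if j = r then .. else if j = s then .. else ..`.) -/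
theorem good2 {T : Finset ι} {K : Finset V} {par : V → V} {v : V} {Cc O : ι → Finset V}
    (hL : Loc T K par v Cc O) {p q r s : ι} (hpq : p ≠ q) (hpr : p ≠ r) (hps : p ≠ s)
    (hqr : q ≠ r) (hqs : q ≠ s) (hrs : r ≠ s) (hT : T = {p, q, r, s})
    (hp : (Cc p).Nonempty) (hq : (Cc q).Nonempty) (hr : Cc r = ∅) (hs : Cc s = ∅) :
    GoodG T K par v Cc O := by
  have hpT : p ∈ T := by rw [hT]; simp
  have hqT : q ∈ T := by rw [hT]; simp
  have hrT : r ∈ T := by rw [hT]; simp
  have hsT : s ∈ T := by rw [hT]; simp
  have hOr : (O r).card = 3 := by
    have := hL.sum r hrT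
    rw [hr, card_empty] at this
    omega
  have hOs : (O s).card = 3 := by
    have := hL.sum s hsT
    rw [hs, card_empty] at this
    omega
  have hgr : (insert v (O r)).card = 4 := by
    rw [card_insert_of_notMem (hL.notv r hrT), hOr]
  have hgs : (insert v (O s)).card = 4 := by
    rw [card_insert_of_notMem (hL.notv s hsT), hOs]
  have hsubT : ∀ t ∈ T, insert v (O t) ⊆ insert v (T.biUnion O) := by
    intro t ht
    apply insert_subset_insert
    intro x hx
    exact mem_biUnion.2 ⟨t, ht, hx⟩
  -- an element of the filter is different from a met edge
  have hne : ∀ (D : Finset V) (t₀ t : ι), (∃ x ∈ D, x ∈ O t₀) → (∀ x ∈ D, x ∉ O t) → t ≠ t₀ := by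
    rintro D t₀ t ⟨x, hx, hx'⟩ h1 rfl
    exact h1 x hx hx'
  rcases covS_pair hL.par6 hp hq (hL.sub p hpT) (hL.sub q hqT) with hc | ⟨x, hxK, hxp, hxq⟩
  · -- first case
    set g : ι → Finset V := fun j => if j = r then insert v (O r) else insert v (O s) with hg
    have g1 : g r = insert v (O r) := by simp [hg]
    have g2 : g s = insert v (O s) := by simp [hg, hrs.symm]
    refine ⟨{r, s}, g, ?_, Or.inl ?_⟩
    · refine ⟨?_, ?_, ?_, ?_, ?_⟩
      · intro j hj
        rcases mem_insert.1 hj with rfl | hj
        · exact hrT
        · rw [mem_singleton.1 hj]; exact hsT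
      · intro j hj
        rcases mem_insert.1 hj with rfl | hj
        · rw [g1]; exact Or.inr hgr
        · rw [mem_singleton.1 hj, g2]; exact Or.inr hgs
      · intro j hj
        rcases mem_insert.1 hj with rfl | hj
        · rw [g1]; exact mem_insert_self _ _
        · rw [mem_singleton.1 hj, g2]; exact mem_insert_self _ _
      · intro j hj
        rcases mem_insert.1 hj with rfl | hj
        · rw [g1]; exact hsubT _ hrT
        · rw [mem_singleton.1 hj, g2]; exact hsubT _ hsT
      · intro D hvD hD
        have m1 := hD r (mem_insert_self _ _)
        have m2 := hD s (mem_insert_of_mem (mem_singleton_self _))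
        rw [g1] at m1
        rw [g2] at m2
        have m1' := meets_of (Subset.refl _) hvD m1
        have m2' := meets_of (Subset.refl _) hvD m2
        refine hc.mono ?_
        intro t ht
        obtain ⟨ht1, ht2⟩ := mem_filter.1 ht
        have n1 := hne D r t m1' ht2
        have n2 := hne D s t m2' ht2
        rw [hT] at ht1
        simp only [mem_insert, mem_singleton] at ht1 ⊢
        tauto
    · rw [sum_pair hrs, g1, g2]
      unfold gw
      rw [if_pos hgr, if_pos hgs]
      norm_num
  · -- second case
    have hOp : (O p).card = 2 := by
      have := hL.sum p hpT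
      rw [hxp, card_singleton] at this
      omega
    have hA : 2 ≤ (O p ∪ O q).card := by
      have := card_le_card (subset_union_left (s₁ := O p) (s₂ := O q))
      omega
    have hvA : v ∉ O p ∪ O q := by
      rw [mem_union, not_or]
      exact ⟨hL.notv p hpT, hL.notv q hqT⟩
    obtain ⟨gp, hgv, hgsub, hgc⟩ := trim hA hvA
    set g : ι → Finset V := fun j => if j = r then insert v (O r) else
      if j = s then insert v (O s) else gp with hg
    have g1 : g r = insert v (O r) := by simp [hg]
    have g2 : g s = insert v (O s) := by simp [hg, hrs.symm]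
    have g3 : g p = gp := by simp [hg, hpr, hps]
    have hsum : ∑ j ∈ ({r, s, p} : Finset ι), gw (g j) = 10 + gw gp := by
      rw [sum_insert (by simp [hrs, hpr.symm]), sum_pair hps.symm, g1, g2, g3]
      unfold gw
      rw [if_pos hgr, if_pos hgs]
      ring
    have hGad : Gad T K par v Cc O {r, s, p} g := by
      refine ⟨?_, ?_, ?_, ?_, ?_⟩
      · intro j hj
        simp only [mem_insert, mem_singleton] at hj
        rcases hj with rfl | rfl | rfl
        · exact hrT
        · exact hsT
        · exact hpT
      · intro j hj
        simp only [mem_insert, mem_singleton] at hj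
        rcases hj with rfl | rfl | rfl
        · rw [g1]; exact Or.inr hgr
        · rw [g2]; exact Or.inr hgs
        · rw [g3]
          rcases hgc with h | h
          · exact Or.inl h.1
          · exact Or.inr h
      · intro j hj
        simp only [mem_insert, mem_singleton] at hj
        rcases hj with rfl | rfl | rfl
        · rw [g1]; exact mem_insert_self _ _
        · rw [g2]; exact mem_insert_self _ _
        · rw [g3]; exact hgv
      · intro j hj
        simp only [mem_insert, mem_singleton] at hj
        rcases hj with rfl | rfl | rfl
        · rw [g1]; exact hsubT _ hrT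
        · rw [g2]; exact hsubT _ hsT
        · rw [g3]
          refine hgsub.trans (insert_subset_insert _ ?_)
          intro y hy
          rcases mem_union.1 hy with hy | hy
          · exact mem_biUnion.2 ⟨_, hpT, hy⟩
          · exact mem_biUnion.2 ⟨_, hqT, hy⟩
      · intro D hvD hD
        have m1 := hD r (by simp)
        have m2 := hD s (by simp)
        have m3 := hD p (by simp)
        rw [g1] at m1
        rw [g2] at m2
        rw [g3] at m3
        have m1' := meets_of (Subset.refl _) hvD m1
        have m2' := meets_of (Subset.refl _) hvD m2
        obtain ⟨y, hyD, hy⟩ := meets_of hgsub hvD m3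
        rcases mem_union.1 hy with hy | hy
        · refine covS_of_mem hL.par6 (hL.par6.mem x hxK) ?_
          intro t ht
          obtain ⟨ht1, ht2⟩ := mem_filter.1 ht
          have n1 := hne D r t m1' ht2
          have n2 := hne D s t m2' ht2
          have n3 := hne D p t ⟨y, hyD, hy⟩ ht2
          rw [hT] at ht1
          simp only [mem_insert, mem_singleton] at ht1
          have h4 : t = q := by tauto
          rw [h4, hxq]
          exact mem_singleton_self _
        · refine covS_of_mem hL.par6 hxK ?_
          intro t ht
          obtain ⟨ht1, ht2⟩ := mem_filter.1 ht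
          have n1 := hne D r t m1' ht2
          have n2 := hne D s t m2' ht2
          have n3 := hne D q t ⟨y, hyD, hy⟩ ht2
          rw [hT] at ht1
          simp only [mem_insert, mem_singleton] at ht1
          have h4 : t = p := by tauto
          rw [h4, hxp]
          exact mem_singleton_self _
    refine ⟨{r, s, p}, g, hGad, ?_⟩
    rcases hgc with ⟨h3, hA3⟩ | h4
    · right; right
      refine ⟨?_, ⟨p, by simp, by rw [g3]; exact h3⟩, ?_⟩
      · rw [hsum]
        unfold gw
        rw [if_neg (by omega)]
      · intro t ht y hy
        rw [mem_biUnion]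
        rw [hT] at ht
        simp only [mem_insert, mem_singleton] at ht
        rcases ht with h | h | h | h
        · rw [h] at hy
          refine ⟨p, by simp, ?_⟩
          rw [g3, hA3]
          exact mem_insert_of_mem (mem_union_left _ hy)
        · rw [h] at hy
          refine ⟨p, by simp, ?_⟩
          rw [g3, hA3]
          exact mem_insert_of_mem (mem_union_right _ hy)
        · rw [h] at hy
          refine ⟨r, by simp, ?_⟩
          rw [g1]
          exact mem_insert_of_mem hy
        · rw [h] at hy
          refine ⟨s, by simp, ?_⟩
          rw [g2]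
          exact mem_insert_of_mem hy
    · left
      rw [hsum]
      unfold gw
      rw [if_pos h4]
      norm_num

end Pool.Agent.TD7
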